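import Pool.Agent.H110R3.BP2.Defs

/-!
Plane graphs which become bipartite after deleting a vertex: all proofs.
-/

set_option autoImplicit false
set_option linter.unusedVariables false

namespace Pool.Agent.H110R3.BP2

section
open Polynomial Pool.Agent.H207R2.BL Pool.Agent.H110R3.BP

theorem hgt_zero (n : ℕ) (s : Fin (2 * n + 2) → Bool) : hgt n s 0 = 1 := by
  simp [hgt]

theorem hgt_succ (n : ℕ) (s : Fin (2 * n + 2) → Bool) (j : ℕ) :
    hgt n s (j + 1) = hgt n s j + (if s (st n j) then 1 else -1) := by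
  unfold hgt
  rw [Finset.sum_range_succ]
  ring

end

section
open Polynomial Pool.Agent.H207R2.BL Pool.Agent.H110R3.BP

theorem nf1 (M m : ℕ) (hm : m < M) (w : List ℕ) (hw : ∀ j ∈ w, 1 ≤ j ∧ j ≤ m) : NF1 M m w := by
  induction m generalizing w with
  | zero =>
    have hw0 : w = [] := by
      rcases w with _ | ⟨i, w⟩
      · rfl
      · exact absurd (hw i List.mem_cons_self) (by omega)
    subst hw0
    exact ⟨0, Or.inl ⟨[], by simp, by intro q A _ _ S; simp⟩⟩
  | succ m ihm =>
    induction w with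
    | nil => exact ⟨0, Or.inl ⟨[], by simp, by intro q A _ _ S; simp⟩⟩
    | cons j w ih =>
      have hj : j ≤ m + 1 := (hw j List.mem_cons_self).2
      have hj0 : 1 ≤ j := (hw j List.mem_cons_self).1
      obtain ⟨a, h | h⟩ := ih (fun i hi => hw i (List.mem_cons_of_mem _ hi))
      · obtain ⟨w', hw', h⟩ := h
        rcases Nat.lt_or_ge j (m + 1) with hj1 | hj1
        · refine ⟨a, Or.inl ⟨j :: w', ?_, ?_⟩⟩
          · intro i hi
            rcases List.mem_cons.1 hi with rfl | hi
            · exact ⟨hj0, hj1⟩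
            · exact hw' i hi
          · intro q A _ _ S
            rw [TL.W_cons, h q A S, TL.W_cons, mul_smul_comm]
        · have hj2 : j = m + 1 := le_antisymm hj hj1
          subst hj2
          refine ⟨a, Or.inr ⟨[], w', by simp, hw', ?_⟩⟩
          intro q A _ _ S
          rw [TL.W_cons, h q A S]
          simp
      · obtain ⟨x, y, hx, hy, h⟩ := h
        rcases Nat.lt_or_ge j (m + 1) with hj1 | hj1
        · refine ⟨a, Or.inr ⟨j :: x, y, ?_, hy, ?_⟩⟩
          · intro i hi
            rcases List.mem_cons.1 hi with rfl | hi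
            · exact ⟨hj0, hj1⟩
            · exact hx i hi
          · intro q A _ _ S
            rw [TL.W_cons, h q A S, TL.W_cons, mul_smul_comm]
            simp only [mul_assoc]
        · have hj2 : j = m + 1 := le_antisymm hj hj1
          subst hj2
          obtain ⟨b, h' | h'⟩ := ihm (by omega) x (fun i hi => ⟨(hx i hi).1, Nat.lt_succ_iff.1 (hx i hi).2⟩)
          · obtain ⟨x', hx', h'⟩ := h'
            refine ⟨a + b + (if Even (m + 1) then 1 else 0), Or.inr ⟨x', y, ?_, hy, ?_⟩⟩
            · intro i hi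
              exact ⟨(hx' i hi).1, (hx' i hi).2.trans (Nat.lt_succ_self m)⟩
            · intro q A _ _ S
              have hc := S.W_comm (m + 1) hm x' (fun i hi => by have := hx' i hi; omega)
              have h2 := S.sq (m + 1) hm
              rw [TL.W_cons, h q A S, h' q A S]
              calc S.e (m + 1) * q ^ a • (q ^ b • S.W x' * S.e (m + 1) * S.W y)
                  = (q ^ a * q ^ b) • ((S.e (m + 1) * S.W x') * S.e (m + 1) * S.W y) := by
                    simp only [smul_mul_assoc, mul_smul_comm, smul_smul, mul_assoc]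
                _ = (q ^ a * q ^ b) • (S.W x' * (S.e (m + 1) * S.e (m + 1)) * S.W y) := by
                    rw [← hc]; simp only [mul_assoc]
                _ = q ^ (a + b + (if Even (m + 1) then 1 else 0)) •
                      (S.W x' * S.e (m + 1) * S.W y) := by
                    rw [h2]
                    simp only [smul_mul_assoc, mul_smul_comm, smul_smul]
                    congr 1
                    split_ifs <;> simp [pow_add]
          · obtain ⟨x1, x2, hx1, hx2, h'⟩ := h'
            refine ⟨a + b, Or.inr ⟨x1, x2 ++ y, ?_, ?_, ?_⟩⟩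
            · intro i hi
              exact ⟨(hx1 i hi).1, (hx1 i hi).2.trans (Nat.lt_succ_self m)⟩
            · intro i hi
              rcases List.mem_append.1 hi with hi | hi
              · exact ⟨(hx2 i hi).1, (hx2 i hi).2.trans (Nat.lt_succ_self m)⟩
              · exact hy i hi
            · intro q A _ _ S
              have hc1 := S.W_comm (m + 1) hm x1 (fun i hi => by have := hx1 i hi; omega)
              have hc2 := S.W_comm (m + 1) hm x2 (fun i hi => by have := hx2 i hi; omega)
              have h2 := S.r2 m hm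
              rw [TL.W_cons, h q A S, h' q A S, TL.W_append]
              calc S.e (m + 1) * q ^ a • (q ^ b • (S.W x1 * S.e m * S.W x2) * S.e (m + 1) * S.W y)
                  = (q ^ a * q ^ b) • ((S.e (m + 1) * S.W x1) * S.e m *
                      (S.W x2 * S.e (m + 1)) * S.W y) := by
                    simp only [smul_mul_assoc, mul_smul_comm, smul_smul, mul_assoc]
                _ = (q ^ a * q ^ b) • (S.W x1 * (S.e (m + 1) * S.e m * S.e (m + 1)) *
                      (S.W x2 * S.W y)) := by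
                    rw [← hc1, hc2]; simp only [mul_assoc]
                _ = q ^ (a + b) • (S.W x1 * S.e (m + 1) * (S.W x2 * S.W y)) := by
                    rw [h2, pow_add]

theorem state_eval1 (n m : ℕ) (hm : m ≤ 2 * n + 1) (w : List ℕ)
    (hw : ∀ j ∈ w, 1 ≤ j ∧ j < m) :
    ∃ N : ℤ, ∀ (q : ℝ), q ≠ 0 → ∀ (A : Type) [Ring A] [Algebra ℝ A] (S : TL (2 * n + 1) q A)
      (F : State1 S), F.φ (S.W w) = q ^ N * F.φ 1 := by
  induction m generalizing w with
  | zero =>
    have hw0 : w = [] := by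
      rcases w with _ | ⟨i, w⟩
      · rfl
      · exact absurd (hw i List.mem_cons_self) (by omega)
    subst hw0
    exact ⟨0, by intro q _ A _ _ S F; simp⟩
  | succ m ihm =>
    have ih := fun w hw => ihm (by omega) w hw
    rcases Nat.eq_zero_or_pos m with h0 | hpos
    · have hw0 : w = [] := by
        rcases w with _ | ⟨i, w⟩
        · rfl
        · exact absurd (hw i List.mem_cons_self) (by omega)
      subst hw0
      exact ⟨0, by intro q _ A _ _ S F; simp⟩
    obtain ⟨a, h | h⟩ := nf1 (2 * n + 1) m (by omega) w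
      (fun j hj => ⟨(hw j hj).1, Nat.lt_succ_iff.1 (hw j hj).2⟩)
    · obtain ⟨w', hw', h⟩ := h
      obtain ⟨N, hN⟩ := ih w' hw'
      refine ⟨a + N, ?_⟩
      intro q hq A _ _ S F
      rw [h q A S, map_smul, hN q hq A S F, smul_eq_mul, zpow_add₀ hq, zpow_natCast]
      ring
    · obtain ⟨x, y, hx, hy, h⟩ := h
      rcases Nat.even_or_odd m with he | ho
      · -- even top letter
        obtain ⟨m', rfl⟩ : ∃ m', m = m' + 1 := ⟨m - 1, by omega⟩
        obtain ⟨b, h' | h'⟩ := nf1 (2 * n + 1) m' (by omega) y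
          (fun j hj => ⟨(hy j hj).1, Nat.lt_succ_iff.1 (hy j hj).2⟩)
        · obtain ⟨y', hy', h'⟩ := h'
          obtain ⟨N, hN⟩ := ih (x ++ y') (by
            intro j hj
            rcases List.mem_append.1 hj with hj | hj
            · exact hx j hj
            · exact ⟨(hy' j hj).1, (hy' j hj).2.trans (Nat.lt_succ_self m')⟩)
          refine ⟨a + (b + 1 + N), ?_⟩
          intro q hq A _ _ S F
          have hc := S.W_comm (m' + 1) (by omega) y' (fun i hi => by have := hy' i hi; omega)
          have h1 := F.right (m' + 1) (by omega) (by omega) he (S.W x * S.W y')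
          have h2 := hN q hq A S F
          rw [TL.W_append] at h2
          rw [h q A S, h' q A S, map_smul, smul_eq_mul]
          have h3 : S.W x * S.e (m' + 1) * q ^ b • S.W y'
              = q ^ b • (S.W x * S.W y' * S.e (m' + 1)) := by
            rw [mul_smul_comm, mul_assoc, ← hc, mul_assoc]
          rw [h3, map_smul, h1, h2, smul_eq_mul, zpow_add₀ hq, zpow_add₀ hq, zpow_add₀ hq,
            zpow_natCast, zpow_natCast]
          simp
          ring
        · obtain ⟨y1, y2, hy1, hy2, h'⟩ := h'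
          obtain ⟨N, hN⟩ := ih (x ++ (y1 ++ y2)) (by
            intro j hj
            rcases List.mem_append.1 hj with hj | hj
            · exact hx j hj
            · rcases List.mem_append.1 hj with hj | hj
              · exact ⟨(hy1 j hj).1, (hy1 j hj).2.trans (Nat.lt_succ_self m')⟩
              · exact ⟨(hy2 j hj).1, (hy2 j hj).2.trans (Nat.lt_succ_self m')⟩)
          refine ⟨a + (b + N), ?_⟩
          intro q hq A _ _ S F
          have hc1 := S.W_comm (m' + 1) (by omega) y1 (fun i hi => by have := hy1 i hi; omega)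
          have hc2 := S.W_comm (m' + 1) (by omega) y2 (fun i hi => by have := hy2 i hi; omega)
          have hr := S.r2 m' (by omega)
          have hR := fun z => F.right (m' + 1) (by omega) (by omega) he z
          have h2 := hN q hq A S F
          rw [TL.W_append, TL.W_append] at h2
          have key : q * F.φ (S.W x * S.e (m' + 1) * (S.W y1 * S.e m' * S.W y2))
              = q * F.φ (S.W x * (S.W y1 * S.W y2)) := by
            rw [← hR, ← hR]
            congr 1
            calc S.W x * S.e (m' + 1) * (S.W y1 * S.e m' * S.W y2) * S.e (m' + 1)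
                = S.W x * (S.e (m' + 1) * S.W y1) * S.e m' * (S.W y2 * S.e (m' + 1)) := by
                  simp only [mul_assoc]
              _ = S.W x * S.W y1 * (S.e (m' + 1) * S.e m' * S.e (m' + 1)) * S.W y2 := by
                  rw [← hc1, hc2]; simp only [mul_assoc]
              _ = S.W x * S.W y1 * (S.e (m' + 1) * S.W y2) := by
                  rw [hr]; simp only [mul_assoc]
              _ = S.W x * (S.W y1 * S.W y2) * S.e (m' + 1) := by
                  rw [← hc2]; simp only [mul_assoc]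
          have key2 := mul_left_cancel₀ hq key
          rw [h q A S, h' q A S, map_smul, smul_eq_mul, mul_smul_comm, map_smul, key2, h2,
            smul_eq_mul, zpow_add₀ hq, zpow_add₀ hq, zpow_natCast, zpow_natCast]
          ring
      · -- odd top letter
        have hm1 : m + 1 < 2 * n + 1 := by
          obtain ⟨t, ht⟩ := ho
          omega
        have he1 : Even (m + 1) := ho.add_one
        obtain ⟨N, hN⟩ := ih (x ++ y) (by
          intro j hj
          rcases List.mem_append.1 hj with hj | hj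
          · exact hx j hj
          · exact hy j hj)
        refine ⟨a + (-1 + N), ?_⟩
        intro q hq A _ _ S F
        have hc1 := S.W_comm (m + 1) hm1 x (fun i hi => by have := hx i hi; omega)
        have hc2 := S.W_comm (m + 1) hm1 y (fun i hi => by have := hy i hi; omega)
        have hr := S.r2 m hm1
        have hR := fun z => F.right (m + 1) (by omega) hm1 he1 z
        have hL := fun z => F.left (m + 1) (by omega) hm1 he1 z
        have h2 := hN q hq A S F
        rw [TL.W_append] at h2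
        have key : q * (q * F.φ (S.W x * S.e m * S.W y)) = q * F.φ (S.W x * S.W y) := by
          rw [← hR, ← hL, ← hR]
          congr 1
          calc S.e (m + 1) * (S.W x * S.e m * S.W y * S.e (m + 1))
              = (S.e (m + 1) * S.W x) * S.e m * (S.W y * S.e (m + 1)) := by
                simp only [mul_assoc]
            _ = S.W x * (S.e (m + 1) * S.e m * S.e (m + 1)) * S.W y := by
                rw [← hc1, hc2]; simp only [mul_assoc]
            _ = S.W x * (S.e (m + 1) * S.W y) := by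
                rw [hr]; simp only [mul_assoc]
            _ = S.W x * S.W y * S.e (m + 1) := by
                rw [← hc2]; simp only [mul_assoc]
        have key2 := mul_left_cancel₀ hq key
        have key3 : F.φ (S.W x * S.e m * S.W y) = q⁻¹ * F.φ (S.W x * S.W y) := by
          field_simp
          linarith
        rw [h q A S, map_smul, smul_eq_mul, key3, h2, zpow_add₀ hq, zpow_add₀ hq, zpow_natCast,
          zpow_neg_one]
        ring

end

section
open Polynomial Pool.Agent.H207R2.BL Pool.Agent.H110R3.BP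

theorem expd_mem1 (n : ℕ) (w : List Let) (hw : ∀ l ∈ w, InR1 n l) :
    ∀ a ∈ expd w, ∀ j ∈ a.2, 1 ≤ j ∧ j < 2 * n + 1 := by
  induction w with
  | nil =>
    intro a ha j hj
    simp only [expd, List.mem_singleton] at ha
    subst ha
    simp at hj
  | cons l w ih =>
    have ih' := ih fun l hl => hw l (List.mem_cons_of_mem _ hl)
    have hl := hw l (List.mem_cons_self ..)
    intro a ha j hj
    cases l with
    | C i =>
      have hi : 1 ≤ i ∧ i ≤ n := hl
      simp only [expd, List.mem_map] at ha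
      obtain ⟨b, hb, rfl⟩ := ha
      rcases List.mem_cons.1 hj with rfl | hj
      · omega
      · exact ih' b hb j hj
    | J i =>
      have hi : 1 ≤ i ∧ i < n := hl
      simp only [expd, List.mem_map] at ha
      obtain ⟨b, hb, rfl⟩ := ha
      rcases List.mem_cons.1 hj with rfl | hj
      · omega
      · exact ih' b hb j hj
    | X i =>
      have hi : i < n := hl
      simp only [expd, List.mem_append, List.mem_map] at ha
      rcases ha with ha | ⟨b, hb, rfl⟩
      · exact ih' a ha j hj
      · rcases List.mem_cons.1 hj with rfl | hj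
        · omega
        · exact ih' b hb j hj

theorem state_T1_aux (n : ℕ) (L : List (ℝ × List ℕ))
    (hL : ∀ a ∈ L, ∀ j ∈ a.2, 1 ≤ j ∧ j < 2 * n + 1) :
    ∃ R : List (ℝ × ℤ), ∀ (q : ℝ), q ≠ 0 → ∀ (A : Type) [Ring A] [Algebra ℝ A]
      (S : TL (2 * n + 1) q A) (F : State1 S),
      F.φ ((L.map (fun a => a.1 • S.W a.2)).sum) =
        ((R.map (fun a => a.1 * q ^ a.2)).sum) * F.φ 1 := by
  induction L with
  | nil =>
    refine ⟨[], ?_⟩
    intro q _ A _ _ S F
    simp
  | cons a L ih =>
    obtain ⟨R, hR⟩ := ih (fun b hb => hL b (List.mem_cons_of_mem _ hb))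
    obtain ⟨N, hN⟩ := state_eval1 n (2 * n + 1) le_rfl a.2 (hL a List.mem_cons_self)
    refine ⟨(a.1, N) :: R, ?_⟩
    intro q hq A _ _ S F
    rw [List.map_cons, List.sum_cons, map_add, map_smul, hN q hq A S F, hR q hq A S F,
      List.map_cons, List.sum_cons, smul_eq_mul]
    ring

theorem state_T1 (n : ℕ) (w : List Let) (hw : ∀ l ∈ w, InR1 n l) :
    ∃ R : List (ℝ × ℤ), ∀ (q : ℝ), q ≠ 0 → ∀ (A : Type) [Ring A] [Algebra ℝ A]
      (S : TL (2 * n + 1) q A) (F : State1 S),
      F.φ (T S w) = ((R.map (fun a => a.1 * q ^ a.2)).sum) * F.φ 1 := by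
  obtain ⟨R, hR⟩ := state_T1_aux n (expd w) (expd_mem1 n w hw)
  refine ⟨R, ?_⟩
  intro q hq A _ _ S F
  rw [T_expd S w]
  exact hR q hq A S F

end

section
open Polynomial Pool.Agent.H207R2.BL Pool.Agent.H110R3.BP

theorem U3_ne (n a b : ℕ) (ha : a ≤ 2 * n + 1) (hb : b ≤ 2 * n + 1) (h : a ≠ b) :
    st n a ≠ st n b := fun h' => h (st_inj n a b ha hb h')

theorem U3_chg_ne (n j k : ℕ) (hj : j ≤ 2 * n) (hk : k ≤ 2 * n + 1) (h1 : k ≠ j)
    (h2 : k ≠ j + 1) (s : Fin (2 * n + 2) → Bool) (x : Bool) :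
    chg n j s x (st n k) = s (st n k) := by
  unfold chg
  rw [Function.update_of_ne (U3_ne n k (j + 1) hk (by omega) h2),
    Function.update_of_ne (U3_ne n k j hk (by omega) h1)]

theorem U3_chg_j (n j : ℕ) (hj : j ≤ 2 * n) (s : Fin (2 * n + 2) → Bool) (x : Bool) :
    chg n j s x (st n j) = x := by
  unfold chg
  rw [Function.update_of_ne (U3_ne n j (j + 1) (by omega) (by omega) (by omega)),
    Function.update_self]

theorem U3_chg_j1 (n j : ℕ) (s : Fin (2 * n + 2) → Bool) (x : Bool) :
    chg n j s x (st n (j + 1)) = !x := by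
  unfold chg
  rw [Function.update_self]

theorem hgt_parity (n : ℕ) (s : Fin (2 * n + 2) → Bool) (j : ℕ) :
    (hgt n s j) % 2 = (1 + (j : ℤ)) % 2 := by
  induction j with
  | zero => rw [hgt_zero]; simp
  | succ j ih =>
    rw [hgt_succ]
    push_cast
    split_ifs <;> omega

theorem hgt_chg_le (n j : ℕ) (hj : j ≤ 2 * n) (s : Fin (2 * n + 2) → Bool) (x : Bool) (l : ℕ)
    (hl : l ≤ j) : hgt n (chg n j s x) l = hgt n s l := by
  unfold hgt
  congr 1
  refine Finset.sum_congr rfl fun i hi => ?_
  have := Finset.mem_range.1 hi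
  rw [U3_chg_ne n j i hj (by omega) (by omega) (by omega)]

theorem hgt_chg_mid (n j : ℕ) (hj : j ≤ 2 * n) (s : Fin (2 * n + 2) → Bool) (x : Bool) :
    hgt n (chg n j s x) (j + 1) = hgt n s j + (if x then 1 else -1) := by
  rw [hgt_succ, hgt_chg_le n j hj s x j le_rfl, U3_chg_j n j hj]

theorem hgt_chg_ge (n j : ℕ) (hj : j ≤ 2 * n) (s : Fin (2 * n + 2) → Bool) (x : Bool) (l : ℕ)
    (hs : s (st n (j + 1)) = !(s (st n j))) (hl : j + 2 ≤ l) (hl2 : l ≤ 2 * n + 2) :
    hgt n (chg n j s x) l = hgt n s l := by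
  induction l, hl using Nat.le_induction with
  | base =>
    rw [hgt_succ, hgt_chg_mid n j hj, U3_chg_j1, hgt_succ n s (j + 1), hgt_succ n s j, hs]
    cases x <;> cases s (st n j) <;> simp
  | succ l hl ih =>
    rw [hgt_succ, hgt_succ, ih (by omega),
      U3_chg_ne n j l hj (by omega) (by omega) (by omega)]

end

section
open Polynomial Pool.Agent.H207R2.BL Pool.Agent.H110R3.BP

theorem U4_ne (n j : ℕ) (hj : j ≤ 2 * n) : st n j ≠ st n (j + 1) := by
  intro h
  have := st_inj n j (j + 1) (by omega) (by omega) h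
  omega

theorem chg_at (n j : ℕ) (hj : j ≤ 2 * n) (s : Fin (2 * n + 2) → Bool) (x : Bool) :
    chg n j s x (st n j) = x ∧ chg n j s x (st n (j + 1)) = !x ∧
      ∀ l, l ≤ 2 * n + 1 → l ≠ j → l ≠ j + 1 → chg n j s x (st n l) = s (st n l) := by
  unfold chg
  refine ⟨?_, ?_, ?_⟩
  · rw [Function.update_of_ne (U4_ne n j hj), Function.update_self]
  · rw [Function.update_self]
  · intro l hl h1 h2
    have h3 : st n l ≠ st n j := fun h => h1 (st_inj n l j (by omega) (by omega) h)
    have h4 : st n l ≠ st n (j + 1) := fun h => h2 (st_inj n l (j + 1) (by omega) (by omega) h)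
    rw [Function.update_of_ne h4, Function.update_of_ne h3]

theorem chg_self (n j : ℕ) (hj : j ≤ 2 * n) (s : Fin (2 * n + 2) → Bool)
    (hs : s (st n (j + 1)) = !(s (st n j))) : chg n j s (s (st n j)) = s := by
  unfold chg
  rw [Function.update_eq_self, ← hs, Function.update_eq_self]

theorem chg_chg (n j : ℕ) (hj : j ≤ 2 * n) (s : Fin (2 * n + 2) → Bool) (x y : Bool) :
    chg n j (chg n j s x) y = chg n j s y := by
  unfold chg
  have hne := U4_ne n j hj
  funext i
  by_cases h1 : i = st n (j + 1)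
  · subst h1
    simp
  · by_cases h2 : i = st n j
    · subst h2
      simp [h1]
    · simp [h1, h2]

end

section
open Polynomial Pool.Agent.H207R2.BL Pool.Agent.H110R3.BP

theorem Eig.natAbs {δ : ℝ} {S : ℤ → ℝ} (hS : Eig δ S) (h : ℤ) :
    S h = S (h.natAbs : ℤ) := by
  rcases Int.natAbs_eq h with h1 | h1
  · rw [← h1]
  · conv_lhs => rw [h1]
    exact hS.even _

theorem U5_sq {δ : ℝ} {S : ℤ → ℝ} (hS : Eig δ S) (a b : ℤ) :
    Real.sqrt (S a / S b) ^ 2 = S a / S b :=
  Real.sq_sqrt (div_nonneg (hS.pos a).le (hS.pos b).le)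

theorem wt_sq_sum {δ : ℝ} {S : ℤ → ℝ} (hS : Eig δ S) (h : ℤ) :
    wt S h true ^ 2 + wt S h false ^ 2 = δ := by
  have h1 : wt S h true ^ 2 = S (h + 1) / S h := U5_sq hS (h + 1) h
  have h2 : wt S h false ^ 2 = S (h - 1) / S h := U5_sq hS (h - 1) h
  rw [h1, h2, ← add_div, hS.recur h, mul_div_assoc, div_self (hS.pos h).ne', mul_one]

theorem U5_mul {δ : ℝ} {S : ℤ → ℝ} (hS : Eig δ S) (a b : ℤ) :
    Real.sqrt (S a / S b) * Real.sqrt (S b / S a) = 1 := by
  have ha := hS.pos a
  have hb := hS.pos b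
  rw [← Real.sqrt_mul (div_nonneg ha.le hb.le)]
  have : S a / S b * (S b / S a) = 1 := by
    field_simp
  rw [this, Real.sqrt_one]

theorem wt_mul_back {δ : ℝ} {S : ℤ → ℝ} (hS : Eig δ S) (h : ℤ) (x : Bool) :
    wt S h x * wt S (if x then h + 1 else h - 1) (!x) = 1 := by
  cases x
  · have h1 : wt S h false = Real.sqrt (S (h - 1) / S h) := rfl
    have h2 : wt S (h - 1) true = Real.sqrt (S (h - 1 + 1) / S (h - 1)) := rfl
    change wt S h false * wt S (h - 1) true = 1
    rw [h1, h2, sub_add_cancel]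
    exact U5_mul hS (h - 1) h
  · have h1 : wt S h true = Real.sqrt (S (h + 1) / S h) := rfl
    have h2 : wt S (h + 1) false = Real.sqrt (S (h + 1 - 1) / S (h + 1)) := rfl
    change wt S h true * wt S (h + 1) false = 1
    rw [h1, h2, add_sub_cancel_right]
    exact U5_mul hS (h + 1) h

end

section
open Polynomial Pool.Agent.H207R2.BL Pool.Agent.H110R3.BP

theorem exists_eig (q : ℝ) (hq : 4 ≤ q) :
    ∃ (δ : ℝ) (S : ℤ → ℝ), 0 < δ ∧ q = δ ^ 2 ∧ Eig δ S := by
  have h2 : 2 ≤ Real.sqrt q := by
    rw [show (2 : ℝ) = Real.sqrt 4 by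
      rw [show (4 : ℝ) = 2 ^ 2 by norm_num, Real.sqrt_sq (by norm_num)]]
    exact Real.sqrt_le_sqrt hq
  set d := Real.sqrt q with hd
  have hdd : d ^ 2 = q := Real.sq_sqrt (by linarith)
  set r := Real.sqrt (d ^ 2 - 4) with hr
  have hrr : r ^ 2 = d ^ 2 - 4 := Real.sq_sqrt (by nlinarith)
  have hr0 : 0 ≤ r := Real.sqrt_nonneg _
  set t := (d + r) / 2 with ht
  have ht0 : 0 < t := by positivity
  have htt : t * (d - t) = 1 := by
    rw [ht]; nlinarith
  have htinv : t⁻¹ = d - t := inv_eq_of_mul_eq_one_right htt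
  refine ⟨d, fun h => t ^ h + t ^ (-h), by linarith, hdd.symm, ?_, ?_, ?_⟩
  · intro h
    have h3 : 0 < t ^ h := zpow_pos ht0 h
    have h4 : 0 < t ^ (-h) := zpow_pos ht0 (-h)
    show 0 < t ^ h + t ^ (-h)
    linarith
  · intro h
    have hne : t ≠ 0 := ht0.ne'
    show t ^ (h + 1) + t ^ (-(h + 1)) + (t ^ (h - 1) + t ^ (-(h - 1))) =
      d * (t ^ h + t ^ (-h))
    have e1 : t ^ (h + 1) = t ^ h * t := zpow_add_one₀ hne h
    have e2 : t ^ (-(h + 1)) = t ^ (-h) * t⁻¹ := by
      rw [show -(h + 1) = -h - 1 by ring, zpow_sub_one₀ hne]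
    have e3 : t ^ (h - 1) = t ^ h * t⁻¹ := zpow_sub_one₀ hne h
    have e4 : t ^ (-(h - 1)) = t ^ (-h) * t := by
      rw [show -(h - 1) = -h + 1 by ring, zpow_add_one₀ hne]
    rw [e1, e2, e3, e4, htinv]
    ring
  · intro h
    show t ^ (-h) + t ^ (-(-h)) = t ^ h + t ^ (-h)
    rw [neg_neg, add_comm]

end

section
open Polynomial Pool.Agent.H207R2.BL Pool.Agent.H110R3.BP

-- P1
theorem Pop_sq (n : ℕ) {δ : ℝ} {S : ℤ → ℝ} (hS : Eig δ S) (j : ℕ) (hj : j ≤ 2 * n) :
    (PopE n S 1 j * PopE n S 1 j : Module.End ℝ (Fn (Fin (2 * n + 2)) Bool)) =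
      δ • PopE n S 1 j := by
  refine LinearMap.ext (fun f => funext (fun s => ?_))
  simp only [Module.End.mul_apply, LinearMap.smul_apply, Pi.smul_apply, smul_eq_mul]
  rw [PopE_apply, PopE_apply n S 1 j f s]
  split_ifs with hs
  · have key : ∀ x : Bool, PopE n S 1 j f (chg n j s x) = wt S (hgt n s j) x *
        (wt S (hgt n s j) true * f (chg n j s true) +
          wt S (hgt n s j) false * f (chg n j s false)) := by
      intro x
      obtain ⟨c1, c2, _⟩ := chg_at n j hj s x
      rw [PopE_apply, c1, c2, if_pos rfl, hgt_chg_le n j hj s x j le_rfl, Fintype.sum_bool]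
      rw [chg_chg n j hj, chg_chg n j hj, ite_self, ite_self, one_mul, one_mul]
    have hw := wt_sq_sum hS (hgt n s j)
    rw [Fintype.sum_bool, Fintype.sum_bool, key, key, ite_self, ite_self]
    linear_combination (wt S (hgt n s j) (s (st n j)) *
      (wt S (hgt n s j) true * f (chg n j s true) +
        wt S (hgt n s j) false * f (chg n j s false))) * hw
  · simp

end

section
open Polynomial Pool.Agent.H207R2.BL Pool.Agent.H110R3.BP

theorem U8_app (n : ℕ) (S : ℤ → ℝ) (j : ℕ) (f : Fn (Fin (2 * n + 2)) Bool)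
    (s : Fin (2 * n + 2) → Bool) :
    PopE n S 1 j f s = if s (st n (j + 1)) = !(s (st n j)) then
      wt S (hgt n s j) (s (st n j)) *
        ∑ x : Bool, wt S (hgt n s j) x * f (chg n j s x) else 0 := by
  rw [PopE_apply]
  simp only [ite_self, one_mul]

theorem Pop_zig1 (n : ℕ) {δ : ℝ} {S : ℤ → ℝ} (hS : Eig δ S) (j : ℕ) (hj : j + 1 ≤ 2 * n) :
    (PopE n S 1 j * PopE n S 1 (j + 1) * PopE n S 1 j :
      Module.End ℝ (Fn (Fin (2 * n + 2)) Bool)) = PopE n S 1 j := by
  refine LinearMap.ext (fun f => funext (fun s => ?_))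
  simp only [Module.End.mul_apply]
  rw [U8_app n S j, U8_app n S j f s]
  by_cases hc : s (st n (j + 1)) = !(s (st n j))
  swap
  · rw [if_neg hc, if_neg hc]
  rw [if_pos hc, if_pos hc]
  congr 1
  set h := hgt n s j with hh
  set Z := ∑ z : Bool, wt S h z * f (chg n j s z) with hZ
  have hj2 : j ≤ 2 * n := by omega
  -- values of a changed configuration
  have va : ∀ x, chg n j s x (st n j) = x := fun x => (chg_at n j hj2 s x).1
  have vb : ∀ x, chg n j s x (st n (j + 1)) = !x := fun x => (chg_at n j hj2 s x).2.1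
  have vc : ∀ x, chg n j s x (st n (j + 1 + 1)) = s (st n (j + 1 + 1)) := fun x =>
    (chg_at n j hj2 s x).2.2 (j + 1 + 1) (by omega) (by omega) (by omega)
  have vh : ∀ x, hgt n (chg n j s x) j = h := fun x => hgt_chg_le n j hj2 s x j le_rfl
  have vm : ∀ x : Bool, hgt n (chg n j s x) (j + 1) = if x then h + 1 else h - 1 := by
    intro x
    rw [hgt_chg_mid n j hj2]
    cases x <;> simp [sub_eq_add_neg, hh]
  have key : ∀ x : Bool, PopE n S 1 (j + 1) (PopE n S 1 j f) (chg n j s x) =
      if x = s (st n (j + 1 + 1)) then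
        wt S (if x then h + 1 else h - 1) (!x) *
          (wt S (if x then h + 1 else h - 1) (!x) * (wt S h x * Z)) else 0 := by
    intro x
    rw [U8_app n S (j + 1), vb x, vc x, vm x]
    by_cases hx : x = s (st n (j + 1 + 1))
    swap
    · rw [if_neg hx, if_neg]
      rw [Bool.not_not]
      exact fun h5 => hx h5.symm
    rw [if_pos hx, if_pos (by rw [Bool.not_not]; exact hx.symm)]
    congr 1
    have h2 : ∀ y : Bool, wt S (if x then h + 1 else h - 1) y *
        PopE n S 1 j f (chg n (j + 1) (chg n j s x) y) =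
        if y = !x then wt S (if x then h + 1 else h - 1) y * (wt S h x * Z) else 0 := by
      intro y
      by_cases hy : y = !x
      · rw [if_pos hy]
        have e1 : chg n (j + 1) (chg n j s x) y = chg n j s x := by
          have := chg_self n (j + 1) hj (chg n j s x) (by rw [vb, vc, ← hx, Bool.not_not])
          rw [vb] at this
          rw [hy]
          exact this
        rw [e1, U8_app n S j, vb, va, if_pos rfl, vh x]
        have e2 : ∑ z : Bool, wt S h z * f (chg n j (chg n j s x) z) = Z := by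
          rw [hZ]
          refine Finset.sum_congr rfl fun z _ => ?_
          rw [chg_chg n j hj2]
        rw [e2]
      · have a1 := (chg_at n (j + 1) hj (chg n j s x) y).1
        have a2 := (chg_at n (j + 1) hj (chg n j s x) y).2.2 j (by omega)
          (by omega) (by omega)
        have a0 : PopE n S 1 j f (chg n (j + 1) (chg n j s x) y) = 0 := by
          rw [U8_app n S j]
          refine if_neg ?_
          rw [a1, a2, va]
          exact hy
        rw [if_neg hy, a0, mul_zero]
    rw [Finset.sum_congr rfl (fun y _ => h2 y), Finset.sum_ite_eq' Finset.univ (!x)]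
    simp
  rw [Finset.sum_congr rfl (fun x _ => by rw [key x])]
  simp only [mul_ite, mul_zero, Finset.sum_ite_eq', Finset.mem_univ, if_true]
  have hw := wt_mul_back hS h (s (st n (j + 1 + 1)))
  generalize wt S (if s (st n (j + 1 + 1)) then h + 1 else h - 1) (!(s (st n (j + 1 + 1)))) = b
    at hw ⊢
  generalize wt S h (s (st n (j + 1 + 1))) = a at hw ⊢
  calc a * (b * (b * (a * Z))) = (a * b) * (a * b) * Z := by ring
    _ = Z := by rw [hw, one_mul, one_mul]

end

section
open Polynomial Pool.Agent.H207R2.BL Pool.Agent.H110R3.BP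

theorem U9_app (n : ℕ) (S : ℤ → ℝ) (j : ℕ) (f : Fn (Fin (2 * n + 2)) Bool)
    (s : Fin (2 * n + 2) → Bool) :
    PopE n S 1 j f s = if s (st n (j + 1)) = !(s (st n j)) then
      wt S (hgt n s j) (s (st n j)) *
        ∑ x : Bool, wt S (hgt n s j) x * f (chg n j s x) else 0 := by
  rw [PopE_apply]
  simp only [ite_self, one_mul]

theorem U9_h (n : ℕ) (s : Fin (2 * n + 2) → Bool) (j : ℕ) :
    (if s (st n j) then hgt n s j + 1 else hgt n s j - 1) = hgt n s (j + 1) := by
  rw [hgt_succ]
  cases s (st n j) <;> simp [sub_eq_add_neg]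

theorem Pop_zig2 (n : ℕ) {δ : ℝ} {S : ℤ → ℝ} (hS : Eig δ S) (j : ℕ) (hj : j + 1 ≤ 2 * n) :
    (PopE n S 1 (j + 1) * PopE n S 1 j * PopE n S 1 (j + 1) :
      Module.End ℝ (Fn (Fin (2 * n + 2)) Bool)) = PopE n S 1 (j + 1) := by
  refine LinearMap.ext (fun f => funext (fun s => ?_))
  simp only [Module.End.mul_apply]
  rw [U9_app n S (j + 1), U9_app n S (j + 1) f s]
  by_cases hc : s (st n (j + 1 + 1)) = !(s (st n (j + 1)))
  swap
  · rw [if_neg hc, if_neg hc]
  rw [if_pos hc, if_pos hc]
  congr 1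
  set h := hgt n s j with hh
  set h' := hgt n s (j + 1) with hh'
  set Z := ∑ z : Bool, wt S h' z * f (chg n (j + 1) s z) with hZ
  have hw : wt S h (s (st n j)) * wt S h' (!(s (st n j))) = 1 := by
    have := wt_mul_back hS h (s (st n j))
    rwa [hh, U9_h n s j, ← hh, ← hh'] at this
  -- values of a changed configuration
  have va : ∀ x, chg n (j + 1) s x (st n j) = s (st n j) := fun x =>
    (chg_at n (j + 1) hj s x).2.2 j (by omega) (by omega) (by omega)
  have vb : ∀ x, chg n (j + 1) s x (st n (j + 1)) = x := fun x => (chg_at n (j + 1) hj s x).1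
  have vc : ∀ x, chg n (j + 1) s x (st n (j + 1 + 1)) = !x := fun x =>
    (chg_at n (j + 1) hj s x).2.1
  have vh : ∀ x l, l ≤ j + 1 → hgt n (chg n (j + 1) s x) l = hgt n s l := fun x l hl =>
    hgt_chg_le n (j + 1) hj s x l hl
  have key : ∀ x : Bool, PopE n S 1 j (PopE n S 1 (j + 1) f) (chg n (j + 1) s x) =
      if x = !(s (st n j)) then
        wt S h (s (st n j)) * (wt S h (s (st n j)) * (wt S h' (!(s (st n j))) * Z)) else 0 := by
    intro x
    rw [U9_app n S j, va x, vb x, vh x j (by omega), ← hh]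
    by_cases hx : x = !(s (st n j))
    swap
    · rw [if_neg hx, if_neg hx]
    rw [if_pos hx, if_pos hx]
    congr 1
    have h2 : ∀ y : Bool, wt S h y * PopE n S 1 (j + 1) f (chg n j (chg n (j + 1) s x) y) =
        if y = s (st n j) then wt S h y * (wt S h' (!(s (st n j))) * Z) else 0 := by
      intro y
      by_cases hy : y = s (st n j)
      · rw [if_pos hy]
        have e1 : chg n j (chg n (j + 1) s x) y = chg n (j + 1) s x := by
          have := chg_self n j (by omega) (chg n (j + 1) s x) (by rw [vb, va, hx])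
          rw [va] at this
          rw [hy]
          exact this
        rw [e1, U9_app n S (j + 1), vb, vc, if_pos rfl, vh x (j + 1) le_rfl, ← hh', ← hx]
        have e2 : ∑ z : Bool, wt S h' z * f (chg n (j + 1) (chg n (j + 1) s x) z) = Z := by
          rw [hZ]
          refine Finset.sum_congr rfl fun z _ => ?_
          rw [chg_chg n (j + 1) hj]
        rw [e2]
      · rw [if_neg hy, U9_app n S (j + 1), if_neg, mul_zero]
        have a1 := (chg_at n j (by omega) (chg n (j + 1) s x) y).2.1
        have a2 := (chg_at n j (by omega) (chg n (j + 1) s x) y).2.2 (j + 1 + 1) (by omega)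
          (by omega) (by omega)
        rw [a1, a2, vc, hx]
        intro h3
        apply hy
        simpa using h3.symm
    rw [Finset.sum_congr rfl (fun y _ => h2 y), Finset.sum_ite_eq' Finset.univ (s (st n j))]
    simp
  rw [Finset.sum_congr rfl (fun x _ => by rw [key x])]
  simp only [mul_ite, mul_zero, Finset.sum_ite_eq', Finset.mem_univ, if_true]
  calc wt S h' (!(s (st n j))) * (wt S h (s (st n j)) * (wt S h (s (st n j)) *
        (wt S h' (!(s (st n j))) * Z)))
      = (wt S h (s (st n j)) * wt S h' (!(s (st n j)))) *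
        (wt S h (s (st n j)) * wt S h' (!(s (st n j)))) * Z := by ring
    _ = Z := by rw [hw, one_mul, one_mul]

end

section
open Polynomial Pool.Agent.H207R2.BL Pool.Agent.H110R3.BP

theorem U10_ne (n i j : ℕ) (hi : i ≤ 2 * n + 1) (hj : j ≤ 2 * n + 1) (h : i ≠ j) :
    st n i ≠ st n j := by
  intro h2
  have h3 := congrArg Fin.val h2
  rw [st_val n i hi, st_val n j hj] at h3
  exact h h3

theorem U10_cc (n i j : ℕ) (hij : i + 2 ≤ j) (hj : j ≤ 2 * n) (s : Fin (2 * n + 2) → Bool)
    (x y : Bool) : chg n j (chg n i s x) y = chg n i (chg n j s y) x := by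
  unfold chg
  have h1 : st n i ≠ st n j := U10_ne n _ _ (by omega) (by omega) (by omega)
  have h2 : st n i ≠ st n (j + 1) := U10_ne n _ _ (by omega) (by omega) (by omega)
  have h3 : st n (i + 1) ≠ st n j := U10_ne n _ _ (by omega) (by omega) (by omega)
  have h4 : st n (i + 1) ≠ st n (j + 1) := U10_ne n _ _ (by omega) (by omega) (by omega)
  rw [Function.update_comm h3, Function.update_comm h1, Function.update_comm h4,
    Function.update_comm h2]

theorem Pop_comm (n : ℕ) (S : ℤ → ℝ) (i j : ℕ) (hij : i + 2 ≤ j) (hj : j ≤ 2 * n) :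
    (PopE n S 1 i * PopE n S 1 j : Module.End ℝ (Fn (Fin (2 * n + 2)) Bool)) =
      PopE n S 1 j * PopE n S 1 i := by
  refine LinearMap.ext (fun f => funext (fun s => ?_))
  simp only [Module.End.mul_apply]
  rw [PopE_apply n S 1 i, PopE_apply n S 1 j]
  have hL : ∀ x : Bool, s (st n (i + 1)) = !(s (st n i)) → PopE n S 1 j f (chg n i s x) =
      if s (st n (j + 1)) = !(s (st n j)) then
        wt S (hgt n s j) (s (st n j)) * ∑ y : Bool, wt S (hgt n s j) y *
          ((if y = s (st n j) then 1 else 1) * f (chg n j (chg n i s x) y)) else 0 := by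
    intro x hx
    rw [PopE_apply]
    obtain ⟨-, -, h3⟩ := chg_at n i (by omega) s x
    rw [h3 j (by omega) (by omega) (by omega), h3 (j + 1) (by omega) (by omega) (by omega),
      hgt_chg_ge n i (by omega) s x j hx (by omega) (by omega)]
  have hR : ∀ y : Bool, PopE n S 1 i f (chg n j s y) =
      if s (st n (i + 1)) = !(s (st n i)) then
        wt S (hgt n s i) (s (st n i)) * ∑ x : Bool, wt S (hgt n s i) x *
          ((if x = s (st n i) then 1 else 1) * f (chg n i (chg n j s y) x)) else 0 := by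
    intro y
    rw [PopE_apply]
    obtain ⟨-, -, h3⟩ := chg_at n j (by omega) s y
    rw [h3 i (by omega) (by omega) (by omega), h3 (i + 1) (by omega) (by omega) (by omega),
      hgt_chg_le n j (by omega) s y i (by omega)]
  simp only [hR]
  by_cases hi : s (st n (i + 1)) = !(s (st n i))
  · simp only [hL _ hi]
    by_cases hjj : s (st n (j + 1)) = !(s (st n j))
    · simp only [if_pos hi, if_pos hjj, ite_self, one_mul, Finset.mul_sum]
      rw [Finset.sum_comm]
      refine Finset.sum_congr rfl (fun y _ => Finset.sum_congr rfl (fun x _ => ?_))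
      rw [U10_cc n i j hij hj s x y]
      ring
    · simp [hjj]
  · simp [hi]

end

section
open Polynomial Pool.Agent.H207R2.BL Pool.Agent.H110R3.BP

theorem U11_app (n : ℕ) (S : ℤ → ℝ) (j : ℕ) (f : Fn (Fin (2 * n + 2)) Bool)
    (s : Fin (2 * n + 2) → Bool) :
    PopE n S 1 j f s = if s (st n (j + 1)) = !(s (st n j)) then
      wt S (hgt n s j) (s (st n j)) *
        ∑ x : Bool, wt S (hgt n s j) x * f (chg n j s x) else 0 := by
  rw [PopE_apply]
  simp only [ite_self, one_mul]

/-- the inner product as a sum over pairs -/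
theorem U11_ip (n : ℕ) (S : ℤ → ℝ) (j : ℕ) (f g : Fn (Fin (2 * n + 2)) Bool) :
    ip f (PopE n S 1 j g) =
      ∑ p ∈ (Finset.univ : Finset ((Fin (2 * n + 2) → Bool) × Bool)).filter
        (fun p => p.1 (st n (j + 1)) = !(p.1 (st n j))),
        wt S (hgt n p.1 j) (p.1 (st n j)) * wt S (hgt n p.1 j) p.2 *
          (f p.1 * g (chg n j p.1 p.2)) := by
  rw [Finset.sum_filter, Fintype.sum_prod_type]
  unfold ip
  refine Finset.sum_congr rfl fun s _ => ?_
  rw [U11_app]
  by_cases hs : s (st n (j + 1)) = !(s (st n j))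
  · simp only [if_pos hs]
    rw [Finset.mul_sum, Finset.mul_sum]
    refine Finset.sum_congr rfl fun x _ => ?_
    ring
  · simp only [if_neg hs]
    simp

theorem Pop_symm (n : ℕ) (S : ℤ → ℝ) (j : ℕ) (hj : j ≤ 2 * n)
    (f g : Fn (Fin (2 * n + 2)) Bool) :
    ip f (PopE n S 1 j g) = ip (PopE n S 1 j f) g := by
  rw [ip_comm (PopE n S 1 j f) g, U11_ip, U11_ip]
  have hmem : ∀ p : (Fin (2 * n + 2) → Bool) × Bool,
      p ∈ (Finset.univ : Finset ((Fin (2 * n + 2) → Bool) × Bool)).filter
        (fun p => p.1 (st n (j + 1)) = !(p.1 (st n j))) ↔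
      p.1 (st n (j + 1)) = !(p.1 (st n j)) := by
    intro p
    simp
  have hmaps : ∀ p : (Fin (2 * n + 2) → Bool) × Bool,
      p ∈ (Finset.univ : Finset ((Fin (2 * n + 2) → Bool) × Bool)).filter
        (fun p => p.1 (st n (j + 1)) = !(p.1 (st n j))) →
      (chg n j p.1 p.2, p.1 (st n j)) ∈
        (Finset.univ : Finset ((Fin (2 * n + 2) → Bool) × Bool)).filter
        (fun p => p.1 (st n (j + 1)) = !(p.1 (st n j))) := by
    intro p _
    rw [hmem]
    obtain ⟨h1, h2, -⟩ := chg_at n j hj p.1 p.2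
    simp only [h1, h2]
  have hinv : ∀ p : (Fin (2 * n + 2) → Bool) × Bool,
      p ∈ (Finset.univ : Finset ((Fin (2 * n + 2) → Bool) × Bool)).filter
        (fun p => p.1 (st n (j + 1)) = !(p.1 (st n j))) →
      (chg n j (chg n j p.1 p.2) (p.1 (st n j)), chg n j p.1 p.2 (st n j)) = p := by
    intro p hp
    rw [hmem] at hp
    obtain ⟨h1, h2, -⟩ := chg_at n j hj p.1 p.2
    rw [chg_chg n j hj, chg_self n j hj p.1 hp, h1]
  refine Finset.sum_nbij' (fun p => (chg n j p.1 p.2, p.1 (st n j)))
    (fun p => (chg n j p.1 p.2, p.1 (st n j))) hmaps hmaps hinv hinv ?_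
  intro p hp
  rw [hmem] at hp
  obtain ⟨h1, h2, -⟩ := chg_at n j hj p.1 p.2
  simp only [h1, hgt_chg_le n j hj p.1 p.2 j le_rfl]
  rw [chg_chg n j hj, chg_self n j hj p.1 hp]
  ring

end

section
open Polynomial Pool.Agent.H207R2.BL Pool.Agent.H110R3.BP

theorem gauge_C (n : ℕ) (S : ℤ → ℝ) (κ : ℕ → Bool) (i : ℕ) (hi : 1 ≤ i) (hin : i ≤ n) (b : Bool)
    (g : Fn (Fin (2 * n + 2)) Bool) :
    GU n (Function.update κ i b) (PopE n S 1 (2 * i) g) = PopE n S 1 (2 * i) (GU n κ g) := by
  funext s
  show U n (Function.update κ i b) s * PopE n S 1 (2 * i) g s = _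
  rw [PopE_apply, PopE_apply]
  split_ifs with hs
  · rw [mul_left_comm, Finset.mul_sum]
    congr 1
    refine Finset.sum_congr rfl fun x _ => ?_
    rw [T26_U n κ i hin b x s hs]
    show _ = wt S (hgt n s (2 * i)) x * ((if x = s (st n (2 * i)) then 1 else 1) *
      (U n κ (chg n (2 * i) s x) * g (chg n (2 * i) s x)))
    unfold chg
    ring
  · rw [mul_zero]

end

section
open Polynomial Pool.Agent.H207R2.BL Pool.Agent.H110R3.BP

theorem U13_chg (n : ℕ) (κ : ℕ → Bool) (i : ℕ) (hi : i < n) (hκ : κ i = κ (i + 1))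
    (s : Fin (2 * n + 2) → Bool) (x : Bool)
    (hs : s (st n (2 * i + 1 + 1)) = !(s (st n (2 * i + 1)))) :
    U n κ (chg n (2 * i + 1) s x) = U n κ s := by
  unfold chg
  by_cases hx : x = s (st n (2 * i + 1))
  · rw [hx, Function.update_eq_self, ← hs, Function.update_eq_self]
  · have hx' : x = !(s (st n (2 * i + 1))) := by
      cases x <;> cases h : s (st n (2 * i + 1)) <;> simp_all
    have h1 := T27_U n κ i hi hκ s
    have e : 2 * i + 2 = 2 * i + 1 + 1 := rfl
    rw [e, hs] at h1
    rw [hx']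
    exact h1

-- C2
theorem gauge_same (n : ℕ) (S : ℤ → ℝ) (κ : ℕ → Bool) (i : ℕ) (hi : i < n)
    (hκ : κ i = κ (i + 1)) (g : Fn (Fin (2 * n + 2)) Bool) :
    GU n κ (PopE n S 1 (2 * i + 1) g) = PopE n S 1 (2 * i + 1) (GU n κ g) := by
  funext s
  unfold GU
  rw [PopE_apply, PopE_apply]
  split_ifs with hs
  · have h1 := fun x => U13_chg n κ i hi hκ s x hs
    simp only [h1]
    rw [Fintype.sum_bool, Fintype.sum_bool]
    ring
  · rw [mul_zero]

end

section
open Polynomial Pool.Agent.H207R2.BL Pool.Agent.H110R3.BP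

theorem U14_U (n : ℕ) (κ : ℕ → Bool) (i : ℕ) (hi : i < n) (hκ : κ i ≠ κ (i + 1))
    (s : Fin (2 * n + 2) → Bool)
    (hs : s (st n (2 * i + 1 + 1)) = !(s (st n (2 * i + 1)))) (x : Bool) :
    U n κ (chg n (2 * i + 1) s x) =
      (if x = s (st n (2 * i + 1)) then (1 : ℝ) else -1) * U n κ s := by
  by_cases hx : x = s (st n (2 * i + 1))
  · rw [if_pos hx, hx, chg_self n (2 * i + 1) (by omega) s hs, one_mul]
  · rw [if_neg hx]
    have hx' : x = !(s (st n (2 * i + 1))) := by
      revert hx
      cases x <;> cases s (st n (2 * i + 1)) <;> simp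
    have h := T28_U n κ i hi hκ s
    have e : chg n (2 * i + 1) s x =
        Function.update (Function.update s (st n (2 * i + 1)) (!(s (st n (2 * i + 1)))))
          (st n (2 * i + 2)) (!(s (st n (2 * i + 2)))) := by
      unfold chg
      have e2 : s (st n (2 * i + 2)) = !(s (st n (2 * i + 1))) := hs
      rw [hx', e2]
    rw [e, h]
    ring

theorem gauge_diff (n : ℕ) (S : ℤ → ℝ) (κ : ℕ → Bool) (i : ℕ) (hi : i < n)
    (hκ : κ i ≠ κ (i + 1)) (g : Fn (Fin (2 * n + 2)) Bool) :
    GU n κ (PopE n S 1 (2 * i + 1) g) = PopE n S (-1) (2 * i + 1) (GU n κ g) := by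
  funext s
  show U n κ s * (PopE n S 1 (2 * i + 1) g s) = _
  rw [PopE_apply, PopE_apply]
  by_cases hs : s (st n (2 * i + 1 + 1)) = !(s (st n (2 * i + 1)))
  · rw [if_pos hs, if_pos hs]
    rw [mul_left_comm]
    congr 1
    rw [Finset.mul_sum]
    refine Finset.sum_congr rfl (fun x _ => ?_)
    show _ = wt S (hgt n s (2 * i + 1)) x * ((if x = s (st n (2 * i + 1)) then 1 else -1) *
      (U n κ (chg n (2 * i + 1) s x) * g (chg n (2 * i + 1) s x)))
    rw [U14_U n κ i hi hκ s hs x]
    by_cases hx : x = s (st n (2 * i + 1))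
    · simp only [if_pos hx]
      ring
    · simp only [if_neg hx]
      ring
  · rw [if_neg hs, if_neg hs, mul_zero]

end

section
open Polynomial Pool.Agent.H207R2.BL Pool.Agent.H110R3.BP

/-- all conditions except the one on the height `j+1` -/
def U15_A (n j : ℕ) (η : ℕ → ℕ) (s : Fin (2 * n + 2) → Bool) : Prop :=
  s (st n 0) = false ∧ ∀ l ∈ Finset.Icc 1 (2 * n + 2), l ≠ j + 1 → (hgt n s l).natAbs = η l

/-- product of signs -/
noncomputable def U15_P (n : ℕ) (β : ℕ → ℕ) (s : Fin (2 * n + 2) → Bool) : ℝ :=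
  ∏ i ∈ Finset.range (n + 1), ((SignType.sign (hgt n s (2 * i + 2)) : ℤ) : ℝ) ^ β i

open Classical in
theorem U15_gen_upd (n j : ℕ) (hj : j ≤ 2 * n) (η β : ℕ → ℕ) (ζ : ℕ)
    (s : Fin (2 * n + 2) → Bool) :
    gen n (Function.update η (j + 1) ζ) β s =
      if U15_A n j η s ∧ (hgt n s (j + 1)).natAbs = ζ then U15_P n β s else 0 := by
  unfold gen U15_P
  have h : (s (st n 0) = false ∧ ∀ l ∈ Finset.Icc 1 (2 * n + 2),
      (hgt n s l).natAbs = Function.update η (j + 1) ζ l) ↔
      (U15_A n j η s ∧ (hgt n s (j + 1)).natAbs = ζ) := by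
    unfold U15_A
    constructor
    · rintro ⟨h0, h1⟩
      refine ⟨⟨h0, fun l hl hlj => ?_⟩, ?_⟩
      · rw [h1 l hl, Function.update_of_ne hlj]
      · rw [h1 (j + 1) (Finset.mem_Icc.2 ⟨by omega, by omega⟩), Function.update_self]
    · rintro ⟨⟨h0, h1⟩, h2⟩
      refine ⟨h0, fun l hl => ?_⟩
      by_cases hlj : l = j + 1
      · subst hlj
        rw [Function.update_self, h2]
      · rw [Function.update_of_ne hlj, h1 l hl hlj]
  by_cases h' : U15_A n j η s ∧ (hgt n s (j + 1)).natAbs = ζ
  · rw [if_pos (h.2 h'), if_pos h']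
  · rw [if_neg (fun h'' => h' (h.1 h'')), if_neg h']

open Classical in
theorem U15_gen_chg (n i : ℕ) (hi : 1 ≤ i) (hin : i ≤ n) (η β : ℕ → ℕ)
    (s : Fin (2 * n + 2) → Bool) (x : Bool) (hs : s (st n (2 * i + 1)) = !(s (st n (2 * i)))) :
    gen n η β (chg n (2 * i) s x) =
      if U15_A n (2 * i) η s ∧ (hgt n s (2 * i) + (if x then 1 else -1)).natAbs = η (2 * i + 1)
        then U15_P n β s else 0 := by
  have hj : 2 * i ≤ 2 * n := by omega
  have hg : ∀ l, l ≠ 2 * i + 1 → l ≤ 2 * n + 2 →
      hgt n (chg n (2 * i) s x) l = hgt n s l := by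
    intro l hl hl2
    rcases Nat.lt_or_ge l (2 * i + 1) with h | h
    · exact hgt_chg_le n (2 * i) hj s x l (by omega)
    · exact hgt_chg_ge n (2 * i) hj s x l hs (by omega) hl2
  have hm := hgt_chg_mid n (2 * i) hj s x
  have h0 : chg n (2 * i) s x (st n 0) = s (st n 0) :=
    (chg_at n (2 * i) hj s x).2.2 0 (by omega) (by omega) (by omega)
  have hP : (∏ k ∈ Finset.range (n + 1),
      ((SignType.sign (hgt n (chg n (2 * i) s x) (2 * k + 2)) : ℤ) : ℝ) ^ β k) = U15_P n β s := by
    unfold U15_P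
    refine Finset.prod_congr rfl fun k hk => ?_
    rw [Finset.mem_range] at hk
    rw [hg (2 * k + 2) (by omega) (by omega)]
  have hc : (chg n (2 * i) s x (st n 0) = false ∧ ∀ l ∈ Finset.Icc 1 (2 * n + 2),
      (hgt n (chg n (2 * i) s x) l).natAbs = η l) ↔
      (U15_A n (2 * i) η s ∧
        (hgt n s (2 * i) + (if x then 1 else -1)).natAbs = η (2 * i + 1)) := by
    unfold U15_A
    rw [h0]
    constructor
    · rintro ⟨h1, h2⟩
      refine ⟨⟨h1, fun l hl hlj => ?_⟩, ?_⟩
      · rw [← h2 l hl, hg l hlj (Finset.mem_Icc.1 hl).2]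
      · rw [← h2 (2 * i + 1) (Finset.mem_Icc.2 ⟨by omega, by omega⟩), hm]
    · rintro ⟨⟨h1, h2⟩, h3⟩
      refine ⟨h1, fun l hl => ?_⟩
      by_cases hlj : l = 2 * i + 1
      · subst hlj
        rw [hm, h3]
      · rw [hg l hlj (Finset.mem_Icc.1 hl).2, h2 l hl hlj]
  unfold gen
  rw [hP]
  by_cases h' : (U15_A n (2 * i) η s ∧
        (hgt n s (2 * i) + (if x then 1 else -1)).natAbs = η (2 * i + 1))
  · rw [if_pos (hc.2 h'), if_pos h']
  · rw [if_neg (fun h'' => h' (hc.1 h'')), if_neg h']

/-- the modified exponents -/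
def U15_b (i : ℕ) (β : ℕ → ℕ) (k : ℕ) : ℕ :=
  β k + (if k = i - 1 then 1 else 0) + (if k = i then 1 else 0)

theorem U15_P_b (n i : ℕ) (hi : 1 ≤ i) (hin : i ≤ n) (β : ℕ → ℕ) (s : Fin (2 * n + 2) → Bool) :
    U15_P n (U15_b i β) s = U15_P n β s *
      (((SignType.sign (hgt n s (2 * i)) : ℤ) : ℝ) *
        ((SignType.sign (hgt n s (2 * i + 2)) : ℤ) : ℝ)) := by
  unfold U15_P U15_b
  have h1 : ∀ k : ℕ, ((SignType.sign (hgt n s (2 * k + 2)) : ℤ) : ℝ) ^
      (β k + (if k = i - 1 then 1 else 0) + (if k = i then 1 else 0)) =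
      ((SignType.sign (hgt n s (2 * k + 2)) : ℤ) : ℝ) ^ β k *
      (if k = i - 1 then ((SignType.sign (hgt n s (2 * i)) : ℤ) : ℝ) else 1) *
      (if k = i then ((SignType.sign (hgt n s (2 * i + 2)) : ℤ) : ℝ) else 1) := by
    intro k
    rw [pow_add, pow_add]
    congr 1
    · congr 1
      by_cases h : k = i - 1
      · rw [if_pos h, if_pos h, pow_one, show 2 * k + 2 = 2 * i by omega]
      · rw [if_neg h, if_neg h, pow_zero]
    · by_cases h : k = i
      · rw [if_pos h, if_pos h, pow_one, h]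
      · rw [if_neg h, if_neg h, pow_zero]
  simp only [h1]
  rw [Finset.prod_mul_distrib, Finset.prod_mul_distrib, Finset.prod_ite_eq', Finset.prod_ite_eq',
    if_pos (Finset.mem_range.2 (by omega)), if_pos (Finset.mem_range.2 (by omega)), mul_assoc]

/-- weight of the sum over the new step -/
noncomputable def U15_K (S : ℤ → ℝ) (b e : ℕ) : ℝ :=
  if e + 1 = b ∨ e = b + 1 then Real.sqrt (S e / S b) else 0

theorem U15_K_nonneg (S : ℤ → ℝ) (b e : ℕ) : 0 ≤ U15_K S b e := by
  unfold U15_K
  split_ifs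
  · exact Real.sqrt_nonneg _
  · exact le_refl _

theorem U15_wt {δ : ℝ} {S : ℤ → ℝ} (hS : Eig δ S) (h : ℤ) (x : Bool) :
    wt S h x = Real.sqrt (S (((h + (if x then 1 else -1)).natAbs : ℕ) : ℤ) /
      S ((h.natAbs : ℕ) : ℤ)) := by
  unfold wt
  rw [← hS.natAbs, ← hS.natAbs]
  cases x
  · simp [sub_eq_add_neg]
  · simp

theorem U15_sum {δ : ℝ} {S : ℤ → ℝ} (hS : Eig δ S) (h : ℤ) (b e : ℕ) (hb : h.natAbs = b)
    (hb1 : 1 ≤ b) :
    ∑ x : Bool, wt S h x * (if (h + (if x then 1 else -1)).natAbs = e then (1 : ℝ) else 0) =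
      U15_K S b e := by
  rw [Fintype.sum_bool, U15_wt hS, U15_wt hS, hb]
  simp only [if_true, Bool.false_eq_true, if_false]
  unfold U15_K
  rcases Int.lt_or_gt_of_ne (show h ≠ 0 by omega) with hneg | hpos
  · by_cases h1 : e + 1 = b
    · rw [if_pos (Or.inl h1), if_pos (by omega : (h + 1).natAbs = e),
        if_neg (by omega : ¬ (h + -1).natAbs = e), mul_one, mul_zero, add_zero,
        show (h + 1).natAbs = e by omega]
    · by_cases h2 : e = b + 1
      · rw [if_pos (Or.inr h2), if_neg (by omega : ¬ (h + 1).natAbs = e),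
          if_pos (by omega : (h + -1).natAbs = e), mul_one, mul_zero, zero_add,
          show (h + -1).natAbs = e by omega]
      · rw [if_neg (by omega : ¬ (e + 1 = b ∨ e = b + 1)), if_neg (by omega : ¬ (h + 1).natAbs = e),
          if_neg (by omega : ¬ (h + -1).natAbs = e), mul_zero, mul_zero, zero_add]
  · by_cases h1 : e + 1 = b
    · rw [if_pos (Or.inl h1), if_neg (by omega : ¬ (h + 1).natAbs = e),
        if_pos (by omega : (h + -1).natAbs = e), mul_one, mul_zero, zero_add,
        show (h + -1).natAbs = e by omega]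
    · by_cases h2 : e = b + 1
      · rw [if_pos (Or.inr h2), if_pos (by omega : (h + 1).natAbs = e),
          if_neg (by omega : ¬ (h + -1).natAbs = e), mul_one, mul_zero, add_zero,
          show (h + 1).natAbs = e by omega]
      · rw [if_neg (by omega : ¬ (e + 1 = b ∨ e = b + 1)), if_neg (by omega : ¬ (h + 1).natAbs = e),
          if_neg (by omega : ¬ (h + -1).natAbs = e), mul_zero, mul_zero, zero_add]

/-- the term for the new absolute value `ζ` -/
noncomputable def U15_T (n i : ℕ) (S : ℤ → ℝ) (η β : ℕ → ℕ) (ζ : ℕ) :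
    Fn (Fin (2 * n + 2)) Bool :=
  (Real.sqrt (S ζ / S (η (2 * i))) * U15_K S (η (2 * i)) (η (2 * i + 1)) / 2) •
    (gen n (Function.update η (2 * i + 1) ζ) β +
      gen n (Function.update η (2 * i + 1) ζ) (U15_b i β))

theorem U15_T_cone (n i : ℕ) (S : ℤ → ℝ) (η β : ℕ → ℕ) (ζ : ℕ) : Cone n (U15_T n i S η β ζ) := by
  unfold U15_T
  refine Cone.smul _ _ ?_ (Cone.add _ _ (Cone.gen _ _) (Cone.gen _ _))
  have h1 := U15_K_nonneg S (η (2 * i)) (η (2 * i + 1))
  have h2 := Real.sqrt_nonneg (S ζ / S (η (2 * i)))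
  positivity

theorem U15_eq (n : ℕ) {δ : ℝ} {S : ℤ → ℝ} (hS : Eig δ S) (i : ℕ) (hi : 1 ≤ i) (hin : i ≤ n)
    (η β : ℕ → ℕ) (hb : 1 ≤ η (2 * i)) (he : η (2 * i + 2) = η (2 * i)) :
    PopE n S 1 (2 * i) (gen n η β) =
      U15_T n i S η β (η (2 * i) - 1) + U15_T n i S η β (η (2 * i) + 1) := by
  classical
  funext s
  have hodd : (hgt n s (2 * i)) % 2 = 1 := by
    rw [hgt_parity]
    push_cast
    omega
  have hstep1 := hgt_succ n s (2 * i)
  have hstep2 := hgt_succ n s (2 * i + 1)
  rw [Pi.add_apply]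
  unfold U15_T
  rw [Pi.smul_apply, Pi.smul_apply, Pi.add_apply, Pi.add_apply,
    U15_gen_upd n (2 * i) (by omega), U15_gen_upd n (2 * i) (by omega),
    U15_gen_upd n (2 * i) (by omega), U15_gen_upd n (2 * i) (by omega), U15_P_b n i hi hin,
    PopE_apply]
  by_cases hA : U15_A n (2 * i) η s
  swap
  · have hz : ∀ p : Prop, ¬ (U15_A n (2 * i) η s ∧ p) := fun p h => hA h.1
    rw [if_neg (hz _), if_neg (hz _), if_neg (hz _), if_neg (hz _), add_zero, smul_zero,
      smul_zero, add_zero]
    by_cases hs : s (st n (2 * i + 1)) = !(s (st n (2 * i)))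
    · rw [if_pos hs, Finset.sum_eq_zero, mul_zero]
      intro x _
      rw [U15_gen_chg n i hi hin η β s x hs, if_neg (hz _), mul_zero, mul_zero]
    · rw [if_neg hs]
  have hb1 : (hgt n s (2 * i)).natAbs = η (2 * i) :=
    hA.2 (2 * i) (Finset.mem_Icc.2 ⟨by omega, by omega⟩) (by omega)
  have hb2 : (hgt n s (2 * i + 2)).natAbs = η (2 * i) := by
    rw [← he]
    exact hA.2 (2 * i + 2) (Finset.mem_Icc.2 ⟨by omega, by omega⟩) (by omega)
  by_cases hs : s (st n (2 * i + 1)) = !(s (st n (2 * i)))
  · rw [if_pos hs]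
    have h22 : hgt n s (2 * i + 2) = hgt n s (2 * i) := by
      rw [show 2 * i + 2 = 2 * i + 1 + 1 by ring, hstep2, hstep1, hs]
      cases s (st n (2 * i)) <;> simp
    have hsign : ((SignType.sign (hgt n s (2 * i)) : ℤ) : ℝ) *
        ((SignType.sign (hgt n s (2 * i + 2)) : ℤ) : ℝ) = 1 := by
      rw [h22]
      rcases Int.lt_or_gt_of_ne (show hgt n s (2 * i) ≠ 0 by omega) with h | h
      · rw [sign_neg h]; simp
      · rw [sign_pos h]; simp
    rw [hsign, mul_one]
    have hx : ∀ x : Bool, wt S (hgt n s (2 * i)) x *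
        ((if x = s (st n (2 * i)) then 1 else 1) * gen n η β (chg n (2 * i) s x)) =
        (wt S (hgt n s (2 * i)) x * (if (hgt n s (2 * i) +
          (if x then 1 else -1)).natAbs = η (2 * i + 1) then (1 : ℝ) else 0)) * U15_P n β s := by
      intro x
      rw [U15_gen_chg n i hi hin η β s x hs, ite_self, one_mul]
      by_cases h : (hgt n s (2 * i) + (if x then 1 else -1)).natAbs = η (2 * i + 1)
      · rw [if_pos ⟨hA, h⟩, if_pos h, mul_one]
      · rw [if_neg (fun h' => h h'.2), if_neg h]
        simp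
    rw [Finset.sum_congr rfl fun x _ => hx x, ← Finset.sum_mul,
      U15_sum hS _ _ _ hb1 hb, U15_wt hS, hb1]
    have hmid : hgt n s (2 * i + 1) = hgt n s (2 * i) +
        (if s (st n (2 * i)) then 1 else -1) := hstep1
    rw [← hmid]
    have h3 : (hgt n s (2 * i + 1)).natAbs = η (2 * i) - 1 ∨
        (hgt n s (2 * i + 1)).natAbs = η (2 * i) + 1 := by
      rw [hmid]
      split_ifs <;> omega
    rcases h3 with h3 | h3
    · rw [if_pos ⟨hA, h3⟩, if_neg (fun h => by have := h.2; omega), h3]
      simp only [smul_eq_mul]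
      ring
    · rw [if_neg (fun h => by have := h.2; omega), if_pos ⟨hA, h3⟩, h3]
      simp only [smul_eq_mul]
      ring
  · rw [if_neg hs]
    have hss : s (st n (2 * i + 1)) = s (st n (2 * i)) := by
      cases h1 : s (st n (2 * i + 1)) <;> cases h2 : s (st n (2 * i)) <;> simp_all
    have hsign : ((SignType.sign (hgt n s (2 * i)) : ℤ) : ℝ) *
        ((SignType.sign (hgt n s (2 * i + 2)) : ℤ) : ℝ) = -1 := by
      have h22 : hgt n s (2 * i + 2) = hgt n s (2 * i) +
          (if s (st n (2 * i)) then 2 else -2) := by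
        rw [show 2 * i + 2 = 2 * i + 1 + 1 by ring, hstep2, hstep1, hss]
        cases s (st n (2 * i)) <;> simp <;> ring
      cases h2 : s (st n (2 * i))
      · rw [h2] at h22
        simp only [Bool.false_eq_true, if_false] at h22
        have e1 : hgt n s (2 * i) = 1 := by omega
        have e2 : hgt n s (2 * i + 2) = -1 := by omega
        rw [e1, e2]
        simp
      · rw [h2] at h22
        simp only [if_true] at h22
        have e1 : hgt n s (2 * i) = -1 := by omega
        have e2 : hgt n s (2 * i + 2) = 1 := by omega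
        rw [e1, e2]
        simp
    rw [hsign]
    split_ifs <;> simp

theorem gen_C (n : ℕ) {δ : ℝ} {S : ℤ → ℝ} (hS : Eig δ S) (i : ℕ) (hi : 1 ≤ i) (hin : i ≤ n)
    (η β : ℕ → ℕ) : Cone n (PopE n S 1 (2 * i) (gen n η β)) := by
  classical
  by_cases hb : 1 ≤ η (2 * i) ∧ η (2 * i + 2) = η (2 * i)
  · rw [U15_eq n hS i hi hin η β hb.1 hb.2]
    exact Cone.add _ _ (U15_T_cone _ _ _ _ _ _) (U15_T_cone _ _ _ _ _ _)
  · have h0 : PopE n S 1 (2 * i) (gen n η β) = 0 := by
      funext s
      rw [PopE_apply]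
      split_ifs with hs
      · rw [Finset.sum_eq_zero]
        · simp
        · intro x _
          have hz : ¬ (U15_A n (2 * i) η s ∧
              (hgt n s (2 * i) + (if x then 1 else -1)).natAbs = η (2 * i + 1)) := by
            rintro ⟨hA, -⟩
            apply hb
            have hodd : (hgt n s (2 * i)) % 2 = 1 := by
              rw [hgt_parity]
              push_cast
              omega
            have hb1 : (hgt n s (2 * i)).natAbs = η (2 * i) :=
              hA.2 (2 * i) (Finset.mem_Icc.2 ⟨by omega, by omega⟩) (by omega)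
            have hb2 : (hgt n s (2 * i + 2)).natAbs = η (2 * i + 2) :=
              hA.2 (2 * i + 2) (Finset.mem_Icc.2 ⟨by omega, by omega⟩) (by omega)
            have hstep1 := hgt_succ n s (2 * i)
            have hstep2 := hgt_succ n s (2 * i + 1)
            have h22 : hgt n s (2 * i + 2) = hgt n s (2 * i) := by
              rw [show 2 * i + 2 = 2 * i + 1 + 1 by ring, hstep2, hstep1, hs]
              cases s (st n (2 * i)) <;> simp
            rw [h22] at hb2
            omega
          rw [U15_gen_chg n i hi hin η β s x hs, if_neg hz, mul_zero, mul_zero]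
      · rfl
    rw [h0]
    exact Cone.zero

end

section
open Polynomial Pool.Agent.H207R2.BL Pool.Agent.H110R3.BP

/-- the conditions away from the height `2 i + 1` -/
def U16_P (n i : ℕ) (s : Fin (2 * n + 2) → Bool) : Prop :=
  s (st n 0) = false ∧ ∀ l ∈ Finset.Icc 1 (2 * n + 2), l ≠ 2 * i + 1 →
    (hgt n s l).natAbs = eta0 l

theorem U16_iff (n i : ℕ) (hin : i ≤ n) (η : ℕ → ℕ)
    (hη : ∀ l, l ≠ 2 * i + 1 → η l = eta0 l) (s : Fin (2 * n + 2) → Bool) :
    (s (st n 0) = false ∧ ∀ l ∈ Finset.Icc 1 (2 * n + 2), (hgt n s l).natAbs = η l) ↔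
      (U16_P n i s ∧ (hgt n s (2 * i + 1)).natAbs = η (2 * i + 1)) := by
  constructor
  · rintro ⟨h1, h2⟩
    refine ⟨⟨h1, fun l hl hl2 => ?_⟩, h2 _ (Finset.mem_Icc.2 ⟨by omega, by omega⟩)⟩
    rw [← hη l hl2]
    exact h2 l hl
  · rintro ⟨⟨h1, h2⟩, h3⟩
    refine ⟨h1, fun l hl => ?_⟩
    by_cases hl2 : l = 2 * i + 1
    · rw [hl2]
      exact h3
    · rw [hη l hl2]
      exact h2 l hl hl2

theorem U16_P_chg (n i : ℕ) (hi : 1 ≤ i) (hin : i ≤ n) (s : Fin (2 * n + 2) → Bool) (x : Bool)
    (hs : s (st n (2 * i + 1)) = !(s (st n (2 * i)))) :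
    U16_P n i (chg n (2 * i) s x) ↔ U16_P n i s := by
  have h0 : chg n (2 * i) s x (st n 0) = s (st n 0) :=
    (chg_at n (2 * i) (by omega) s x).2.2 0 (by omega) (by omega) (by omega)
  have h1 : ∀ l ∈ Finset.Icc 1 (2 * n + 2), l ≠ 2 * i + 1 →
      hgt n (chg n (2 * i) s x) l = hgt n s l := by
    intro l hl hl2
    rw [Finset.mem_Icc] at hl
    rcases Nat.lt_or_ge (2 * i + 1) l with h | h
    · exact hgt_chg_ge n (2 * i) (by omega) s x l hs (by omega) hl.2
    · exact hgt_chg_le n (2 * i) (by omega) s x l (by omega)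
  unfold U16_P
  rw [h0]
  constructor
  · rintro ⟨a, b⟩
    exact ⟨a, fun l hl hl2 => by rw [← h1 l hl hl2]; exact b l hl hl2⟩
  · rintro ⟨a, b⟩
    exact ⟨a, fun l hl hl2 => by rw [h1 l hl hl2]; exact b l hl hl2⟩

theorem U16_eta (i : ℕ) (hi : 1 ≤ i) : eta0 (2 * i) = 1 ∧ eta0 (2 * i + 1) = 2 ∧
    eta0 (2 * i + 2) = 1 := by
  refine ⟨?_, ?_, ?_⟩
  · rw [eta0, if_neg (by omega), if_pos (by exact even_two_mul i)]
  · rw [eta0, if_neg (by omega), if_neg (by simp)]
  · rw [eta0, if_neg (by omega), if_pos (by exact ⟨i + 1, by ring⟩)]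

open Classical in
theorem U16_gE (n i : ℕ) (hi : 1 ≤ i) (hin : i ≤ n) (s : Fin (2 * n + 2) → Bool) :
    gE n s = if U16_P n i s ∧ (hgt n s (2 * i + 1)).natAbs = 2 then 1 else 0 := by
  have h := U16_iff n i hin eta0 (fun _ _ => rfl) s
  rw [(U16_eta i hi).2.1] at h
  rw [gE, gen]
  simp only [h, pow_zero, Finset.prod_const_one]

/-- the pattern with the height `2 i + 1` equal to `0` -/
def U16_eta' (i : ℕ) : ℕ → ℕ := Function.update eta0 (2 * i + 1) 0

/-- the two signs -/
def U16_beta (i : ℕ) : ℕ → ℕ := fun k => if k = i - 1 ∨ k = i then 1 else 0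

open Classical in
theorem U16_g0 (n i : ℕ) (hin : i ≤ n) (s : Fin (2 * n + 2) → Bool) :
    gen n (U16_eta' i) (fun _ => 0) s =
      if U16_P n i s ∧ (hgt n s (2 * i + 1)).natAbs = 0 then 1 else 0 := by
  have h := U16_iff n i hin (U16_eta' i) (fun l hl => by
    rw [U16_eta', Function.update_of_ne hl]) s
  rw [show U16_eta' i (2 * i + 1) = 0 by rw [U16_eta', Function.update_self]] at h
  rw [gen]
  simp only [h, pow_zero, Finset.prod_const_one]

open Classical in
theorem U16_g1 (n i : ℕ) (hi : 1 ≤ i) (hin : i ≤ n) (s : Fin (2 * n + 2) → Bool) :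
    gen n (U16_eta' i) (U16_beta i) s =
      if U16_P n i s ∧ (hgt n s (2 * i + 1)).natAbs = 0 then
        ((SignType.sign (hgt n s (2 * i)) : ℤ) : ℝ) *
          ((SignType.sign (hgt n s (2 * i + 2)) : ℤ) : ℝ) else 0 := by
  have h := U16_iff n i hin (U16_eta' i) (fun l hl => by
    rw [U16_eta', Function.update_of_ne hl]) s
  rw [show U16_eta' i (2 * i + 1) = 0 by rw [U16_eta', Function.update_self]] at h
  have hp : ∏ k ∈ Finset.range (n + 1),
      ((SignType.sign (hgt n s (2 * k + 2)) : ℤ) : ℝ) ^ (U16_beta i k) =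
        ((SignType.sign (hgt n s (2 * i)) : ℤ) : ℝ) *
          ((SignType.sign (hgt n s (2 * i + 2)) : ℤ) : ℝ) := by
    have h1 : ∏ k ∈ Finset.range (n + 1),
        ((SignType.sign (hgt n s (2 * k + 2)) : ℤ) : ℝ) ^ (U16_beta i k) =
        ∏ k ∈ ({i - 1, i} : Finset ℕ),
        ((SignType.sign (hgt n s (2 * k + 2)) : ℤ) : ℝ) ^ (U16_beta i k) := by
      symm
      apply Finset.prod_subset
      · intro k hk
        simp only [Finset.mem_insert, Finset.mem_singleton] at hk
        rw [Finset.mem_range]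
        omega
      · intro k _ hk
        simp only [Finset.mem_insert, Finset.mem_singleton] at hk
        rw [U16_beta, if_neg hk, pow_zero]
    rw [h1, Finset.prod_pair (by omega)]
    have h2 : U16_beta i (i - 1) = 1 := by
      rw [U16_beta, if_pos (Or.inl rfl)]
    have h3 : U16_beta i i = 1 := by
      rw [U16_beta, if_pos (Or.inr rfl)]
    rw [h2, h3, pow_one, pow_one, show 2 * (i - 1) + 2 = 2 * i by omega]
  rw [gen, hp]
  simp only [h]

theorem gE_C (n : ℕ) {δ : ℝ} {S : ℤ → ℝ} (hS : Eig δ S) (i : ℕ) (hi : 1 ≤ i) (hin : i ≤ n) :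
    Cone1 n (PopE n S 1 (2 * i) (gE n)) := by
  classical
  set c : ℝ := Real.sqrt (S 2 / S 1) * Real.sqrt (S 0 / S 1) with hc
  have hc0 : 0 ≤ c := mul_nonneg (Real.sqrt_nonneg _) (Real.sqrt_nonneg _)
  have h21 : 0 < S 2 / S 1 := div_pos (hS.pos 2) (hS.pos 1)
  have hm1 : S (-1) = S 1 := hS.even 1
  have hm2 : S (-2) = S 2 := hS.even 2
  refine ⟨S 2 / S 1, (c / 2) • gen n (U16_eta' i) (fun _ => 0) +
    (c / 2) • gen n (U16_eta' i) (U16_beta i), h21,
    Cone.add _ _ (Cone.smul _ _ (by positivity) (Cone.gen _ _))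
      (Cone.smul _ _ (by positivity) (Cone.gen _ _)), ?_⟩
  funext s
  simp only [Pi.add_apply, Pi.smul_apply, smul_eq_mul]
  rw [PopE_apply]
  rw [U16_gE n i hi hin s, U16_g0 n i hin s, U16_g1 n i hi hin s]
  have hh1 := hgt_succ n s (2 * i)
  have hh2 := hgt_succ n s (2 * i + 1)
  rw [show 2 * i + 1 + 1 = 2 * i + 2 by ring] at hh2
  obtain ⟨he1, he2, he3⟩ := U16_eta i hi
  by_cases hP : U16_P n i s
  · have ha1 : (hgt n s (2 * i)).natAbs = 1 := by
      rw [← he1]
      exact hP.2 _ (Finset.mem_Icc.2 ⟨by omega, by omega⟩) (by omega)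
    have ha3 : (hgt n s (2 * i + 2)).natAbs = 1 := by
      rw [← he3]
      exact hP.2 _ (Finset.mem_Icc.2 ⟨by omega, by omega⟩) (by omega)
    by_cases hs : s (st n (2 * i + 1)) = !(s (st n (2 * i)))
    · rw [if_pos hs]
      have hgx : ∀ x : Bool, gE n (chg n (2 * i) s x) =
          if (hgt n s (2 * i) + (if x then 1 else -1)).natAbs = 2 then 1 else 0 := by
        intro x
        rw [U16_gE n i hi hin, U16_P_chg n i hi hin s x hs, hgt_chg_mid n (2 * i) (by omega) s x]
        simp only [hP, true_and]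
      rw [Fintype.sum_bool, hgx, hgx]
      rw [hs] at hh2
      rcases Int.natAbs_eq (hgt n s (2 * i)) with h | h <;> rw [ha1] at h
      · have h' : hgt n s (2 * i) = 1 := by simpa using h
        cases hb : s (st n (2 * i))
        · have e1 : hgt n s (2 * i + 1) = 0 := by
            rw [hh1, hb, h']; simp
          have e2 : hgt n s (2 * i + 2) = 1 := by
            rw [hh2, hb, e1]; simp
          simp only [hP, e1, e2, h']
          have w1 : wt S 1 true = Real.sqrt (S 2 / S 1) := by
            simp only [wt]; norm_num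
          have w2 : wt S 1 false = Real.sqrt (S 0 / S 1) := by
            simp only [wt]; norm_num
          rw [w1, w2]
          norm_num
          rw [hc]
          ring
        · have e1 : hgt n s (2 * i + 1) = 2 := by
            rw [hh1, hb, h']; simp
          have e2 : hgt n s (2 * i + 2) = 1 := by
            rw [hh2, hb, e1]; simp
          simp only [hP, e1, e2, h']
          have w1 : wt S 1 true = Real.sqrt (S 2 / S 1) := by
            simp only [wt]; norm_num
          have w2 : wt S 1 false = Real.sqrt (S 0 / S 1) := by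
            simp only [wt]; norm_num
          rw [w1, w2]
          norm_num
          exact Real.mul_self_sqrt h21.le
      · have h' : hgt n s (2 * i) = -1 := by simpa using h
        have w1 : wt S (-1) false = Real.sqrt (S 2 / S 1) := by
          simp only [wt]; norm_num [hm1, hm2]
        have w2 : wt S (-1) true = Real.sqrt (S 0 / S 1) := by
          simp only [wt]; norm_num [hm1, hm2]
        cases hb : s (st n (2 * i))
        · have e1 : hgt n s (2 * i + 1) = -2 := by
            rw [hh1, hb, h']; simp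
          have e2 : hgt n s (2 * i + 2) = -1 := by
            rw [hh2, hb, e1]; simp
          simp only [hP, e1, e2, h']
          rw [w1, w2]
          norm_num
          exact Real.mul_self_sqrt h21.le
        · have e1 : hgt n s (2 * i + 1) = 0 := by
            rw [hh1, hb, h']; simp
          have e2 : hgt n s (2 * i + 2) = -1 := by
            rw [hh2, hb, e1]; simp
          simp only [hP, e1, e2, h']
          rw [w1, w2]
          norm_num
          rw [hc]
          ring
    · rw [if_neg hs]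
      have hs' : s (st n (2 * i + 1)) = s (st n (2 * i)) := by
        cases h1 : s (st n (2 * i + 1)) <;> cases h2 : s (st n (2 * i)) <;> simp_all
      rw [hs'] at hh2
      rcases Int.natAbs_eq (hgt n s (2 * i)) with h | h <;> rw [ha1] at h
      · have h' : hgt n s (2 * i) = 1 := by simpa using h
        cases hb : s (st n (2 * i))
        · have e1 : hgt n s (2 * i + 1) = 0 := by
            rw [hh1, hb, h']; simp
          have e2 : hgt n s (2 * i + 2) = -1 := by
            rw [hh2, hb, e1]; simp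
          simp only [hP, e1, e2, h']
          norm_num
        · exfalso
          have e1 : hgt n s (2 * i + 1) = 2 := by
            rw [hh1, hb, h']; simp
          have e2 : hgt n s (2 * i + 2) = 3 := by
            rw [hh2, hb, e1]; simp
          rw [e2] at ha3
          exact absurd ha3 (by decide)
      · have h' : hgt n s (2 * i) = -1 := by simpa using h
        cases hb : s (st n (2 * i))
        · exfalso
          have e1 : hgt n s (2 * i + 1) = -2 := by
            rw [hh1, hb, h']; simp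
          have e2 : hgt n s (2 * i + 2) = -3 := by
            rw [hh2, hb, e1]; simp
          rw [e2] at ha3
          exact absurd ha3 (by decide)
        · have e1 : hgt n s (2 * i + 1) = 0 := by
            rw [hh1, hb, h']; simp
          have e2 : hgt n s (2 * i + 2) = 1 := by
            rw [hh2, hb, e1]; simp
          simp only [hP, e1, e2, h']
          norm_num
  · simp only [hP, false_and, if_false, mul_zero, add_zero]
    split_ifs with hs
    · have hgx : ∀ x : Bool, gE n (chg n (2 * i) s x) = 0 := by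
        intro x
        rw [U16_gE n i hi hin, U16_P_chg n i hi hin s x hs]
        simp only [hP, false_and, if_false]
      simp only [hgx, mul_zero, Finset.sum_const_zero]
    · rfl

end

section
open Polynomial Pool.Agent.H207R2.BL Pool.Agent.H110R3.BP

/-- real sign of an integer -/
noncomputable def U17_sg (h : ℤ) : ℝ := ((SignType.sign h : ℤ) : ℝ)

theorem U17_sg_pos {h : ℤ} (hh : 0 < h) : U17_sg h = 1 := by
  simp [U17_sg, sign_pos hh]

theorem U17_sg_neg {h : ℤ} (hh : h < 0) : U17_sg h = -1 := by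
  simp [U17_sg, sign_neg hh]

/-- the condition on all heights except the height `2i+2` -/
def U17_P (n : ℕ) (η : ℕ → ℕ) (i : ℕ) (s : Fin (2 * n + 2) → Bool) : Prop :=
  s (st n 0) = false ∧ ∀ l ∈ Finset.Icc 1 (2 * n + 2), l ≠ 2 * i + 2 → (hgt n s l).natAbs = η l

open Classical in
/-- the part of the generating function which does not depend on the height `2i+2` -/
noncomputable def U17_G (n : ℕ) (η β : ℕ → ℕ) (i : ℕ) (s : Fin (2 * n + 2) → Bool) : ℝ :=
  if U17_P n η i s then
    ∏ k ∈ (Finset.range (n + 1)).erase i, (U17_sg (hgt n s (2 * k + 2))) ^ β k else 0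

theorem U17_gen (n : ℕ) (η β : ℕ → ℕ) (i : ℕ) (hi : i ≤ n) (s : Fin (2 * n + 2) → Bool) :
    gen n η β s = if (hgt n s (2 * i + 2)).natAbs = η (2 * i + 2) then
      (U17_sg (hgt n s (2 * i + 2))) ^ β i * U17_G n η β i s else 0 := by
  classical
  have hmem : 2 * i + 2 ∈ Finset.Icc 1 (2 * n + 2) := by
    rw [Finset.mem_Icc]; omega
  unfold gen U17_G
  by_cases hP : U17_P n η i s
  · rw [if_pos hP]
    by_cases hb : (hgt n s (2 * i + 2)).natAbs = η (2 * i + 2)
    · rw [if_pos hb, if_pos]
      · have hmi : i ∈ Finset.range (n + 1) := Finset.mem_range.mpr (by omega)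
        rw [← Finset.mul_prod_erase _ _ hmi]
        rfl
      · refine ⟨hP.1, fun l hl => ?_⟩
        by_cases hl2 : l = 2 * i + 2
        · rw [hl2]; exact hb
        · exact hP.2 l hl hl2
    · rw [if_neg hb, if_neg]
      rintro ⟨_, h2⟩
      exact hb (h2 _ hmem)
  · rw [if_neg hP, if_neg]
    · simp
    · rintro ⟨h1, h2⟩
      exact hP ⟨h1, fun l hl _ => h2 l hl⟩

theorem U17_G_upd (n : ℕ) (η β : ℕ → ℕ) (i ζ z : ℕ) (s : Fin (2 * n + 2) → Bool) :
    U17_G n (Function.update η (2 * i + 2) ζ) (Function.update β i z) i s = U17_G n η β i s := by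
  classical
  have h1 : U17_P n (Function.update η (2 * i + 2) ζ) i s ↔ U17_P n η i s := by
    unfold U17_P
    constructor
    · rintro ⟨a, b⟩
      refine ⟨a, fun l hl hl2 => ?_⟩
      have := b l hl hl2
      rwa [Function.update_of_ne hl2] at this
    · rintro ⟨a, b⟩
      refine ⟨a, fun l hl hl2 => ?_⟩
      rw [Function.update_of_ne hl2]
      exact b l hl hl2
  unfold U17_G
  have h2 : ∏ k ∈ (Finset.range (n + 1)).erase i,
      (U17_sg (hgt n s (2 * k + 2))) ^ (Function.update β i z) k =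
      ∏ k ∈ (Finset.range (n + 1)).erase i, (U17_sg (hgt n s (2 * k + 2))) ^ β k := by
    refine Finset.prod_congr rfl (fun k hk => ?_)
    rw [Function.update_of_ne (Finset.ne_of_mem_erase hk)]
  rw [h2]
  by_cases h : U17_P n η i s
  · rw [if_pos h, if_pos (h1.mpr h)]
  · rw [if_neg h, if_neg (fun h' => h (h1.mp h'))]

theorem U17_G_chg (n : ℕ) (η β : ℕ → ℕ) (i : ℕ) (hi : i < n) (s : Fin (2 * n + 2) → Bool)
    (hs : s (st n (2 * i + 1 + 1)) = !(s (st n (2 * i + 1)))) (x : Bool) :
    U17_G n η β i (chg n (2 * i + 1) s x) = U17_G n η β i s := by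
  classical
  have hh : ∀ l, l ≤ 2 * n + 2 → l ≠ 2 * i + 2 →
      hgt n (chg n (2 * i + 1) s x) l = hgt n s l := by
    intro l hl hl2
    rcases Nat.lt_or_ge l (2 * i + 2) with h | h
    · exact hgt_chg_le n (2 * i + 1) (by omega) s x l (by omega)
    · exact hgt_chg_ge n (2 * i + 1) (by omega) s x l hs (by omega) hl
  have h0 : chg n (2 * i + 1) s x (st n 0) = s (st n 0) :=
    (chg_at n (2 * i + 1) (by omega) s x).2.2 0 (by omega) (by omega) (by omega)
  have h1 : U17_P n η i (chg n (2 * i + 1) s x) ↔ U17_P n η i s := by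
    unfold U17_P
    rw [h0]
    constructor
    · rintro ⟨a, b⟩
      refine ⟨a, fun l hl hl2 => ?_⟩
      rw [← hh l (Finset.mem_Icc.mp hl).2 hl2]
      exact b l hl hl2
    · rintro ⟨a, b⟩
      refine ⟨a, fun l hl hl2 => ?_⟩
      rw [hh l (Finset.mem_Icc.mp hl).2 hl2]
      exact b l hl hl2
  unfold U17_G
  have h2 : ∏ k ∈ (Finset.range (n + 1)).erase i,
      (U17_sg (hgt n (chg n (2 * i + 1) s x) (2 * k + 2))) ^ β k =
      ∏ k ∈ (Finset.range (n + 1)).erase i, (U17_sg (hgt n s (2 * k + 2))) ^ β k := by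
    refine Finset.prod_congr rfl (fun k hk => ?_)
    have hk1 := Finset.ne_of_mem_erase hk
    have hk2 := Finset.mem_range.mp (Finset.mem_of_mem_erase hk)
    rw [hh (2 * k + 2) (by omega) (by omega)]
  rw [h2]
  by_cases h : U17_P n η i s
  · rw [if_pos h, if_pos (h1.mpr h)]
  · rw [if_neg h, if_neg (fun h' => h (h1.mp h'))]

theorem U17_PopE (n : ℕ) (S : ℤ → ℝ) (i : ℕ) (hi : i < n) (η β : ℕ → ℕ)
    (s : Fin (2 * n + 2) → Bool) :
    PopE n S 1 (2 * i + 1) (gen n η β) s =
      if s (st n (2 * i + 1 + 1)) = !(s (st n (2 * i + 1))) then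
        wt S (hgt n s (2 * i + 1)) (s (st n (2 * i + 1))) *
        (∑ x : Bool, wt S (hgt n s (2 * i + 1)) x *
          (if (hgt n s (2 * i + 1) + (if x then 1 else -1)).natAbs = η (2 * i + 2) then
            (U17_sg (hgt n s (2 * i + 1) + (if x then 1 else -1))) ^ β i else 0)) *
          U17_G n η β i s
      else 0 := by
  rw [PopE_apply]
  by_cases hs : s (st n (2 * i + 1 + 1)) = !(s (st n (2 * i + 1)))
  · rw [if_pos hs, if_pos hs, mul_assoc]
    congr 1
    rw [Finset.sum_mul]
    refine Finset.sum_congr rfl (fun x _ => ?_)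
    rw [U17_gen n η β i hi.le, U17_G_chg n η β i hi s hs x]
    have hm := hgt_chg_mid n (2 * i + 1) (by omega) s x
    have e : 2 * i + 1 + 1 = 2 * i + 2 := rfl
    rw [e] at hm
    rw [hm]
    simp only [ite_self, one_mul]
    split_ifs <;> simp [mul_assoc]
  · rw [if_neg hs, if_neg hs]

theorem U17_wt {δ : ℝ} {S : ℤ → ℝ} (hS : Eig δ S) (h : ℤ) (x : Bool) :
    wt S h x = Real.sqrt (S (((h + (if x then 1 else -1)).natAbs : ℕ) : ℤ) /
      S ((h.natAbs : ℕ) : ℤ)) := by
  unfold wt
  rw [← hS.natAbs, ← hS.natAbs]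
  cases x <;> simp [sub_eq_add_neg]

theorem U17_notP {n : ℕ} {η β : ℕ → ℕ} {i : ℕ} {s : Fin (2 * n + 2) → Bool}
    (h : ¬ U17_P n η i s) : U17_G n η β i s = 0 := by
  classical
  unfold U17_G
  rw [if_neg h]

theorem gen_J (n : ℕ) {δ : ℝ} {S : ℤ → ℝ} (hS : Eig δ S) (hδ : 0 < δ) (i : ℕ) (hin : i < n)
    (η β : ℕ → ℕ) : Cone n (PopE n S 1 (2 * i + 1) (gen n η β)) := by
  classical
  -- heights at `2i+1`, `2i+2`, `2i+3`
  have hm1 : ∀ s, U17_P n η i s → (hgt n s (2 * i + 1)).natAbs = η (2 * i + 1) := fun s h =>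
    h.2 _ (Finset.mem_Icc.mpr ⟨by omega, by omega⟩) (by omega)
  have hm3 : ∀ s, U17_P n η i s → (hgt n s (2 * i + 3)).natAbs = η (2 * i + 3) := fun s h =>
    h.2 _ (Finset.mem_Icc.mpr ⟨by omega, by omega⟩) (by omega)
  have hs2 : ∀ s, hgt n s (2 * i + 2) = hgt n s (2 * i + 1) +
      (if s (st n (2 * i + 1)) then 1 else -1) := fun s => hgt_succ n s (2 * i + 1)
  have hs3 : ∀ s, hgt n s (2 * i + 3) = hgt n s (2 * i + 2) +
      (if s (st n (2 * i + 1 + 1)) then 1 else -1) := fun s => hgt_succ n s (2 * i + 2)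
  have hpar : ∀ s, (hgt n s (2 * i + 1)) % 2 = 0 := fun s => by
    have := hgt_parity n s (2 * i + 1)
    rw [this]
    push_cast
    omega
  have h13 : ∀ s : Fin (2 * n + 2) → Bool,
      s (st n (2 * i + 1 + 1)) = !(s (st n (2 * i + 1))) →
      hgt n s (2 * i + 3) = hgt n s (2 * i + 1) := by
    intro s h
    rw [hs3, hs2, h]
    cases s (st n (2 * i + 1)) <;> simp
  -- opposite steps
  have hopp : ∀ s, U17_P n η i s → η (2 * i + 1) = η (2 * i + 3) →
      s (st n (2 * i + 1 + 1)) = !(s (st n (2 * i + 1))) := by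
    intro s hP he
    have a1 := hm1 s hP
    have a3 := hm3 s hP
    have a2 := hs2 s
    have a4 := hs3 s
    have ap := hpar s
    rw [← he] at a3
    revert a2 a4
    cases s (st n (2 * i + 1)) <;> cases s (st n (2 * i + 1 + 1)) <;> intro a2 a4 <;>
      simp at a2 a4 ⊢ <;> omega
  by_cases he : η (2 * i + 1) = η (2 * i + 3)
  swap
  · have : PopE n S 1 (2 * i + 1) (gen n η β) = 0 := by
      ext s
      rw [U17_PopE n S i hin η β s]
      simp only [Pi.zero_apply]
      split_ifs with hs
      · rw [U17_notP, mul_zero]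
        intro hP
        exact he (by rw [← hm1 s hP, ← hm3 s hP, h13 s hs])
      · rfl
    rw [this]
    exact Cone.zero
  set a := η (2 * i + 1) with ha
  set b := η (2 * i + 2) with hb
  rcases Nat.eq_zero_or_pos a with ha0 | ha0
  · -- height zero
    by_cases hb1 : b = 1
    · have : PopE n S 1 (2 * i + 1) (gen n η β) =
          ((S 1 / S 0) * (1 + (-1) ^ β i)) • gen n η (Function.update β i 0) := by
        ext s
        rw [U17_PopE n S i hin η β s]
        simp only [Pi.smul_apply, smul_eq_mul]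
        rw [U17_gen n η (Function.update β i 0) i hin.le]
        have hG : U17_G n η (Function.update β i 0) i s = U17_G n η β i s := by
          have := U17_G_upd n η β i (η (2 * i + 2)) 0 s
          rwa [Function.update_eq_self] at this
        rw [hG]
        by_cases hP : U17_P n η i s
        · have hs := hopp s hP he
          rw [if_pos hs]
          have h0 : hgt n s (2 * i + 1) = 0 := by
            have := hm1 s hP
            omega
          have h1 : (hgt n s (2 * i + 2)).natAbs = η (2 * i + 2) := by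
            rw [← hb, hb1, hs2 s, h0]
            cases s (st n (2 * i + 1)) <;> simp
          rw [if_pos h1, h0]
          simp only [Fintype.sum_bool, ← hb, hb1, Function.update_self, pow_zero, one_mul, if_true,
            Bool.false_eq_true, if_false]
          have w : ∀ x : Bool, wt S 0 x = Real.sqrt (S 1 / S 0) := by
            intro x
            rw [U17_wt hS]
            cases x <;> simp
          rw [w, w, w]
          have p1 : U17_sg (0 + 1) = 1 :=
            U17_sg_pos (by simp)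
          have p2 : U17_sg (0 + -1) = -1 :=
            U17_sg_neg (by simp)
          rw [p1, p2]
          have hsq : Real.sqrt (S 1 / S 0) * Real.sqrt (S 1 / S 0) = S 1 / S 0 :=
            Real.mul_self_sqrt (div_nonneg (hS.pos 1).le (hS.pos 0).le)
          simp only [one_pow]
          have n1 : ((0 : ℤ) + 1).natAbs = 1 := by simp
          have n2 : ((0 : ℤ) + -1).natAbs = 1 := by simp
          rw [if_pos n1, if_pos n2]
          have hfin : ∀ x y z w : ℝ, x * x = y → x * (x * 1 + x * z) * w = y * (1 + z) * w := by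
            intro x y z w h
            rw [← h]; ring
          exact hfin _ _ _ _ hsq
        · rw [U17_notP hP]
          simp
      rw [this]
      refine Cone.smul _ _ ?_ (Cone.gen _ _)
      refine mul_nonneg (div_nonneg (hS.pos 1).le (hS.pos 0).le) ?_
      rcases neg_one_pow_eq_or ℝ (β i) with h | h <;> rw [h] <;> norm_num
    · have : PopE n S 1 (2 * i + 1) (gen n η β) = 0 := by
        ext s
        rw [U17_PopE n S i hin η β s]
        simp only [Pi.zero_apply]
        split_ifs with hs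
        · by_cases hP : U17_P n η i s
          · have h0 : hgt n s (2 * i + 1) = 0 := by
              have := hm1 s hP
              omega
            rw [h0, ← hb]
            have n1 : ((0 : ℤ) + 1).natAbs = 1 := by simp
            have n2 : ((0 : ℤ) + -1).natAbs = 1 := by simp
            simp only [Fintype.sum_bool, if_true, Bool.false_eq_true, if_false]
            rw [n1, n2]
            rw [if_neg (Ne.symm hb1), if_neg (Ne.symm hb1)]
            simp
          · rw [U17_notP hP, mul_zero]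
        · rfl
      rw [this]
      exact Cone.zero
  · -- positive height
    set c : ℕ → ℝ := fun ζ => Real.sqrt (S ((ζ : ℕ) : ℤ) / S ((a : ℕ) : ℤ)) with hc
    set K : ℝ := if b = a + 1 ∨ b + 1 = a then 1 else 0 with hK
    have hK0 : 0 ≤ K := by rw [hK]; split_ifs <;> norm_num
    have hc0 : ∀ ζ, 0 ≤ c ζ := fun ζ => Real.sqrt_nonneg _
    have : PopE n S 1 (2 * i + 1) (gen n η β) =
        (c (a + 1) * c b * K) • gen n (Function.update η (2 * i + 2) (a + 1)) β +
        (c (a - 1) * c b * K) • gen n (Function.update η (2 * i + 2) (a - 1)) β := by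
      ext s
      rw [U17_PopE n S i hin η β s]
      simp only [Pi.add_apply, Pi.smul_apply, smul_eq_mul]
      rw [U17_gen n _ β i hin.le, U17_gen n _ β i hin.le]
      have hG : ∀ ζ, U17_G n (Function.update η (2 * i + 2) ζ) β i s = U17_G n η β i s := by
        intro ζ
        have := U17_G_upd n η β i ζ (β i) s
        rwa [Function.update_eq_self] at this
      rw [hG, hG]
      simp only [Function.update_self]
      by_cases hP : U17_P n η i s
      · have hs := hopp s hP he
        rw [if_pos hs]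
        have h1 := hm1 s hP
        have hev := hpar s
        have ha2 : 2 ≤ a := by omega
        have hw : ∀ x : Bool, wt S (hgt n s (2 * i + 1)) x =
            c ((hgt n s (2 * i + 1) + (if x then 1 else -1)).natAbs) := by
          intro x
          rw [U17_wt hS, h1]
        rw [hs2 s, ← hb]
        rw [hw (s (st n (2 * i + 1)))]
        simp only [Fintype.sum_bool, hw, if_true, Bool.false_eq_true, if_false]
        rcases Int.natAbs_eq (hgt n s (2 * i + 1)) with hh | hh
        · rw [h1] at hh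
          rw [hh]
          have n1 : ((a : ℤ) + 1).natAbs = a + 1 := by
            omega
          have n2 : ((a : ℤ) + -1).natAbs = a - 1 := by
            omega
          have p1 : U17_sg ((a : ℤ) + 1) = 1 :=
            U17_sg_pos (by omega)
          have p2 : U17_sg ((a : ℤ) + -1) = 1 :=
            U17_sg_pos (by omega)
          have e1 : (c (a + 1) * (if a + 1 = b then (1 : ℝ) ^ β i else 0) +
              c (a - 1) * (if a - 1 = b then (1 : ℝ) ^ β i else 0)) = c b * K := by
            rw [hK]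
            by_cases q1 : a + 1 = b
            · rw [if_pos q1, if_neg (by omega), if_pos (by omega), q1]; simp
            · by_cases q2 : a - 1 = b
              · rw [if_neg q1, if_pos q2, if_pos (by omega), q2]; simp
              · rw [if_neg q1, if_neg q2, if_neg (by omega)]; simp
          rw [p1, p2, n1, n2, e1]
          cases s (st n (2 * i + 1)) <;> simp only [if_true, Bool.false_eq_true, if_false]
          · rw [n2, p2, if_neg (by omega), if_pos rfl]
            simp only [one_pow]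
            ring
          · rw [n1, p1, if_pos rfl, if_neg (by omega)]
            simp only [one_pow]
            ring
        · rw [h1] at hh
          rw [hh]
          have n1 : (-(a : ℤ) + 1).natAbs = a - 1 := by
            omega
          have n2 : (-(a : ℤ) + -1).natAbs = a + 1 := by
            omega
          have p1 : U17_sg (-(a : ℤ) + 1) = -1 :=
            U17_sg_neg (by omega)
          have p2 : U17_sg (-(a : ℤ) + -1) = -1 :=
            U17_sg_neg (by omega)
          have e1 : (c (a - 1) * (if a - 1 = b then (-1 : ℝ) ^ β i else 0) +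
              c (a + 1) * (if a + 1 = b then (-1 : ℝ) ^ β i else 0)) = c b * K * (-1) ^ β i := by
            rw [hK]
            by_cases q1 : a + 1 = b
            · rw [if_pos q1, if_neg (by omega), if_pos (by omega), q1]; simp
            · by_cases q2 : a - 1 = b
              · rw [if_neg q1, if_pos q2, if_pos (by omega), q2]; simp
              · rw [if_neg q1, if_neg q2, if_neg (by omega)]; simp
          rw [p1, p2, n1, n2, e1]
          cases s (st n (2 * i + 1)) <;> simp only [if_true, Bool.false_eq_true, if_false]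
          · rw [n2, p2, if_pos rfl, if_neg (by omega)]
            ring
          · rw [n1, p1, if_neg (by omega), if_pos rfl]
            ring
      · rw [U17_notP hP]
        simp
    rw [this]
    refine Cone.add _ _ (Cone.smul _ _ ?_ (Cone.gen _ _)) (Cone.smul _ _ ?_ (Cone.gen _ _))
    · exact mul_nonneg (mul_nonneg (hc0 _) (hc0 _)) hK0
    · exact mul_nonneg (mul_nonneg (hc0 _) (hc0 _)) hK0

end

section
open Polynomial Pool.Agent.H207R2.BL Pool.Agent.H110R3.BP

/-- all heights but the one at `j + 1` are those of the special pattern -/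
def U18_R (n j : ℕ) (s : Fin (2 * n + 2) → Bool) : Prop :=
  s (st n 0) = false ∧ ∀ l, 1 ≤ l → l ≤ 2 * n + 2 → l ≠ j + 1 → (hgt n s l).natAbs = eta0 l

theorem U18_iff (n j v : ℕ) (hj : j ≤ 2 * n) (s : Fin (2 * n + 2) → Bool) :
    (s (st n 0) = false ∧ ∀ l ∈ Finset.Icc 1 (2 * n + 2),
      (hgt n s l).natAbs = Function.update eta0 (j + 1) v l) ↔
    (U18_R n j s ∧ (hgt n s (j + 1)).natAbs = v) := by
  constructor
  · rintro ⟨h0, h⟩
    refine ⟨⟨h0, fun l h1 h2 h3 => ?_⟩, ?_⟩
    · have := h l (Finset.mem_Icc.2 ⟨h1, h2⟩)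
      rwa [Function.update_of_ne h3] at this
    · have := h (j + 1) (Finset.mem_Icc.2 ⟨by omega, by omega⟩)
      rwa [Function.update_self] at this
  · rintro ⟨⟨h0, h⟩, hv⟩
    refine ⟨h0, fun l hl => ?_⟩
    rw [Finset.mem_Icc] at hl
    by_cases h3 : l = j + 1
    · rw [h3, Function.update_self, hv]
    · rw [Function.update_of_ne h3, h l hl.1 hl.2 h3]

theorem U18_one (n j v : ℕ) (hj : j ≤ 2 * n) (s : Fin (2 * n + 2) → Bool)
    (h : U18_R n j s ∧ (hgt n s (j + 1)).natAbs = v) :
    gen n (Function.update eta0 (j + 1) v) (fun _ => 0) s = 1 := by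
  unfold gen
  rw [if_pos ((U18_iff n j v hj s).2 h)]
  simp

theorem U18_zero (n j v : ℕ) (hj : j ≤ 2 * n) (s : Fin (2 * n + 2) → Bool)
    (h : ¬ (U18_R n j s ∧ (hgt n s (j + 1)).natAbs = v)) :
    gen n (Function.update eta0 (j + 1) v) (fun _ => 0) s = 0 := by
  unfold gen
  rw [if_neg (fun h' => h ((U18_iff n j v hj s).1 h'))]

theorem U18_chg (n j : ℕ) (h1 : 1 ≤ j) (hj : j ≤ 2 * n) (s : Fin (2 * n + 2) → Bool) (x : Bool)
    (hs : s (st n (j + 1)) = !(s (st n j))) : U18_R n j (chg n j s x) ↔ U18_R n j s := by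
  have e0 : chg n j s x (st n 0) = s (st n 0) :=
    (chg_at n j hj s x).2.2 0 (by omega) (by omega) (by omega)
  have e1 : ∀ l, l ≤ 2 * n + 2 → l ≠ j + 1 → hgt n (chg n j s x) l = hgt n s l := by
    intro l hl hne
    rcases Nat.lt_or_ge j l with h | h
    · exact hgt_chg_ge n j hj s x l hs (by omega) hl
    · exact hgt_chg_le n j hj s x l h
  unfold U18_R
  rw [e0]
  constructor
  · rintro ⟨a, b⟩
    exact ⟨a, fun l c d e => by rw [← e1 l d e]; exact b l c d e⟩
  · rintro ⟨a, b⟩
    exact ⟨a, fun l c d e => by rw [e1 l d e]; exact b l c d e⟩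

theorem gE_J (n : ℕ) {δ : ℝ} {S : ℤ → ℝ} (hS : Eig δ S) (hδ : 0 < δ) (i : ℕ) (hi : 1 ≤ i)
    (hin : i < n) : Cone1 n (PopE n S 1 (2 * i + 1) (gE n)) := by
  have hj : 2 * i + 1 ≤ 2 * n := by omega
  have p1 := hS.pos 1
  have p2 := hS.pos 2
  have p3 := hS.pos 3
  have m1 : S (-1) = S 1 := hS.even 1
  have m2 : S (-2) = S 2 := hS.even 2
  have m3 : S (-3) = S 3 := hS.even 3
  set j := 2 * i + 1 with hjdef
  have et1 : eta0 (j + 1) = 1 := by
    unfold eta0
    rw [if_neg (by omega), if_pos ⟨i + 1, by omega⟩]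
  have et0 : eta0 j = 2 := by
    unfold eta0
    rw [if_neg (by omega), if_neg (by rw [Nat.not_even_iff_odd]; exact ⟨i, by omega⟩)]
  have et2 : eta0 (j + 2) = 2 := by
    unfold eta0
    rw [if_neg (by omega), if_neg (by rw [Nat.not_even_iff_odd]; exact ⟨i + 1, by omega⟩)]
  have hgE : gE n = gen n (Function.update eta0 (j + 1) 1) (fun _ => 0) := by
    have h := Function.update_eq_self (j + 1) eta0
    rw [et1] at h
    unfold gE
    rw [h]
  refine ⟨S 1 / S 2, (Real.sqrt (S 3 / S 2) * Real.sqrt (S 1 / S 2)) •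
    gen n (Function.update eta0 (j + 1) 3) (fun _ => 0), by positivity,
    Cone.smul _ _ (by positivity) (Cone.gen _ _), ?_⟩
  rw [hgE]
  funext s
  rw [PopE_apply, Pi.add_apply, Pi.smul_apply, Pi.smul_apply, smul_eq_mul, smul_eq_mul]
  by_cases hR : U18_R n j s
  · have a0 := hR.2 j (by omega) (by omega) (by omega)
    have a2 := hR.2 (j + 2) (by omega) (by omega) (by omega)
    rw [et0] at a0
    rw [et2] at a2
    have s1 := hgt_succ n s j
    have s2 : hgt n s (j + 2) = hgt n s (j + 1) + (if s (st n (j + 1)) then 1 else -1) :=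
      hgt_succ n s (j + 1)
    have hs : s (st n (j + 1)) = !(s (st n j)) := by
      by_contra hne
      have hs' : s (st n (j + 1)) = s (st n j) := by
        revert hne
        cases s (st n j) <;> cases s (st n (j + 1)) <;> simp
      rw [hs', s1] at s2
      split_ifs at s2 <;> omega
    rw [if_pos hs, Fintype.sum_bool]
    have c1 : ∀ x : Bool, hgt n (chg n j s x) (j + 1) = hgt n s j + (if x then 1 else -1) :=
      hgt_chg_mid n j hj s
    have c2 : ∀ x : Bool, U18_R n j (chg n j s x) := fun x =>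
      (U18_chg n j (by omega) hj s x hs).2 hR
    have h2 : hgt n s j = 2 ∨ hgt n s j = -2 := by omega
    rcases h2 with h2 | h2
    · have t1 : gen n (Function.update eta0 (j + 1) 1) (fun _ => 0) (chg n j s true) = 0 := by
        apply U18_zero n j 1 hj
        rintro ⟨-, h⟩
        rw [c1, h2] at h
        simp at h
      have t2 : gen n (Function.update eta0 (j + 1) 1) (fun _ => 0) (chg n j s false) = 1 := by
        apply U18_one n j 1 hj
        refine ⟨c2 false, ?_⟩
        rw [c1, h2]
        simp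
      rw [t1, t2, h2]
      cases hx : s (st n j)
      · have q1 : hgt n s (j + 1) = 1 := by rw [s1, hx, h2]; simp
        rw [U18_one n j 1 hj s ⟨hR, by rw [q1]; rfl⟩,
          U18_zero n j 3 hj s (fun h => by rw [q1] at h; simp at h)]
        simp only [wt, Bool.false_eq_true, if_false, ite_self, mul_zero, zero_add, mul_one,
          add_zero]
        norm_num
        exact Real.mul_self_sqrt (by positivity)
      · have q1 : hgt n s (j + 1) = 3 := by rw [s1, hx, h2]; simp
        rw [U18_zero n j 1 hj s (fun h => by rw [q1] at h; simp at h),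
          U18_one n j 3 hj s ⟨hR, by rw [q1]; rfl⟩]
        simp only [wt, if_true, ite_self, mul_zero, zero_add, mul_one, Bool.false_eq_true,
          if_false]
        norm_num
    · have t1 : gen n (Function.update eta0 (j + 1) 1) (fun _ => 0) (chg n j s true) = 1 := by
        apply U18_one n j 1 hj
        refine ⟨c2 true, ?_⟩
        rw [c1, h2]
        simp
      have t2 : gen n (Function.update eta0 (j + 1) 1) (fun _ => 0) (chg n j s false) = 0 := by
        apply U18_zero n j 1 hj
        rintro ⟨-, h⟩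
        rw [c1, h2] at h
        simp at h
      rw [t1, t2, h2]
      cases hx : s (st n j)
      · have q1 : hgt n s (j + 1) = -3 := by rw [s1, hx, h2]; simp
        rw [U18_zero n j 1 hj s (fun h => by rw [q1] at h; simp at h),
          U18_one n j 3 hj s ⟨hR, by rw [q1]; rfl⟩]
        simp only [wt, if_true, ite_self, mul_zero, add_zero, mul_one, Bool.false_eq_true,
          if_false]
        norm_num [m1, m2, m3]
      · have q1 : hgt n s (j + 1) = -1 := by rw [s1, hx, h2]; simp
        rw [U18_one n j 1 hj s ⟨hR, by rw [q1]; rfl⟩,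
          U18_zero n j 3 hj s (fun h => by rw [q1] at h; simp at h)]
        simp only [wt, if_true, ite_self, mul_zero, add_zero, mul_one]
        norm_num [m1, m2, m3]
        exact Real.mul_self_sqrt (by positivity)
  · rw [U18_zero n j 1 hj s (fun h => hR h.1), U18_zero n j 3 hj s (fun h => hR h.1)]
    by_cases hs : s (st n (j + 1)) = !(s (st n j))
    · rw [if_pos hs]
      have c2 : ∀ x : Bool, ¬ U18_R n j (chg n j s x) := fun x h =>
        hR ((U18_chg n j (by omega) hj s x hs).1 h)
      rw [Fintype.sum_bool, U18_zero n j 1 hj _ (fun h => c2 true h.1),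
        U18_zero n j 1 hj _ (fun h => c2 false h.1)]
      simp
    · rw [if_neg hs]
      simp

end

section
open Polynomial Pool.Agent.H207R2.BL Pool.Agent.H110R3.BP

/-- the conditions on the heights other than the height `j+1` -/
def gen_X_Q (n j : ℕ) (η : ℕ → ℕ) (s : Fin (2 * n + 2) → Bool) : Prop :=
  s (st n 0) = false ∧ ∀ l ∈ Finset.Icc 1 (2 * n + 2), l ≠ j + 1 → (hgt n s l).natAbs = η l

/-- the product of the signs of the other heights -/
noncomputable def gen_X_R (n i : ℕ) (β : ℕ → ℕ) (s : Fin (2 * n + 2) → Bool) : ℝ :=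
  ∏ r ∈ (Finset.range (n + 1)).erase i, ((SignType.sign (hgt n s (2 * r + 2)) : ℤ) : ℝ) ^ β r

theorem gen_X_pos {n i : ℕ} (hin : i < n) {η β : ℕ → ℕ} {s : Fin (2 * n + 2) → Bool}
    (hQ : gen_X_Q n (2 * i + 1) η s) (hc : (hgt n s (2 * i + 2)).natAbs = η (2 * i + 2)) :
    gen n η β s =
      gen_X_R n i β s * ((SignType.sign (hgt n s (2 * i + 2)) : ℤ) : ℝ) ^ β i := by
  unfold gen
  rw [if_pos]
  · unfold gen_X_R
    rw [Finset.prod_erase_mul (Finset.range (n + 1))
      (fun r => ((SignType.sign (hgt n s (2 * r + 2)) : ℤ) : ℝ) ^ β r)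
      (Finset.mem_range.2 (by omega))]
  · refine ⟨hQ.1, fun l hl => ?_⟩
    by_cases h : l = 2 * i + 2
    · rw [h]; exact hc
    · exact hQ.2 l hl h

theorem gen_X_zero1 {n i : ℕ} {η β : ℕ → ℕ} {s : Fin (2 * n + 2) → Bool}
    (hQ : ¬ gen_X_Q n (2 * i + 1) η s) : gen n η β s = 0 := by
  unfold gen
  rw [if_neg]
  exact fun h => hQ ⟨h.1, fun l hl _ => h.2 l hl⟩

theorem gen_X_zero2 {n i : ℕ} (hin : i < n) {η β : ℕ → ℕ} {s : Fin (2 * n + 2) → Bool}
    (hc : (hgt n s (2 * i + 2)).natAbs ≠ η (2 * i + 2)) : gen n η β s = 0 := by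
  unfold gen
  rw [if_neg]
  exact fun h => hc (h.2 (2 * i + 2) (Finset.mem_Icc.2 ⟨by omega, by omega⟩))

section chgs

variable {n i : ℕ} (hin : i < n) {s : Fin (2 * n + 2) → Bool}
  (hs : s (st n (2 * i + 1 + 1)) = !(s (st n (2 * i + 1)))) (x : Bool)

include hin hs

theorem gen_X_hl (l : ℕ) (hl : l ≤ 2 * n + 2) (hne : l ≠ 2 * i + 1 + 1) :
    hgt n (chg n (2 * i + 1) s x) l = hgt n s l := by
  rcases Nat.lt_or_ge l (2 * i + 1 + 1) with h | h
  · exact hgt_chg_le n (2 * i + 1) (by omega) s x l (by omega)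
  · exact hgt_chg_ge n (2 * i + 1) (by omega) s x l hs (by omega) hl

theorem gen_X_Qc (η : ℕ → ℕ) :
    gen_X_Q n (2 * i + 1) η (chg n (2 * i + 1) s x) ↔ gen_X_Q n (2 * i + 1) η s := by
  have h0 : (chg n (2 * i + 1) s x) (st n 0) = s (st n 0) :=
    (chg_at n (2 * i + 1) (by omega) s x).2.2 0 (by omega) (by omega) (by omega)
  unfold gen_X_Q
  rw [h0]
  refine and_congr Iff.rfl (forall₂_congr fun l hl => ?_)
  refine forall_congr' fun hne => ?_
  rw [gen_X_hl hin hs x l (Finset.mem_Icc.1 hl).2 hne]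

theorem gen_X_Rc (β : ℕ → ℕ) :
    gen_X_R n i β (chg n (2 * i + 1) s x) = gen_X_R n i β s := by
  unfold gen_X_R
  refine Finset.prod_congr rfl fun r hr => ?_
  rw [Finset.mem_erase, Finset.mem_range] at hr
  rw [gen_X_hl hin hs x (2 * r + 2) (by omega) (by omega)]

end chgs

theorem gen_X_wt {δ : ℝ} {S : ℤ → ℝ} (hS : Eig δ S) (H : ℤ) (x : Bool) :
    wt S H x = Real.sqrt (S (((H + (if x then 1 else -1)).natAbs : ℕ) : ℤ) /
      S ((H.natAbs : ℕ) : ℤ)) := by
  unfold wt
  rw [← Eig.natAbs hS, ← Eig.natAbs hS]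
  cases x
  · simp [sub_eq_add_neg]
  · simp

theorem gen_X_upd (n i : ℕ) (η : ℕ → ℕ) (c' : ℕ) (s : Fin (2 * n + 2) → Bool) :
    gen_X_Q n (2 * i + 1) (Function.update η (2 * i + 2) c') s ↔ gen_X_Q n (2 * i + 1) η s := by
  unfold gen_X_Q
  refine and_congr Iff.rfl (forall₂_congr fun l hl => ?_)
  refine forall_congr' fun hne => ?_
  rw [Function.update_of_ne hne]

/-- R3 -/
theorem gen_X (n : ℕ) {δ : ℝ} {S : ℤ → ℝ} (hS : Eig δ S) (hδ : 0 < δ) (i : ℕ) (hin : i < n)
    (η β : ℕ → ℕ) :
    Cone n (gen n η β - δ⁻¹ • PopE n S (-1) (2 * i + 1) (gen n η β)) := by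
  classical
  -- the function vanishes
  have hzero : (∀ s, gen n η β s = 0) →
      Cone n (gen n η β - δ⁻¹ • PopE n S (-1) (2 * i + 1) (gen n η β)) := by
    intro h
    have h0 : gen n η β = 0 := funext h
    rw [h0, map_zero, smul_zero, sub_zero]
    exact Cone.zero
  have hs1 : ∀ s : Fin (2 * n + 2) → Bool, hgt n s (2 * i + 2) =
      hgt n s (2 * i + 1) + (if s (st n (2 * i + 1)) then 1 else -1) :=
    fun s => hgt_succ n s (2 * i + 1)
  have hs2 : ∀ s : Fin (2 * n + 2) → Bool, hgt n s (2 * i + 3) =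
      hgt n s (2 * i + 2) + (if s (st n (2 * i + 1 + 1)) then 1 else -1) :=
    fun s => hgt_succ n s (2 * i + 2)
  have q1 : ∀ s, gen_X_Q n (2 * i + 1) η s → (hgt n s (2 * i + 1)).natAbs = η (2 * i + 1) :=
    fun s hQ => hQ.2 (2 * i + 1) (Finset.mem_Icc.2 ⟨by omega, by omega⟩) (by omega)
  have q3 : ∀ s, gen_X_Q n (2 * i + 1) η s → (hgt n s (2 * i + 3)).natAbs = η (2 * i + 3) :=
    fun s hQ => hQ.2 (2 * i + 3) (Finset.mem_Icc.2 ⟨by omega, by omega⟩) (by omega)
  by_cases h1 : η (2 * i + 3) = η (2 * i + 1)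
  swap
  · -- the generator acts as zero
    have h0 : PopE n S (-1) (2 * i + 1) (gen n η β) = 0 := by
      funext s
      rw [PopE_apply]
      split_ifs with hv
      · have hQ : ¬ gen_X_Q n (2 * i + 1) η s := by
          intro hQ
          have e1 := q1 s hQ
          have e3 := q3 s hQ
          have e4 := hs1 s
          have e5 := hs2 s
          apply h1
          rw [← e1, ← e3, e5, e4, hv]
          cases s (st n (2 * i + 1)) <;> simp
        have hx : ∀ x, gen n η β (chg n (2 * i + 1) s x) = 0 := fun x =>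
          gen_X_zero1 (i := i) (fun h => hQ ((gen_X_Qc hin hv x η).1 h))
        simp [hx]
      · rfl
    rw [h0, smul_zero, sub_zero]
    exact Cone.gen η β
  by_cases h2 : η (2 * i + 1) = 0
  · -- height zero
    have hS1 : S 1 / S 0 = δ / 2 := by
      have e1 := hS.recur 0
      have e2 := hS.even 1
      have e3 := hS.pos 0
      rw [zero_add, zero_sub, e2] at e1
      rw [div_eq_div_iff e3.ne' two_ne_zero]
      linarith
    have hw : ∀ x, wt S 0 x = Real.sqrt (S 1 / S 0) := by
      intro x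
      rw [gen_X_wt hS]
      cases x <;> simp
    have hww : Real.sqrt (S 1 / S 0) * Real.sqrt (S 1 / S 0) = δ / 2 := by
      rw [Real.mul_self_sqrt (div_nonneg (hS.pos 1).le (hS.pos 0).le), hS1]
    have key : gen n η β - δ⁻¹ • PopE n S (-1) (2 * i + 1) (gen n η β) =
        if Even (β i) then gen n η β else 0 := by
      funext s
      have hL : (gen n η β - δ⁻¹ • PopE n S (-1) (2 * i + 1) (gen n η β)) s =
          gen n η β s - δ⁻¹ * PopE n S (-1) (2 * i + 1) (gen n η β) s := rfl
      have hR : (if Even (β i) then gen n η β else 0) s =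
          if Even (β i) then gen n η β s else 0 := by
        split_ifs <;> rfl
      rw [hL, hR, PopE_apply]
      by_cases hv : s (st n (2 * i + 1 + 1)) = !(s (st n (2 * i + 1)))
      · rw [if_pos hv]
        by_cases hQ : gen_X_Q n (2 * i + 1) η s
        · have hH : hgt n s (2 * i + 1) = 0 := by
            have := q1 s hQ
            rw [h2] at this
            exact Int.natAbs_eq_zero.1 this
          have hmid : ∀ x, hgt n (chg n (2 * i + 1) s x) (2 * i + 2) =
              if x then 1 else -1 := by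
            intro x
            have := hgt_chg_mid n (2 * i + 1) (by omega) s x
            rw [hH, zero_add] at this
            exact this
          by_cases hc : η (2 * i + 2) = 1
          · have G : ∀ x, gen n η β (chg n (2 * i + 1) s x) =
                gen_X_R n i β s * (if x then 1 else -1) ^ β i := by
              intro x
              rw [gen_X_pos hin ((gen_X_Qc hin hv x η).2 hQ) (by
                rw [hmid, hc]; cases x <;> rfl), gen_X_Rc hin hv x, hmid]
              cases x <;> simp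
            have Gs : gen n η β s =
                gen_X_R n i β s * (if s (st n (2 * i + 1)) then 1 else -1) ^ β i := by
              rw [← G (s (st n (2 * i + 1))), chg_self n (2 * i + 1) (by omega) s hv]
            rw [Gs, hH, hw, Fintype.sum_bool, hw, hw, G true, G false]
            have e6 : (-1 : ℝ) ^ β i = if Even (β i) then 1 else -1 := by
              split_ifs with h
              · exact h.neg_one_pow
              · exact (Nat.not_even_iff_odd.1 h).neg_one_pow
            have e7 : δ⁻¹ * (δ / 2) = 1 / 2 := by field_simp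
            cases s (st n (2 * i + 1)) <;> by_cases hb : Even (β i) <;>
              simp only [hb, e6, if_true, if_false, one_pow, mul_one, Bool.false_eq_true,
                Bool.true_eq_false]
            · linear_combination (gen_X_R n i β s - gen_X_R n i β s) * (δ⁻¹ * hww + e7)
            · linear_combination (2 * gen_X_R n i β s) * (δ⁻¹ * hww + e7)
            · linear_combination (gen_X_R n i β s - gen_X_R n i β s) * (δ⁻¹ * hww + e7)
            · linear_combination (-(2 * gen_X_R n i β s)) * (δ⁻¹ * hww + e7)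
          · have G : ∀ x, gen n η β (chg n (2 * i + 1) s x) = 0 := by
              intro x
              apply gen_X_zero2 hin
              rw [hmid]
              intro h
              apply hc
              rw [← h]
              cases x <;> rfl
            have Gs : gen n η β s = 0 := by
              rw [← G (s (st n (2 * i + 1))), chg_self n (2 * i + 1) (by omega) s hv]
            simp [G, Gs]
        · have G : ∀ x, gen n η β (chg n (2 * i + 1) s x) = 0 := fun x =>
            gen_X_zero1 (i := i) (fun h => hQ ((gen_X_Qc hin hv x η).1 h))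
          simp [G, gen_X_zero1 (β := β) hQ]
      · have hQ : ¬ gen_X_Q n (2 * i + 1) η s := by
          intro hQ
          have e1 := q1 s hQ
          have e3 := q3 s hQ
          rw [h2, Int.natAbs_eq_zero] at e1
          rw [h1, h2, Int.natAbs_eq_zero, hs2, hs1, e1] at e3
          apply hv
          revert e3
          cases s (st n (2 * i + 1)) <;> cases s (st n (2 * i + 1 + 1)) <;> simp
        rw [if_neg hv, gen_X_zero1 (β := β) hQ]
        simp
    rw [key]
    split_ifs
    · exact Cone.gen η β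
    · exact Cone.zero
  by_cases h3 : η (2 * i + 1) = 1
  · -- parity
    refine hzero fun s => ?_
    by_cases hQ : gen_X_Q n (2 * i + 1) η s
    · exfalso
      have e1 := q1 s hQ
      have e2 := hgt_parity n s (2 * i + 1)
      push_cast at e2
      omega
    · exact gen_X_zero1 hQ
  have h2' : 2 ≤ η (2 * i + 1) := by omega
  by_cases h4 : η (2 * i + 2) = η (2 * i + 1) + 1 ∨ η (2 * i + 2) + 1 = η (2 * i + 1)
  swap
  · refine hzero fun s => ?_
    by_cases hQ : gen_X_Q n (2 * i + 1) η s
    · apply gen_X_zero2 hin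
      have e1 := q1 s hQ
      have e2 := hs1 s
      intro h
      apply h4
      rw [← h, ← e1, e2]
      split_ifs <;> omega
    · exact gen_X_zero1 hQ
  -- the main case
  obtain ⟨c', hcc⟩ : ∃ c' : ℕ, (η (2 * i + 2) = η (2 * i + 1) + 1 ∧ c' + 1 = η (2 * i + 1)) ∨
      (η (2 * i + 2) + 1 = η (2 * i + 1) ∧ c' = η (2 * i + 1) + 1) := by
    rcases h4 with h4 | h4
    · exact ⟨η (2 * i + 1) - 1, Or.inl ⟨h4, by omega⟩⟩
    · exact ⟨η (2 * i + 1) + 1, Or.inr ⟨h4, rfl⟩⟩
  set a : ℕ := η (2 * i + 1) with ha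
  set c : ℕ := η (2 * i + 2) with hc
  have hne : c' ≠ c := by omega
  have hSc : S (c : ℤ) / S (a : ℤ) ≤ δ := by
    rw [div_le_iff₀ (hS.pos _)]
    have e1 := hS.recur (a : ℤ)
    have e2 := hS.pos ((a : ℤ) + 1)
    have e3 := hS.pos ((a : ℤ) - 1)
    rcases hcc with ⟨h5, -⟩ | ⟨h5, -⟩
    · have : (c : ℤ) = (a : ℤ) + 1 := by omega
      rw [this]
      linarith
    · have : (c : ℤ) = (a : ℤ) - 1 := by omega
      rw [this]
      linarith
  have key : gen n η β - δ⁻¹ • PopE n S (-1) (2 * i + 1) (gen n η β) =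
      (1 - δ⁻¹ * (S (c : ℤ) / S (a : ℤ))) • gen n η β +
        (δ⁻¹ * (Real.sqrt (S (c' : ℤ) / S (a : ℤ)) * Real.sqrt (S (c : ℤ) / S (a : ℤ)))) •
          gen n (Function.update η (2 * i + 2) c') β := by
    funext s
    have hL : (gen n η β - δ⁻¹ • PopE n S (-1) (2 * i + 1) (gen n η β)) s =
        gen n η β s - δ⁻¹ * PopE n S (-1) (2 * i + 1) (gen n η β) s := rfl
    have hR : ((1 - δ⁻¹ * (S (c : ℤ) / S (a : ℤ))) • gen n η β +
        (δ⁻¹ * (Real.sqrt (S (c' : ℤ) / S (a : ℤ)) * Real.sqrt (S (c : ℤ) / S (a : ℤ)))) •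
          gen n (Function.update η (2 * i + 2) c') β) s =
        (1 - δ⁻¹ * (S (c : ℤ) / S (a : ℤ))) * gen n η β s +
        (δ⁻¹ * (Real.sqrt (S (c' : ℤ) / S (a : ℤ)) * Real.sqrt (S (c : ℤ) / S (a : ℤ)))) *
          gen n (Function.update η (2 * i + 2) c') β s := rfl
    rw [hL, hR, PopE_apply]
    by_cases hQ : gen_X_Q n (2 * i + 1) η s
    swap
    · have hQ' : ¬ gen_X_Q n (2 * i + 1) (Function.update η (2 * i + 2) c') s :=
        fun h => hQ ((gen_X_upd n i η c' s).1 h)
      rw [gen_X_zero1 (β := β) hQ, gen_X_zero1 (β := β) hQ']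
      by_cases hv : s (st n (2 * i + 1 + 1)) = !(s (st n (2 * i + 1)))
      · have G : ∀ x, gen n η β (chg n (2 * i + 1) s x) = 0 := fun x =>
          gen_X_zero1 (i := i) (fun h => hQ ((gen_X_Qc hin hv x η).1 h))
        simp [G]
      · rw [if_neg hv]
        simp
    have e1 : (hgt n s (2 * i + 1)).natAbs = a := q1 s hQ
    have e3 : (hgt n s (2 * i + 3)).natAbs = a := (q3 s hQ).trans h1
    have hv : s (st n (2 * i + 1 + 1)) = !(s (st n (2 * i + 1))) := by
      rw [hs2, hs1] at e3
      revert e3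
      cases s (st n (2 * i + 1)) <;> cases s (st n (2 * i + 1 + 1))
      · intro h
        exfalso
        simp only [Bool.false_eq_true, if_false] at h
        omega
      · intro _
        rfl
      · intro _
        rfl
      · intro h
        exfalso
        simp only [if_true] at h
        omega
    rw [if_pos hv]
    set H : ℤ := hgt n s (2 * i + 1) with hH
    obtain ⟨xc, hx1, hx2, hx3⟩ : ∃ xc : Bool, (H + (if xc then 1 else -1)).natAbs = c ∧
        (H + (if !xc then 1 else -1)).natAbs = c' ∧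
        ∀ x : Bool, SignType.sign (H + (if x then 1 else -1)) = SignType.sign H := by
      have hsgn : ∀ x : Bool, SignType.sign (H + (if x then 1 else -1)) = SignType.sign H := by
        intro x
        rcases Int.natAbs_eq H with h5 | h5
        · have h6 : 0 < H := by omega
          have h7 : 0 < H + (if x then 1 else -1) := by split_ifs <;> omega
          rw [sign_pos h6, sign_pos h7]
        · have h6 : H < 0 := by omega
          have h7 : H + (if x then 1 else -1) < 0 := by split_ifs <;> omega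
          rw [sign_neg h6, sign_neg h7]
      rcases Int.natAbs_eq H with h5 | h5 <;> rcases hcc with ⟨h6, h7⟩ | ⟨h6, h7⟩
      · refine ⟨true, ?_, ?_, hsgn⟩
        · simp only [if_true]; omega
        · simp only [Bool.not_true, Bool.false_eq_true, if_false]; omega
      · refine ⟨false, ?_, ?_, hsgn⟩
        · simp only [Bool.false_eq_true, if_false]; omega
        · simp only [Bool.not_false, if_true]; omega
      · refine ⟨false, ?_, ?_, hsgn⟩
        · simp only [Bool.false_eq_true, if_false]; omega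
        · simp only [Bool.not_false, if_true]; omega
      · refine ⟨true, ?_, ?_, hsgn⟩
        · simp only [if_true]; omega
        · simp only [Bool.not_true, Bool.false_eq_true, if_false]; omega
    have hmid : ∀ x, hgt n (chg n (2 * i + 1) s x) (2 * i + 2) = H + (if x then 1 else -1) :=
      fun x => hgt_chg_mid n (2 * i + 1) (by omega) s x
    set P : ℝ := gen_X_R n i β s * ((SignType.sign H : ℤ) : ℝ) ^ β i with hP
    have hnot : ∀ x : Bool, x ≠ xc → x = !xc := by
      intro x hx
      cases x <;> cases xc <;> simp_all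
    have G : ∀ x, gen n η β (chg n (2 * i + 1) s x) = if x = xc then P else 0 := by
      intro x
      by_cases hx : x = xc
      · rw [if_pos hx, gen_X_pos hin ((gen_X_Qc hin hv x η).2 hQ) (by
          rw [hmid, hx, hx1]), gen_X_Rc hin hv x, hmid, hx3]
      · rw [if_neg hx]
        apply gen_X_zero2 hin
        rw [hmid, hnot x hx, hx2]
        exact hne
    have G' : ∀ x, gen n (Function.update η (2 * i + 2) c') β (chg n (2 * i + 1) s x) =
        if x = xc then 0 else P := by
      intro x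
      by_cases hx : x = xc
      · rw [if_pos hx]
        apply gen_X_zero2 hin
        rw [hmid, hx, hx1, Function.update_self]
        exact hne.symm
      · rw [if_neg hx, gen_X_pos hin ((gen_X_Qc hin hv x _).2 ((gen_X_upd n i η c' s).2 hQ)) (by
          rw [hmid, hnot x hx, hx2, Function.update_self]), gen_X_Rc hin hv x, hmid, hx3]
    have Gs : gen n η β s = if s (st n (2 * i + 1)) = xc then P else 0 := by
      rw [← G (s (st n (2 * i + 1))), chg_self n (2 * i + 1) (by omega) s hv]
    have Gs' : gen n (Function.update η (2 * i + 2) c') β s =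
        if s (st n (2 * i + 1)) = xc then 0 else P := by
      rw [← G' (s (st n (2 * i + 1))), chg_self n (2 * i + 1) (by omega) s hv]
    have w1 : wt S H xc = Real.sqrt (S (c : ℤ) / S (a : ℤ)) := by
      rw [gen_X_wt hS, hx1, e1]
    have w2 : wt S H (!xc) = Real.sqrt (S (c' : ℤ) / S (a : ℤ)) := by
      rw [gen_X_wt hS, hx2, e1]
    have hsum : ∑ x : Bool, wt S H x * ((if x = s (st n (2 * i + 1)) then 1 else -1) *
        gen n η β (chg n (2 * i + 1) s x)) =
        wt S H xc * ((if xc = s (st n (2 * i + 1)) then 1 else -1) * P) := by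
      rw [Finset.sum_eq_single xc]
      · rw [G, if_pos rfl]
      · intro x _ hx
        rw [G, if_neg hx, mul_zero, mul_zero]
      · intro h
        exact absurd (Finset.mem_univ _) h
    rw [hsum, Gs, Gs', w1]
    by_cases hu : s (st n (2 * i + 1)) = xc
    · rw [hu, if_pos rfl, if_pos rfl, if_pos rfl, w1]
      have e8 := Real.mul_self_sqrt (div_nonneg (hS.pos (c : ℤ)).le (hS.pos (a : ℤ)).le)
      linear_combination (-(δ⁻¹ * P)) * e8
    · rw [if_neg hu, if_neg hu, if_neg (fun h => hu h.symm), hnot _ hu, w2]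
      ring
  rw [key]
  refine Cone.add _ _ (Cone.smul _ _ ?_ (Cone.gen _ _)) (Cone.smul _ _ ?_ (Cone.gen _ _))
  · have h5 : δ⁻¹ * (S (c : ℤ) / S (a : ℤ)) ≤ δ⁻¹ * δ :=
      mul_le_mul_of_nonneg_left hSc (inv_nonneg.2 hδ.le)
    rw [inv_mul_cancel₀ hδ.ne'] at h5
    linarith
  · have := inv_nonneg.2 hδ.le
    positivity

end

section
open Polynomial Pool.Agent.H207R2.BL Pool.Agent.H110R3.BP

def U20_Q (n j : ℕ) (s : Fin (2 * n + 2) → Bool) : Prop :=
  s (st n 0) = false ∧
    ∀ l ∈ Finset.Icc 1 (2 * n + 2), l ≠ j + 1 → (hgt n s l).natAbs = eta0 l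

theorem U20_gen1 (n j : ℕ) (η : ℕ → ℕ) (hη : ∀ l, l ≠ j + 1 → η l = eta0 l)
    (s : Fin (2 * n + 2) → Bool) (h1 : U20_Q n j s) (h2 : (hgt n s (j + 1)).natAbs = η (j + 1)) :
    gen n η (fun _ => 0) s = 1 := by
  unfold gen
  rw [if_pos]
  · simp
  · refine ⟨h1.1, fun l hl => ?_⟩
    by_cases h : l = j + 1
    · rw [h]
      exact h2
    · rw [h1.2 l hl h, hη l h]

theorem U20_gen0 (n j : ℕ) (hj : j + 1 ≤ 2 * n + 2) (η : ℕ → ℕ)
    (hη : ∀ l, l ≠ j + 1 → η l = eta0 l)
    (s : Fin (2 * n + 2) → Bool)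
    (h : ¬ (U20_Q n j s ∧ (hgt n s (j + 1)).natAbs = η (j + 1))) :
    gen n η (fun _ => 0) s = 0 := by
  unfold gen
  rw [if_neg]
  rintro ⟨h1, h2⟩
  refine h ⟨⟨h1, fun l hl hl2 => ?_⟩, h2 (j + 1) (Finset.mem_Icc.2 ⟨by omega, hj⟩)⟩
  rw [h2 l hl, hη l hl2]

theorem U20_chg (n j : ℕ) (hj1 : 1 ≤ j) (hj : j ≤ 2 * n) (s : Fin (2 * n + 2) → Bool) (x : Bool)
    (hs : s (st n (j + 1)) = !(s (st n j))) : U20_Q n j (chg n j s x) ↔ U20_Q n j s := by
  have h0 : chg n j s x (st n 0) = s (st n 0) :=
    (chg_at n j hj s x).2.2 0 (by omega) (by omega) (by omega)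
  have h1 : ∀ l ∈ Finset.Icc 1 (2 * n + 2), l ≠ j + 1 →
      hgt n (chg n j s x) l = hgt n s l := by
    intro l hl hlj
    rcases Nat.lt_or_ge l (j + 1) with h | h
    · exact hgt_chg_le n j hj s x l (by omega)
    · exact hgt_chg_ge n j hj s x l hs (by omega) (Finset.mem_Icc.1 hl).2
  unfold U20_Q
  rw [h0]
  constructor
  · rintro ⟨h2, h3⟩
    exact ⟨h2, fun l hl hlj => by rw [← h1 l hl hlj]; exact h3 l hl hlj⟩
  · rintro ⟨h2, h3⟩
    exact ⟨h2, fun l hl hlj => by rw [h1 l hl hlj]; exact h3 l hl hlj⟩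

/-- the changed pattern -/
def U20_eta (i : ℕ) : ℕ → ℕ := Function.update eta0 (2 * i + 2) 3

theorem U20_pop (n : ℕ) {δ : ℝ} {S : ℤ → ℝ} (hS : Eig δ S) (i : ℕ) (hi : 1 ≤ i) (hin : i < n) :
    PopE n S (-1) (2 * i + 1) (gE n) =
      (S 1 / S 2) • gE n - (Real.sqrt (S 1 / S 2) * Real.sqrt (S 3 / S 2)) •
        gen n (U20_eta i) (fun _ => 0) := by
  have hη0 : ∀ l, l ≠ (2 * i + 1) + 1 → eta0 l = eta0 l := fun _ _ => rfl
  have hη1 : ∀ l, l ≠ (2 * i + 1) + 1 → U20_eta i l = eta0 l := by
    intro l hl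
    unfold U20_eta
    exact Function.update_of_ne hl _ _
  have e0 : eta0 (2 * i + 1 + 1) = 1 := by
    unfold eta0
    rw [if_neg (by omega), if_pos ⟨i + 1, by ring⟩]
  have e1 : U20_eta i (2 * i + 1 + 1) = 3 := by
    unfold U20_eta
    exact Function.update_self _ _ _
  have e2 : eta0 (2 * i + 1) = 2 := by
    unfold eta0
    rw [if_neg (by omega), if_neg]
    rw [Nat.not_even_iff_odd]
    exact ⟨i, rfl⟩
  have e3 : eta0 (2 * i + 3) = 2 := by
    unfold eta0
    rw [if_neg (by omega), if_neg]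
    rw [Nat.not_even_iff_odd]
    exact ⟨i + 1, by ring⟩
  have p1 := hS.pos 1
  have p2 := hS.pos 2
  have p3 := hS.pos 3
  have w1 : S (-1) = S 1 := hS.even 1
  have w2 : S (-2) = S 2 := hS.even 2
  have w3 : S (-3) = S 3 := hS.even 3
  ext s
  simp only [Pi.sub_apply, Pi.smul_apply, smul_eq_mul]
  rw [PopE_apply]
  by_cases hQ : U20_Q n (2 * i + 1) s
  · have a1 : (hgt n s (2 * i + 1)).natAbs = 2 := by
      rw [hQ.2 (2 * i + 1) (Finset.mem_Icc.2 ⟨by omega, by omega⟩) (by omega), e2]
    have a3 : (hgt n s (2 * i + 3)).natAbs = 2 := by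
      rw [hQ.2 (2 * i + 3) (Finset.mem_Icc.2 ⟨by omega, by omega⟩) (by omega), e3]
    have b1 := hgt_succ n s (2 * i + 1)
    have b2 : hgt n s (2 * i + 3) = hgt n s (2 * i + 1 + 1) +
      (if s (st n (2 * i + 1 + 1)) then 1 else -1) := hgt_succ n s (2 * i + 1 + 1)
    have hT : s (st n (2 * i + 1 + 1)) = !(s (st n (2 * i + 1))) := by
      cases c1 : s (st n (2 * i + 1)) <;> cases c2 : s (st n (2 * i + 1 + 1)) <;>
        simp only [c1, c2] at b1 b2 ⊢ <;> simp at b1 b2 ⊢ <;> omega
    rw [if_pos hT, Fintype.sum_bool]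
    have hc : ∀ x, U20_Q n (2 * i + 1) (chg n (2 * i + 1) s x) := fun x =>
      (U20_chg n (2 * i + 1) (by omega) (by omega) s x hT).2 hQ
    have hm := fun x => hgt_chg_mid n (2 * i + 1) (by omega) s x
    have hmt := hm true
    have hmf := hm false
    simp only [if_true, Bool.false_eq_true, if_false] at hmt hmf
    have hh : hgt n s (2 * i + 1) = 2 ∨ hgt n s (2 * i + 1) = -2 := by omega
    rcases hh with hh | hh
    · -- height 2: the inner step is false
      have g1 : gE n (chg n (2 * i + 1) s true) = 0 := by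
        refine U20_gen0 n (2 * i + 1) (by omega) eta0 hη0 _ ?_
        rintro ⟨_, h⟩
        rw [hmt, hh, e0] at h
        omega
      have g2 : gE n (chg n (2 * i + 1) s false) = 1 := by
        refine U20_gen1 n (2 * i + 1) eta0 hη0 _ (hc false) ?_
        rw [hmf, hh, e0]
        rfl
      rw [g1, g2]
      cases c1 : s (st n (2 * i + 1))
      · have k1 : gE n s = 1 := by
          refine U20_gen1 n (2 * i + 1) eta0 hη0 _ hQ ?_
          rw [b1, hh, e0, c1]
          rfl
        have k2 : gen n (U20_eta i) (fun _ => 0) s = 0 := by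
          refine U20_gen0 n (2 * i + 1) (by omega) _ hη1 _ ?_
          rintro ⟨_, h⟩
          rw [b1, hh, e1, c1] at h
          simp at h
        rw [k1, k2, hh]
        simp only [wt, Bool.false_eq_true, if_false, if_true, mul_one, mul_zero, zero_add,
          sub_zero]
        norm_num
        rw [Real.mul_self_sqrt (by positivity)]
      · have k1 : gE n s = 0 := by
          refine U20_gen0 n (2 * i + 1) (by omega) eta0 hη0 _ ?_
          rintro ⟨_, h⟩
          rw [b1, hh, e0, c1] at h
          simp at h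
        have k2 : gen n (U20_eta i) (fun _ => 0) s = 1 := by
          refine U20_gen1 n (2 * i + 1) _ hη1 _ hQ ?_
          rw [b1, hh, e1, c1]
          rfl
        rw [k1, k2, hh]
        simp only [wt, Bool.false_eq_true, if_false, if_true, mul_one, mul_zero, zero_add,
          zero_sub]
        norm_num
        ring
    · have g1 : gE n (chg n (2 * i + 1) s false) = 0 := by
        refine U20_gen0 n (2 * i + 1) (by omega) eta0 hη0 _ ?_
        rintro ⟨_, h⟩
        rw [hmf, hh, e0] at h
        omega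
      have g2 : gE n (chg n (2 * i + 1) s true) = 1 := by
        refine U20_gen1 n (2 * i + 1) eta0 hη0 _ (hc true) ?_
        rw [hmt, hh, e0]
        rfl
      rw [g1, g2]
      cases c1 : s (st n (2 * i + 1))
      · have k1 : gE n s = 0 := by
          refine U20_gen0 n (2 * i + 1) (by omega) eta0 hη0 _ ?_
          rintro ⟨_, h⟩
          rw [b1, hh, e0, c1] at h
          simp at h
        have k2 : gen n (U20_eta i) (fun _ => 0) s = 1 := by
          refine U20_gen1 n (2 * i + 1) _ hη1 _ hQ ?_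
          rw [b1, hh, e1, c1]
          rfl
        rw [k1, k2, hh]
        simp only [wt, Bool.false_eq_true, if_false, if_true, mul_one, mul_zero, zero_add,
          zero_sub]
        norm_num
        rw [w1, w2, w3]
        ring
      · have k1 : gE n s = 1 := by
          refine U20_gen1 n (2 * i + 1) eta0 hη0 _ hQ ?_
          rw [b1, hh, e0, c1]
          rfl
        have k2 : gen n (U20_eta i) (fun _ => 0) s = 0 := by
          refine U20_gen0 n (2 * i + 1) (by omega) _ hη1 _ ?_
          rintro ⟨_, h⟩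
          rw [b1, hh, e1, c1] at h
          simp at h
        rw [k1, k2, hh]
        simp only [wt, Bool.false_eq_true, if_false, if_true, mul_one, mul_zero, zero_add,
          sub_zero]
        norm_num
        rw [w1, w2, Real.mul_self_sqrt (by positivity)]
  · have k1 : gE n s = 0 := by
      refine U20_gen0 n (2 * i + 1) (by omega) eta0 hη0 _ ?_
      rintro ⟨h, _⟩
      exact hQ h
    have k2 : gen n (U20_eta i) (fun _ => 0) s = 0 := by
      refine U20_gen0 n (2 * i + 1) (by omega) _ hη1 _ ?_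
      rintro ⟨h, _⟩
      exact hQ h
    rw [k1, k2]
    by_cases hT : s (st n (2 * i + 1 + 1)) = !(s (st n (2 * i + 1)))
    · rw [if_pos hT]
      have hc : ∀ x, gE n (chg n (2 * i + 1) s x) = 0 := fun x => by
        refine U20_gen0 n (2 * i + 1) (by omega) eta0 hη0 _ ?_
        rintro ⟨h, _⟩
        exact hQ ((U20_chg n (2 * i + 1) (by omega) (by omega) s x hT).1 h)
      simp [hc]
    · rw [if_neg hT]
      simp

theorem U20_pop0 (n : ℕ) (S : ℤ → ℝ) (hn : 0 < n) : PopE n S (-1) 1 (gE n) = 0 := by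
  ext s
  rw [PopE_apply]
  by_cases hT : s (st n (1 + 1)) = !(s (st n 1))
  · rw [if_pos hT]
    have hc : ∀ x, gE n (chg n 1 s x) = 0 := by
      intro x
      unfold gE gen
      rw [if_neg]
      rintro ⟨_, h⟩
      have h1 := h 1 (Finset.mem_Icc.2 ⟨by omega, by omega⟩)
      have h3 := h 3 (Finset.mem_Icc.2 ⟨by omega, by omega⟩)
      rw [hgt_chg_le n 1 (by omega) s x 1 (by omega)] at h1
      rw [hgt_chg_ge n 1 (by omega) s x 3 hT (by omega) (by omega)] at h3
      have b1 := hgt_succ n s 1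
      have b2 := hgt_succ n s (1 + 1)
      have e1 : eta0 1 = 0 := by simp [eta0]
      have e3 : eta0 3 = 2 := by
        unfold eta0
        rw [if_neg (by omega), if_neg (by decide)]
      rw [e1] at h1
      rw [e3] at h3
      have b2' : hgt n s 3 = hgt n s (1 + 1) + (if s (st n (1 + 1)) then 1 else -1) := b2
      rw [b2', b1, hT] at h3
      cases c : s (st n 1) <;> rw [c] at h3 <;> simp at h3 <;> omega
    simp [hc]
  · rw [if_neg hT]
    rfl

theorem gE_X (n : ℕ) {δ : ℝ} {S : ℤ → ℝ} (hS : Eig δ S) (hδ : 0 < δ) (i : ℕ) (hin : i < n) :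
    Cone1 n (gE n - δ⁻¹ • PopE n S (-1) (2 * i + 1) (gE n)) := by
  rcases Nat.eq_zero_or_pos i with h | h
  · subst h
    refine ⟨1, 0, one_pos, Cone.zero, ?_⟩
    rw [show 2 * 0 + 1 = 1 from rfl, U20_pop0 n S (by omega)]
    simp
  · have p1 := hS.pos 1
    have p2 := hS.pos 2
    have p3 := hS.pos 3
    have hr := hS.recur 2
    have hr' : S 3 + S 1 = δ * S 2 := by
      have a : (2 : ℤ) + 1 = 3 := by norm_num
      have b : (2 : ℤ) - 1 = 1 := by norm_num
      rw [a, b] at hr
      exact hr
    refine ⟨δ⁻¹ * (S 3 / S 2), (δ⁻¹ * (Real.sqrt (S 1 / S 2) * Real.sqrt (S 3 / S 2))) •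
      gen n (U20_eta i) (fun _ => 0), by positivity,
      Cone.smul _ _ (by positivity) (Cone.gen _ _), ?_⟩
    rw [U20_pop n hS i h hin]
    have hk : δ⁻¹ * (S 3 / S 2) = 1 - δ⁻¹ * (S 1 / S 2) := by
      field_simp
      linarith
    rw [hk]
    simp only [smul_sub, sub_smul, smul_smul, one_smul]
    abel

end

section
open Polynomial Pool.Agent.H207R2.BL Pool.Agent.H110R3.BP

/-- the weight of a step from height `0` -/
theorem gX0_wt {δ : ℝ} {S : ℤ → ℝ} (hS : Eig δ S) (x : Bool) :
    wt S 0 x = Real.sqrt (δ / 2) := by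
  have h1 := hS.recur 0
  have h2 := hS.even 1
  have h3 := hS.pos 0
  unfold wt
  congr 1
  rw [div_eq_div_iff h3.ne' two_ne_zero]
  cases x
  · simp only [Bool.false_eq_true, if_false]
    norm_num at h1 h2 ⊢
    linarith
  · simp only [if_true]
    norm_num at h1 h2 ⊢
    linarith

/-- heights at the start -/
theorem gX0_h1 (n : ℕ) (s : Fin (2 * n + 2) → Bool) (h0 : s (st n 0) = false) :
    hgt n s 1 = 0 := by
  have := hgt_succ n s 0
  rw [hgt_zero, h0] at this
  simpa using this

theorem gX0_h2 (n : ℕ) (s : Fin (2 * n + 2) → Bool) (h0 : s (st n 0) = false) :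
    hgt n s 2 = if s (st n 1) then 1 else -1 := by
  have := hgt_succ n s 1
  rw [gX0_h1 n s h0] at this
  simpa using this

theorem gX0_h3 (n : ℕ) (s : Fin (2 * n + 2) → Bool) (h0 : s (st n 0) = false) :
    hgt n s 3 = 0 ↔ s (st n 2) = !s (st n 1) := by
  have := hgt_succ n s 2
  rw [gX0_h2 n s h0] at this
  rw [show (3 : ℕ) = 2 + 1 from rfl, this]
  cases s (st n 1) <;> cases s (st n 2) <;> simp

/-- the remaining signs -/
noncomputable def gX0_R (n : ℕ) (β : ℕ → ℕ) (s : Fin (2 * n + 2) → Bool) : ℝ :=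
  ∏ i ∈ Finset.range n, ((SignType.sign (hgt n s (2 * (i + 1) + 2)) : ℤ) : ℝ) ^ β (i + 1)

theorem gX0_gen (n : ℕ) (η β : ℕ → ℕ) (s : Fin (2 * n + 2) → Bool) (h0 : s (st n 0) = false) :
    gen n η β s = if ∀ j ∈ Finset.Icc 1 (2 * n + 2), (hgt n s j).natAbs = η j then
      gX0_R n β s * (if s (st n 1) then 1 else -1) ^ β 0 else 0 := by
  unfold gen
  by_cases hA : ∀ j ∈ Finset.Icc 1 (2 * n + 2), (hgt n s j).natAbs = η j
  · rw [if_pos ⟨h0, hA⟩, if_pos hA, Finset.prod_range_succ', gX0_R]
    congr 1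
    rw [show 2 * 0 + 2 = 2 from rfl, gX0_h2 n s h0]
    cases s (st n 1) <;> simp
  · rw [if_neg (fun h => hA h.2), if_neg hA]

theorem gX0_gen_true (n : ℕ) (η β : ℕ → ℕ) (s : Fin (2 * n + 2) → Bool)
    (h0 : s (st n 0) = true) : gen n η β s = 0 := by
  unfold gen
  rw [if_neg]
  rintro ⟨h, -⟩
  rw [h0] at h
  exact absurd h (by decide)

theorem gX0_chg (n : ℕ) (hn : 0 < n) (η β : ℕ → ℕ) (s : Fin (2 * n + 2) → Bool)
    (h0 : s (st n 0) = false) (h2 : s (st n (1 + 1)) = !(s (st n 1))) (x : Bool) :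
    gen n η β (chg n 1 s x) =
      if ∀ j ∈ Finset.Icc 1 (2 * n + 2), (hgt n s j).natAbs = η j then
      gX0_R n β s * (if x then 1 else -1) ^ β 0 else 0 := by
  obtain ⟨c1, c2, c3⟩ := chg_at n 1 (by omega) s x
  have c0 : chg n 1 s x (st n 0) = false := by
    rw [c3 0 (by omega) (by omega) (by omega), h0]
  have hge : ∀ l, 3 ≤ l → l ≤ 2 * n + 2 → hgt n (chg n 1 s x) l = hgt n s l := by
    intro l hl hl2
    exact hgt_chg_ge n 1 (by omega) s x l h2 (by omega) hl2
  rw [gX0_gen n η β _ c0, c1]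
  have hA : (∀ j ∈ Finset.Icc 1 (2 * n + 2), (hgt n (chg n 1 s x) j).natAbs = η j) ↔
      ∀ j ∈ Finset.Icc 1 (2 * n + 2), (hgt n s j).natAbs = η j := by
    refine forall₂_congr (fun j hj => ?_)
    obtain ⟨hj1, hj2⟩ := Finset.mem_Icc.1 hj
    have : (hgt n (chg n 1 s x) j).natAbs = (hgt n s j).natAbs := by
      rcases Nat.lt_or_ge j 3 with h | h
      · have : j = 1 ∨ j = 2 := by omega
        rcases this with rfl | rfl
        · rw [gX0_h1 n _ c0, gX0_h1 n s h0]
        · rw [gX0_h2 n _ c0, gX0_h2 n s h0]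
          split_ifs <;> rfl
      · rw [hge j h hj2]
    rw [this]
  have hR : gX0_R n β (chg n 1 s x) = gX0_R n β s := by
    unfold gX0_R
    refine Finset.prod_congr rfl (fun i hi => ?_)
    have := Finset.mem_range.1 hi
    rw [hge (2 * (i + 1) + 2) (by omega) (by omega)]
  rw [hR]
  exact if_congr hA rfl rfl

theorem gX0_formula (n : ℕ) {δ : ℝ} {S : ℤ → ℝ} (hS : Eig δ S) (hδ : 0 < δ) (hn : 0 < n)
    (η β : ℕ → ℕ) :
    PopE n S 1 1 (gen n η β) = if Even (β 0) ∧ η 3 = 0 then δ • gen n η β else 0 := by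
  have hsq : Real.sqrt (δ / 2) * Real.sqrt (δ / 2) = δ / 2 := Real.mul_self_sqrt (by positivity)
  ext s
  rw [PopE_apply]
  have hite : ∀ (P : Prop) [Decidable P] (f g : Fn (Fin (2 * n + 2)) Bool),
      (if P then f else g) s = if P then f s else g s := by
    intro P _ f g
    split_ifs <;> rfl
  rw [hite]
  simp only [Pi.smul_apply, smul_eq_mul, Pi.zero_apply, ite_self, one_mul]
  cases h0 : s (st n 0) with
  | true =>
    have c : ∀ x, gen n η β (chg n 1 s x) = 0 := by
      intro x
      obtain ⟨c1, c2, c3⟩ := chg_at n 1 (by omega) s x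
      apply gX0_gen_true
      rw [c3 0 (by omega) (by omega) (by omega), h0]
    simp [c, gX0_gen_true n η β s h0]
  | false =>
    by_cases h2 : s (st n (1 + 1)) = !(s (st n 1))
    · rw [if_pos h2, gX0_h1 n s h0]
      simp only [gX0_wt hS, gX0_chg n hn η β s h0 h2, Fintype.sum_bool, if_true,
        Bool.false_eq_true, if_false, one_pow, mul_one]
      rw [gX0_gen n η β s h0]
      have h3 : hgt n s 3 = 0 := (gX0_h3 n s h0).2 h2
      by_cases hA : ∀ j ∈ Finset.Icc 1 (2 * n + 2), (hgt n s j).natAbs = η j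
      · have h3' : η 3 = 0 := by
          rw [← hA 3 (Finset.mem_Icc.2 ⟨by omega, by omega⟩), h3]
          rfl
        simp only [if_pos hA, h3', and_true]
        rcases Nat.even_or_odd (β 0) with he | ho
        · have e1 : ((if s (st n 1) = true then 1 else -1 : ℝ)) ^ β 0 = 1 := by
            split_ifs
            · exact one_pow _
            · exact he.neg_one_pow
          rw [if_pos he, e1, he.neg_one_pow]
          linear_combination (2 * gX0_R n β s) * hsq
        · rw [if_neg (Nat.not_even_iff_odd.2 ho), ho.neg_one_pow]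
          ring
      · simp only [if_neg hA]
        simp
    · rw [if_neg h2]
      have h3 : hgt n s 3 ≠ 0 := fun h => h2 ((gX0_h3 n s h0).1 h)
      split_ifs with h
      · rw [gX0_gen n η β s h0, if_neg, mul_zero]
        intro hA
        have := hA 3 (Finset.mem_Icc.2 ⟨by omega, by omega⟩)
        rw [h.2] at this
        exact h3 (Int.natAbs_eq_zero.1 this)
      · rfl

theorem gen_X0 (n : ℕ) {δ : ℝ} {S : ℤ → ℝ} (hS : Eig δ S) (hδ : 0 < δ) (hn : 0 < n)
    (η β : ℕ → ℕ) : Cone n (gen n η β - δ⁻¹ • PopE n S 1 1 (gen n η β)) := by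
  rw [gX0_formula n hS hδ hn]
  split_ifs
  · rw [smul_smul, inv_mul_cancel₀ hδ.ne', one_smul, sub_self]
    exact Cone.zero
  · rw [smul_zero, sub_zero]
    exact Cone.gen η β

theorem gE_X0 (n : ℕ) {δ : ℝ} {S : ℤ → ℝ} (hS : Eig δ S) (hδ : 0 < δ) (hn : 0 < n) :
    Cone1 n (gE n - δ⁻¹ • PopE n S 1 1 (gE n)) := by
  have h : PopE n S 1 1 (gE n) = 0 := by
    unfold gE
    rw [gX0_formula n hS hδ hn, if_neg]
    rintro ⟨-, h⟩
    simp only [eta0] at h
    revert h
    decide
  rw [h, smul_zero, sub_zero]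
  exact ⟨1, 0, one_pos, Cone.zero, by simp⟩

end

section
open Polynomial Pool.Agent.H207R2.BL Pool.Agent.H110R3.BP

theorem cone_map (n : ℕ) (Op : Module.End ℝ (Fn (Fin (2 * n + 2)) Bool))
    (h : ∀ η β, Cone n (Op (gen n η β))) (f : Fn (Fin (2 * n + 2)) Bool) (hf : Cone n f) :
    Cone n (Op f) := by
  induction hf with
  | zero =>
    rw [map_zero]
    exact Cone.zero
  | add f g _ _ ihf ihg =>
    rw [map_add]
    exact Cone.add _ _ ihf ihg
  | smul r f hr _ ih =>
    rw [map_smul]
    exact Cone.smul r _ hr ih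
  | gen η β => exact h η β

theorem cone1_map (n : ℕ) (Op : Module.End ℝ (Fn (Fin (2 * n + 2)) Bool))
    (h : ∀ η β, Cone n (Op (gen n η β))) (h1 : Cone1 n (Op (gE n)))
    (f : Fn (Fin (2 * n + 2)) Bool) (hf : Cone1 n f) : Cone1 n (Op f) := by
  obtain ⟨t, c, ht, hc, rfl⟩ := hf
  obtain ⟨t', c', ht', hc', he⟩ := h1
  refine ⟨t * t', t • c' + Op c, mul_pos ht ht',
    Cone.add _ _ (Cone.smul t _ ht.le hc') (cone_map n Op h c hc), ?_⟩
  rw [map_add, map_smul, he, smul_add, smul_smul, add_assoc]

end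

section
open Polynomial Pool.Agent.H207R2.BL Pool.Agent.H110R3.BP

/-- heights of the special paths -/
theorem U23_hgt (n : ℕ) (b : Bool) (j : ℕ) (hj : j + 1 ≤ 2 * n + 2) :
    hgt n (sp n b) (j + 1) =
      (if j = 0 then 0 else if j % 2 = 1 then 1 else 2) * (if b then 1 else -1) := by
  induction j with
  | zero =>
    rw [hgt_succ, hgt_zero]
    simp [sp, st]
  | succ j ih =>
    rw [hgt_succ, ih (by omega)]
    have hst : (st n (j + 1)).val = j + 1 := by
      unfold st
      rw [Fin.val_ofNat]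
      exact Nat.mod_eq_of_lt (by omega)
    have h1 : sp n b (st n (j + 1)) = if j = 0 then b else if (j + 1) % 2 = 0 then b else !b := by
      unfold sp
      rw [hst]
      simp
    rw [h1]
    rcases Nat.even_or_odd j with he | ho
    · rw [Nat.even_iff] at he
      rcases Nat.eq_zero_or_pos j with h0 | h0
      · subst h0
        cases b <;> simp
      · have e1 : (j + 1) % 2 = 1 := by omega
        have e2 : j ≠ 0 := by omega
        cases b <;> simp [e1, e2, he]
    · rw [Nat.odd_iff] at ho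
      have e1 : (j + 1) % 2 = 0 := by omega
      have e2 : j ≠ 0 := by omega
      cases b <;> simp [e1, e2, ho]

/-- values of the generating functions at the special paths -/
theorem U23_gen (n : ℕ) (η β : ℕ → ℕ) :
    (gen n η β (sp n true) = 0 ∧ gen n η β (sp n false) = 0) ∨
    (gen n η β (sp n true) = 1 ∧ (gen n η β (sp n false) = 1 ∨ gen n η β (sp n false) = -1)) := by
  have hst0 : (st n 0).val = 0 := by
    unfold st
    simp
  have hs0 : ∀ b, sp n b (st n 0) = false := by
    intro b
    unfold sp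
    rw [if_pos hst0]
  have habs : ∀ j ∈ Finset.Icc 1 (2 * n + 2),
      (hgt n (sp n true) j).natAbs = (hgt n (sp n false) j).natAbs := by
    intro j hj
    rw [Finset.mem_Icc] at hj
    obtain ⟨k, rfl⟩ : ∃ k, j = k + 1 := ⟨j - 1, by omega⟩
    rw [U23_hgt n true k hj.2, U23_hgt n false k hj.2]
    simp
  by_cases hc : ∀ j ∈ Finset.Icc 1 (2 * n + 2), (hgt n (sp n true) j).natAbs = η j
  · right
    have hc' : ∀ j ∈ Finset.Icc 1 (2 * n + 2), (hgt n (sp n false) j).natAbs = η j := by
      intro j hj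
      rw [← habs j hj]
      exact hc j hj
    unfold gen
    rw [if_pos ⟨hs0 true, hc⟩, if_pos ⟨hs0 false, hc'⟩]
    constructor
    · apply Finset.prod_eq_one
      intro i hi
      rw [Finset.mem_range] at hi
      have h1 : hgt n (sp n true) (2 * i + 2) = 1 := by
        rw [U23_hgt n true (2 * i + 1) (by omega)]
        have e1 : (2 * i + 1) % 2 = 1 := by omega
        simp [e1]
      rw [h1]
      simp
    · have h2 : ∏ i ∈ Finset.range (n + 1),
          ((SignType.sign (hgt n (sp n false) (2 * i + 2)) : ℤ) : ℝ) ^ β i =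
          (-1 : ℝ) ^ (∑ i ∈ Finset.range (n + 1), β i) := by
        rw [← Finset.prod_pow_eq_pow_sum]
        apply Finset.prod_congr rfl
        intro i hi
        rw [Finset.mem_range] at hi
        have h1 : hgt n (sp n false) (2 * i + 2) = -1 := by
          rw [U23_hgt n false (2 * i + 1) (by omega)]
          have e1 : (2 * i + 1) % 2 = 1 := by omega
          simp [e1]
        rw [h1]
        simp
      rw [h2]
      exact neg_one_pow_eq_or ℝ _
  · left
    have hc' : ¬ ∀ j ∈ Finset.Icc 1 (2 * n + 2), (hgt n (sp n false) j).natAbs = η j := by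
      intro h
      apply hc
      intro j hj
      rw [habs j hj]
      exact h j hj
    unfold gen
    rw [if_neg (fun h => hc h.2), if_neg (fun h => hc' h.2)]
    exact ⟨rfl, rfl⟩

theorem cone_sp (n : ℕ) (f : Fn (Fin (2 * n + 2)) Bool) (hf : Cone n f) :
    0 ≤ f (sp n true) + f (sp n false) ∧ 0 ≤ f (sp n true) - f (sp n false) := by
  induction hf with
  | zero => simp
  | add f g _ _ ih1 ih2 =>
    simp only [Pi.add_apply]
    constructor
    · linarith [ih1.1, ih2.1]
    · linarith [ih1.2, ih2.2]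
  | smul r f hr _ ih =>
    simp only [Pi.smul_apply, smul_eq_mul]
    constructor
    · have := mul_nonneg hr ih.1
      linarith
    · have := mul_nonneg hr ih.2
      linarith
  | gen η β =>
    rcases U23_gen n η β with h | h
    · rw [h.1, h.2]; simp
    · rcases h.2 with h2 | h2
      · rw [h.1, h2]; norm_num
      · rw [h.1, h2]; norm_num

end

section
open Polynomial Pool.Agent.H207R2.BL Pool.Agent.H110R3.BP

theorem U24_sp_val (n : ℕ) (b : Bool) (j : ℕ) (hj : j ≤ 2 * n + 1) : sp n b (st n j) =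
    if j = 0 then false else if j = 1 then b else if j % 2 = 0 then b else !b := by
  unfold sp
  rw [st_val n j hj]

theorem U24_sp_zero (n : ℕ) (b : Bool) : sp n b (st n 0) = false := by
  rw [U24_sp_val n b 0 (by omega), if_pos rfl]

theorem U24_sp_one (n : ℕ) (b : Bool) : sp n b (st n 1) = b := by
  rw [U24_sp_val n b 1 (by omega), if_neg (show ¬ (1 : ℕ) = 0 by omega), if_pos rfl]

theorem U24_sp_even (n : ℕ) (b : Bool) (j : ℕ) (hj : j ≤ 2 * n + 1) (h2 : 2 ≤ j)
    (h : j % 2 = 0) : sp n b (st n j) = b := by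
  rw [U24_sp_val n b j hj, if_neg (show ¬ j = 0 by omega), if_neg (show ¬ j = 1 by omega), if_pos h]

theorem U24_sp_odd (n : ℕ) (b : Bool) (j : ℕ) (hj : j ≤ 2 * n + 1) (h2 : 2 ≤ j)
    (h : ¬ j % 2 = 0) : sp n b (st n j) = !b := by
  rw [U24_sp_val n b j hj, if_neg (show ¬ j = 0 by omega), if_neg (show ¬ j = 1 by omega), if_neg h]

theorem U24_eta_one : eta0 1 = 0 := by
  unfold eta0
  rw [if_pos rfl]

theorem U24_eta_even (j : ℕ) (h1 : j ≠ 1) (h : j % 2 = 0) : eta0 j = 1 := by
  unfold eta0
  rw [if_neg h1, if_pos (Nat.even_iff.2 h)]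

theorem U24_eta_odd (j : ℕ) (h1 : j ≠ 1) (h : j % 2 = 1) : eta0 j = 2 := by
  unfold eta0
  rw [if_neg h1, if_neg (fun h2 => by have := Nat.even_iff.1 h2; omega)]

/-- heights of the special paths -/
theorem U24_hgt_sp (n : ℕ) (b : Bool) (j : ℕ) (hj : j + 1 ≤ 2 * n + 2) :
    hgt n (sp n b) (j + 1) = (if b then 1 else -1) * (eta0 (j + 1) : ℤ) := by
  induction j with
  | zero =>
    rw [hgt_succ, hgt_zero, U24_sp_zero, zero_add, U24_eta_one]
    simp
  | succ j ih =>
    rw [hgt_succ, ih (by omega)]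
    by_cases h1 : j = 0
    · subst h1
      rw [zero_add, U24_sp_one, U24_eta_one, U24_eta_even (1 + 1) (by omega) (by omega)]
      cases b <;> simp
    · by_cases h2 : (j + 1) % 2 = 0
      · rw [U24_sp_even n b (j + 1) (by omega) (by omega) h2, U24_eta_even (j + 1) (by omega) h2,
          U24_eta_odd (j + 1 + 1) (by omega) (by omega)]
        cases b <;> simp
      · rw [U24_sp_odd n b (j + 1) (by omega) (by omega) h2,
          U24_eta_odd (j + 1) (by omega) (by omega),
          U24_eta_even (j + 1 + 1) (by omega) (by omega)]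
        cases b <;> simp

/-- a path with the special absolute values of the heights -/
theorem U24_rec (n : ℕ) (s : Fin (2 * n + 2) → Bool) (h0 : s (st n 0) = false)
    (h : ∀ j ∈ Finset.Icc 1 (2 * n + 2), (hgt n s j).natAbs = eta0 j) (j : ℕ)
    (hj : j ≤ 2 * n + 1) :
    hgt n s (j + 1) = (if s (st n 1) then 1 else -1) * (eta0 (j + 1) : ℤ) ∧
      s (st n j) = sp n (s (st n 1)) (st n j) := by
  induction j with
  | zero =>
    refine ⟨?_, ?_⟩
    · rw [hgt_succ, hgt_zero, h0, zero_add, U24_eta_one]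
      simp
    · rw [h0, U24_sp_zero]
  | succ j ih =>
    obtain ⟨ih1, -⟩ := ih (by omega)
    have hs := hgt_succ n s (j + 1)
    have ha := h (j + 1 + 1) (Finset.mem_Icc.2 ⟨by omega, by omega⟩)
    by_cases h1 : j = 0
    · subst h1
      rw [zero_add] at hs ih1 ⊢
      rw [U24_sp_one]
      refine ⟨?_, rfl⟩
      rw [hs, ih1, U24_eta_one, U24_eta_even (1 + 1) (by omega) (by omega)]
      simp
    · by_cases h2 : (j + 1) % 2 = 0
      · rw [U24_sp_even n _ (j + 1) (by omega) (by omega) h2]
        rw [U24_eta_even (j + 1) (by omega) h2] at ih1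
        rw [U24_eta_odd (j + 1 + 1) (by omega) (by omega)] at ha ⊢
        rw [ih1] at hs
        rw [hs] at ha ⊢
        cases hb : s (st n 1) <;> cases hc : s (st n (j + 1)) <;> rw [hb, hc] at ha <;>
          simp at ha ⊢
      · rw [U24_sp_odd n _ (j + 1) (by omega) (by omega) h2]
        rw [U24_eta_odd (j + 1) (by omega) (by omega)] at ih1
        rw [U24_eta_even (j + 1 + 1) (by omega) (by omega)] at ha ⊢
        rw [ih1] at hs
        rw [hs] at ha ⊢
        cases hb : s (st n 1) <;> cases hc : s (st n (j + 1)) <;> rw [hb, hc] at ha <;>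
          simp at ha ⊢

theorem U24_iff (n : ℕ) (s : Fin (2 * n + 2) → Bool) :
    (s (st n 0) = false ∧ ∀ j ∈ Finset.Icc 1 (2 * n + 2), (hgt n s j).natAbs = eta0 j) ↔
      (s = sp n true ∨ s = sp n false) := by
  constructor
  · rintro ⟨h0, h⟩
    have key : s = sp n (s (st n 1)) := by
      funext i
      have hi : i = st n i.val := Fin.ext (st_val n i.val (by omega)).symm
      rw [hi]
      exact (U24_rec n s h0 h i.val (by omega)).2
    cases hb : s (st n 1)
    · right
      rw [hb] at key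
      exact key
    · left
      rw [hb] at key
      exact key
  · have key : ∀ b, (sp n b (st n 0) = false ∧
        ∀ j ∈ Finset.Icc 1 (2 * n + 2), (hgt n (sp n b) j).natAbs = eta0 j) := by
      intro b
      refine ⟨U24_sp_zero n b, fun j hj => ?_⟩
      obtain ⟨j1, j2⟩ := Finset.mem_Icc.1 hj
      obtain ⟨k, rfl⟩ : ∃ k, j = k + 1 := ⟨j - 1, by omega⟩
      rw [U24_hgt_sp n b k j2]
      cases b <;> simp
    rintro (h | h)
    · rw [h]; exact key true
    · rw [h]; exact key false

theorem U24_ne (n : ℕ) : sp n false ≠ sp n true := by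
  intro h
  have h1 := congrFun h (st n 1)
  rw [U24_sp_one, U24_sp_one] at h1
  simp at h1

theorem gE_eq (n : ℕ) (s : Fin (2 * n + 2) → Bool) :
    gE n s = if s = sp n true ∨ s = sp n false then 1 else 0 := by
  unfold gE gen
  by_cases h : s = sp n true ∨ s = sp n false
  · rw [if_pos h, if_pos ((U24_iff n s).2 h)]
    simp
  · rw [if_neg h, if_neg (fun h2 => h ((U24_iff n s).1 h2))]

theorem gO_eq (n : ℕ) (s : Fin (2 * n + 2) → Bool) :
    gO n s = if s = sp n true then 1 else if s = sp n false then -1 else 0 := by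
  have key : ∀ b, ∏ i ∈ Finset.range (n + 1),
      ((SignType.sign (hgt n (sp n b) (2 * i + 2)) : ℤ) : ℝ) ^ (if i = 0 then 1 else 0) =
      if b then 1 else -1 := by
    intro b
    rw [Finset.prod_eq_single 0]
    · rw [if_pos rfl, pow_one, mul_zero, zero_add]
      have := U24_hgt_sp n b 1 (by omega)
      rw [U24_eta_even (1 + 1) (by omega) (by omega)] at this
      rw [this]
      cases b <;> simp
    · intro i _ hi
      rw [if_neg hi, pow_zero]
    · intro h
      exact absurd (Finset.mem_range.2 (by omega)) h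
  unfold gO gen
  by_cases h1 : s = sp n true
  · rw [if_pos h1, if_pos ((U24_iff n s).2 (Or.inl h1)), h1, key true]
    simp
  · rw [if_neg h1]
    by_cases h2 : s = sp n false
    · rw [if_pos h2, if_pos ((U24_iff n s).2 (Or.inr h2)), h2, key false]
      simp
    · rw [if_neg h2, if_neg (fun h3 => by
        rcases (U24_iff n s).1 h3 with h3 | h3
        · exact h1 h3
        · exact h2 h3)]

end

section
open Polynomial Pool.Agent.H207R2.BL Pool.Agent.H110R3.BP

theorem U_sp (n : ℕ) (κ : ℕ → Bool) (h0 : κ 0 = false) (b : Bool) : U n κ (sp n b) = 1 := by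
  unfold U
  refine Finset.prod_eq_one fun i hi => ?_
  have hi' : i < n + 1 := Finset.mem_range.1 hi
  rcases Nat.eq_zero_or_pos i with rfl | hpos
  · rw [h0]
    simp
  · have h1 : sp n b (st n (2 * i)) = b := by
      unfold sp
      rw [st_val n _ (by omega)]
      rw [if_neg (by omega), if_neg (by omega), if_pos (by omega)]
    have h2 : sp n b (st n (2 * i + 1)) = !b := by
      unfold sp
      rw [st_val n _ (by omega)]
      rw [if_neg (by omega), if_neg (by omega), if_neg (by omega)]
    have h3 : sg n (sp n b) i = 1 := by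
      unfold sg
      rw [h1, h2, if_neg]
      cases b <;> decide
    rw [h3]
    simp

theorem GU_gE (n : ℕ) (κ : ℕ → Bool) (h0 : κ 0 = false) :
    GU n κ (gE n) = gE n ∧ GU n κ (gO n) = gO n := by
  constructor
  · funext s
    unfold GU
    rw [gE_eq]
    split_ifs with h
    · rcases h with rfl | rfl
      · rw [U_sp n κ h0, one_mul]
      · rw [U_sp n κ h0, one_mul]
    · rw [mul_zero]
  · funext s
    unfold GU
    rw [gO_eq]
    split_ifs with h h'
    · subst h
      rw [U_sp n κ h0, one_mul]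
    · subst h'
      rw [U_sp n κ h0, one_mul]
    · rw [mul_zero]

end

section
open Polynomial Pool.Agent.H207R2.BL Pool.Agent.H110R3.BP

/-- The height representation. -/
noncomputable def pathTL (n : ℕ) {δ : ℝ} {S : ℤ → ℝ} (hS : Eig δ S) (hδ : 0 < δ) (q : ℝ)
    (hq : q = δ ^ 2) : TL (2 * n + 1) q (Module.End ℝ (Fn (Fin (2 * n + 2)) Bool)) where
  e j := (if Even j then δ else δ⁻¹) • PopE n S 1 j
  sq j hj := by
    rw [smul_mul_smul_comm, Pop_sq n hS j (by omega)]
    by_cases h : Even j
    · simp only [h, if_true, hq, smul_smul]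
      congr 1
      ring
    · simp only [h, if_false, smul_smul]
      congr 1
      field_simp
  r1 j hj := by
    rw [smul_mul_smul_comm, smul_mul_smul_comm, Pop_zig1 n hS j (by omega)]
    congr 1
    by_cases h : Even j
    · have h' : ¬ Even (j + 1) := by simpa [Nat.even_add_one] using h
      simp only [h, h', if_true, if_false]
      field_simp
    · have h' : Even (j + 1) := by simpa [Nat.even_add_one] using h
      simp only [h, h', if_true, if_false]
      field_simp
  r2 j hj := by
    rw [smul_mul_smul_comm, smul_mul_smul_comm, Pop_zig2 n hS j (by omega)]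
    congr 1
    by_cases h : Even j
    · have h' : ¬ Even (j + 1) := by simpa [Nat.even_add_one] using h
      simp only [h, h', if_true, if_false]
      field_simp
    · have h' : Even (j + 1) := by simpa [Nat.even_add_one] using h
      simp only [h, h', if_true, if_false]
      field_simp
  comm i j hij hj := by
    rw [smul_mul_smul_comm, smul_mul_smul_comm, Pop_comm n S i j hij (by omega)]
    congr 1
    exact mul_comm _ _

end

section
open Polynomial Pool.Agent.H207R2.BL Pool.Agent.H110R3.BP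

theorem U26_GU_smul (n : ℕ) (κ : ℕ → Bool) (r : ℝ) (f : Fn (Fin (2 * n + 2)) Bool) :
    GU n κ (r • f) = r • GU n κ f := by
  funext s
  simp only [GU, Pi.smul_apply, smul_eq_mul]
  ring

theorem U26_GU_sub (n : ℕ) (κ : ℕ → Bool) (f g : Fn (Fin (2 * n + 2)) Bool) :
    GU n κ (f - g) = GU n κ f - GU n κ g := by
  funext s
  simp only [GU, Pi.sub_apply]
  ring

theorem U26_cone1_smul (n : ℕ) (r : ℝ) (hr : 0 < r) (f : Fn (Fin (2 * n + 2)) Bool)
    (hf : Cone1 n f) : Cone1 n (r • f) := by
  obtain ⟨t, c, ht, hc, rfl⟩ := hf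
  refine ⟨r * t, r • c, mul_pos hr ht, Cone.smul r c hr.le hc, ?_⟩
  rw [smul_add, smul_smul]

theorem U26_step (n : ℕ) (κ κ' : ℕ → Bool) (Op P : Module.End ℝ (Fn (Fin (2 * n + 2)) Bool))
    (hcomm : ∀ g, GU n κ' (P g) = Op (GU n κ g))
    (hgen : ∀ η β, Cone n (Op (gen n η β))) (h1 : Cone1 n (Op (gE n)))
    (fE fO : Fn (Fin (2 * n + 2)) Bool) (hE : Cone1 n (GU n κ fE)) (hO : Cone n (GU n κ fO)) :
    Cone1 n (GU n κ' (P fE)) ∧ Cone n (GU n κ' (P fO)) := by
  rw [hcomm, hcomm]
  exact ⟨cone1_map n Op hgen h1 _ hE, cone_map n Op hgen _ hO⟩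

theorem U26_T_cons {M : ℕ} {q : ℝ} {A : Type} [Ring A] [Algebra ℝ A] (S : TL M q A) (l : Let)
    (w : List Let) : T S (l :: w) = ev S l * T S w := by
  simp [T]

theorem U26_even (n : ℕ) {δ : ℝ} {S : ℤ → ℝ} (hS : Eig δ S) (hδ : 0 < δ) (q : ℝ)
    (hq : q = δ ^ 2) (i : ℕ) : (pathTL n hS hδ q hq).e (2 * i) = δ • PopE n S 1 (2 * i) := by
  show (if Even (2 * i) then δ else δ⁻¹) • PopE n S 1 (2 * i) = _
  rw [if_pos (even_two_mul i)]

theorem U26_odd (n : ℕ) {δ : ℝ} {S : ℤ → ℝ} (hS : Eig δ S) (hδ : 0 < δ) (q : ℝ)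
    (hq : q = δ ^ 2) (i : ℕ) :
    (pathTL n hS hδ q hq).e (2 * i + 1) = δ⁻¹ • PopE n S 1 (2 * i + 1) := by
  show (if Even (2 * i + 1) then δ else δ⁻¹) • PopE n S 1 (2 * i + 1) = _
  rw [if_neg (by rw [Nat.even_iff]; omega)]

theorem word_cone (n : ℕ) {δ : ℝ} {S : ℤ → ℝ} (hS : Eig δ S) (hδ : 0 < δ) (q : ℝ)
    (hq : q = δ ^ 2) (wd : List Let) (κ : ℕ → Bool) (hok : OK1 wd κ)
    (hr : ∀ l ∈ wd, InR1 n l) :
    Cone1 n (GU n κ (T (pathTL n hS hδ q hq) wd (gE n))) ∧
      Cone n (GU n κ (T (pathTL n hS hδ q hq) wd (gO n))) := by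
  have hδi : 0 < δ⁻¹ := inv_pos.mpr hδ
  induction hok with
  | nil κ h0 =>
    have h : T (pathTL n hS hδ q hq) [] = 1 := by
      simp [T]
    rw [h, Module.End.one_apply, Module.End.one_apply, (GU_gE n κ h0).1, (GU_gE n κ h0).2]
    refine ⟨⟨1, 0, one_pos, Cone.zero, by rw [one_smul, add_zero]⟩, Cone.gen _ _⟩
  | C i b wd κ hi h ih =>
    have hi2 : 1 ≤ i ∧ i ≤ n := hr _ List.mem_cons_self
    have ih' := ih (fun l hl => hr l (List.mem_cons_of_mem _ hl))
    rw [U26_T_cons, Module.End.mul_apply, Module.End.mul_apply]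
    refine U26_step n κ _ (δ • PopE n S 1 (2 * i)) _ ?_ ?_ ?_ _ _ ih'.1 ih'.2
    · intro g
      show GU n _ ((pathTL n hS hδ q hq).e (2 * i) g) = _
      rw [U26_even, LinearMap.smul_apply, LinearMap.smul_apply, U26_GU_smul,
        gauge_C n S κ i hi hi2.2 b g]
    · intro η β
      exact Cone.smul δ _ hδ.le (gen_C n hS i hi hi2.2 η β)
    · exact U26_cone1_smul n δ hδ _ (gE_C n hS i hi hi2.2)
  | J i wd κ hi h hκ ih =>
    have hi2 : 1 ≤ i ∧ i < n := hr _ List.mem_cons_self
    have ih' := ih (fun l hl => hr l (List.mem_cons_of_mem _ hl))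
    rw [U26_T_cons, Module.End.mul_apply, Module.End.mul_apply]
    refine U26_step n κ _ (δ⁻¹ • PopE n S 1 (2 * i + 1)) _ ?_ ?_ ?_ _ _ ih'.1 ih'.2
    · intro g
      show GU n _ ((pathTL n hS hδ q hq).e (2 * i + 1) g) = _
      rw [U26_odd, LinearMap.smul_apply, LinearMap.smul_apply, U26_GU_smul,
        gauge_same n S κ i hi2.2 hκ g]
    · intro η β
      exact Cone.smul δ⁻¹ _ hδi.le (gen_J n hS hδ i hi2.2 η β)
    · exact U26_cone1_smul n δ⁻¹ hδi _ (gE_J n hS hδ i hi hi2.2)
  | X i wd κ hi h hκ ih =>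
    have hi2 : i < n := hr _ List.mem_cons_self
    have ih' := ih (fun l hl => hr l (List.mem_cons_of_mem _ hl))
    rw [U26_T_cons, Module.End.mul_apply, Module.End.mul_apply]
    refine U26_step n κ _ (1 - δ⁻¹ • PopE n S (-1) (2 * i + 1)) _ ?_ ?_ ?_ _ _ ih'.1 ih'.2
    · intro g
      show GU n _ ((1 - (pathTL n hS hδ q hq).e (2 * i + 1)) g) = _
      rw [U26_odd, LinearMap.sub_apply, LinearMap.sub_apply, LinearMap.smul_apply,
        LinearMap.smul_apply, U26_GU_sub, U26_GU_smul, gauge_diff n S κ i hi2 hκ g,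
        Module.End.one_apply, Module.End.one_apply]
    · intro η β
      exact gen_X n hS hδ i hi2 η β
    · exact gE_X n hS hδ i hi2
  | X0 wd κ h ih =>
    have hi2 : 0 < n := hr _ List.mem_cons_self
    have ih' := ih (fun l hl => hr l (List.mem_cons_of_mem _ hl))
    rw [U26_T_cons, Module.End.mul_apply, Module.End.mul_apply]
    by_cases hκ : κ 0 = κ (0 + 1)
    · refine U26_step n κ _ (1 - δ⁻¹ • PopE n S 1 1) _ ?_ ?_ ?_ _ _ ih'.1 ih'.2
      · intro g
        show GU n _ ((1 - (pathTL n hS hδ q hq).e (2 * 0 + 1)) g) = _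
        rw [U26_odd, LinearMap.sub_apply, LinearMap.sub_apply, LinearMap.smul_apply,
          LinearMap.smul_apply, U26_GU_sub, U26_GU_smul, gauge_same n S κ 0 hi2 hκ g,
          Module.End.one_apply, Module.End.one_apply]
      · intro η β
        exact gen_X0 n hS hδ hi2 η β
      · exact gE_X0 n hS hδ hi2
    · refine U26_step n κ _ (1 - δ⁻¹ • PopE n S (-1) (2 * 0 + 1)) _ ?_ ?_ ?_ _ _ ih'.1 ih'.2
      · intro g
        show GU n _ ((1 - (pathTL n hS hδ q hq).e (2 * 0 + 1)) g) = _
        rw [U26_odd, LinearMap.sub_apply, LinearMap.sub_apply, LinearMap.smul_apply,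
          LinearMap.smul_apply, U26_GU_sub, U26_GU_smul, gauge_diff n S κ 0 hi2 hκ g,
          Module.End.one_apply, Module.End.one_apply]
      · intro η β
        exact gen_X n hS hδ 0 hi2 η β
      · exact gE_X n hS hδ 0 hi2

end

section
open Polynomial Pool.Agent.H207R2.BL Pool.Agent.H110R3.BP

/-- detach all columns except column `0` -/
def allC (n : ℕ) : List Let := (List.range n).map (fun i => Let.C (i + 1))

end

section
open Polynomial Pool.Agent.H207R2.BL Pool.Agent.H110R3.BP

-- M2: words of detachments (of columns other than `0`)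
theorem allC_ok (n : ℕ) (v w : List Let) (hv : ∀ l ∈ v, ∃ i, 1 ≤ i ∧ i ≤ n ∧ l = Let.C i)
    (κ : ℕ → Bool) (h : OK1 w κ) :
    (∃ κ' : ℕ → Bool, OK1 (v ++ w) κ') ∧ (∀ l ∈ v, InR1 n l) := by
  induction v with
  | nil => exact ⟨⟨κ, h⟩, by simp⟩
  | cons l v ih =>
    obtain ⟨⟨κ', hκ'⟩, hr⟩ := ih (fun l hl => hv l (List.mem_cons_of_mem _ hl))
    obtain ⟨i, h1, h2, rfl⟩ := hv l List.mem_cons_self
    refine ⟨⟨Function.update κ' i false, OK1.C i false (v ++ w) κ' h1 hκ'⟩, ?_⟩
    intro l hl
    rcases List.mem_cons.1 hl with rfl | hl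
    · exact ⟨h1, h2⟩
    · exact hr l hl

-- M2'
theorem allC_mem (n : ℕ) : ∀ l ∈ allC n, ∃ i, 1 ≤ i ∧ i ≤ n ∧ l = Let.C i := by
  intro l hl
  obtain ⟨i, hi, rfl⟩ := List.mem_map.1 hl
  have := List.mem_range.1 hi
  exact ⟨i + 1, by omega, by omega, rfl⟩

theorem U27_comm {M : ℕ} {q : ℝ} {A : Type} [Ring A] [Algebra ℝ A] (S : TL M q A) (i k : ℕ)
    (hi : 2 * (i + 1) < M) (hk : 2 * (k + 1) < M) :
    S.e (2 * (i + 1)) * S.e (2 * (k + 1)) = S.e (2 * (k + 1)) * S.e (2 * (i + 1)) := by
  rcases lt_trichotomy i k with h | h | h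
  · exact S.comm _ _ (by omega) hk
  · rw [h]
  · exact (S.comm _ _ (by omega) hi).symm

theorem U27_T_cons {M : ℕ} {q : ℝ} {A : Type} [Ring A] [Algebra ℝ A] (S : TL M q A) (i : ℕ)
    (l : List ℕ) : T S ((i :: l).map (fun i => Let.C (i + 1))) =
      S.e (2 * (i + 1)) * T S (l.map (fun i => Let.C (i + 1))) := by
  simp [T, ev]

theorem U27_commT {M : ℕ} {q : ℝ} {A : Type} [Ring A] [Algebra ℝ A] (S : TL M q A) (k : ℕ)
    (hk : 2 * (k + 1) < M) (l : List ℕ) (hl : ∀ i ∈ l, 2 * (i + 1) < M) :
    T S (l.map (fun i => Let.C (i + 1))) * S.e (2 * (k + 1)) =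
      S.e (2 * (k + 1)) * T S (l.map (fun i => Let.C (i + 1))) := by
  induction l with
  | nil => simp [T]
  | cons i l ih =>
    have h1 := ih (fun i hi => hl i (List.mem_cons_of_mem _ hi))
    have h2 := U27_comm S i k (hl i List.mem_cons_self) hk
    rw [U27_T_cons, mul_assoc, h1, ← mul_assoc, h2, mul_assoc]

theorem U27_eig {M : ℕ} {q : ℝ} {A : Type} [Ring A] [Algebra ℝ A] (S : TL M q A) (k : ℕ)
    (hk : 2 * (k + 1) < M) (l : List ℕ) (hl : ∀ i ∈ l, 2 * (i + 1) < M) (hm : k ∈ l) :
    S.e (2 * (k + 1)) * T S (l.map (fun i => Let.C (i + 1))) =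
      q • T S (l.map (fun i => Let.C (i + 1))) := by
  induction l with
  | nil => simp at hm
  | cons i l ih =>
    rw [U27_T_cons]
    by_cases hik : k = i
    · subst hik
      have hs := S.sq (2 * (k + 1)) hk
      rw [if_pos (even_two_mul _)] at hs
      rw [← mul_assoc, hs, smul_mul_assoc]
    · have hm' : k ∈ l := by
        rcases List.mem_cons.1 hm with h | h
        · exact absurd h hik
        · exact h
      have h1 := ih (fun i hi => hl i (List.mem_cons_of_mem _ hi)) hm'
      rw [← mul_assoc, U27_comm S k i hk (hl i List.mem_cons_self), mul_assoc, h1, mul_smul_comm]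

-- M3: detaching all columns gives an eigenvector of all detachments
theorem allC_eig (n : ℕ) (q : ℝ) (A : Type) [Ring A] [Algebra ℝ A] (S : TL (2 * n + 1) q A)
    (j : ℕ) (h1 : 1 ≤ j) (hj : j < 2 * n + 1) (he : Even j) :
    S.e j * T S (allC n) = q • T S (allC n) ∧ T S (allC n) * S.e j = q • T S (allC n) := by
  obtain ⟨k, rfl⟩ : ∃ k, j = 2 * (k + 1) := by
    obtain ⟨r, hr⟩ := he
    exact ⟨r - 1, by omega⟩
  have hl : ∀ i ∈ List.range n, 2 * (i + 1) < 2 * n + 1 := by
    intro i hi
    have := List.mem_range.1 hi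
    omega
  have e1 := U27_eig S k hj (List.range n) hl (List.mem_range.2 (by omega))
  have e2 := U27_commT S k hj (List.range n) hl
  exact ⟨e1, e2.trans e1⟩

end

section
open Polynomial Pool.Agent.H207R2.BL Pool.Agent.H110R3.BP

theorem U28_T_cons {M : ℕ} {q : ℝ} {A : Type} [Ring A] [Algebra ℝ A] (S : TL M q A) (l : Let)
    (w : List Let) : T S (l :: w) = ev S l * T S w := by
  simp [T]

theorem U28_symm (n : ℕ) {δ : ℝ} {S : ℤ → ℝ} (hS : Eig δ S) (hδ : 0 < δ) (q : ℝ)
    (hq : q = δ ^ 2) (j : ℕ) (hj : j ≤ 2 * n) (f g : Fn (Fin (2 * n + 2)) Bool) :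
    ip f ((pathTL n hS hδ q hq).e j g) = ip ((pathTL n hS hδ q hq).e j f) g := by
  show ip f (((if Even j then δ else δ⁻¹) • PopE n S 1 j) g) =
    ip (((if Even j then δ else δ⁻¹) • PopE n S 1 j) f) g
  rw [LinearMap.smul_apply, LinearMap.smul_apply, ip_smul_right, ip_smul_left,
    Pop_symm n S j hj f g]

theorem U28_ev (n : ℕ) {δ : ℝ} {S : ℤ → ℝ} (hS : Eig δ S) (hδ : 0 < δ) (q : ℝ)
    (hq : q = δ ^ 2) (l : Let) (hl : InR1 n l) (f g : Fn (Fin (2 * n + 2)) Bool) :
    ip (ev (pathTL n hS hδ q hq) l f) g = ip f (ev (pathTL n hS hδ q hq) l g) := by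
  cases l with
  | C i =>
    have h : 1 ≤ i ∧ i ≤ n := hl
    exact (U28_symm n hS hδ q hq (2 * i) (by omega) f g).symm
  | J i =>
    have h : 1 ≤ i ∧ i < n := hl
    exact (U28_symm n hS hδ q hq (2 * i + 1) (by omega) f g).symm
  | X i =>
    have h : i < n := hl
    have h1 := U28_symm n hS hδ q hq (2 * i + 1) (by omega) f g
    show ip ((1 - (pathTL n hS hδ q hq).e (2 * i + 1)) f) g =
      ip f ((1 - (pathTL n hS hδ q hq).e (2 * i + 1)) g)
    rw [LinearMap.sub_apply, LinearMap.sub_apply, Module.End.one_apply, Module.End.one_apply]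
    have e1 : ip (f - (pathTL n hS hδ q hq).e (2 * i + 1) f) g =
        ip f g - ip ((pathTL n hS hδ q hq).e (2 * i + 1) f) g := by
      simp only [ip, Pi.sub_apply, sub_mul, Finset.sum_sub_distrib]
    have e2 : ip f (g - (pathTL n hS hδ q hq).e (2 * i + 1) g) =
        ip f g - ip f ((pathTL n hS hδ q hq).e (2 * i + 1) g) := by
      simp only [ip, Pi.sub_apply, mul_sub, Finset.sum_sub_distrib]
    rw [e1, e2, h1]

theorem adj_word (n : ℕ) {δ : ℝ} {S : ℤ → ℝ} (hS : Eig δ S) (hδ : 0 < δ) (q : ℝ)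
    (hq : q = δ ^ 2) (v : List Let) (hv : ∀ l ∈ v, InR1 n l) (f g : Fn (Fin (2 * n + 2)) Bool) :
    ip (T (pathTL n hS hδ q hq) v f) g = ip f (T (pathTL n hS hδ q hq) v.reverse g) := by
  induction v generalizing g with
  | nil => simp [T]
  | cons l v ih =>
    rw [U28_T_cons, Module.End.mul_apply, U28_ev n hS hδ q hq l (hv l List.mem_cons_self),
      ih (fun l' hl' => hv l' (List.mem_cons_of_mem _ hl')), List.reverse_cons, T_append,
      Module.End.mul_apply]
    congr 2

theorem U28_ok_zero (w : List Let) (κ : ℕ → Bool) (h : OK1 w κ) : κ 0 = false := by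
  induction h with
  | nil κ h0 => exact h0
  | C i b w κ hi h ih =>
    rw [Function.update_of_ne (by omega)]
    exact ih
  | J i w κ hi h hκ ih => exact ih
  | X i w κ hi h hκ ih => exact ih
  | X0 w κ h ih => exact ih

theorem U28_ok_C (v w : List Let) (hv : ∀ l ∈ v, ∃ i, 1 ≤ i ∧ l = Let.C i) (κ : ℕ → Bool)
    (h : OK1 w κ) : OK1 (v ++ w) κ := by
  induction v with
  | nil => exact h
  | cons l v ih =>
    obtain ⟨i, hi, rfl⟩ := hv l List.mem_cons_self
    have ih' := ih (fun l' hl' => hv l' (List.mem_cons_of_mem _ hl'))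
    have h1 := OK1.C i (κ i) (v ++ w) κ hi ih'
    rw [Function.update_eq_self] at h1
    exact h1

theorem U28_ok_append (v w : List Let) (κ : ℕ → Bool) (h : OK1 w κ)
    (hv : ∀ κ0 : ℕ → Bool, κ0 0 = false → OK1 v κ0) : OK1 (w ++ v) κ := by
  induction h with
  | nil κ h0 => exact hv κ h0
  | C i b w κ hi h ih => exact OK1.C i b _ κ hi ih
  | J i w κ hi h hκ ih => exact OK1.J i _ κ hi ih hκ
  | X i w κ hi h hκ ih => exact OK1.X i _ κ hi ih hκ
  | X0 w κ h ih => exact OK1.X0 _ κ ih

/-- the vector state -/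
def U28_vec (n : ℕ) {δ : ℝ} {S : ℤ → ℝ} (hS : Eig δ S) (hδ : 0 < δ) (q : ℝ)
    (hq : q = δ ^ 2) (ω : Fn (Fin (2 * n + 2)) Bool)
    (hω : ∀ j, 1 ≤ j → j < 2 * n + 1 → Even j → (pathTL n hS hδ q hq).e j ω = q • ω) :
    State1 (pathTL n hS hδ q hq) where
  φ :=
    { toFun := fun T => ip ω (T ω)
      map_add' := by
        intro T U
        simp only [LinearMap.add_apply, ip, Pi.add_apply, mul_add, Finset.sum_add_distrib]
      map_smul' := by
        intro r T
        simp only [LinearMap.smul_apply, ip_smul_right, RingHom.id_apply, smul_eq_mul] }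
  left := by
    intro j h1 hj he x
    change ip ω (((pathTL n hS hδ q hq).e j * x) ω) = q * ip ω (x ω)
    rw [Module.End.mul_apply, U28_symm n hS hδ q hq j (by omega), hω j h1 hj he, ip_smul_left]
  right := by
    intro j h1 hj he x
    change ip ω ((x * (pathTL n hS hδ q hq).e j) ω) = q * ip ω (x ω)
    rw [Module.End.mul_apply, hω j h1 hj he, map_smul, ip_smul_right]

/-- indicator function -/
def U28_d (n : ℕ) (b : Bool) : Fn (Fin (2 * n + 2)) Bool := fun s => if s = sp n b then 1 else 0

theorem U28_ip_d (n : ℕ) (b : Bool) (f : Fn (Fin (2 * n + 2)) Bool) :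
    ip (U28_d n b) f = f (sp n b) := by
  unfold ip U28_d
  simp

theorem U28_sp_ne (n : ℕ) : sp n true ≠ sp n false := by
  intro h
  have h1 := congrFun h ⟨1, by omega⟩
  simp [sp] at h1

theorem U28_gE (n : ℕ) : gE n = U28_d n true + U28_d n false := by
  funext s
  rw [gE_eq]
  simp only [U28_d, Pi.add_apply]
  by_cases h1 : s = sp n true
  · have h2 : s ≠ sp n false := by
      rw [h1]
      exact U28_sp_ne n
    simp [h1, U28_sp_ne n]
  · by_cases h2 : s = sp n false
    · simp [h2, (U28_sp_ne n).symm]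
    · simp [h1, h2]

theorem U28_gO (n : ℕ) : gO n = U28_d n true - U28_d n false := by
  funext s
  rw [gO_eq]
  simp only [U28_d, Pi.sub_apply]
  by_cases h1 : s = sp n true
  · simp [h1, U28_sp_ne n]
  · by_cases h2 : s = sp n false
    · simp [h2, (U28_sp_ne n).symm]
    · simp [h1, h2]

theorem value_pos (n : ℕ) (q : ℝ) (hq : 4 ≤ q) (wd : List Let) (κ : ℕ → Bool)
    (hok : OK1 wd κ) (hr : ∀ l ∈ wd, InR1 n l) (R : ℝ)
    (hR : ∀ (A : Type) [Ring A] [Algebra ℝ A] (S : TL (2 * n + 1) q A) (F : State1 S),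
      F.φ (T S wd) = R * F.φ 1) : 0 < R := by
  obtain ⟨δ, S, hδ, hqδ, hS⟩ := exists_eig q hq
  have hmem : ∀ l ∈ allC n, InR1 n l := by
    intro l hl
    obtain ⟨i, h1, h2, rfl⟩ := allC_mem n l hl
    exact ⟨h1, h2⟩
  have hCm : ∀ l ∈ allC n, ∃ i, 1 ≤ i ∧ l = Let.C i := by
    intro l hl
    obtain ⟨i, h1, h2, rfl⟩ := allC_mem n l hl
    exact ⟨i, h1, rfl⟩
  have hCr : ∀ l ∈ (allC n).reverse, ∃ i, 1 ≤ i ∧ l = Let.C i :=
    fun l hl => hCm l (List.mem_reverse.1 hl)
  -- the long word
  have hok' : OK1 ((allC n).reverse ++ (wd ++ allC n)) κ := by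
    apply U28_ok_C _ _ hCr
    apply U28_ok_append _ _ _ hok
    intro κ0 h0
    have := U28_ok_C (allC n) [] hCm κ0 (OK1.nil κ0 h0)
    rwa [List.append_nil] at this
  have hr' : ∀ l ∈ (allC n).reverse ++ (wd ++ allC n), InR1 n l := by
    intro l hl
    rcases List.mem_append.1 hl with h | h
    · exact hmem l (List.mem_reverse.1 h)
    · rcases List.mem_append.1 h with h | h
      · exact hr l h
      · exact hmem l h
  have h0 : κ 0 = false := U28_ok_zero wd κ hok
  obtain ⟨⟨t, c, ht, hc, hE⟩, hO⟩ := word_cone n hS hδ q hqδ _ κ hok' hr'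
  set P := pathTL n hS hδ q hqδ with hP
  set Op := T P ((allC n).reverse ++ (wd ++ allC n)) with hOp
  -- values at the special paths
  have hUE : ∀ b, (Op (gE n)) (sp n b) = t * gE n (sp n b) + c (sp n b) := by
    intro b
    have h1 := congrFun hE (sp n b)
    simp only [GU, U_sp n κ h0 b, one_mul, Pi.add_apply, Pi.smul_apply, smul_eq_mul] at h1
    exact h1
  have hgEt : gE n (sp n true) = 1 := by rw [gE_eq]; simp
  have hgEf : gE n (sp n false) = 1 := by rw [gE_eq]; simp
  have hcs := (cone_sp n c hc).1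
  have hos := (cone_sp n _ hO).2
  simp only [GU, U_sp n κ h0 true, U_sp n κ h0 false, one_mul] at hos
  have hsum : 0 < (Op (gE n)) (sp n true) + (Op (gE n)) (sp n false) := by
    rw [hUE, hUE, hgEt, hgEf]
    linarith
  rw [U28_gE, map_add] at hsum
  rw [U28_gO, map_sub] at hos
  simp only [Pi.add_apply, Pi.sub_apply] at hsum hos
  have hpos : 0 < (Op (U28_d n true)) (sp n true) + (Op (U28_d n false)) (sp n false) := by
    linarith
  -- the states
  have hω : ∀ b j, 1 ≤ j → j < 2 * n + 1 → Even j →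
      P.e j (T P (allC n) (U28_d n b)) = q • T P (allC n) (U28_d n b) := by
    intro b j h1 hj he
    have h2 := (allC_eig n q _ P j h1 hj he).1
    rw [← Module.End.mul_apply, h2, LinearMap.smul_apply]
  have hst : ∀ b, (Op (U28_d n b)) (sp n b) =
      R * ip (T P (allC n) (U28_d n b)) (T P (allC n) (U28_d n b)) := by
    intro b
    have h1 := hR _ P (U28_vec n hS hδ q hqδ (T P (allC n) (U28_d n b)) (hω b))
    change ip (T P (allC n) (U28_d n b)) (T P wd (T P (allC n) (U28_d n b))) =
      R * ip (T P (allC n) (U28_d n b))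
        ((1 : Module.End ℝ (Fn (Fin (2 * n + 2)) Bool)) (T P (allC n) (U28_d n b))) at h1
    rw [Module.End.one_apply] at h1
    rw [← h1, adj_word n hS hδ q hqδ (allC n) hmem, U28_ip_d, hOp, T_append, T_append,
      Module.End.mul_apply, Module.End.mul_apply]
  rw [hst true, hst false, ← mul_add] at hpos
  have h5 := ip_self_nonneg (T P (allC n) (U28_d n true))
  have h6 := ip_self_nonneg (T P (allC n) (U28_d n false))
  by_contra hcon
  have h7 : R ≤ 0 := not_lt.1 hcon
  have h8 := mul_nonneg (neg_nonneg.2 h7) (add_nonneg h5 h6)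
  linarith

end

section
open Polynomial Pool.Agent.H207R2.BL Pool.Agent.H110R3.BP

/-- forgetting the colour of the base vertex -/
theorem U29_sum {V : Type} [Fintype V] (k : ℕ) (u : V) (E : Set (Sym2 V)) :
    ∑ x : Fin k, cnt k [u] E [x] = cnt k [] E [] := by
  classical
  unfold cnt
  rw [Finset.sum_comm]
  refine Finset.sum_congr rfl fun g _ => ?_
  by_cases h : ∀ a b, s(a, b) ∈ E → g a ≠ g b
  · rw [if_pos ⟨h, rfl⟩, Finset.sum_eq_single (g u)]
    · rw [if_pos ⟨h, rfl⟩]
    · intro x _ hx
      rw [if_neg]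
      rintro ⟨-, h2⟩
      apply hx
      simpa using h2.symm
    · intro h2
      exact absurd (Finset.mem_univ _) h2
  · rw [if_neg (fun h2 => h h2.1)]
    refine Finset.sum_eq_zero fun x _ => ?_
    rw [if_neg (fun h2 => h h2.1)]

/-- the integer values -/
theorem U29_nat {V : Type} [Fintype V] (u : V) (G : SimpleGraph V) (p : ℝ[X])
    (hp : IsChrom G p) (w : List Let) (N a b : ℕ) (k : ℕ) (hk : 1 ≤ k)
    (h : ∀ c : Fin (N + 1) → Fin k,
      (k : ℝ) ^ a * (T (PR N k) w (fun _ => 1)) c =
        (k : ℝ) ^ b * cnt k [u] G.edgeSet (cl (fun i => i) 1 c))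
    (r : ℝ) (hr : ∀ F : State1 (PR N k), F.φ (T (PR N k) w) = r * F.φ 1) :
    (k : ℝ) ^ b * p.eval (k : ℝ) = (k : ℝ) ^ (a + 1) * r := by
  have hP2 : ∀ j, j < 2 * N + 1 → ∀ f g : Fn (Fin (N + 1)) (Fin k),
      ip f ((PR N k).e j g) = ip ((PR N k).e j f) g :=
    fun j hj f g => potts_symm N (pt N) (pt_inj N) _ _ j f g
  have hP1 : ∀ j, j < 2 * N + 1 → Even j →
      (PR N k).e j (fun _ => 1) = (k : ℝ) • (fun _ => (1 : ℝ)) := by
    intro j hj he
    obtain ⟨i, rfl⟩ := even_iff_exists_two_mul.1 he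
    rw [PR_even]
    funext c
    simp [Cop_apply]
  have e1 := hr ⟨(vecState (PR N k) hP2 (fun _ => 1) hP1).φ,
    fun j _ hj he x => (vecState (PR N k) hP2 (fun _ => 1) hP1).left j hj he x,
    fun j _ hj he x => (vecState (PR N k) hP2 (fun _ => 1) hP1).right j hj he x⟩
  change ip (fun _ => 1) (T (PR N k) w (fun _ => 1)) =
    r * ip (fun _ => 1) ((1 : Module.End ℝ (Fn (Fin (N + 1)) (Fin k))) (fun _ => 1)) at e1
  have e3 : ip (fun _ : Fin (N + 1) → Fin k => (1 : ℝ))
      ((1 : Module.End ℝ (Fn (Fin (N + 1)) (Fin k))) (fun _ => 1)) = (k : ℝ) ^ (N + 1) := by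
    simp [ip]
  have hcl : ∀ c : Fin (N + 1) → Fin k, cl (fun i => i) 1 c = [c (pt N 0)] := by
    intro c
    simp [cl]
  have e4 : (k : ℝ) * ∑ c : Fin (N + 1) → Fin k, cnt k [u] G.edgeSet [c (pt N 0)] =
      (k : ℝ) ^ (N + 1) * p.eval (k : ℝ) := by
    have h1 := sum_update' (κ := Fin k) (pt N 0)
      (fun c : Fin (N + 1) → Fin k => cnt k [u] G.edgeSet [c (pt N 0)])
    simp only [Function.update_self, U29_sum, Fintype.card_fin] at h1
    rw [← h1, hp k, ← cnt_final G k]
    simp
  have e2 : (k : ℝ) ^ (a + 1) * ip (fun _ => 1) (T (PR N k) w (fun _ => 1)) =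
      (k : ℝ) ^ (N + 1) * ((k : ℝ) ^ b * p.eval (k : ℝ)) := by
    have h1 : (k : ℝ) ^ a * ip (fun _ => 1) (T (PR N k) w (fun _ => 1)) =
        (k : ℝ) ^ b * ∑ c : Fin (N + 1) → Fin k, cnt k [u] G.edgeSet [c (pt N 0)] := by
      unfold ip
      rw [Finset.mul_sum, Finset.mul_sum]
      refine Finset.sum_congr rfl fun c _ => ?_
      rw [one_mul, h c, hcl c]
    calc (k : ℝ) ^ (a + 1) * ip (fun _ => 1) (T (PR N k) w (fun _ => 1))
        = (k : ℝ) * ((k : ℝ) ^ a * ip (fun _ => 1) (T (PR N k) w (fun _ => 1))) := by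
          rw [pow_succ]; ring
      _ = (k : ℝ) ^ b * ((k : ℝ) *
          ∑ c : Fin (N + 1) → Fin k, cnt k [u] G.edgeSet [c (pt N 0)]) := by
          rw [h1]; ring
      _ = _ := by rw [e4]; ring
  rw [e1, e3] at e2
  have hk0 : (k : ℝ) ^ (N + 1) ≠ 0 := by
    have : (k : ℝ) ≠ 0 := by
      have : (1 : ℝ) ≤ (k : ℝ) := by exact_mod_cast hk
      linarith
    positivity
  apply mul_left_cancel₀ hk0
  rw [← e2]
  ring

theorem good1_pos {V : Type} [Fintype V] (u : V) (col : V → Bool) (G : SimpleGraph V)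
    (h : Good1 u col [] G.edgeSet) (p : ℝ[X]) (hp : IsChrom G p) (q : ℝ) (hq : 4 ≤ q) :
    0 < p.eval q := by
  obtain ⟨wd, κ, N, a, b, hok, -, hr, -, hw⟩ := h
  obtain ⟨R, hR⟩ := state_T1 N wd hr
  have hq0 : q ≠ 0 := by linarith
  have hqpos : 0 < q := by linarith
  have hL := laurent_eq p (a + 1) b R (fun k hk => by
    have hk0 : (k : ℝ) ≠ 0 := by
      have : (1 : ℝ) ≤ (k : ℝ) := by exact_mod_cast hk
      linarith
    exact U29_nat u G p hp wd N a b k hk (hw N le_rfl k hk) _
      (fun F => hR (k : ℝ) hk0 _ (PR N k) F)) q hqpos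
  have hRpos : 0 < (R.map (fun r => r.1 * q ^ r.2)).sum :=
    value_pos N q hq wd κ hok hr _ (fun A _ _ S F => hR q hq0 A S F)
  have hprod : 0 < q ^ b * p.eval q := by
    rw [hL]
    positivity
  exact (pos_iff_pos_of_mul_pos hprod).1 (by positivity)

end

section
open Polynomial Pool.Agent.H207R2.BL Pool.Agent.H110R3.BP

namespace U30x

theorem shr (d : ℕ) : ∀ (p : ℕ) (w : List Let) (κ : ℕ → Bool), 1 ≤ p → OK1 w κ →
    ∃ κ' : ℕ → Bool, OK1 (shrW p d ++ w) κ' ∧ (∀ i, i ≤ p → κ' i = κ i) ∧
      (∀ i, p ≤ i → i < p + d → κ' (i + 1) = κ i) := by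
  induction d with
  | zero =>
    intro p w κ _ h
    exact ⟨κ, h, fun i _ => rfl, fun i h1 h2 => absurd h2 (by omega)⟩
  | succ d ih =>
    intro p w κ hp h
    obtain ⟨κ1, h1, h2, h3⟩ := ih (p + 1) w κ (by omega) h
    have e1 := OK1.C (p + 1) (κ p) _ _ (by omega) h1
    have e2 := OK1.J p _ _ hp e1 (by
      rw [Function.update_self, Function.update_of_ne (by omega), h2 p (by omega)])
    have e3 := OK1.C p (κ p) _ _ hp e2
    refine ⟨_, e3, fun i hi => ?_, fun i hi hi' => ?_⟩
    · by_cases hip : i = p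
      · subst hip
        rw [Function.update_self]
      · rw [Function.update_of_ne hip, Function.update_of_ne (by omega), h2 i (by omega)]
    · rw [Function.update_of_ne (by omega)]
      by_cases hip : i = p
      · subst hip
        rw [Function.update_self]
      · rw [Function.update_of_ne (by omega), h3 i (by omega) (by omega)]

theorem shl (d : ℕ) : ∀ (p : ℕ) (w : List Let) (κ : ℕ → Bool), 1 ≤ p → OK1 w κ →
    ∃ κ' : ℕ → Bool, OK1 (shlW p d ++ w) κ' ∧ (∀ i, i < p → κ' i = κ i) ∧
      (∀ i, p ≤ i → i < p + d → κ' i = κ (i + 1)) ∧ (∀ i, p + d < i → κ' i = κ i) := by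
  induction d with
  | zero =>
    intro p w κ _ h
    exact ⟨κ, h, fun i _ => rfl, fun i h1 h2 => absurd h2 (by omega), fun i _ => rfl⟩
  | succ d ih =>
    intro p w κ hp h
    obtain ⟨κ1, h1, h2, h3, h4⟩ := ih p w κ hp h
    have e1 := OK1.C (p + d) (κ (p + d + 1)) _ _ (by omega) h1
    have e2 := OK1.J (p + d) _ _ (by omega) e1 (by
      rw [Function.update_self, Function.update_of_ne (by omega), h4 _ (by omega)])
    have e3 := OK1.C (p + d + 1) (κ (p + d + 1)) _ _ (by omega) e2
    refine ⟨_, e3, fun i hi => ?_, fun i hi hi' => ?_, fun i hi => ?_⟩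
    · rw [Function.update_of_ne (by omega), Function.update_of_ne (by omega), h2 i hi]
    · rw [Function.update_of_ne (by omega)]
      by_cases hip : i = p + d
      · subst hip
        rw [Function.update_self]
      · rw [Function.update_of_ne hip, h3 i hi (by omega)]
    · rw [Function.update_of_ne (by omega), Function.update_of_ne (by omega), h4 i (by omega)]

end U30x

-- W1
theorem ok_ins1 (w : List Let) (κ : ℕ → Bool) (h : OK1 w κ) (p d : ℕ) (hp : 1 ≤ p) (b : Bool) :
    ∃ κ' : ℕ → Bool, OK1 (insW p d ++ w) κ' ∧ κ' p = b ∧ (∀ i, i < p → κ' i = κ i) ∧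
      (∀ i, p ≤ i → i < p + d → κ' (i + 1) = κ i) := by
  obtain ⟨κ1, h1, h2, h3⟩ := U30x.shr d p w κ hp h
  refine ⟨_, OK1.C p b _ _ hp h1, Function.update_self _ _ _, fun i hi => ?_, fun i hi hi' => ?_⟩
  · rw [Function.update_of_ne (by omega), h2 i hi.le]
  · rw [Function.update_of_ne (by omega), h3 i hi hi']

-- W2
theorem ok_del1 (w : List Let) (κ : ℕ → Bool) (h : OK1 w κ) (p d : ℕ) (hp : 1 ≤ p) :
    ∃ κ' : ℕ → Bool, OK1 (delW p d ++ w) κ' ∧ (∀ i, i < p → κ' i = κ i) ∧
      (∀ i, p ≤ i → i < p + d → κ' i = κ (i + 1)) := by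
  have e := OK1.C p (κ p) w κ hp h
  rw [Function.update_eq_self] at e
  obtain ⟨κ1, h1, h2, h3, -⟩ := U30x.shl d p (Let.C p :: w) κ hp e
  refine ⟨κ1, ?_, h2, h3⟩
  unfold delW
  rw [List.append_assoc]
  exact h1

end

section
open Polynomial Pool.Agent.H207R2.BL Pool.Agent.H110R3.BP

theorem U31_shrW (n p d : ℕ) (hp : 1 ≤ p) (h : p + d ≤ n) : ∀ l ∈ shrW p d, InR1 n l := by
  induction d generalizing p with
  | zero => intro l hl; simp [shrW] at hl
  | succ d ih =>
    intro l hl
    simp only [shrW, Shr, List.mem_append, List.mem_cons, List.not_mem_nil, or_false] at hl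
    rcases hl with (rfl | rfl | rfl) | hl
    · show 1 ≤ p ∧ p ≤ n
      omega
    · show 1 ≤ p ∧ p < n
      omega
    · show 1 ≤ p + 1 ∧ p + 1 ≤ n
      omega
    · exact ih (p + 1) (by omega) (by omega) l hl

theorem inr_ins1 (n p d : ℕ) (hp : 1 ≤ p) (h : p + d ≤ n) :
    ∀ l ∈ insW p d, InR1 n l := by
  intro l hl
  simp only [insW, List.mem_cons] at hl
  rcases hl with rfl | hl
  · show 1 ≤ p ∧ p ≤ n
    omega
  · exact U31_shrW n p d hp h l hl

theorem U31_shlW (n p d : ℕ) (hp : 1 ≤ p) (h : p + d ≤ n) : ∀ l ∈ shlW p d, InR1 n l := by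
  induction d with
  | zero => intro l hl; simp [shlW] at hl
  | succ d ih =>
    intro l hl
    simp only [shlW, Shl, List.mem_append, List.mem_cons, List.not_mem_nil, or_false] at hl
    rcases hl with (rfl | rfl | rfl) | hl
    · show 1 ≤ p + d + 1 ∧ p + d + 1 ≤ n
      omega
    · show 1 ≤ p + d ∧ p + d < n
      omega
    · show 1 ≤ p + d ∧ p + d ≤ n
      omega
    · exact ih (by omega) l hl

theorem inr_del1 (n p d : ℕ) (hp : 1 ≤ p) (h : p + d ≤ n) :
    ∀ l ∈ delW p d, InR1 n l := by
  intro l hl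
  simp only [delW, List.mem_append, List.mem_singleton] at hl
  rcases hl with hl | rfl
  · exact U31_shlW n p d hp h l hl
  · show 1 ≤ p ∧ p ≤ n
    omega

open Classical in
theorem U31_count {V : Type} [Fintype V] (u : V) (k : ℕ) (x : Fin k) :
    ∑ g : V → Fin k, (if g u = x then (1 : ℝ) else 0) = (k : ℝ) ^ (Fintype.card V - 1) := by
  have h1 : ∀ g : V → Fin k, (if g u = x then (1 : ℝ) else 0) =
      ∏ v, (if v = u then (if g v = x then (1 : ℝ) else 0) else 1) := by
    intro g
    rw [Finset.prod_ite_eq']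
    simp
  simp_rw [h1]
  have h3 := Finset.prod_univ_sum (fun _ : V => (Finset.univ : Finset (Fin k)))
    (fun v j => if v = u then (if j = x then (1 : ℝ) else 0) else 1)
  rw [Fintype.piFinset_univ] at h3
  rw [← h3]
  have h2 : ∀ v : V, ∑ j : Fin k, (if v = u then (if j = x then (1 : ℝ) else 0) else 1) =
      if v = u then 1 else (k : ℝ) := by
    intro v
    split_ifs
    · simp
    · simp
  simp_rw [h2]
  rw [Finset.prod_ite]
  simp only [Finset.prod_const_one, one_mul, Finset.prod_const]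
  congr 1
  rw [Finset.filter_ne' Finset.univ u, Finset.card_erase_of_mem (Finset.mem_univ u),
    Finset.card_univ]

theorem good1_nil {V : Type} [Fintype V] (u : V) (col : V → Bool) :
    Good1 u col ([] : List V) ∅ := by
  classical
  refine ⟨[], fun _ => false, 1, Fintype.card V - 1, 0, OK1.nil _ rfl, ?_, ?_, by simp, ?_⟩
  · intro i hi
    simp at hi
  · intro l hl
    simp at hl
  · intro n _ k _ c
    have h1 : cnt k [u] ∅ (cl (fun i => i) (([] : List V).length + 1) c) =
        (k : ℝ) ^ (Fintype.card V - 1) := by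
      rw [← U31_count u k (c (pt n 0))]
      unfold cnt cl
      refine Finset.sum_congr rfl (fun g _ => ?_)
      simp
    rw [h1]
    simp [T]

end

section
open Polynomial Pool.Agent.H207R2.BL Pool.Agent.H110R3.BP

theorem U32_inr {n : ℕ} {l : Let} (h : InR1 n l) : InR1 (n + 1) l := by
  cases l <;> simp only [InR1] at h ⊢ <;> omega

theorem good1_new {V : Type} [Fintype V] (u : V) (col : V → Bool) (L1 L2 : List V)
    (E : Set (Sym2 V)) (v : V) (huv : v ≠ u) (hv1 : v ∉ L1) (hv2 : v ∉ L2)
    (hE : ∀ a, s(a, v) ∉ E) (h : Good1 u col (L1 ++ L2) E) : Good1 u col (L1 ++ v :: L2) E := by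
  obtain ⟨w, κ, N, a, b, hok, hcol, hin, hlen, heq⟩ := h
  obtain ⟨κ', hok', hb', hlt', hge'⟩ := ok_ins1 w κ hok (L1.length + 1) L2.length (by omega)
    (col v)
  have hlen' : L1.length + L2.length + 1 ≤ N := by
    rw [List.length_append] at hlen
    exact hlen
  refine ⟨insW (L1.length + 1) L2.length ++ w, κ', N + 1, a, b + L2.length + 2, hok',
    ?_, ?_, ?_, ?_⟩
  · intro i hi
    rw [List.length_append, List.length_cons] at hi
    rcases lt_trichotomy i L1.length with h1 | h1 | h1
    · rw [hlt' (i + 1) (by omega), hcol i (by rw [List.length_append]; omega),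
        List.getElem_append_left h1, List.getElem_append_left h1]
    · subst h1
      rw [hb']
      simp
    · obtain ⟨j, rfl⟩ : ∃ j, i = j + 1 := ⟨i - 1, by omega⟩
      have h2 : L1.length ≤ j := by omega
      have h3 : j < L1.length + L2.length := by omega
      rw [hge' (j + 1) (by omega) (by omega), hcol j (by rw [List.length_append]; omega),
        List.getElem_append_right h2, List.getElem_append_right (by omega)]
      obtain ⟨m, rfl⟩ : ∃ m, j = L1.length + m := ⟨j - L1.length, by omega⟩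
      have h4 : L1.length + m + 1 - L1.length = m + 1 := by omega
      have h5 : L1.length + m - L1.length = m := by omega
      simp only [h4, h5, List.getElem_cons_succ]
  · intro l hl
    rw [List.mem_append] at hl
    rcases hl with hl | hl
    · exact inr_ins1 (N + 1) (L1.length + 1) L2.length (by omega) (by omega) l hl
    · exact U32_inr (hin l hl)
  · rw [List.length_append, List.length_cons]
    omega
  · intro n hn k hk c
    have hk0 : (k : ℝ) ≠ 0 := by
      have : 0 < k := hk
      positivity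
    have hka : (k : ℝ) ^ a ≠ 0 := pow_ne_zero _ hk0
    have hF : (T (PR n k) w (fun _ => 1)) = fun c : Fin (n + 1) → Fin k =>
        (fun l => (k : ℝ) ^ b / (k : ℝ) ^ a * cnt k ((u :: L1) ++ L2) E l)
          (cl (fun i => i) (L1.length + 1 + L2.length) c) := by
      funext c
      have := heq n (by omega) k hk c
      rw [List.length_append, show L1.length + L2.length + 1 = L1.length + 1 + L2.length by omega]
        at this
      simp only [List.cons_append]
      field_simp
      linarith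
    have hins := ins_act n k (L1.length + 1) L2.length (by omega)
      (fun l => (k : ℝ) ^ b / (k : ℝ) ^ a * cnt k ((u :: L1) ++ L2) E l) c
    rw [T_append, Module.End.mul_apply, hF]
    refine (congrArg (fun r => (k : ℝ) ^ a * r) hins).trans ?_
    have hv1' : v ∉ u :: L1 := by
      rw [List.mem_cons, not_or]
      exact ⟨huv, hv1⟩
    rw [good_new_cl n k (L1.length + 1) L2.length c, List.length_append, List.length_cons,
      show L1.length + (L2.length + 1) + 1 = L1.length + 1 + (L2.length + 1) by omega,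
      good_new_cl' n k (L1.length + 1) L2.length c, ← List.cons_append,
      ← cnt_new k (u :: L1) L2 E v hv1' hv2 hE _ _ (c (pt n (L1.length + 1))) (by simp [cl])]
    field_simp
    ring

end

section
open Polynomial Pool.Agent.H207R2.BL Pool.Agent.H110R3.BP

theorem U33_cl_add {n k : ℕ} (σ : ℕ → ℕ) (m d : ℕ) (c : Fin (n + 1) → Fin k) :
    cl σ (m + d) c = cl σ m c ++ cl (fun i => σ (m + i)) d c := by
  simp [cl, List.range_add, List.map_append, Function.comp_def]

theorem U33_cl_succ {n k : ℕ} (σ : ℕ → ℕ) (d : ℕ) (c : Fin (n + 1) → Fin k) :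
    cl σ (d + 1) c = c (pt n (σ 0)) :: cl (fun i => σ (i + 1)) d c := by
  simp [cl, List.range_succ_eq_map, Function.comp_def]

theorem U33_cl_congr {n k : ℕ} (σ τ : ℕ → ℕ) (d : ℕ) (c : Fin (n + 1) → Fin k)
    (h : ∀ i, i < d → σ i = τ i) : cl σ d c = cl τ d c := by
  unfold cl
  apply List.map_congr_left
  intro i hi
  rw [h i (List.mem_range.1 hi)]

theorem U33_inr {n : ℕ} {l : Let} (h : InR1 n l) : InR1 (n + 1) l := by
  cases l <;> simp only [InR1] at h ⊢ <;> omega

theorem good1_dup {V : Type} [Fintype V] (u : V) (col : V → Bool) (L1 L2 : List V)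
    (E : Set (Sym2 V)) (v : V) (h : Good1 u col (L1 ++ v :: L2) E) :
    Good1 u col (L1 ++ v :: v :: L2) E := by
  obtain ⟨w, κ, N, a, b, hok, hκ, hr, hN, hT⟩ := h
  have hlen : (L1 ++ v :: L2).length = L1.length + 1 + L2.length := by simp; omega
  have hlen' : (L1 ++ v :: v :: L2).length = L1.length + (L2.length + 1 + 1) := by simp
  have hp : L1.length < (L1 ++ v :: L2).length := by rw [hlen]; omega
  have e0 : κ (L1.length + 1) = col v := by
    rw [hκ _ hp]; congr 1; simp
  obtain ⟨κ', hok', hb', hlow, hhigh⟩ := ok_ins1 w κ hok (L1.length + 2) L2.length (by omega)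
    (col v)
  refine ⟨Let.J (L1.length + 1) :: (insW (L1.length + 2) L2.length ++ w), κ', N + 1, a,
    b + (L2.length + 1), OK1.J _ _ _ (by omega) hok' ?_, ?_, ?_, ?_, ?_⟩
  · rw [hlow _ (by omega), hb', e0]
  · intro i hi
    rcases lt_trichotomy i (L1.length + 1) with h1 | h1 | h1
    · rw [hlow (i + 1) (by omega), hκ i (by rw [hlen]; omega)]
      congr 1
      rcases Nat.lt_or_ge i L1.length with h2 | h2
      · rw [List.getElem_append_left h2, List.getElem_append_left h2]
      · have h3 : i = L1.length := by omega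
        subst h3
        simp
    · subst h1
      rw [hb']
      congr 1
      rw [List.getElem_append_right (by omega)]
      simp
    · obtain ⟨j, rfl⟩ : ∃ j, i = j + 1 := ⟨i - 1, by omega⟩
      rw [hlen'] at hi
      rw [hhigh (j + 1) (by omega) (by omega), hκ j (by rw [hlen]; omega)]
      congr 1
      rw [List.getElem_append_right (by omega), List.getElem_append_right (by omega)]
      obtain ⟨t, rfl⟩ : ∃ t, j = L1.length + 1 + t := ⟨j - (L1.length + 1), by omega⟩
      have e1 : L1.length + 1 + t - L1.length = t + 1 := by omega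
      have e2 : L1.length + 1 + t + 1 - L1.length = t + 1 + 1 := by omega
      simp only [e1, e2, List.getElem_cons_succ]
  · intro l hl
    rcases List.mem_cons.1 hl with rfl | hl
    · show 1 ≤ L1.length + 1 ∧ L1.length + 1 < N + 1
      omega
    · rcases List.mem_append.1 hl with hl | hl
      · exact inr_ins1 (N + 1) (L1.length + 2) L2.length (by omega) (by omega) l hl
      · exact U33_inr (hr l hl)
  · rw [hlen']
    omega
  · intro n hn k hk c
    have hk0 : (k : ℝ) ≠ 0 := by
      have : (1 : ℝ) ≤ k := by exact_mod_cast hk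
      positivity
    have hfun : (T (PR n k) w (fun _ => 1)) = fun c : Fin (n + 1) → Fin k =>
        (fun l : List (Fin k) => (k : ℝ) ^ b / (k : ℝ) ^ a * cnt k (u :: (L1 ++ v :: L2)) E l)
          (cl (fun i => i) (L1.length + 2 + L2.length) c) := by
      funext c
      have h1 := hT n (by omega) k hk c
      rw [hlen, show L1.length + 1 + L2.length + 1 = L1.length + 2 + L2.length by omega] at h1
      simp only
      have ha : (k : ℝ) ^ a ≠ 0 := pow_ne_zero _ hk0
      field_simp
      linarith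
    have hins := ins_act n k (L1.length + 2) L2.length (by omega)
      (fun l : List (Fin k) => (k : ℝ) ^ b / (k : ℝ) ^ a * cnt k (u :: (L1 ++ v :: L2)) E l) c
    have key : (T (PR n k) (Let.J (L1.length + 1) :: (insW (L1.length + 2) L2.length ++ w))
          (fun _ => 1)) c =
        if c (pt n (L1.length + 1)) = c (pt n (L1.length + 2)) then
          (T (PR n k) (insW (L1.length + 2) L2.length) (T (PR n k) w (fun _ => 1))) c else 0 := by
      have : T (PR n k) (Let.J (L1.length + 1) :: (insW (L1.length + 2) L2.length ++ w)) =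
          (PR n k).e (2 * (L1.length + 1) + 1) *
            (T (PR n k) (insW (L1.length + 2) L2.length) * T (PR n k) w) := by
        rw [← T_append]
        simp [T, ev]
      rw [this, PR_odd, Module.End.mul_apply, Module.End.mul_apply, Jop_apply]
    have hcl : cl (fun i => i) ((L1 ++ v :: v :: L2).length + 1) c =
        cl (fun i => i) (L1.length + 1) c ++ c (pt n (L1.length + 1)) ::
          c (pt n (L1.length + 2)) ::
          cl (fun i => L1.length + 1 + (i + 1 + 1)) L2.length c := by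
      rw [hlen', show L1.length + (L2.length + 1 + 1) + 1 = L1.length + 1 + (L2.length + 1 + 1)
        by omega, U33_cl_add, U33_cl_succ (fun i => L1.length + 1 + i) (L2.length + 1) c,
        U33_cl_succ (fun i => L1.length + 1 + (i + 1)) L2.length c]
    have hup : cl (up (L1.length + 2)) (L1.length + 2 + L2.length) c =
        cl (fun i => i) (L1.length + 1) c ++ c (pt n (L1.length + 1)) ::
          cl (fun i => L1.length + 1 + (i + 1 + 1)) L2.length c := by
      have e3 : L1.length + 2 + L2.length = L1.length + 1 + (L2.length + 1) := by omega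
      rw [e3, U33_cl_add,
        U33_cl_succ (fun i => up (L1.length + 2) (L1.length + 1 + i)) L2.length c]
      have e4 : cl (up (L1.length + 2)) (L1.length + 1) c = cl (fun i => i) (L1.length + 1) c := by
        apply U33_cl_congr
        intro i hi
        simp only [up]
        rw [if_pos (by omega)]
      have e5 : up (L1.length + 2) (L1.length + 1 + 0) = L1.length + 1 := by
        simp [up]
      have e6 : cl (fun i => up (L1.length + 2) (L1.length + 1 + (i + 1))) L2.length c =
          cl (fun i => L1.length + 1 + (i + 1 + 1)) L2.length c := by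
        apply U33_cl_congr
        intro i hi
        simp only [up]
        rw [if_neg (by omega)]
        omega
      rw [e4, e5, e6]
    have hd := cnt_dup k (u :: L1) L2 E v (cl (fun i => i) (L1.length + 1) c)
      (cl (fun i => L1.length + 1 + (i + 1 + 1)) L2.length c) (c (pt n (L1.length + 1)))
      (c (pt n (L1.length + 2))) (by simp [cl])
    rw [List.cons_append, List.cons_append] at hd
    rw [key, hcl, hd, hfun, hins, hup]
    split_ifs with hc
    · have ha : (k : ℝ) ^ a ≠ 0 := pow_ne_zero _ hk0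
      have hX : ∀ (A B D Y : ℝ), A ≠ 0 → A * (D * (B / A * Y)) = B * D * Y := by
        intro A B D Y hA
        field_simp
      rw [pow_add (k : ℝ) b (L2.length + 1)]
      exact hX _ _ _ _ ha
    · simp

end

section
open Polynomial Pool.Agent.H207R2.BL Pool.Agent.H110R3.BP

theorem U34_cl_add {n k : ℕ} (σ : ℕ → ℕ) (m d : ℕ) (c : Fin (n + 1) → Fin k) :
    cl σ (m + d) c = cl σ m c ++ cl (fun i => σ (m + i)) d c := by
  simp [cl, List.range_add, List.map_append, Function.comp_def]

theorem U34_cl_succ {n k : ℕ} (σ : ℕ → ℕ) (d : ℕ) (c : Fin (n + 1) → Fin k) :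
    cl σ (d + 1) c = c (pt n (σ 0)) :: cl (fun i => σ (i + 1)) d c := by
  simp [cl, List.range_succ_eq_map, Function.comp_def]

theorem U34_X {n k : ℕ} (p : ℕ) (w : List Let) (c : Fin (n + 1) → Fin k) :
    (T (PR n k) (Let.X p :: w) (fun _ => 1)) c =
        if c (pt n p) = c (pt n (p + 1)) then 0 else
          (T (PR n k) w (fun _ => 1)) c := by
  have : T (PR n k) (Let.X p :: w) =
      (1 - (PR n k).e (2 * p + 1)) * T (PR n k) w := by
    simp [T, ev]
  rw [this, PR_odd, Module.End.mul_apply, LinearMap.sub_apply, Module.End.one_apply]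
  show T (PR n k) w (fun _ => 1) c - Jop _ _ (T (PR n k) w (fun _ => 1)) c = _
  rw [Jop_apply]
  split_ifs <;> simp

theorem good1_edge {V : Type} [Fintype V] (u : V) (col : V → Bool) (L1 L2 : List V)
    (E : Set (Sym2 V)) (a v : V) (hav : col a ≠ col v) (h : Good1 u col (L1 ++ a :: v :: L2) E) :
    Good1 u col (L1 ++ a :: v :: L2) (insert s(a, v) E) := by
  obtain ⟨w, κ, N, a', b, hok, hκ, hr, hN, hT⟩ := h
  have hlen : (L1 ++ a :: v :: L2).length = L1.length + (L2.length + 1 + 1) := by simp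
  have hp : L1.length < (L1 ++ a :: v :: L2).length := by rw [hlen]; omega
  have hp1 : L1.length + 1 < (L1 ++ a :: v :: L2).length := by rw [hlen]; omega
  have e0 : κ (L1.length + 1) = col a := by
    rw [hκ _ hp]; congr 1; simp
  have e1 : κ (L1.length + 1 + 1) = col v := by
    rw [hκ _ hp1]; congr 1
    rw [List.getElem_append_right (by omega)]; simp
  refine ⟨Let.X (L1.length + 1) :: w, κ, N, a', b,
    OK1.X _ _ _ (by omega) hok (by rw [e0, e1]; exact hav), hκ, ?_, hN, ?_⟩
  · intro l hl
    rcases List.mem_cons.1 hl with rfl | hl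
    · show L1.length + 1 < N
      omega
    · exact hr l hl
  · intro n hn k hk c
    have h1 := hT n hn k hk c
    have hcl : cl (fun i => i) ((L1 ++ a :: v :: L2).length + 1) c =
        cl (fun i => i) (L1.length + 1) c ++ c (pt n (L1.length + 1)) ::
          c (pt n (L1.length + 1 + 1)) ::
          cl (fun i => L1.length + 1 + (i + 1 + 1)) L2.length c := by
      have h2 : (L1 ++ a :: v :: L2).length + 1 = (L1.length + 1) + (L2.length + 1 + 1) := by
        rw [hlen]; omega
      rw [h2, U34_cl_add, U34_cl_succ _ (L2.length + 1), U34_cl_succ _ L2.length]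
    have hu : u :: (L1 ++ a :: v :: L2) = (u :: L1) ++ a :: v :: L2 := rfl
    rw [U34_X, hcl, hu, cnt_edge k (u :: L1) L2 E a v _ _ _ _ (by simp [cl])]
    rw [hcl, hu] at h1
    split_ifs with hc
    · simp
    · exact h1

theorem good1_base {V : Type} [Fintype V] (u : V) (col : V → Bool) (L : List V)
    (E : Set (Sym2 V)) (v : V) (h : Good1 u col (v :: L) E) :
    Good1 u col (v :: L) (insert s(u, v) E) := by
  obtain ⟨w, κ, N, a', b, hok, hκ, hr, hN, hT⟩ := h
  have hlen : (v :: L).length = L.length + 1 := rfl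
  refine ⟨Let.X 0 :: w, κ, N, a', b, OK1.X0 _ _ hok, hκ, ?_, hN, ?_⟩
  · intro l hl
    rcases List.mem_cons.1 hl with rfl | hl
    · show 0 < N
      omega
    · exact hr l hl
  · intro n hn k hk c
    have h1 := hT n hn k hk c
    have hcl : cl (fun i => i) ((v :: L).length + 1) c =
        [] ++ c (pt n 0) :: c (pt n (0 + 1)) :: cl (fun i => i + 1 + 1) L.length c := by
      rw [hlen, U34_cl_succ, U34_cl_succ]
      rfl
    have hu : u :: v :: L = [] ++ u :: v :: L := rfl
    rw [U34_X, hcl, hu, cnt_edge k [] L E u v _ _ _ _ rfl]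
    rw [hcl, hu] at h1
    split_ifs with hc
    · simp
    · exact h1

end

section
open Polynomial Pool.Agent.H207R2.BL Pool.Agent.H110R3.BP

theorem U35_cl {n k : ℕ} (p d : ℕ) (c : Fin (n + 1) → Fin k) :
    cl (fun i => i) (p + d) c = cl (fun i => i) p c ++ cl (fun i => p + i) d c := by
  unfold cl
  rw [List.range_add, List.map_append, List.map_map]
  rfl

theorem good1_drop {V : Type} [Fintype V] (u : V) (col : V → Bool) (L1 L2 : List V)
    (E : Set (Sym2 V)) (v : V) (h : Good1 u col (L1 ++ v :: L2) E) : Good1 u col (L1 ++ L2) E := by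
  obtain ⟨w, κ, N, a, b, hok, hκ, hin, hlen, hid⟩ := h
  have hl : (L1 ++ v :: L2).length = L1.length + 1 + L2.length := by
    simp only [List.length_append, List.length_cons]; omega
  rw [hl] at hlen
  obtain ⟨κ', hok', hκ1, hκ2⟩ := ok_del1 w κ hok (L1.length + 1) L2.length (by omega)
  refine ⟨delW (L1.length + 1) L2.length ++ w, κ', N, a, b + L2.length, hok', ?_, ?_, ?_, ?_⟩
  · intro i hi
    rw [List.length_append] at hi
    rcases lt_or_ge i L1.length with h1 | h1
    · rw [hκ1 (i + 1) (by omega), hκ i (by rw [hl]; omega), List.getElem_append_left h1,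
        List.getElem_append_left h1]
    · rw [hκ2 (i + 1) (by omega) (by omega), hκ (i + 1) (by rw [hl]; omega),
        List.getElem_append_right h1, List.getElem_append_right (by omega)]
      congr 1
      have h2 : i + 1 - L1.length = (i - L1.length) + 1 := by omega
      simp only [h2, List.getElem_cons_succ]
  · intro l hl'
    rcases List.mem_append.1 hl' with h1 | h1
    · exact inr_del1 N (L1.length + 1) L2.length (by omega) (by omega) l h1
    · exact hin l h1
  · rw [List.length_append]; omega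
  · intro n hn k hk c
    have hd := del_act n k (L1.length + 1) L2.length (by omega)
      (fun l => (k : ℝ) ^ b * cnt k (u :: (L1 ++ v :: L2)) E l) c
    have hg : (fun c : Fin (n + 1) → Fin k => (k : ℝ) ^ b * cnt k (u :: (L1 ++ v :: L2)) E
        (cl (fun i => i) (L1.length + 1 + 1 + L2.length) c)) =
        (k : ℝ) ^ a • (T (PR n k) w (fun _ => 1)) := by
      funext c'
      have e : L1.length + 1 + 1 + L2.length = (L1 ++ v :: L2).length + 1 := by
        rw [hl]; omega
      rw [e]
      exact (hid n hn k hk c').symm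
    rw [hg, map_smul] at hd
    rw [T_append, Module.End.mul_apply]
    have hd' : (k : ℝ) ^ a * (T (PR n k) (delW (L1.length + 1) L2.length))
        ((T (PR n k) w) (fun _ => 1)) c = _ := hd
    have e2 : (L1 ++ L2).length + 1 = (L1.length + 1) + L2.length := by
      rw [List.length_append]; omega
    rw [hd', e2, U35_cl (L1.length + 1) L2.length]
    have hc := cnt_drop k (u :: L1) L2 E v (cl (fun i => i) (L1.length + 1) c)
      (cl (fun i => L1.length + 1 + i) L2.length c) (by simp [cl])
    rw [List.cons_append, List.cons_append] at hc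
    rw [← hc, ← Finset.mul_sum, pow_add]
    ring

end

section
open Polynomial Pool.Agent.H207R2.BL Pool.Agent.H110R3.BP

theorem procU_inv {V : Type} {u : V} {L : List V} {U : Set V} {E : Set (Sym2 V)}
    (h : ProcU u L U E) : u ∈ U ∧ (∀ v ∈ L, v ∈ U ∧ v ≠ u) ∧
      (∀ a b, s(a, b) ∈ E → a ∈ U ∧ b ∈ U ∧ a ≠ b) := by
  induction h with
  | nil =>
    refine ⟨Set.mem_singleton _, fun v hv => by simp at hv, fun a b hab => ?_⟩
    exact absurd hab (Set.notMem_empty _)
  | new L1 L2 U E v h hv ih =>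
    refine ⟨Set.mem_insert_of_mem _ ih.1, fun w hw => ?_, fun a b hab => ?_⟩
    · rcases List.mem_append.1 hw with hw | hw
      · have h1 := ih.2.1 w (List.mem_append.2 (Or.inl hw))
        exact ⟨Set.mem_insert_of_mem _ h1.1, h1.2⟩
      · rcases List.mem_cons.1 hw with hw | hw
        · rw [hw]
          refine ⟨Set.mem_insert _ _, fun hvu => hv ?_⟩
          rw [hvu]
          exact ih.1
        · have h1 := ih.2.1 w (List.mem_append.2 (Or.inr hw))
          exact ⟨Set.mem_insert_of_mem _ h1.1, h1.2⟩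
    · obtain ⟨h1, h2, h3⟩ := ih.2.2 a b hab
      exact ⟨Set.mem_insert_of_mem _ h1, Set.mem_insert_of_mem _ h2, h3⟩
  | dup L1 L2 U E v h ih =>
    refine ⟨ih.1, fun w hw => ih.2.1 w ?_, ih.2.2⟩
    simp only [List.mem_append, List.mem_cons] at hw ⊢
    tauto
  | edge L1 L2 U E a v h hav ih =>
    refine ⟨ih.1, ih.2.1, fun x y hxy => ?_⟩
    rcases Set.mem_insert_iff.1 hxy with hxy | hxy
    · have hu : a ∈ U := (ih.2.1 a (by simp)).1
      have hv : v ∈ U := (ih.2.1 v (by simp)).1
      rcases Sym2.eq_iff.1 hxy with ⟨h1, h2⟩ | ⟨h1, h2⟩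
      · rw [h1, h2]
        exact ⟨hu, hv, hav⟩
      · rw [h1, h2]
        exact ⟨hv, hu, hav.symm⟩
    · exact ih.2.2 x y hxy
  | base L U E v h huv ih =>
    refine ⟨ih.1, ih.2.1, fun x y hxy => ?_⟩
    rcases Set.mem_insert_iff.1 hxy with hxy | hxy
    · have hv : v ∈ U := (ih.2.1 v (by simp)).1
      rcases Sym2.eq_iff.1 hxy with ⟨h1, h2⟩ | ⟨h1, h2⟩
      · rw [h1, h2]
        exact ⟨ih.1, hv, huv⟩
      · rw [h1, h2]
        exact ⟨hv, ih.1, huv.symm⟩
    · exact ih.2.2 x y hxy
  | drop L1 L2 U E v h ih =>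
    refine ⟨ih.1, fun w hw => ih.2.1 w ?_, ih.2.2⟩
    simp only [List.mem_append, List.mem_cons] at hw ⊢
    tauto

theorem good1_of_procU {V : Type} [Fintype V] (u : V) (col : V → Bool) {L : List V} {U : Set V}
    {E : Set (Sym2 V)} (h : ProcU u L U E) (hb : BipU u col E) : Good1 u col L E := by
  induction h with
  | nil => exact good1_nil u col
  | new L1 L2 U E v h hv ih =>
    obtain ⟨h0, h1, h2⟩ := procU_inv h
    refine good1_new u col L1 L2 E v ?_ ?_ ?_ ?_ (ih hb)
    · intro hvu
      rw [hvu] at hv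
      exact hv h0
    · intro hv1
      exact hv (h1 v (List.mem_append_left _ hv1)).1
    · intro hv1
      exact hv (h1 v (List.mem_append_right _ hv1)).1
    · intro a ha
      exact hv (h2 a v ha).2.1
  | dup L1 L2 U E v h ih => exact good1_dup u col L1 L2 E v (ih hb)
  | edge L1 L2 U E a v h hav ih =>
    obtain ⟨h0, h1, h2⟩ := procU_inv h
    refine good1_edge u col L1 L2 E a v ?_ (ih ?_)
    · exact hb a v (Set.mem_insert _ _) (h1 a (by simp)).2 (h1 v (by simp)).2
    · intro x y hxy
      exact hb x y (Set.mem_insert_of_mem _ hxy)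
  | base L U E v h huv ih =>
    refine good1_base u col L E v (ih ?_)
    intro x y hxy
    exact hb x y (Set.mem_insert_of_mem _ hxy)
  | drop L1 L2 U E v h ih => exact good1_drop u col L1 L2 E v (ih hb)

end

section
open Polynomial Pool.Agent.H207R2.BL Pool.Agent.H110R3.BP

theorem event_list1 {V : Type} [Finite V] {G : SimpleGraph V} {x y : V → ℝ}
    {g : V → V → ℝ → ℝ}
    (h : Mono G x y g) (v : V) (t0 t : ℝ) (hv0 : t0 < x v) (hvt : x v < t)
    (hno : ∀ z, z ≠ v → x z < t0 ∨ t < x z) (l : List (V × V)) (hl : IsList G x g t l) :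
    ∃ P O Q I : List (V × V), l = P ++ O ++ Q ∧ (∀ e ∈ O, e.1 = v) ∧
      (∀ e, e ∈ I ↔ (G.Adj e.1 v ∧ e.2 = v ∧ x e.1 < x v)) ∧ IsList G x g t0 (P ++ I ++ Q) ∧
      (∀ e ∈ P, G.Adj e.1 e.2 ∧ x e.1 < x v ∧ x v < x e.2 ∧ g e.1 e.2 (x v) < y v) := by
  classical
  set rk : V × V → ℕ := fun e => if e.1 = v then 1 else if g e.1 e.2 (x v) < y v then 0 else 2
    with hrk
  -- ranks
  have rk0 : ∀ e, rk e = 0 → e.1 ≠ v ∧ g e.1 e.2 (x v) < y v := by
    intro e he
    simp only [hrk] at he
    by_cases h1 : e.1 = v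
    · rw [if_pos h1] at he
      exact absurd he one_ne_zero
    · rw [if_neg h1] at he
      by_cases h2 : g e.1 e.2 (x v) < y v
      · exact ⟨h1, h2⟩
      · rw [if_neg h2] at he
        exact absurd he two_ne_zero
  have rk1 : ∀ e, rk e = 1 → e.1 = v := by
    intro e he
    simp only [hrk] at he
    by_contra h1
    rw [if_neg h1] at he
    by_cases h2 : g e.1 e.2 (x v) < y v
    · rw [if_pos h2] at he
      exact absurd he.symm one_ne_zero
    · rw [if_neg h2] at he
      omega
  have rk2 : ∀ e, Act G x t e → rk e = 2 → e.1 ≠ v ∧ y v < g e.1 e.2 (x v) := by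
    intro e hA he
    simp only [hrk] at he
    by_cases h1 : e.1 = v
    · rw [if_pos h1] at he
      omega
    · rw [if_neg h1] at he
      by_cases h2 : g e.1 e.2 (x v) < y v
      · rw [if_pos h2] at he
        omega
      · refine ⟨h1, lt_of_le_of_ne (not_lt.1 h2) ?_⟩
        have h3 := event_list_act v t0 t hno hA h1
        exact (h.vert e.1 e.2 v hA.1 (h3.trans hv0) (hvt.trans hA.2.2)).symm
  have rkle : ∀ e, rk e ≤ 2 := by
    intro e
    simp only [hrk]
    split_ifs <;> omega
  have rkor : ∀ e : V × V, e.1 ≠ v → rk e = 0 ∨ rk e = 2 := by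
    intro e he
    simp only [hrk]
    rw [if_neg he]
    by_cases h2 : g e.1 e.2 (x v) < y v
    · rw [if_pos h2]; exact Or.inl rfl
    · rw [if_neg h2]; exact Or.inr rfl
  have hact : ∀ e ∈ l, Act G x t e := fun e he => (hl.mem e).1 he
  -- values at `x v`
  have hstart : ∀ e ∈ l, x e.1 ≤ x v := by
    intro e he
    by_cases h1 : e.1 = v
    · rw [h1]
    · exact (event_list_act v t0 t hno (hact e he) h1).le.trans hv0.le
  have hleft : ∀ e ∈ l, e.1 = v → g e.1 e.2 (x v) = y v := by
    intro e he h1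
    have h2 := h.left e.1 e.2 (hact e he).1 ((hact e he).2.1.trans (hact e he).2.2)
    rw [h1] at h2 ⊢
    exact h2
  have hsplit := split_rank (fun e e' : V × V => g e.1 e.2 t < g e'.1 e'.2 t) l hl.sorted
    (fun a b hab hba => lt_asymm hab hba) rk (fun a _ => rkle a) (by
      intro a ha b hb hab
      refine lt_right h a b (x v) t hvt.le (hact a ha).1 (hact b hb).1 (hstart a ha)
        (hact a ha).2.2 (hstart b hb) (hact b hb).2.2 ?_
      have ha2 := rkle a
      have hb2 := rkle b
      rcases Nat.lt_or_ge (rk a) 1 with h1 | h1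
      · have h1' : rk a = 0 := by omega
        have h3 := (rk0 a h1').2
        rcases Nat.lt_or_ge (rk b) 2 with h2 | h2
        · have h2' : rk b = 1 := by omega
          rw [hleft b hb (rk1 b h2')]
          exact h3
        · have h2' : rk b = 2 := by omega
          exact h3.trans (rk2 b (hact b hb) h2').2
      · have h1' : rk a = 1 := by omega
        have h2' : rk b = 2 := by omega
        rw [hleft a ha (rk1 a h1')]
        exact (rk2 b (hact b hb) h2').2)
  -- the edges into `v`
  have hin : ∀ e : V × V, (G.Adj e.1 v ∧ e.2 = v ∧ x e.1 < x v) → x e.1 < t0 ∧ t0 < x e.2 := by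
    rintro e ⟨h1, h2, h3⟩
    constructor
    · rcases hno e.1 h1.ne with h4 | h4
      · exact h4
      · exact absurd (h4.trans h3) (not_lt.2 hvt.le)
    · rw [h2]; exact hv0
  obtain ⟨I, hI, hIs⟩ := exists_sorted
    (fun e : V × V => G.Adj e.1 v ∧ e.2 = v ∧ x e.1 < x v) (fun e => g e.1 e.2 t0) (by
      intro a b ha hb hab
      by_contra hne
      have ha' := hin a ha
      have hb' := hin b hb
      have haA : G.Adj a.1 a.2 := by rw [ha.2.1]; exact ha.1
      have hbA : G.Adj b.1 b.2 := by rw [hb.2.1]; exact hb.1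
      exact h.disj a.1 a.2 b.1 b.2 t0 haA hbA hne ha'.1 ha'.2 hb'.1 hb'.2 hab)
  set P := l.filter (fun a => decide (rk a = 0)) with hP
  set O := l.filter (fun a => decide (rk a = 1)) with hO
  set Q := l.filter (fun a => decide (rk a = 2)) with hQ
  have memP : ∀ e, e ∈ P ↔ e ∈ l ∧ rk e = 0 := fun e => by rw [hP]; simp
  have memO : ∀ e, e ∈ O ↔ e ∈ l ∧ rk e = 1 := fun e => by rw [hO]; simp
  have memQ : ∀ e, e ∈ Q ↔ e ∈ l ∧ rk e = 2 := fun e => by rw [hQ]; simp
  -- data of the elements of `P`, `Q`, `I`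
  have dP : ∀ e ∈ P, G.Adj e.1 e.2 ∧ x e.1 < t0 ∧ t < x e.2 ∧ g e.1 e.2 (x v) < y v := by
    intro e he
    obtain ⟨h1, h2⟩ := (memP e).1 he
    obtain ⟨h3, h4⟩ := rk0 e h2
    exact ⟨(hact e h1).1, event_list_act v t0 t hno (hact e h1) h3, (hact e h1).2.2, h4⟩
  have dQ : ∀ e ∈ Q, G.Adj e.1 e.2 ∧ x e.1 < t0 ∧ t < x e.2 ∧ y v < g e.1 e.2 (x v) := by
    intro e he
    obtain ⟨h1, h2⟩ := (memQ e).1 he
    obtain ⟨h3, h4⟩ := rk2 e (hact e h1) h2
    exact ⟨(hact e h1).1, event_list_act v t0 t hno (hact e h1) h3, (hact e h1).2.2, h4⟩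
  have dI : ∀ e ∈ I, G.Adj e.1 e.2 ∧ x e.1 < t0 ∧ x e.2 = x v ∧ g e.1 e.2 (x v) = y v := by
    intro e he
    have h1 := (hI e).1 he
    have h2 := hin e h1
    have h3 : G.Adj e.1 e.2 := by rw [h1.2.1]; exact h1.1
    have h4 := h.right e.1 e.2 h3 (h2.1.trans h2.2)
    rw [h1.2.1] at h4
    refine ⟨h3, h2.1, by rw [h1.2.1], ?_⟩
    rw [h1.2.1]
    exact h4
  have hs := hl.sorted
  refine ⟨P, O, Q, I, hsplit, fun e he => rk1 e ((memO e).1 he).2, hI, ⟨?_, ?_⟩, ?_⟩
  · intro e
    rw [List.mem_append, List.mem_append]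
    constructor
    · rintro ((he | he) | he)
      · obtain ⟨h1, h2, h3, -⟩ := dP e he
        exact ⟨h1, h2, hv0.trans (hvt.trans h3)⟩
      · obtain ⟨h1, h2, h3, -⟩ := dI e he
        exact ⟨h1, h2, by rw [h3]; exact hv0⟩
      · obtain ⟨h1, h2, h3, -⟩ := dQ e he
        exact ⟨h1, h2, hv0.trans (hvt.trans h3)⟩
    · rintro ⟨h1, h2, h3⟩
      have h4 : e.1 ≠ v := by
        intro h5
        rw [h5] at h2
        exact lt_asymm h2 hv0
      by_cases h5 : e.2 = v
      · refine Or.inl (Or.inr ((hI e).2 ⟨?_, h5, h2.trans hv0⟩))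
        rw [h5] at h1
        exact h1
      · have h6 : t < x e.2 := by
          rcases hno e.2 h5 with h7 | h7
          · exact absurd h7 (not_lt.2 h3.le)
          · exact h7
        have h8 : e ∈ l := (hl.mem e).2 ⟨h1, h2.trans (hv0.trans hvt), h6⟩
        rcases rkor e h4 with h9 | h9
        · exact Or.inl (Or.inl ((memP e).2 ⟨h8, h9⟩))
        · exact Or.inr ((memQ e).2 ⟨h8, h9⟩)
  · have ht0t : t0 ≤ t := hv0.le.trans hvt.le
    rw [List.pairwise_append, List.pairwise_append]
    refine ⟨⟨?_, hIs, ?_⟩, ?_, ?_⟩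
    · have h1 : P.Pairwise (fun e e' => g e.1 e.2 t < g e'.1 e'.2 t) := hs.filter _
      refine h1.imp_of_mem ?_
      intro a b ha hb hab
      obtain ⟨a1, a2, a3, -⟩ := dP a ha
      obtain ⟨b1, b2, b3, -⟩ := dP b hb
      exact lt_left h a b t t0 ht0t a1 b1 a2 a3.le b2 b3.le hab
    · intro a ha b hb
      obtain ⟨a1, a2, a3, a4⟩ := dP a ha
      obtain ⟨b1, b2, b3, b4⟩ := dI b hb
      exact lt_left h a b (x v) t0 hv0.le a1 b1 a2 (hvt.trans a3).le b2 b3.ge (by rw [b4]; exact a4)
    · have h1 : Q.Pairwise (fun e e' => g e.1 e.2 t < g e'.1 e'.2 t) := hs.filter _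
      refine h1.imp_of_mem ?_
      intro a b ha hb hab
      obtain ⟨a1, a2, a3, -⟩ := dQ a ha
      obtain ⟨b1, b2, b3, -⟩ := dQ b hb
      exact lt_left h a b t t0 ht0t a1 b1 a2 a3.le b2 b3.le hab
    · intro a ha b hb
      obtain ⟨b1, b2, b3, b4⟩ := dQ b hb
      rw [List.mem_append] at ha
      rcases ha with ha | ha
      · obtain ⟨a1, a2, a3, a4⟩ := dP a ha
        exact lt_left h a b (x v) t0 hv0.le a1 b1 a2 (hvt.trans a3).le b2 (hvt.trans b3).le
          (a4.trans b4)
      · obtain ⟨a1, a2, a3, a4⟩ := dI a ha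
        exact lt_left h a b (x v) t0 hv0.le a1 b1 a2 a3.ge b2 (hvt.trans b3).le
          (by rw [a4]; exact b4)
  · intro e he
    obtain ⟨a1, a2, a3, a4⟩ := dP e he
    exact ⟨a1, a2.trans hv0, hvt.trans a3, a4⟩

end

section
open Polynomial Pool.Agent.H207R2.BL Pool.Agent.H110R3.BP

theorem U38_in {V : Type} (u : V) (P Q : List V) (v : V) (I : List V) :
    ∀ (U : Set V) (E : Set (Sym2 V)), ProcU u (P ++ I ++ v :: Q) U E → (∀ w ∈ I, w ≠ v) →
      ProcU u (P ++ v :: Q) U (E ∪ {e | ∃ w ∈ I, e = s(w, v)}) := by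
  induction I using List.reverseRecOn with
  | nil =>
    intro U E h _
    have h1 : E ∪ {e | ∃ w ∈ ([] : List V), e = s(w, v)} = E := by
      ext e
      simp
    rw [h1]
    simpa using h
  | append_singleton I a ih =>
    intro U E h hI
    have h1 : P ++ (I ++ [a]) ++ v :: Q = (P ++ I) ++ a :: v :: Q := by simp
    rw [h1] at h
    have h2 := ProcU.edge (P ++ I) Q U E a v h (hI a (by simp))
    have h3 := ProcU.drop (P ++ I) (v :: Q) U _ a h2
    have h4 := ih U _ h3 (fun w hw => hI w (by simp [hw]))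
    have h5 : insert s(a, v) E ∪ {e | ∃ w ∈ I, e = s(w, v)} =
        E ∪ {e | ∃ w ∈ I ++ [a], e = s(w, v)} := by
      ext e
      simp only [Set.mem_union, Set.mem_insert_iff, Set.mem_ofPred_eq, List.mem_append,
        List.mem_singleton]
      constructor
      · rintro ((he | he) | ⟨w, hw, he⟩)
        · exact Or.inr ⟨a, Or.inr rfl, he⟩
        · exact Or.inl he
        · exact Or.inr ⟨w, Or.inl hw, he⟩
      · rintro (he | ⟨w, hw | hw, he⟩)
        · exact Or.inl (Or.inr he)
        · exact Or.inr ⟨w, hw, he⟩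
        · exact Or.inl (Or.inl (by rw [← hw]; exact he))
    rw [← h5]
    exact h4

theorem U38_rep {V : Type} (u : V) (P Q : List V) (v : V) (U : Set V) (E : Set (Sym2 V))
    (h : ProcU u (P ++ v :: Q) U E) (b : ℕ) :
    ProcU u (P ++ v :: (List.replicate b v ++ Q)) U E := by
  induction b with
  | zero => simpa using h
  | succ b ih =>
    have h1 := ProcU.dup P (List.replicate b v ++ Q) U E v ih
    simpa [List.replicate_succ] using h1

theorem U38_fin {V : Type} (u : V) (P Q : List V) (v : V) (b : ℕ) (U : Set V) (E : Set (Sym2 V))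
    (h : ProcU u (P ++ v :: Q) U E) : ProcU u (P ++ List.replicate b v ++ Q) U E := by
  cases b with
  | zero =>
    have h3 := ProcU.drop P Q _ _ v h
    simpa using h3
  | succ b =>
    have h3 := U38_rep u P Q v _ _ h b
    simpa [List.replicate_succ] using h3

-- G2
theorem procU_event {V : Type} (u : V) (P Q I : List V) (v : V) (b : ℕ) (U : Set V)
    (E : Set (Sym2 V)) (h : ProcU u (P ++ I ++ Q) U E) (hv : v ∉ U) (hI : ∀ w ∈ I, w ≠ v) :
    ProcU u (P ++ List.replicate b v ++ Q) (insert v U) (E ∪ {e | ∃ w ∈ I, e = s(w, v)}) := by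
  have h1 := ProcU.new (P ++ I) Q U E v h hv
  have h2 := U38_in u P Q v I (insert v U) E h1 hI
  exact U38_fin u P Q v b _ _ h2

-- G3
theorem procU_event_base {V : Type} (u : V) (Q I : List V) (v : V) (b : ℕ) (U : Set V)
    (E : Set (Sym2 V)) (h : ProcU u (I ++ Q) U E) (hv : v ∉ U) (huv : u ≠ v)
    (hI : ∀ w ∈ I, w ≠ v) :
    ProcU u (List.replicate b v ++ Q) (insert v U)
      (insert s(u, v) (E ∪ {e | ∃ w ∈ I, e = s(w, v)})) := by
  have h1 := ProcU.new I Q U E v h hv
  have h2 := U38_in u [] Q v I (insert v U) E h1 hI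
  have h3 := ProcU.base Q _ _ v h2 huv
  exact U38_fin u [] Q v b _ _ h3

end

section
open Polynomial Pool.Agent.H207R2.BL Pool.Agent.H110R3.BP

theorem U39_t0 {V : Type} [Finite V] (x : V → ℝ) (a : ℝ) :
    ∃ t0 < a, ∀ z, x z < a → x z < t0 := by
  have h : ∀ᶠ t0 in nhdsWithin a (Set.Iio a), ∀ z, x z < a → x z < t0 := by
    rw [Filter.eventually_all]
    intro z
    by_cases hz : x z < a
    · have h1 : Set.Ioo (x z) a ∈ nhdsWithin a (Set.Iio a) := Ioo_mem_nhdsLT hz
      filter_upwards [h1] with t ht _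
      exact ht.1
    · exact Filter.Eventually.of_forall fun t h => absurd h hz
  obtain ⟨t0, h0, h1⟩ := (h.and self_mem_nhdsWithin).exists
  exact ⟨t0, h1, h0⟩

theorem U39_aux {V : Type} [Finite V] (G : SimpleGraph V) (u : V)
    (x y : {v : V // v ≠ u} → ℝ) (g : {v : V // v ≠ u} → {v : V // v ≠ u} → ℝ → ℝ)
    (h : Mono (G.comap (fun v : {v : V // v ≠ u} => v.1)) x y g)
    (hvis : ∀ v : {v : V // v ≠ u}, G.Adj u v.1 → ∀ a c : {v : V // v ≠ u}, G.Adj a.1 c.1 →
      x a < x v → x v < x c → y v < g a c (x v)) (n : ℕ) :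
    ∀ (t : ℝ), Set.ncard {v | x v < t} = n → (∀ v, x v ≠ t) →
    ∀ (l : List ({v : V // v ≠ u} × {v : V // v ≠ u})),
    IsList (G.comap (fun v : {v : V // v ≠ u} => v.1)) x g t l →
    ProcU u (l.map (fun e => e.1.1)) ({u} ∪ {v | ∃ hv : v ≠ u, x ⟨v, hv⟩ < t})
      ({e | ∃ a c : {v : V // v ≠ u}, e = s(a.1, c.1) ∧ G.Adj a.1 c.1 ∧ x a < t ∧ x c < t} ∪
        {e | ∃ a : {v : V // v ≠ u}, e = s(u, a.1) ∧ G.Adj u a.1 ∧ x a < t}) := by
  induction n using Nat.strong_induction_on with
  | _ n ih =>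
    intro t hn ht l hl
    rcases Set.eq_empty_or_nonempty {v | x v < t} with he | hne
    · have hno : ∀ v, ¬ x v < t := fun v hv => by
        have : v ∈ {v | x v < t} := hv
        rw [he] at this
        exact this
      have hl0 : l = [] := by
        rw [List.eq_nil_iff_forall_not_mem]
        intro e hel
        exact hno _ ((hl.mem e).1 hel).2.1
      have hU : ({u} ∪ {v | ∃ hv : v ≠ u, x ⟨v, hv⟩ < t} : Set V) = {u} := by
        ext z
        simp only [Set.mem_union, Set.mem_singleton_iff, Set.mem_setOf_eq]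
        constructor
        · rintro (h1 | ⟨hz, h1⟩)
          · exact h1
          · exact absurd h1 (hno _)
        · exact fun h1 => Or.inl h1
      have hE : ({e | ∃ a c : {v : V // v ≠ u}, e = s(a.1, c.1) ∧ G.Adj a.1 c.1 ∧ x a < t ∧ x c < t} ∪
        {e | ∃ a : {v : V // v ≠ u}, e = s(u, a.1) ∧ G.Adj u a.1 ∧ x a < t} : Set (Sym2 V)) = ∅ := by
        ext e
        simp only [Set.mem_union, Set.mem_setOf_eq, Set.mem_empty_iff_false, iff_false]
        rintro (⟨a, c, -, -, ha, -⟩ | ⟨a, -, -, ha⟩)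
        · exact hno a ha
        · exact hno a ha
      rw [hl0, hU, hE]
      exact ProcU.nil
    · obtain ⟨v, hv, hmax⟩ := Set.exists_max_image {v | x v < t} x (Set.toFinite _) hne
      obtain ⟨t0, ht0, hz⟩ := U39_t0 x (x v)
      have hvt : x v < t := hv
      have hno : ∀ z, z ≠ v → x z < t0 ∨ t < x z := by
        intro z hzv
        rcases lt_or_gt_of_ne (ht z) with h1 | h1
        · refine Or.inl (hz z (lt_of_le_of_ne (hmax z h1) fun h2 => hzv (h.inj h2)))
        · exact Or.inr h1
      obtain ⟨P, O, Q, I, hPOQ, hO, hI, hl', hP⟩ := event_list1 h v t0 t ht0 hvt hno l hl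
      have hcase : ∀ z, x z < t → z = v ∨ x z < t0 := by
        intro z h1
        by_cases hzv : z = v
        · exact Or.inl hzv
        · rcases hno z hzv with h2 | h2
          · exact Or.inr h2
          · exact absurd h1 (not_lt.2 h2.le)
      have hmon : ∀ z, x z < t0 → x z < t := fun z h1 => h1.trans (ht0.trans hvt)
      have hU : ({u} ∪ {v | ∃ hv : v ≠ u, x ⟨v, hv⟩ < t} : Set V) =
          insert v.1 ({u} ∪ {v | ∃ hv : v ≠ u, x ⟨v, hv⟩ < t0}) := by
        ext z
        simp only [Set.mem_union, Set.mem_singleton_iff, Set.mem_setOf_eq, Set.mem_insert_iff]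
        constructor
        · rintro (h1 | ⟨hzu, h1⟩)
          · exact Or.inr (Or.inl h1)
          · rcases hcase _ h1 with h2 | h2
            · exact Or.inl (congrArg Subtype.val h2)
            · exact Or.inr (Or.inr ⟨hzu, h2⟩)
        · rintro (h1 | h1 | ⟨hzu, h1⟩)
          · subst h1
            exact Or.inr ⟨v.2, hvt⟩
          · exact Or.inl h1
          · exact Or.inr ⟨hzu, hmon _ h1⟩
      have hvU : v.1 ∉ ({u} ∪ {v | ∃ hv : v ≠ u, x ⟨v, hv⟩ < t0} : Set V) := by
        rintro (h1 | ⟨h1, h2⟩)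
        · exact v.2 h1
        · exact absurd h2 (not_lt.2 (le_of_lt ht0))
      have hlt : Set.ncard {z | x z < t0} < n := by
        rw [← hn]
        apply Set.ncard_lt_ncard _ (Set.toFinite _)
        refine ⟨fun z h1 => hmon z h1, fun h1 => ?_⟩
        have h2 : x v < t0 := h1 hvt
        exact absurd h2 (not_lt.2 (le_of_lt ht0))
      have ht0' : ∀ z, x z ≠ t0 := by
        intro z hz0
        by_cases hzv : z = v
        · subst hzv
          exact absurd hz0 ht0.ne'
        · rcases hno z hzv with h2 | h2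
          · exact absurd hz0 h2.ne
          · linarith
      have hp := ih _ hlt t0 rfl ht0' _ hl'
      rw [List.map_append, List.map_append] at hp
      have hI' : ∀ w ∈ I.map (fun e => e.1.1), w ≠ v.1 := by
        intro w hw
        obtain ⟨e, he, rfl⟩ := List.mem_map.1 hw
        intro h2
        have h3 := ((hI e).1 he).2.2
        rw [Subtype.ext h2] at h3
        exact lt_irrefl _ h3
      have hOr : O.map (fun e => e.1.1) = List.replicate O.length v.1 := by
        rw [List.eq_replicate_iff]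
        refine ⟨List.length_map _, ?_⟩
        intro w hw
        obtain ⟨e, he, rfl⟩ := List.mem_map.1 hw
        exact congrArg Subtype.val (hO e he)
      have hIm : ∀ a : {v : V // v ≠ u}, G.Adj a.1 v.1 → x a < t0 →
          a.1 ∈ I.map (fun e => e.1.1) := by
        intro a h1 h2
        exact List.mem_map.2 ⟨(a, v), (hI (a, v)).2 ⟨h1, rfl, h2.trans ht0⟩, rfl⟩
      by_cases huv : G.Adj u v.1
      · have hP0 : P = [] := by
          rw [List.eq_nil_iff_forall_not_mem]
          intro e he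
          obtain ⟨h1, h2, h3, h4⟩ := hP e he
          exact absurd h4 (not_lt.2 (hvis v huv e.1 e.2 h1 h2 h3).le)
        rw [hP0, List.map_nil, List.nil_append] at hp
        have hp' := procU_event_base u (Q.map (fun e => e.1.1)) (I.map (fun e => e.1.1)) v.1
          O.length _ _ hp hvU huv.ne hI'
        have hE : ({e | ∃ a c : {v : V // v ≠ u}, e = s(a.1, c.1) ∧ G.Adj a.1 c.1 ∧ x a < t ∧
            x c < t} ∪ {e | ∃ a : {v : V // v ≠ u}, e = s(u, a.1) ∧ G.Adj u a.1 ∧ x a < t} :
              Set (Sym2 V)) =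
            insert s(u, v.1) (({e | ∃ a c : {v : V // v ≠ u}, e = s(a.1, c.1) ∧ G.Adj a.1 c.1 ∧
              x a < t0 ∧ x c < t0} ∪
              {e | ∃ a : {v : V // v ≠ u}, e = s(u, a.1) ∧ G.Adj u a.1 ∧ x a < t0}) ∪
              {e | ∃ w ∈ I.map (fun e => e.1.1), e = s(w, v.1)}) := by
          ext e
          simp only [Set.mem_union, Set.mem_setOf_eq, Set.mem_insert_iff]
          constructor
          · rintro (⟨a, c, rfl, hadj, ha, hc⟩ | ⟨a, rfl, hadj, ha⟩)
            · rcases hcase a ha with ha' | ha'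
              · rcases hcase c hc with hc' | hc'
                · exact absurd (congrArg Subtype.val (ha'.trans hc'.symm)) hadj.ne
                · subst ha'
                  exact Or.inr (Or.inr ⟨c.1, hIm c hadj.symm hc', Sym2.eq_swap⟩)
              · rcases hcase c hc with hc' | hc'
                · subst hc'
                  exact Or.inr (Or.inr ⟨a.1, hIm a hadj ha', rfl⟩)
                · exact Or.inr (Or.inl (Or.inl ⟨a, c, rfl, hadj, ha', hc'⟩))
            · rcases hcase a ha with ha' | ha'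
              · subst ha'
                exact Or.inl rfl
              · exact Or.inr (Or.inl (Or.inr ⟨a, rfl, hadj, ha'⟩))
          · rintro (rfl | (⟨a, c, rfl, hadj, ha, hc⟩ | ⟨a, rfl, hadj, ha⟩) | ⟨w, hw, rfl⟩)
            · exact Or.inr ⟨v, rfl, huv, hvt⟩
            · exact Or.inl ⟨a, c, rfl, hadj, hmon _ ha, hmon _ hc⟩
            · exact Or.inr ⟨a, rfl, hadj, hmon _ ha⟩
            · obtain ⟨e, he, rfl⟩ := List.mem_map.1 hw
              obtain ⟨h1, -, h3⟩ := (hI e).1 he
              exact Or.inl ⟨e.1, v, rfl, h1, h3.trans hvt, hvt⟩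
        rw [hPOQ, hP0, List.nil_append, List.map_append, hOr, hU, hE]
        exact hp'
      · have hp' := procU_event u (P.map (fun e => e.1.1)) (Q.map (fun e => e.1.1))
          (I.map (fun e => e.1.1)) v.1 O.length _ _ hp hvU hI'
        have hE : ({e | ∃ a c : {v : V // v ≠ u}, e = s(a.1, c.1) ∧ G.Adj a.1 c.1 ∧ x a < t ∧
            x c < t} ∪ {e | ∃ a : {v : V // v ≠ u}, e = s(u, a.1) ∧ G.Adj u a.1 ∧ x a < t} :
              Set (Sym2 V)) =
            ({e | ∃ a c : {v : V // v ≠ u}, e = s(a.1, c.1) ∧ G.Adj a.1 c.1 ∧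
              x a < t0 ∧ x c < t0} ∪
              {e | ∃ a : {v : V // v ≠ u}, e = s(u, a.1) ∧ G.Adj u a.1 ∧ x a < t0}) ∪
              {e | ∃ w ∈ I.map (fun e => e.1.1), e = s(w, v.1)} := by
          ext e
          simp only [Set.mem_union, Set.mem_setOf_eq]
          constructor
          · rintro (⟨a, c, rfl, hadj, ha, hc⟩ | ⟨a, rfl, hadj, ha⟩)
            · rcases hcase a ha with ha' | ha'
              · rcases hcase c hc with hc' | hc'
                · exact absurd (congrArg Subtype.val (ha'.trans hc'.symm)) hadj.ne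
                · subst ha'
                  exact Or.inr ⟨c.1, hIm c hadj.symm hc', Sym2.eq_swap⟩
              · rcases hcase c hc with hc' | hc'
                · subst hc'
                  exact Or.inr ⟨a.1, hIm a hadj ha', rfl⟩
                · exact Or.inl (Or.inl ⟨a, c, rfl, hadj, ha', hc'⟩)
            · rcases hcase a ha with ha' | ha'
              · subst ha'
                exact absurd hadj huv
              · exact Or.inl (Or.inr ⟨a, rfl, hadj, ha'⟩)
          · rintro ((⟨a, c, rfl, hadj, ha, hc⟩ | ⟨a, rfl, hadj, ha⟩) | ⟨w, hw, rfl⟩)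
            · exact Or.inl ⟨a, c, rfl, hadj, hmon _ ha, hmon _ hc⟩
            · exact Or.inr ⟨a, rfl, hadj, hmon _ ha⟩
            · obtain ⟨e, he, rfl⟩ := List.mem_map.1 hw
              obtain ⟨h1, -, h3⟩ := (hI e).1 he
              exact Or.inl ⟨e.1, v, rfl, h1, h3.trans hvt, hvt⟩
        rw [hPOQ, List.map_append, List.map_append, hOr, hU, hE]
        exact hp'

-- G4
theorem mono_procU {V : Type} [Finite V] (G : SimpleGraph V) (u : V)
    (x y : {v : V // v ≠ u} → ℝ) (g : {v : V // v ≠ u} → {v : V // v ≠ u} → ℝ → ℝ)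
    (h : Mono (G.comap (fun v : {v : V // v ≠ u} => v.1)) x y g)
    (hvis : ∀ v : {v : V // v ≠ u}, G.Adj u v.1 → ∀ a c : {v : V // v ≠ u}, G.Adj a.1 c.1 →
      x a < x v → x v < x c → y v < g a c (x v))
    (t : ℝ) (ht : ∀ v, x v ≠ t) (l : List ({v : V // v ≠ u} × {v : V // v ≠ u}))
    (hl : IsList (G.comap (fun v : {v : V // v ≠ u} => v.1)) x g t l) :
    ProcU u (l.map (fun e => e.1.1)) ({u} ∪ {v | ∃ hv : v ≠ u, x ⟨v, hv⟩ < t})
      ({e | ∃ a c : {v : V // v ≠ u}, e = s(a.1, c.1) ∧ G.Adj a.1 c.1 ∧ x a < t ∧ x c < t} ∪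
        {e | ∃ a : {v : V // v ≠ u}, e = s(u, a.1) ∧ G.Adj u a.1 ∧ x a < t}) :=
  U39_aux G u x y g h hvis _ t rfl ht l hl

end

section
open Polynomial Pool.Agent.H207R2.BL Pool.Agent.H110R3.BP

/-- slope coordinate seen from `f u` -/
noncomputable def xs {V : Type} (f : V → ℝ × ℝ) (u : V) (v : {v : V // v ≠ u}) : ℝ :=
  ((f v.1).1 - (f u).1) / ((f v.1).2 - (f u).2)

end

section
open Polynomial Pool.Agent.H207R2.BL Pool.Agent.H110R3.BP

/-- second projective coordinate -/
noncomputable def ys {V : Type} (f : V → ℝ × ℝ) (u : V) (v : {v : V // v ≠ u}) : ℝ :=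
  -1 / ((f v.1).2 - (f u).2)

end

section
open Polynomial Pool.Agent.H207R2.BL Pool.Agent.H110R3.BP

/-- edges in projective coordinates -/
noncomputable def gs {V : Type} (f : V → ℝ × ℝ) (u : V) (a c : {v : V // v ≠ u}) (t : ℝ) : ℝ :=
  ys f u a + (t - xs f u a) / (xs f u c - xs f u a) * (ys f u c - ys f u a)

end

section
open Polynomial Pool.Agent.H207R2.BL Pool.Agent.H110R3.BP

theorem proj_point {V : Type} (f : V → ℝ × ℝ) (u : V) (hu : ∀ v, v ≠ u → (f u).2 < (f v).2)
    (a c : {v : V // v ≠ u}) (t : ℝ) (h1 : xs f u a < t) (h2 : t < xs f u c) :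
    ∃ z ∈ openSegment ℝ (f a.1) (f c.1), (f u).2 < z.2 ∧
      (z.1 - (f u).1) / (z.2 - (f u).2) = t ∧ -1 / (z.2 - (f u).2) = gs f u a c t := by
  have ha : 0 < (f a.1).2 - (f u).2 := sub_pos.2 (hu a.1 a.2)
  have hc : 0 < (f c.1).2 - (f u).2 := sub_pos.2 (hu c.1 c.2)
  have hXa : (f a.1).1 - (f u).1 = xs f u a * ((f a.1).2 - (f u).2) := by
    unfold xs
    rw [div_mul_cancel₀ _ ha.ne']
  have hXc : (f c.1).1 - (f u).1 = xs f u c * ((f c.1).2 - (f u).2) := by
    unfold xs
    rw [div_mul_cancel₀ _ hc.ne']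
  have hgs : gs f u a c t = -1 / ((f a.1).2 - (f u).2) +
      (t - xs f u a) / (xs f u c - xs f u a) *
        (-1 / ((f c.1).2 - (f u).2) - -1 / ((f a.1).2 - (f u).2)) := rfl
  rw [hgs]
  generalize hX : xs f u a = X at *
  generalize hY : xs f u c = Y at *
  generalize hα : (f a.1).2 - (f u).2 = α at *
  generalize hγ : (f c.1).2 - (f u).2 = γ at *
  have hXt : 0 < t - X := sub_pos.2 h1
  have hYt : 0 < Y - t := sub_pos.2 h2
  have hYX : 0 < Y - X := by linarith
  have hD : 0 < α * (t - X) + γ * (Y - t) := by positivity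
  set w1 : ℝ := γ * (Y - t) / (α * (t - X) + γ * (Y - t)) with hw1
  set w2 : ℝ := α * (t - X) / (α * (t - X) + γ * (Y - t)) with hw2
  have hw : w1 + w2 = 1 := by
    rw [hw1, hw2, ← add_div, div_eq_one_iff_eq hD.ne']
    ring
  have hz2 : w1 * (f a.1).2 + w2 * (f c.1).2 - (f u).2 =
      α * γ * (Y - X) / (α * (t - X) + γ * (Y - t)) := by
    have e : w1 * (f a.1).2 + w2 * (f c.1).2 - (f u).2 = w1 * α + w2 * γ := by
      rw [← hα, ← hγ]
      linear_combination ((f u).2) * hw
    rw [e, hw1, hw2]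
    field_simp
    ring
  have hz1 : w1 * (f a.1).1 + w2 * (f c.1).1 - (f u).1 =
      t * (α * γ * (Y - X) / (α * (t - X) + γ * (Y - t))) := by
    have e : w1 * (f a.1).1 + w2 * (f c.1).1 - (f u).1 = w1 * (X * α) + w2 * (Y * γ) := by
      rw [← hXa, ← hXc]
      linear_combination ((f u).1) * hw
    rw [e, hw1, hw2]
    field_simp
    ring
  have hpos : 0 < α * γ * (Y - X) / (α * (t - X) + γ * (Y - t)) := by positivity
  refine ⟨w1 • f a.1 + w2 • f c.1, ⟨w1, w2, by positivity, by positivity, hw, rfl⟩, ?_, ?_, ?_⟩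
  · have : 0 < w1 * (f a.1).2 + w2 * (f c.1).2 - (f u).2 := by rw [hz2]; exact hpos
    show (f u).2 < w1 * (f a.1).2 + w2 * (f c.1).2
    linarith
  · show (w1 * (f a.1).1 + w2 * (f c.1).1 - (f u).1) / (w1 * (f a.1).2 + w2 * (f c.1).2 -
      (f u).2) = t
    rw [hz1, hz2, mul_div_assoc, div_self hpos.ne', mul_one]
  · show -1 / (w1 * (f a.1).2 + w2 * (f c.1).2 - (f u).2) = _
    rw [hz2]
    field_simp
    ring

theorem proj_inj (u z z' : ℝ × ℝ) (h : u.2 < z.2) (h' : u.2 < z'.2)
    (h1 : (z.1 - u.1) / (z.2 - u.2) = (z'.1 - u.1) / (z'.2 - u.2))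
    (h2 : -1 / (z.2 - u.2) = -1 / (z'.2 - u.2)) : z = z' := by
  have hz : 0 < z.2 - u.2 := sub_pos.2 h
  have hz' : 0 < z'.2 - u.2 := sub_pos.2 h'
  have e2 : z.2 = z'.2 := by
    rw [div_eq_div_iff hz.ne' hz'.ne'] at h2
    linarith
  have e1 : z.1 = z'.1 := by
    rw [e2, div_left_inj' hz'.ne'] at h1
    linarith
  exact Prod.ext e1 e2

end

section
open Polynomial Pool.Agent.H207R2.BL Pool.Agent.H110R3.BP

theorem mono_of_lowest {V : Type} {G : SimpleGraph V} (f : V → ℝ × ℝ) (h : IsStraight G f)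
    (u : V) (hu : ∀ v, v ≠ u → (f u).2 < (f v).2) (hx : Function.Injective (xs f u)) :
    Mono (G.comap (fun v : {v : V // v ≠ u} => v.1)) (xs f u) (ys f u) (gs f u) where
  inj := hx
  cont a c := by
    unfold gs
    fun_prop
  left a c _ _ := by
    unfold gs
    simp
  right a c _ hac := by
    have h3 : xs f u c - xs f u a ≠ 0 := (sub_pos.2 hac).ne'
    unfold gs
    rw [div_self h3]
    ring
  vert a c z hac h1 h2 heq := by
    obtain ⟨p, hp, hpu, e1, e2⟩ := proj_point f u hu a c (xs f u z) h1 h2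
    have hz : (f u).2 < (f z.1).2 := hu z.1 z.2
    have e : p = f z.1 := proj_inj (f u) p (f z.1) hpu hz e1 (e2.trans heq)
    rw [e] at hp
    exact h.2.1 a.1 c.1 z.1 hac hp
  disj a c a' c' t hac hac' hne h1 h2 h3 h4 heq := by
    obtain ⟨p, hp, hpu, e1, e2⟩ := proj_point f u hu a c t h1 h2
    obtain ⟨p', hp', hpu', e1', e2'⟩ := proj_point f u hu a' c' t h3 h4
    have e : p = p' := proj_inj (f u) p p' hpu hpu' (e1.trans e1'.symm)
      (e2.trans (heq.trans e2'.symm))
    rw [← e] at hp'
    have hs : s(a.1, c.1) ≠ s(a'.1, c'.1) := by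
      intro hs
      rcases Sym2.eq_iff.1 hs with ⟨ha, hc⟩ | ⟨ha, hc⟩
      · exact hne (Prod.ext (Subtype.ext ha) (Subtype.ext hc))
      · have ha2 : a = c' := Subtype.ext ha
        have hc2 : c = a' := Subtype.ext hc
        subst ha2
        subst hc2
        exact absurd (h1.trans h4) (lt_irrefl _)
    exact Set.disjoint_left.1 (h.2.2 a.1 c.1 a'.1 c'.1 hac hac' hs) hp hp'

end

section
open Polynomial Pool.Agent.H207R2.BL Pool.Agent.H110R3.BP

theorem vis_of_lowest {V : Type} {G : SimpleGraph V} (f : V → ℝ × ℝ) (h : IsStraight G f)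
    (u : V) (hu : ∀ v, v ≠ u → (f u).2 < (f v).2) (v a c : {v : V // v ≠ u})
    (hv : G.Adj u v.1) (hac : G.Adj a.1 c.1) (h1 : xs f u a < xs f u v)
    (h2 : xs f u v < xs f u c) : ys f u v < gs f u a c (xs f u v) := by
  obtain ⟨z, hz, hz2, hzx, hzy⟩ := proj_point f u hu a c (xs f u v) h1 h2
  have hv2 : (f u).2 < (f v.1).2 := hu v.1 v.2
  have pz : 0 < z.2 - (f u).2 := by linarith
  have pv : 0 < (f v.1).2 - (f u).2 := by linarith
  by_contra hcon
  rcases lt_or_eq_of_le (not_lt.1 hcon) with hlt | heq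
  · rw [← hzy] at hlt
    unfold ys at hlt
    have hlt2 : z.2 - (f u).2 < (f v.1).2 - (f u).2 := by
      rw [neg_div, neg_div, neg_lt_neg_iff] at hlt
      exact (one_div_lt_one_div pv pz).1 hlt
    unfold xs at hzx
    have hzx' : (z.1 - (f u).1) * ((f v.1).2 - (f u).2) =
        ((f v.1).1 - (f u).1) * (z.2 - (f u).2) := by
      rwa [div_eq_div_iff pz.ne' pv.ne'] at hzx
    have hmem : z ∈ openSegment ℝ (f u) (f v.1) := by
      refine ⟨1 - (z.2 - (f u).2) / ((f v.1).2 - (f u).2),
        (z.2 - (f u).2) / ((f v.1).2 - (f u).2), ?_, by positivity, by ring, ?_⟩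
      · rw [sub_pos, div_lt_one pv]
        exact hlt2
      · ext
        · simp only [Prod.fst_add, Prod.smul_fst, smul_eq_mul]
          field_simp
          linarith
        · simp only [Prod.snd_add, Prod.smul_snd, smul_eq_mul]
          field_simp
          ring
    have hne : s(u, v.1) ≠ s(a.1, c.1) := by
      intro he
      rw [Sym2.eq_iff] at he
      rcases he with ⟨he, -⟩ | ⟨he, -⟩
      · exact a.2 he.symm
      · exact c.2 he.symm
    exact Set.disjoint_left.1 (h.2.2 u v.1 a.1 c.1 hv hac hne) hmem hz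
  · have hzv : z = f v.1 := by
      refine proj_inj (f u) z (f v.1) hz2 hv2 hzx ?_
      rw [hzy, heq]
      rfl
    rw [hzv] at hz
    exact h.2.1 a.1 c.1 v.1 hac hz

end

section
open Polynomial Pool.Agent.H207R2.BL Pool.Agent.H110R3.BP

theorem straight_procU {V : Type} [Finite V] {G : SimpleGraph V} (f : V → ℝ × ℝ)
    (h : IsStraight G f) (u : V) (hu : ∀ v, v ≠ u → (f u).2 < (f v).2)
    (hx : Function.Injective (xs f u)) : ProcU u [] Set.univ G.edgeSet := by
  have h2 := mono_of_lowest f h u hu hx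
  obtain ⟨t, ht⟩ := straight_proc_bound (xs f u)
  have h3 := mono_procU G u (xs f u) (ys f u) (gs f u) h2
    (fun v hv a c hac h4 h5 => vis_of_lowest f h u hu v a c hv hac h4 h5)
    t (fun v => (ht v).ne) [] ⟨fun e => by
      constructor
      · intro he
        simp at he
      · rintro ⟨-, -, h4⟩
        exact absurd (ht e.2) (not_lt.2 h4.le), List.Pairwise.nil⟩
  have e1 : ({u} ∪ {v | ∃ hv : v ≠ u, xs f u ⟨v, hv⟩ < t}) = (Set.univ : Set V) := by
    ext v
    simp only [Set.mem_union, Set.mem_singleton_iff, Set.mem_ofPred_eq, Set.mem_univ, iff_true]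
    by_cases hv : v = u
    · exact Or.inl hv
    · exact Or.inr ⟨hv, ht _⟩
  have e2 : ({e | ∃ a c : {v : V // v ≠ u}, e = s(a.1, c.1) ∧ G.Adj a.1 c.1 ∧ xs f u a < t ∧
      xs f u c < t} ∪
        {e | ∃ a : {v : V // v ≠ u}, e = s(u, a.1) ∧ G.Adj u a.1 ∧ xs f u a < t}) =
      G.edgeSet := by
    ext e
    constructor
    · rintro (⟨a, c, rfl, h4, -, -⟩ | ⟨a, rfl, h4, -⟩)
      · exact h4
      · exact h4
    · intro h4
      induction e using Sym2.ind with
      | _ a c =>
        have h5 : G.Adj a c := h4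
        by_cases ha : a = u
        · subst ha
          exact Or.inr ⟨⟨c, h5.ne'⟩, rfl, h5, ht _⟩
        · by_cases hc : c = u
          · subst hc
            exact Or.inr ⟨⟨a, ha⟩, Sym2.eq_swap, h5.symm, ht _⟩
          · exact Or.inl ⟨⟨a, ha⟩, ⟨c, hc⟩, rfl, h5, ht _, ht _⟩
  rw [e1, e2] at h3
  exact h3

end

section
open Polynomial Pool.Agent.H207R2.BL Pool.Agent.H110R3.BP

theorem straight_open_ne (a b p q : ℝ × ℝ) (h : a ≠ b) :
    ∀ᶠ t : ℝ in nhds 0, a + t • p ≠ b + t • q := by
  have h1 : Continuous (fun t : ℝ => a + t • p) := by fun_prop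
  have h2 : Continuous (fun t : ℝ => b + t • q) := by fun_prop
  have h3 : IsOpen {t : ℝ | a + t • p ≠ b + t • q} := isOpen_ne_fun h1 h2
  refine h3.mem_nhds ?_
  simpa using h

theorem straight_open_seg (c a b r p q : ℝ × ℝ) (h : c ∉ segment ℝ a b) :
    ∀ᶠ t : ℝ in nhds 0, c + t • r ∉ segment ℝ (a + t • p) (b + t • q) := by
  have h1 : ∀ᶠ t : ℝ in nhds 0, ∀ s ∈ Set.Icc (0:ℝ) 1,
      c + t • r ≠ (1 - s) • (a + t • p) + s • (b + t • q) := by
    refine IsCompact.eventually_forall_of_forall_eventually isCompact_Icc ?_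
    intro s hs
    have h2 : Continuous (fun z : ℝ × ℝ => c + z.1 • r) := by fun_prop
    have h3 : Continuous (fun z : ℝ × ℝ =>
      (1 - z.2) • (a + z.1 • p) + z.2 • (b + z.1 • q)) := by fun_prop
    have h4 : IsOpen {z : ℝ × ℝ | c + z.1 • r ≠
      (1 - z.2) • (a + z.1 • p) + z.2 • (b + z.1 • q)} := isOpen_ne_fun h2 h3
    refine h4.mem_nhds ?_
    intro h5
    apply h
    rw [segment_eq_image]
    refine ⟨s, hs, ?_⟩
    simpa using h5.symm
  filter_upwards [h1] with t ht
  rw [segment_eq_image]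
  rintro ⟨s, hs, h5⟩
  exact ht s hs h5.symm

theorem straight_open_seg2 (a b c d p q r w : ℝ × ℝ)
    (h : Disjoint (segment ℝ a b) (segment ℝ c d)) :
    ∀ᶠ t : ℝ in nhds 0, Disjoint (segment ℝ (a + t • p) (b + t • q))
      (segment ℝ (c + t • r) (d + t • w)) := by
  have h1 : ∀ᶠ t : ℝ in nhds 0, ∀ s ∈ Set.Icc (0:ℝ) 1 ×ˢ Set.Icc (0:ℝ) 1,
      (1 - s.1) • (a + t • p) + s.1 • (b + t • q) ≠
        (1 - s.2) • (c + t • r) + s.2 • (d + t • w) := by
    refine IsCompact.eventually_forall_of_forall_eventually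
      (isCompact_Icc.prod isCompact_Icc) ?_
    intro s hs
    have h2 : Continuous (fun z : ℝ × (ℝ × ℝ) =>
      (1 - z.2.1) • (a + z.1 • p) + z.2.1 • (b + z.1 • q)) := by fun_prop
    have h3 : Continuous (fun z : ℝ × (ℝ × ℝ) =>
      (1 - z.2.2) • (c + z.1 • r) + z.2.2 • (d + z.1 • w)) := by fun_prop
    have h4 : IsOpen {z : ℝ × (ℝ × ℝ) | (1 - z.2.1) • (a + z.1 • p) + z.2.1 • (b + z.1 • q) ≠
      (1 - z.2.2) • (c + z.1 • r) + z.2.2 • (d + z.1 • w)} := isOpen_ne_fun h2 h3
    refine h4.mem_nhds ?_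
    intro h5
    have m1 : (1 - s.1) • a + s.1 • b ∈ segment ℝ a b := by
      rw [segment_eq_image]
      exact ⟨s.1, hs.1, rfl⟩
    have m2 : (1 - s.1) • a + s.1 • b ∈ segment ℝ c d := by
      rw [segment_eq_image]
      refine ⟨s.2, hs.2, ?_⟩
      simpa using h5.symm
    exact Set.disjoint_left.1 h m1 m2
  filter_upwards [h1] with t ht
  rw [segment_eq_image, segment_eq_image, Set.disjoint_left]
  rintro _ ⟨s, hs, rfl⟩ ⟨s', hs', h5⟩
  exact ht (s, s') ⟨hs, hs'⟩ h5.symm

/-- cross product -/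
def straight_open_cr (a b : ℝ × ℝ) : ℝ := a.1 * b.2 - a.2 * b.1

/-- dot product -/
def straight_open_dt (a b : ℝ × ℝ) : ℝ := a.1 * b.1 + a.2 * b.2

theorem straight_open_disj (o a b : ℝ × ℝ)
    (h : straight_open_cr (a - o) (b - o) ≠ 0 ∨ straight_open_dt (a - o) (b - o) < 0) :
    Disjoint (openSegment ℝ o a) (openSegment ℝ o b) := by
  rw [openSegment_eq_image, openSegment_eq_image, Set.disjoint_left]
  rintro _ ⟨s, hs, rfl⟩ ⟨s', hs', h5⟩
  have e1 := congrArg Prod.fst h5
  have e2 := congrArg Prod.snd h5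
  simp only [Prod.fst_add, Prod.snd_add, Prod.smul_fst, Prod.smul_snd, smul_eq_mul] at e1 e2
  unfold straight_open_cr straight_open_dt at h
  simp only [Prod.fst_sub, Prod.snd_sub] at h
  have f1 : s' * (b.1 - o.1) = s * (a.1 - o.1) := by linarith
  have f2 : s' * (b.2 - o.2) = s * (a.2 - o.2) := by linarith
  rcases h with h | h
  · apply h
    have h6 : s' * ((a.1 - o.1) * (b.2 - o.2) - (a.2 - o.2) * (b.1 - o.1)) = 0 := by
      have : s' * ((a.1 - o.1) * (b.2 - o.2) - (a.2 - o.2) * (b.1 - o.1)) =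
        (a.1 - o.1) * (s' * (b.2 - o.2)) - (a.2 - o.2) * (s' * (b.1 - o.1)) := by ring
      rw [this, f1, f2]
      ring
    rcases mul_eq_zero.1 h6 with h7 | h7
    · exact absurd h7 hs'.1.ne'
    · exact h7
  · have h6 : s' * ((a.1 - o.1) * (b.1 - o.1) + (a.2 - o.2) * (b.2 - o.2)) =
      s * ((a.1 - o.1) ^ 2 + (a.2 - o.2) ^ 2) := by
      have : s' * ((a.1 - o.1) * (b.1 - o.1) + (a.2 - o.2) * (b.2 - o.2)) =
        (a.1 - o.1) * (s' * (b.1 - o.1)) + (a.2 - o.2) * (s' * (b.2 - o.2)) := by ring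
      rw [this, f1, f2]
      ring
    have h7 : s' * ((a.1 - o.1) * (b.1 - o.1) + (a.2 - o.2) * (b.2 - o.2)) < 0 :=
      mul_neg_of_pos_of_neg hs'.1 h
    have h8 : 0 ≤ s * ((a.1 - o.1) ^ 2 + (a.2 - o.2) ^ 2) :=
      mul_nonneg hs.1.le (by positivity)
    linarith

theorem straight_open_cond (o a b : ℝ × ℝ) (ha : a ≠ o) (hb : b ≠ o)
    (h : Disjoint (openSegment ℝ o a) (openSegment ℝ o b)) :
    straight_open_cr (a - o) (b - o) ≠ 0 ∨ straight_open_dt (a - o) (b - o) < 0 := by
  by_contra hcon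
  push Not at hcon
  obtain ⟨h1, h2⟩ := hcon
  unfold straight_open_cr at h1
  unfold straight_open_dt at h2
  simp only [Prod.fst_sub, Prod.snd_sub] at h1 h2
  set A1 := a.1 - o.1 with hA1
  set A2 := a.2 - o.2 with hA2
  set B1 := b.1 - o.1 with hB1
  set B2 := b.2 - o.2 with hB2
  have hN : 0 < A1 ^ 2 + A2 ^ 2 := by
    rcases lt_or_eq_of_le (show 0 ≤ A1 ^ 2 + A2 ^ 2 by positivity) with h | h
    · exact h
    · exfalso
      apply ha
      have h3 : A1 = 0 := by nlinarith [sq_nonneg A1, sq_nonneg A2]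
      have h4 : A2 = 0 := by nlinarith [sq_nonneg A1, sq_nonneg A2]
      refine Prod.ext ?_ ?_
      · linarith
      · linarith
  have k1 : (A1 * B1 + A2 * B2) * A1 = (A1 ^ 2 + A2 ^ 2) * B1 := by
    linear_combination (A2) * h1
  have k2 : (A1 * B1 + A2 * B2) * A2 = (A1 ^ 2 + A2 ^ 2) * B2 := by
    linear_combination (-A1) * h1
  have hD : 0 < A1 * B1 + A2 * B2 := by
    rcases lt_or_eq_of_le h2 with h | h
    · exact h
    · exfalso
      apply hb
      rw [← h, zero_mul] at k1 k2
      have h3 : B1 = 0 := by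
        rcases mul_eq_zero.1 k1.symm with h5 | h5
        · exact absurd h5 hN.ne'
        · exact h5
      have h4 : B2 = 0 := by
        rcases mul_eq_zero.1 k2.symm with h5 | h5
        · exact absurd h5 hN.ne'
        · exact h5
      refine Prod.ext ?_ ?_
      · linarith
      · linarith
  set D := A1 * B1 + A2 * B2 with hDdef
  set N := A1 ^ 2 + A2 ^ 2 with hNdef
  have hDN : 0 < D + N := by linarith
  rw [openSegment_eq_image, openSegment_eq_image, Set.disjoint_left] at h
  refine h (a := (1 - D / (D + N)) • o + (D / (D + N)) • a) ⟨D / (D + N), ⟨by positivity, ?_⟩, rfl⟩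
    ⟨N / (D + N), ⟨by positivity, ?_⟩, ?_⟩
  · rw [div_lt_one hDN]
    linarith
  · rw [div_lt_one hDN]
    linarith
  · refine Prod.ext ?_ ?_
    · simp only [Prod.fst_add, Prod.smul_fst, smul_eq_mul]
      have : (1 - N / (D + N)) * o.1 + N / (D + N) * b.1 -
          ((1 - D / (D + N)) * o.1 + D / (D + N) * a.1) = (N * B1 - D * A1) / (D + N) := by
        rw [hB1, hA1]
        field_simp
        ring
      have h0 : N * B1 - D * A1 = 0 := by linarith
      rw [h0, zero_div] at this
      linarith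
    · simp only [Prod.snd_add, Prod.smul_snd, smul_eq_mul]
      have : (1 - N / (D + N)) * o.2 + N / (D + N) * b.2 -
          ((1 - D / (D + N)) * o.2 + D / (D + N) * a.2) = (N * B2 - D * A2) / (D + N) := by
        rw [hB2, hA2]
        field_simp
        ring
      have h0 : N * B2 - D * A2 = 0 := by linarith
      rw [h0, zero_div] at this
      linarith

theorem straight_open_cond_ev (o a b r p q : ℝ × ℝ)
    (h : straight_open_cr (a - o) (b - o) ≠ 0 ∨ straight_open_dt (a - o) (b - o) < 0) :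
    ∀ᶠ t : ℝ in nhds 0,
      straight_open_cr ((a + t • p) - (o + t • r)) ((b + t • q) - (o + t • r)) ≠ 0 ∨
        straight_open_dt ((a + t • p) - (o + t • r)) ((b + t • q) - (o + t • r)) < 0 := by
  rcases h with h | h
  · have h1 : Continuous (fun t : ℝ =>
        straight_open_cr ((a + t • p) - (o + t • r)) ((b + t • q) - (o + t • r))) := by
      unfold straight_open_cr
      fun_prop
    have h3 : IsOpen {t : ℝ |
        straight_open_cr ((a + t • p) - (o + t • r)) ((b + t • q) - (o + t • r)) ≠ 0} :=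
      isOpen_ne_fun h1 continuous_const
    have h4 := h3.mem_nhds (show (0:ℝ) ∈ _ by simpa using h)
    filter_upwards [h4] with t ht
    exact Or.inl ht
  · have h1 : Continuous (fun t : ℝ =>
        straight_open_dt ((a + t • p) - (o + t • r)) ((b + t • q) - (o + t • r))) := by
      unfold straight_open_dt
      fun_prop
    have h3 : IsOpen {t : ℝ |
        straight_open_dt ((a + t • p) - (o + t • r)) ((b + t • q) - (o + t • r)) < 0} :=
      isOpen_lt h1 continuous_const
    have h4 := h3.mem_nhds (show (0:ℝ) ∈ _ by simpa using h)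
    filter_upwards [h4] with t ht
    exact Or.inr ht

theorem straight_open_segs_disj {V : Type} {G : SimpleGraph V} (f : V → ℝ × ℝ)
    (h : IsStraight G f) (u v u' v' : V) (h1 : G.Adj u v) (h2 : G.Adj u' v')
    (n1 : u ≠ u') (n2 : u ≠ v') (n3 : v ≠ u') (n4 : v ≠ v') :
    Disjoint (segment ℝ (f u) (f v)) (segment ℝ (f u') (f v')) := by
  obtain ⟨i1, i2, i3⟩ := h
  have hne : s(u, v) ≠ s(u', v') := by
    intro he
    rcases Sym2.eq_iff.1 he with ⟨e, -⟩ | ⟨e, -⟩
    · exact n1 e
    · exact n2 e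
  rw [← insert_endpoints_openSegment, ← insert_endpoints_openSegment, Set.disjoint_left]
  intro z hz hz'
  simp only [Set.mem_insert_iff] at hz hz'
  rcases hz with rfl | rfl | hz
  · rcases hz' with e | e | e
    · exact n1 (i1 e)
    · exact n2 (i1 e)
    · exact i2 _ _ _ h2 e
  · rcases hz' with e | e | e
    · exact n3 (i1 e)
    · exact n4 (i1 e)
    · exact i2 _ _ _ h2 e
  · rcases hz' with e | e | e
    · subst e
      exact i2 _ _ _ h1 hz
    · subst e
      exact i2 _ _ _ h1 hz
    · exact Set.disjoint_left.1 (i3 _ _ _ _ h1 h2 hne) hz e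

-- G10: straight line drawings are stable under small perturbations
theorem straight_open {V : Type} [Finite V] {G : SimpleGraph V} (f p : V → ℝ × ℝ)
    (h : IsStraight G f) : ∃ t0 : ℝ, 0 < t0 ∧ ∀ t, 0 < t → t < t0 →
      IsStraight G (fun v => f v + t • p v) := by
  have hs := h
  obtain ⟨i1, i2, i3⟩ := h
  have E1 : ∀ᶠ t : ℝ in nhds 0, ∀ u v : V, u ≠ v → f u + t • p u ≠ f v + t • p v := by
    refine Filter.eventually_all.2 fun u => Filter.eventually_all.2 fun v => ?_
    by_cases huv : u = v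
    · exact Filter.Eventually.of_forall fun t hc => absurd huv hc
    · filter_upwards [straight_open_ne (f u) (f v) (p u) (p v) (fun e => huv (i1 e))] with t ht _
      exact ht
  have E2 : ∀ᶠ t : ℝ in nhds 0, ∀ u v w : V, G.Adj u v → w ≠ u → w ≠ v →
      f w + t • p w ∉ segment ℝ (f u + t • p u) (f v + t • p v) := by
    refine Filter.eventually_all.2 fun u => Filter.eventually_all.2 fun v =>
      Filter.eventually_all.2 fun w => ?_
    by_cases hc : G.Adj u v ∧ w ≠ u ∧ w ≠ v
    · have h1 : f w ∉ segment ℝ (f u) (f v) := by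
        rw [← insert_endpoints_openSegment]
        intro h2
        simp only [Set.mem_insert_iff] at h2
        rcases h2 with e | e | e
        · exact hc.2.1 (i1 e)
        · exact hc.2.2 (i1 e)
        · exact i2 _ _ _ hc.1 e
      filter_upwards [straight_open_seg (f w) (f u) (f v) (p w) (p u) (p v) h1] with t ht _ _ _
      exact ht
    · exact Filter.Eventually.of_forall fun t a b c => absurd ⟨a, b, c⟩ hc
  have E3 : ∀ᶠ t : ℝ in nhds 0, ∀ u v u' v' : V, G.Adj u v → G.Adj u' v' → u ≠ u' → u ≠ v' →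
      v ≠ u' → v ≠ v' → Disjoint (segment ℝ (f u + t • p u) (f v + t • p v))
        (segment ℝ (f u' + t • p u') (f v' + t • p v')) := by
    refine Filter.eventually_all.2 fun u => Filter.eventually_all.2 fun v =>
      Filter.eventually_all.2 fun u' => Filter.eventually_all.2 fun v' => ?_
    by_cases hc : G.Adj u v ∧ G.Adj u' v' ∧ u ≠ u' ∧ u ≠ v' ∧ v ≠ u' ∧ v ≠ v'
    · obtain ⟨c1, c2, c3, c4, c5, c6⟩ := hc
      filter_upwards [straight_open_seg2 (f u) (f v) (f u') (f v') (p u) (p v) (p u') (p v')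
        (straight_open_segs_disj f hs u v u' v' c1 c2 c3 c4 c5 c6)] with t ht _ _ _ _ _ _
      exact ht
    · exact Filter.Eventually.of_forall fun t a b c d e g => absurd ⟨a, b, c, d, e, g⟩ hc
  have E4 : ∀ᶠ t : ℝ in nhds 0, ∀ o a b : V, G.Adj o a → G.Adj o b → a ≠ b →
      straight_open_cr ((f a + t • p a) - (f o + t • p o)) ((f b + t • p b) - (f o + t • p o)) ≠ 0 ∨
        straight_open_dt ((f a + t • p a) - (f o + t • p o))
          ((f b + t • p b) - (f o + t • p o)) < 0 := by
    refine Filter.eventually_all.2 fun o => Filter.eventually_all.2 fun a =>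
      Filter.eventually_all.2 fun b => ?_
    by_cases hc : G.Adj o a ∧ G.Adj o b ∧ a ≠ b
    · obtain ⟨c1, c2, c3⟩ := hc
      have h1 : s(o, a) ≠ s(o, b) := by
        intro he
        rcases Sym2.eq_iff.1 he with ⟨-, e⟩ | ⟨e1, e2⟩
        · exact c3 e
        · exact c3 (e2.trans e1)
      have h2 := straight_open_cond (f o) (f a) (f b) (fun e => c1.ne' (i1 e))
        (fun e => c2.ne' (i1 e)) (i3 _ _ _ _ c1 c2 h1)
      filter_upwards [straight_open_cond_ev (f o) (f a) (f b) (p o) (p a) (p b) h2] with t ht _ _ _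
      exact ht
    · exact Filter.Eventually.of_forall fun t a b c => absurd ⟨a, b, c⟩ hc
  have E := E1.and (E2.and (E3.and E4))
  rw [Metric.eventually_nhds_iff] at E
  obtain ⟨t0, ht0, ht⟩ := E
  refine ⟨t0, ht0, ?_⟩
  intro t h0 h1
  obtain ⟨k1, k2, k3, k4⟩ := ht (y := t) (by
    rw [Real.dist_eq, sub_zero, abs_of_pos h0]
    exact h1)
  refine ⟨?_, ?_, ?_⟩
  · intro u v huv
    by_contra hne
    exact k1 u v hne huv
  · intro u v w huv
    by_cases hwu : w = u
    · subst hwu
      intro hc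
      exact k1 _ _ huv.ne (left_mem_openSegment_iff.1 hc)
    · by_cases hwv : w = v
      · subst hwv
        intro hc
        exact k1 _ _ huv.ne (right_mem_openSegment_iff.1 hc)
      · intro hc
        exact k2 u v w huv hwu hwv (openSegment_subset_segment _ _ _ hc)
  · intro u v u' v' h1 h2 hne
    by_cases n1 : u = u'
    · subst n1
      have hvv : v ≠ v' := by
        rintro rfl
        exact hne rfl
      exact straight_open_disj _ _ _ (k4 _ _ _ h1 h2 hvv)
    · by_cases n2 : u = v'
      · subst n2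
        have hvv : v ≠ u' := by
          rintro rfl
          exact hne (Sym2.eq_swap)
        rw [openSegment_symm ℝ ((fun v => f v + t • p v) u') ((fun v => f v + t • p v) u)]
        exact straight_open_disj _ _ _ (k4 _ _ _ h1 h2.symm hvv)
      · by_cases n3 : v = u'
        · subst n3
          rw [openSegment_symm ℝ ((fun v => f v + t • p v) u) ((fun v => f v + t • p v) v)]
          exact straight_open_disj _ _ _ (k4 _ _ _ h1.symm h2 n2)
        · by_cases n4 : v = v'
          · subst n4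
            rw [openSegment_symm ℝ ((fun v => f v + t • p v) u) ((fun v => f v + t • p v) v),
              openSegment_symm ℝ ((fun v => f v + t • p v) u') ((fun v => f v + t • p v) v)]
            exact straight_open_disj _ _ _ (k4 _ _ _ h1.symm h2.symm n1)
          · exact (k3 u v u' v' h1 h2 n1 n2 n3 n4).mono (openSegment_subset_segment _ _ _)
              (openSegment_subset_segment _ _ _)

end

section
open Polynomial Pool.Agent.H207R2.BL Pool.Agent.H110R3.BP

theorem perturb {V : Type} [Finite V] {G : SimpleGraph V} (f : V → ℝ × ℝ)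
    (h : IsStraight G f) (u : V) (hu : ∀ v, v ≠ u → (f u).2 < (f v).2) :
    ∃ f' : V → ℝ × ℝ, IsStraight G f' ∧ (∀ v, v ≠ u → (f' u).2 < (f' v).2) ∧
      Function.Injective (xs f' u) := by
  obtain ⟨n, ⟨e⟩⟩ := Finite.exists_equiv_fin V
  obtain ⟨t0, ht0, hst⟩ := straight_open (G := G) f
    (fun v => (((e v : ℕ) : ℝ) * ((f v).2 - (f u).2), (0 : ℝ))) h
  have hB : (Set.range (fun a : {v : V // v ≠ u} × {v : V // v ≠ u} =>
      (xs f u a.2 - xs f u a.1) / (((e a.1.1 : ℕ) : ℝ) - ((e a.2.1 : ℕ) : ℝ)))).Finite :=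
    Set.finite_range _
  obtain ⟨t, ⟨htI, htB⟩⟩ := ((Set.Ioo_infinite ht0).sdiff hB).nonempty
  refine ⟨_, hst t htI.1 htI.2, ?_, ?_⟩
  · intro v hv
    simpa using hu v hv
  · have hx : ∀ v : {v : V // v ≠ u},
        xs (fun v => f v + t • (((e v : ℕ) : ℝ) * ((f v).2 - (f u).2), (0 : ℝ))) u v =
          xs f u v + t * ((e v.1 : ℕ) : ℝ) := by
      intro v
      have hpos : (0 : ℝ) < (f v.1).2 - (f u).2 := by
        have := hu v.1 v.2
        linarith
      unfold xs
      simp only [Prod.fst_add, Prod.smul_mk, smul_eq_mul, Prod.snd_add, mul_zero, add_zero,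
        sub_self]
      field_simp
      ring
    intro a b hab
    by_contra hne
    have hne' : (((e a.1 : ℕ) : ℝ) - ((e b.1 : ℕ) : ℝ)) ≠ 0 := by
      intro h0
      apply hne
      have h1 : ((e a.1 : ℕ) : ℝ) = ((e b.1 : ℕ) : ℝ) := sub_eq_zero.1 h0
      have h2 : (e a.1 : ℕ) = (e b.1 : ℕ) := by exact_mod_cast h1
      exact Subtype.ext (e.injective (Fin.ext h2))
    rw [hx a, hx b] at hab
    apply htB
    refine ⟨(a, b), ?_⟩
    simp only
    rw [div_eq_iff hne']
    linarith

end

section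
open Polynomial Pool.Agent.H207R2.BL Pool.Agent.H110R3.BP

theorem main_apex {V : Type} [Fintype V] (G : SimpleGraph V) (u : V)
    (hG : (G.induce {v | v ≠ u}).Colorable 2) (f : V → ℝ × ℝ) (hf : IsStraight G f)
    (hu : ∀ v, v ≠ u → (f u).2 < (f v).2) (p : ℝ[X]) (hp : IsChrom G p) (q : ℝ) (hq : 4 ≤ q) :
    0 < p.eval q := by
  classical
  obtain ⟨f', h1, h2, h3⟩ := perturb f hf u hu
  have hproc := straight_procU f' h1 u h2 h3
  obtain ⟨C⟩ := hG
  have hb : BipU u (fun v => if h : v ≠ u then decide (C ⟨v, h⟩ = 0) else false) G.edgeSet := by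
    intro a b hab ha hb hne
    simp only [dif_pos ha, dif_pos hb] at hne
    have hadj : (G.induce {v | v ≠ u}).Adj ⟨a, ha⟩ ⟨b, hb⟩ := by
      rw [SimpleGraph.comap_adj]
      exact (SimpleGraph.mem_edgeSet G).1 hab
    have h4 : C ⟨a, ha⟩ ≠ C ⟨b, hb⟩ := C.valid hadj
    have h5 : (C ⟨a, ha⟩ = 0) ↔ (C ⟨b, hb⟩ = 0) := decide_eq_decide.1 hne
    apply h4
    have h6 : ∀ x y : Fin 2, (x = 0 ↔ y = 0) → x = y := by decide
    exact h6 _ _ h5
  exact good1_pos u _ G (good1_of_procU u _ hproc hb) p hp q hq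

end

end Pool.Agent.H110R3.BP2
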