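import Pool.Agent.H110R3.BP.Core

/-!
Phase 2: plane graphs with a vertex `u` whose deletion leaves a bipartite graph.
The height (path) representation of the Temperley-Lieb relations, words without the letter `C 0`,
and a cone of functions of paths.
-/

set_option autoImplicit false

namespace Pool.Agent.H110R3.BP2

open Polynomial Pool.Agent.H207R2.BL Pool.Agent.H110R3.BP

/-! ### words without the generator `0` -/

/-- Letters on the columns `0, …, n`; column `0` is never detached or joined. -/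
def InR1 (n : ℕ) : Let → Prop
  | Let.C i => 1 ≤ i ∧ i ≤ n
  | Let.J i => 1 ≤ i ∧ i < n
  | Let.X i => i < n

/-- Class consistent words; column `0` has class `false`, and edges between the columns `0` and
`1` are always allowed. -/
inductive OK1 : List Let → (ℕ → Bool) → Prop
  | nil (κ : ℕ → Bool) (h0 : κ 0 = false) : OK1 [] κ
  | C (i : ℕ) (b : Bool) (w : List Let) (κ : ℕ → Bool) (hi : 1 ≤ i) (h : OK1 w κ) :
      OK1 (Let.C i :: w) (Function.update κ i b)
  | J (i : ℕ) (w : List Let) (κ : ℕ → Bool) (hi : 1 ≤ i) (h : OK1 w κ) (hκ : κ i = κ (i + 1)) :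
      OK1 (Let.J i :: w) κ
  | X (i : ℕ) (w : List Let) (κ : ℕ → Bool) (hi : 1 ≤ i) (h : OK1 w κ) (hκ : κ i ≠ κ (i + 1)) :
      OK1 (Let.X i :: w) κ
  | X0 (w : List Let) (κ : ℕ → Bool) (h : OK1 w κ) : OK1 (Let.X 0 :: w) κ

/-- Normal form statement for words in the generators `1, …, m`. -/
def NF1 (M m : ℕ) (w : List ℕ) : Prop :=
  ∃ a : ℕ,
    (∃ w' : List ℕ, (∀ j ∈ w', 1 ≤ j ∧ j < m) ∧
      ∀ (q : ℝ) (A : Type) [Ring A] [Algebra ℝ A] (S : TL M q A), S.W w = q ^ a • S.W w') ∨
    (∃ x y : List ℕ, (∀ j ∈ x, 1 ≤ j ∧ j < m) ∧ (∀ j ∈ y, 1 ≤ j ∧ j < m) ∧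
      ∀ (q : ℝ) (A : Type) [Ring A] [Algebra ℝ A] (S : TL M q A),
        S.W w = q ^ a • (S.W x * S.e m * S.W y))

/-- A state for the even generators `2, 4, …`. -/
structure State1 {M : ℕ} {q : ℝ} {A : Type} [Ring A] [Algebra ℝ A] (S : TL M q A) where
  φ : A →ₗ[ℝ] ℝ
  left : ∀ j, 1 ≤ j → j < M → Even j → ∀ x, φ (S.e j * x) = q * φ x
  right : ∀ j, 1 ≤ j → j < M → Even j → ∀ x, φ (x * S.e j) = q * φ x

/-! ### the height representation -/

/-- Positive even solutions of `S (h+1) + S (h-1) = δ S h`. -/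
structure Eig (δ : ℝ) (S : ℤ → ℝ) : Prop where
  pos : ∀ h, 0 < S h
  recur : ∀ h, S (h + 1) + S (h - 1) = δ * S h
  even : ∀ h, S (-h) = S h

/-- Height before site `j`, starting at height `1` before site `0`. -/
def hgt (n : ℕ) (s : Fin (2 * n + 2) → Bool) (j : ℕ) : ℤ :=
  1 + ∑ i ∈ Finset.range j, (if s (st n i) then (1 : ℤ) else -1)

/-- Weight of a step. -/
noncomputable def wt (S : ℤ → ℝ) (h : ℤ) (x : Bool) : ℝ :=
  Real.sqrt (S (if x then h + 1 else h - 1) / S h)

/-- change the sites `j`, `j+1` to `x`, `!x` -/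
def chg (n j : ℕ) (s : Fin (2 * n + 2) → Bool) (x : Bool) : Fin (2 * n + 2) → Bool :=
  Function.update (Function.update s (st n j) x) (st n (j + 1)) (!x)

/-- The generator at the sites `j`, `j+1`, with sign `ε` on the off-diagonal entries. -/
noncomputable def PopE (n : ℕ) (S : ℤ → ℝ) (ε : ℝ) (j : ℕ) :
    Fn (Fin (2 * n + 2)) Bool →ₗ[ℝ] Fn (Fin (2 * n + 2)) Bool where
  toFun f s := if s (st n (j + 1)) = !(s (st n j)) then
      wt S (hgt n s j) (s (st n j)) *
        ∑ x : Bool, wt S (hgt n s j) x * ((if x = s (st n j) then 1 else ε) * f (chg n j s x))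
    else 0
  map_add' f g := by
    ext s
    simp only [Pi.add_apply]
    split_ifs
    · rw [← mul_add, ← Finset.sum_add_distrib]
      congr 1
      refine Finset.sum_congr rfl (fun x _ => by ring)
    · simp
  map_smul' r f := by
    ext s
    simp only [Pi.smul_apply, smul_eq_mul, RingHom.id_apply]
    split_ifs
    · simp only [Finset.mul_sum]
      refine Finset.sum_congr rfl (fun x _ => by ring)
    · simp

theorem PopE_apply (n : ℕ) (S : ℤ → ℝ) (ε : ℝ) (j : ℕ) (f : Fn (Fin (2 * n + 2)) Bool)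
    (s : Fin (2 * n + 2) → Bool) :
    PopE n S ε j f s = if s (st n (j + 1)) = !(s (st n j)) then
      wt S (hgt n s j) (s (st n j)) *
        ∑ x : Bool, wt S (hgt n s j) x * ((if x = s (st n j) then 1 else ε) * f (chg n j s x))
    else 0 := rfl

/-! ### the cone -/

/-- The generating functions of the cone: paths with prescribed absolute values `η j` of the
heights (`1 ≤ j ≤ 2n+2`), starting with a step down, times a product of signs of the heights
`2, 4, …, 2n+2`. -/
noncomputable def gen (n : ℕ) (η β : ℕ → ℕ) : Fn (Fin (2 * n + 2)) Bool := fun s =>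
  if s (st n 0) = false ∧ ∀ j ∈ Finset.Icc 1 (2 * n + 2), (hgt n s j).natAbs = η j then
    ∏ i ∈ Finset.range (n + 1), ((SignType.sign (hgt n s (2 * i + 2)) : ℤ) : ℝ) ^ β i
  else 0

/-- The cone of functions of paths. -/
inductive Cone (n : ℕ) : Fn (Fin (2 * n + 2)) Bool → Prop
  | zero : Cone n 0
  | add (f g : Fn (Fin (2 * n + 2)) Bool) (hf : Cone n f) (hg : Cone n g) : Cone n (f + g)
  | smul (r : ℝ) (f : Fn (Fin (2 * n + 2)) Bool) (hr : 0 ≤ r) (hf : Cone n f) : Cone n (r • f)
  | gen (η β : ℕ → ℕ) : Cone n (gen n η β)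

/-- The pattern `0, 1, 2, 1, 2, …` of absolute values. -/
def eta0 (j : ℕ) : ℕ := if j = 1 then 0 else if Even j then 1 else 2

/-- the even special function -/
noncomputable def gE (n : ℕ) : Fn (Fin (2 * n + 2)) Bool := gen n eta0 (fun _ => 0)

/-- the odd special function -/
noncomputable def gO (n : ℕ) : Fn (Fin (2 * n + 2)) Bool :=
  gen n eta0 (fun i => if i = 0 then 1 else 0)

/-- Interior type elements of the cone. -/
def Cone1 (n : ℕ) (f : Fn (Fin (2 * n + 2)) Bool) : Prop :=
  ∃ (t : ℝ) (c : Fn (Fin (2 * n + 2)) Bool), 0 < t ∧ Cone n c ∧ f = t • gE n + c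

/-- multiplication by the gauge sign -/
noncomputable def GU (n : ℕ) (κ : ℕ → Bool) (f : Fn (Fin (2 * n + 2)) Bool) :
    Fn (Fin (2 * n + 2)) Bool := fun s => U n κ s * f s

/-- the special path `0, 1, 2, 1, 2, …` (after the first step down from `1`), and its negative -/
def sp (n : ℕ) (b : Bool) : Fin (2 * n + 2) → Bool := fun i =>
  if i.val = 0 then false else if i.val = 1 then b else if i.val % 2 = 0 then b else !b

/-! ### processes with a base vertex -/

/-- Sweeps in which the vertex `u` is always the lowest strand (not listed in `L`). -/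
inductive ProcU {V : Type} (u : V) : List V → Set V → Set (Sym2 V) → Prop
  | nil : ProcU u [] {u} ∅
  | new (L1 L2 : List V) (U : Set V) (E : Set (Sym2 V)) (v : V) (h : ProcU u (L1 ++ L2) U E)
      (hv : v ∉ U) : ProcU u (L1 ++ v :: L2) (insert v U) E
  | dup (L1 L2 : List V) (U : Set V) (E : Set (Sym2 V)) (v : V)
      (h : ProcU u (L1 ++ v :: L2) U E) : ProcU u (L1 ++ v :: v :: L2) U E
  | edge (L1 L2 : List V) (U : Set V) (E : Set (Sym2 V)) (a v : V)
      (h : ProcU u (L1 ++ a :: v :: L2) U E) (hav : a ≠ v) :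
      ProcU u (L1 ++ a :: v :: L2) U (insert s(a, v) E)
  | base (L : List V) (U : Set V) (E : Set (Sym2 V)) (v : V) (h : ProcU u (v :: L) U E)
      (huv : u ≠ v) : ProcU u (v :: L) U (insert s(u, v) E)
  | drop (L1 L2 : List V) (U : Set V) (E : Set (Sym2 V)) (v : V)
      (h : ProcU u (L1 ++ v :: L2) U E) : ProcU u (L1 ++ L2) U E

/-- the edges not at `u` have ends of different colours -/
def BipU {V : Type} (u : V) (col : V → Bool) (E : Set (Sym2 V)) : Prop :=
  ∀ a b, s(a, b) ∈ E → a ≠ u → b ≠ u → col a ≠ col b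

/-- the word of a process with base vertex -/
def Good1 {V : Type} [Fintype V] (u : V) (col : V → Bool) (L : List V) (E : Set (Sym2 V)) :
    Prop :=
  ∃ (w : List Let) (κ : ℕ → Bool) (N a b : ℕ), OK1 w κ ∧
    (∀ i (hi : i < L.length), κ (i + 1) = col L[i]) ∧ (∀ l ∈ w, InR1 N l) ∧
    L.length + 1 ≤ N ∧
    ∀ n, N ≤ n → ∀ k : ℕ, 1 ≤ k → ∀ c : Fin (n + 1) → Fin k,
      (k : ℝ) ^ a * (T (PR n k) w (fun _ => 1)) c =
        (k : ℝ) ^ b * cnt k (u :: L) E (cl (fun i => i) (L.length + 1) c)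

end Pool.Agent.H110R3.BP2
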