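import Pool.Agent.H110R3.BP2.Stubs

set_option autoImplicit false

namespace Pool.Agent.H110R3.BP2

open Polynomial Pool.Agent.H207R2.BL Pool.Agent.H110R3.BP

theorem nf1_pf (M m : ℕ) (hm : m < M) (w : List ℕ) (hw : ∀ j ∈ w, 1 ≤ j ∧ j ≤ m) : NF1 M m w := by
  induction m generalizing w with
  | zero =>
    have hw0 : w = [] := by
      rcases w with _ | ⟨i, w⟩
      · rfl
      · exact absurd (hw i List.mem_cons_self) (by omega)
    subst hw0
    exact ⟨0, Or.inl ⟨[], by simp, by intro q A _ _ S; simp⟩⟩
  | succ m ihm =>
    induction w with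
    | nil => exact ⟨0, Or.inl ⟨[], by simp, by intro q A _ _ S; simp⟩⟩
    | cons j w ih =>
      have hj : j ≤ m + 1 := (hw j List.mem_cons_self).2
      have hj0 : 1 ≤ j := (hw j List.mem_cons_self).1
      obtain ⟨a, h | h⟩ := ih (fun i hi => hw i (List.mem_cons_of_mem _ hi))
      · obtain ⟨w', hw', h⟩ := h
        rcases Nat.lt_or_ge j (m + 1) with hj1 | hj1
        · refine ⟨a, Or.inl ⟨j :: w', ?_, ?_⟩⟩
          · intro i hi
            rcases List.mem_cons.1 hi with rfl | hi
            · exact ⟨hj0, hj1⟩
            · exact hw' i hi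
          · intro q A _ _ S
            rw [TL.W_cons, h q A S, TL.W_cons, mul_smul_comm]
        · have hj2 : j = m + 1 := le_antisymm hj hj1
          subst hj2
          refine ⟨a, Or.inr ⟨[], w', by simp, hw', ?_⟩⟩
          intro q A _ _ S
          rw [TL.W_cons, h q A S]
          simp
      · obtain ⟨x, y, hx, hy, h⟩ := h
        rcases Nat.lt_or_ge j (m + 1) with hj1 | hj1
        · refine ⟨a, Or.inr ⟨j :: x, y, ?_, hy, ?_⟩⟩
          · intro i hi
            rcases List.mem_cons.1 hi with rfl | hi
            · exact ⟨hj0, hj1⟩
            · exact hx i hi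
          · intro q A _ _ S
            rw [TL.W_cons, h q A S, TL.W_cons, mul_smul_comm]
            simp only [mul_assoc]
        · have hj2 : j = m + 1 := le_antisymm hj hj1
          subst hj2
          obtain ⟨b, h' | h'⟩ := ihm (by omega) x (fun i hi => ⟨(hx i hi).1, Nat.lt_succ_iff.1 (hx i hi).2⟩)
          · obtain ⟨x', hx', h'⟩ := h'
            refine ⟨a + b + (if Even (m + 1) then 1 else 0), Or.inr ⟨x', y, ?_, hy, ?_⟩⟩
            · intro i hi
              exact ⟨(hx' i hi).1, (hx' i hi).2.trans (Nat.lt_succ_self m)⟩
            · intro q A _ _ S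
              have hc := S.W_comm (m + 1) hm x' (fun i hi => by have := hx' i hi; omega)
              have h2 := S.sq (m + 1) hm
              rw [TL.W_cons, h q A S, h' q A S]
              calc S.e (m + 1) * q ^ a • (q ^ b • S.W x' * S.e (m + 1) * S.W y)
                  = (q ^ a * q ^ b) • ((S.e (m + 1) * S.W x') * S.e (m + 1) * S.W y) := by
                    simp only [smul_mul_assoc, mul_smul_comm, smul_smul, mul_assoc]
                _ = (q ^ a * q ^ b) • (S.W x' * (S.e (m + 1) * S.e (m + 1)) * S.W y) := by
                    rw [← hc]; simp only [mul_assoc]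
                _ = q ^ (a + b + (if Even (m + 1) then 1 else 0)) •
                      (S.W x' * S.e (m + 1) * S.W y) := by
                    rw [h2]
                    simp only [smul_mul_assoc, mul_smul_comm, smul_smul]
                    congr 1
                    split_ifs <;> simp [pow_add]
          · obtain ⟨x1, x2, hx1, hx2, h'⟩ := h'
            refine ⟨a + b, Or.inr ⟨x1, x2 ++ y, ?_, ?_, ?_⟩⟩
            · intro i hi
              exact ⟨(hx1 i hi).1, (hx1 i hi).2.trans (Nat.lt_succ_self m)⟩
            · intro i hi
              rcases List.mem_append.1 hi with hi | hi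
              · exact ⟨(hx2 i hi).1, (hx2 i hi).2.trans (Nat.lt_succ_self m)⟩
              · exact hy i hi
            · intro q A _ _ S
              have hc1 := S.W_comm (m + 1) hm x1 (fun i hi => by have := hx1 i hi; omega)
              have hc2 := S.W_comm (m + 1) hm x2 (fun i hi => by have := hx2 i hi; omega)
              have h2 := S.r2 m hm
              rw [TL.W_cons, h q A S, h' q A S, TL.W_append]
              calc S.e (m + 1) * q ^ a • (q ^ b • (S.W x1 * S.e m * S.W x2) * S.e (m + 1) * S.W y)
                  = (q ^ a * q ^ b) • ((S.e (m + 1) * S.W x1) * S.e m *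
                      (S.W x2 * S.e (m + 1)) * S.W y) := by
                    simp only [smul_mul_assoc, mul_smul_comm, smul_smul, mul_assoc]
                _ = (q ^ a * q ^ b) • (S.W x1 * (S.e (m + 1) * S.e m * S.e (m + 1)) *
                      (S.W x2 * S.W y)) := by
                    rw [← hc1, hc2]; simp only [mul_assoc]
                _ = q ^ (a + b) • (S.W x1 * S.e (m + 1) * (S.W x2 * S.W y)) := by
                    rw [h2, pow_add]

theorem state_eval1_pf (n m : ℕ) (hm : m ≤ 2 * n + 1) (w : List ℕ)
    (hw : ∀ j ∈ w, 1 ≤ j ∧ j < m) :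
    ∃ N : ℤ, ∀ (q : ℝ), q ≠ 0 → ∀ (A : Type) [Ring A] [Algebra ℝ A] (S : TL (2 * n + 1) q A)
      (F : State1 S), F.φ (S.W w) = q ^ N * F.φ 1 := by
  induction m generalizing w with
  | zero =>
    have hw0 : w = [] := by
      rcases w with _ | ⟨i, w⟩
      · rfl
      · exact absurd (hw i List.mem_cons_self) (by omega)
    subst hw0
    exact ⟨0, by intro q _ A _ _ S F; simp⟩
  | succ m ihm =>
    have ih := fun w hw => ihm (by omega) w hw
    rcases Nat.eq_zero_or_pos m with h0 | hpos
    · have hw0 : w = [] := by
        rcases w with _ | ⟨i, w⟩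
        · rfl
        · exact absurd (hw i List.mem_cons_self) (by omega)
      subst hw0
      exact ⟨0, by intro q _ A _ _ S F; simp⟩
    obtain ⟨a, h | h⟩ := nf1_pf (2 * n + 1) m (by omega) w
      (fun j hj => ⟨(hw j hj).1, Nat.lt_succ_iff.1 (hw j hj).2⟩)
    · obtain ⟨w', hw', h⟩ := h
      obtain ⟨N, hN⟩ := ih w' hw'
      refine ⟨a + N, ?_⟩
      intro q hq A _ _ S F
      rw [h q A S, map_smul, hN q hq A S F, smul_eq_mul, zpow_add₀ hq, zpow_natCast]
      ring
    · obtain ⟨x, y, hx, hy, h⟩ := h
      rcases Nat.even_or_odd m with he | ho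
      · -- even top letter
        obtain ⟨m', rfl⟩ : ∃ m', m = m' + 1 := ⟨m - 1, by omega⟩
        obtain ⟨b, h' | h'⟩ := nf1_pf (2 * n + 1) m' (by omega) y
          (fun j hj => ⟨(hy j hj).1, Nat.lt_succ_iff.1 (hy j hj).2⟩)
        · obtain ⟨y', hy', h'⟩ := h'
          obtain ⟨N, hN⟩ := ih (x ++ y') (by
            intro j hj
            rcases List.mem_append.1 hj with hj | hj
            · exact hx j hj
            · exact ⟨(hy' j hj).1, (hy' j hj).2.trans (Nat.lt_succ_self m')⟩)
          refine ⟨a + (b + 1 + N), ?_⟩
          intro q hq A _ _ S F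
          have hc := S.W_comm (m' + 1) (by omega) y' (fun i hi => by have := hy' i hi; omega)
          have h1 := F.right (m' + 1) (by omega) (by omega) he (S.W x * S.W y')
          have h2 := hN q hq A S F
          rw [TL.W_append] at h2
          rw [h q A S, h' q A S, map_smul, smul_eq_mul]
          have h3 : S.W x * S.e (m' + 1) * q ^ b • S.W y'
              = q ^ b • (S.W x * S.W y' * S.e (m' + 1)) := by
            rw [mul_smul_comm, mul_assoc, ← hc, mul_assoc]
          rw [h3, map_smul, h1, h2, smul_eq_mul, zpow_add₀ hq, zpow_add₀ hq, zpow_add₀ hq,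
            zpow_natCast, zpow_natCast]
          simp
          ring
        · obtain ⟨y1, y2, hy1, hy2, h'⟩ := h'
          obtain ⟨N, hN⟩ := ih (x ++ (y1 ++ y2)) (by
            intro j hj
            rcases List.mem_append.1 hj with hj | hj
            · exact hx j hj
            · rcases List.mem_append.1 hj with hj | hj
              · exact ⟨(hy1 j hj).1, (hy1 j hj).2.trans (Nat.lt_succ_self m')⟩
              · exact ⟨(hy2 j hj).1, (hy2 j hj).2.trans (Nat.lt_succ_self m')⟩)
          refine ⟨a + (b + N), ?_⟩
          intro q hq A _ _ S F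
          have hc1 := S.W_comm (m' + 1) (by omega) y1 (fun i hi => by have := hy1 i hi; omega)
          have hc2 := S.W_comm (m' + 1) (by omega) y2 (fun i hi => by have := hy2 i hi; omega)
          have hr := S.r2 m' (by omega)
          have hR := fun z => F.right (m' + 1) (by omega) (by omega) he z
          have h2 := hN q hq A S F
          rw [TL.W_append, TL.W_append] at h2
          have key : q * F.φ (S.W x * S.e (m' + 1) * (S.W y1 * S.e m' * S.W y2))
              = q * F.φ (S.W x * (S.W y1 * S.W y2)) := by
            rw [← hR, ← hR]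
            congr 1
            calc S.W x * S.e (m' + 1) * (S.W y1 * S.e m' * S.W y2) * S.e (m' + 1)
                = S.W x * (S.e (m' + 1) * S.W y1) * S.e m' * (S.W y2 * S.e (m' + 1)) := by
                  simp only [mul_assoc]
              _ = S.W x * S.W y1 * (S.e (m' + 1) * S.e m' * S.e (m' + 1)) * S.W y2 := by
                  rw [← hc1, hc2]; simp only [mul_assoc]
              _ = S.W x * S.W y1 * (S.e (m' + 1) * S.W y2) := by
                  rw [hr]; simp only [mul_assoc]
              _ = S.W x * (S.W y1 * S.W y2) * S.e (m' + 1) := by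
                  rw [← hc2]; simp only [mul_assoc]
          have key2 := mul_left_cancel₀ hq key
          rw [h q A S, h' q A S, map_smul, smul_eq_mul, mul_smul_comm, map_smul, key2, h2,
            smul_eq_mul, zpow_add₀ hq, zpow_add₀ hq, zpow_natCast, zpow_natCast]
          ring
      · -- odd top letter
        have hm1 : m + 1 < 2 * n + 1 := by
          obtain ⟨t, ht⟩ := ho
          omega
        have he1 : Even (m + 1) := ho.add_one
        obtain ⟨N, hN⟩ := ih (x ++ y) (by
          intro j hj
          rcases List.mem_append.1 hj with hj | hj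
          · exact hx j hj
          · exact hy j hj)
        refine ⟨a + (-1 + N), ?_⟩
        intro q hq A _ _ S F
        have hc1 := S.W_comm (m + 1) hm1 x (fun i hi => by have := hx i hi; omega)
        have hc2 := S.W_comm (m + 1) hm1 y (fun i hi => by have := hy i hi; omega)
        have hr := S.r2 m hm1
        have hR := fun z => F.right (m + 1) (by omega) hm1 he1 z
        have hL := fun z => F.left (m + 1) (by omega) hm1 he1 z
        have h2 := hN q hq A S F
        rw [TL.W_append] at h2
        have key : q * (q * F.φ (S.W x * S.e m * S.W y)) = q * F.φ (S.W x * S.W y) := by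
          rw [← hR, ← hL, ← hR]
          congr 1
          calc S.e (m + 1) * (S.W x * S.e m * S.W y * S.e (m + 1))
              = (S.e (m + 1) * S.W x) * S.e m * (S.W y * S.e (m + 1)) := by
                simp only [mul_assoc]
            _ = S.W x * (S.e (m + 1) * S.e m * S.e (m + 1)) * S.W y := by
                rw [← hc1, hc2]; simp only [mul_assoc]
            _ = S.W x * (S.e (m + 1) * S.W y) := by
                rw [hr]; simp only [mul_assoc]
            _ = S.W x * S.W y * S.e (m + 1) := by
                rw [← hc2]; simp only [mul_assoc]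
        have key2 := mul_left_cancel₀ hq key
        have key3 : F.φ (S.W x * S.e m * S.W y) = q⁻¹ * F.φ (S.W x * S.W y) := by
          field_simp
          linarith
        rw [h q A S, map_smul, smul_eq_mul, key3, h2, zpow_add₀ hq, zpow_add₀ hq, zpow_natCast,
          zpow_neg_one]
        ring

end Pool.Agent.H110R3.BP2
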