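import Pool.Agent.H110R3.BP2.Stubs

set_option autoImplicit false

namespace Pool.Agent.H110R3.BP2

open Polynomial Pool.Agent.H207R2.BL Pool.Agent.H110R3.BP

theorem U10_ne (n i j : ℕ) (hi : i ≤ 2 * n + 1) (hj : j ≤ 2 * n + 1) (h : i ≠ j) :
    st n i ≠ st n j := by
  intro h2
  have h3 := congrArg Fin.val h2
  rw [st_val n i hi, st_val n j hj] at h3
  exact h h3

theorem U10_cc (n i j : ℕ) (hij : i + 2 ≤ j) (hj : j ≤ 2 * n) (s : Fin (2 * n + 2) → Bool)
    (x y : Bool) : chg n j (chg n i s x) y = chg n i (chg n j s y) x := by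
  unfold chg
  have h1 : st n i ≠ st n j := U10_ne n _ _ (by omega) (by omega) (by omega)
  have h2 : st n i ≠ st n (j + 1) := U10_ne n _ _ (by omega) (by omega) (by omega)
  have h3 : st n (i + 1) ≠ st n j := U10_ne n _ _ (by omega) (by omega) (by omega)
  have h4 : st n (i + 1) ≠ st n (j + 1) := U10_ne n _ _ (by omega) (by omega) (by omega)
  rw [Function.update_comm h3, Function.update_comm h1, Function.update_comm h4,
    Function.update_comm h2]

theorem Pop_comm_pf (n : ℕ) (S : ℤ → ℝ) (i j : ℕ) (hij : i + 2 ≤ j) (hj : j ≤ 2 * n) :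
    (PopE n S 1 i * PopE n S 1 j : Module.End ℝ (Fn (Fin (2 * n + 2)) Bool)) =
      PopE n S 1 j * PopE n S 1 i := by
  refine LinearMap.ext (fun f => funext (fun s => ?_))
  simp only [Module.End.mul_apply]
  rw [PopE_apply n S 1 i, PopE_apply n S 1 j]
  have hL : ∀ x : Bool, s (st n (i + 1)) = !(s (st n i)) → PopE n S 1 j f (chg n i s x) =
      if s (st n (j + 1)) = !(s (st n j)) then
        wt S (hgt n s j) (s (st n j)) * ∑ y : Bool, wt S (hgt n s j) y *
          ((if y = s (st n j) then 1 else 1) * f (chg n j (chg n i s x) y)) else 0 := by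
    intro x hx
    rw [PopE_apply]
    obtain ⟨-, -, h3⟩ := chg_at n i (by omega) s x
    rw [h3 j (by omega) (by omega) (by omega), h3 (j + 1) (by omega) (by omega) (by omega),
      hgt_chg_ge n i (by omega) s x j hx (by omega) (by omega)]
  have hR : ∀ y : Bool, PopE n S 1 i f (chg n j s y) =
      if s (st n (i + 1)) = !(s (st n i)) then
        wt S (hgt n s i) (s (st n i)) * ∑ x : Bool, wt S (hgt n s i) x *
          ((if x = s (st n i) then 1 else 1) * f (chg n i (chg n j s y) x)) else 0 := by
    intro y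
    rw [PopE_apply]
    obtain ⟨-, -, h3⟩ := chg_at n j (by omega) s y
    rw [h3 i (by omega) (by omega) (by omega), h3 (i + 1) (by omega) (by omega) (by omega),
      hgt_chg_le n j (by omega) s y i (by omega)]
  simp only [hR]
  by_cases hi : s (st n (i + 1)) = !(s (st n i))
  · simp only [hL _ hi]
    by_cases hjj : s (st n (j + 1)) = !(s (st n j))
    · simp only [if_pos hi, if_pos hjj, ite_self, one_mul, Finset.mul_sum]
      rw [Finset.sum_comm]
      refine Finset.sum_congr rfl (fun y _ => Finset.sum_congr rfl (fun x _ => ?_))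
      rw [U10_cc n i j hij hj s x y]
      ring
    · simp [hjj]
  · simp [hi]

end Pool.Agent.H110R3.BP2
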