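import Pool.Agent.H110R3.BP2.Stubs

set_option autoImplicit false

namespace Pool.Agent.H110R3.BP2

open Polynomial Pool.Agent.H207R2.BL Pool.Agent.H110R3.BP

theorem U11_app (n : ℕ) (S : ℤ → ℝ) (j : ℕ) (f : Fn (Fin (2 * n + 2)) Bool)
    (s : Fin (2 * n + 2) → Bool) :
    PopE n S 1 j f s = if s (st n (j + 1)) = !(s (st n j)) then
      wt S (hgt n s j) (s (st n j)) *
        ∑ x : Bool, wt S (hgt n s j) x * f (chg n j s x) else 0 := by
  rw [PopE_apply]
  simp only [ite_self, one_mul]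

/-- the inner product as a sum over pairs -/
theorem U11_ip (n : ℕ) (S : ℤ → ℝ) (j : ℕ) (f g : Fn (Fin (2 * n + 2)) Bool) :
    ip f (PopE n S 1 j g) =
      ∑ p ∈ (Finset.univ : Finset ((Fin (2 * n + 2) → Bool) × Bool)).filter
        (fun p => p.1 (st n (j + 1)) = !(p.1 (st n j))),
        wt S (hgt n p.1 j) (p.1 (st n j)) * wt S (hgt n p.1 j) p.2 *
          (f p.1 * g (chg n j p.1 p.2)) := by
  rw [Finset.sum_filter, Fintype.sum_prod_type]
  unfold ip
  refine Finset.sum_congr rfl fun s _ => ?_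
  rw [U11_app]
  by_cases hs : s (st n (j + 1)) = !(s (st n j))
  · simp only [if_pos hs]
    rw [Finset.mul_sum, Finset.mul_sum]
    refine Finset.sum_congr rfl fun x _ => ?_
    ring
  · simp only [if_neg hs]
    simp

theorem Pop_symm_pf (n : ℕ) (S : ℤ → ℝ) (j : ℕ) (hj : j ≤ 2 * n)
    (f g : Fn (Fin (2 * n + 2)) Bool) :
    ip f (PopE n S 1 j g) = ip (PopE n S 1 j f) g := by
  rw [ip_comm (PopE n S 1 j f) g, U11_ip, U11_ip]
  have hmem : ∀ p : (Fin (2 * n + 2) → Bool) × Bool,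
      p ∈ (Finset.univ : Finset ((Fin (2 * n + 2) → Bool) × Bool)).filter
        (fun p => p.1 (st n (j + 1)) = !(p.1 (st n j))) ↔
      p.1 (st n (j + 1)) = !(p.1 (st n j)) := by
    intro p
    simp
  have hmaps : ∀ p : (Fin (2 * n + 2) → Bool) × Bool,
      p ∈ (Finset.univ : Finset ((Fin (2 * n + 2) → Bool) × Bool)).filter
        (fun p => p.1 (st n (j + 1)) = !(p.1 (st n j))) →
      (chg n j p.1 p.2, p.1 (st n j)) ∈
        (Finset.univ : Finset ((Fin (2 * n + 2) → Bool) × Bool)).filter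
        (fun p => p.1 (st n (j + 1)) = !(p.1 (st n j))) := by
    intro p _
    rw [hmem]
    obtain ⟨h1, h2, -⟩ := chg_at n j hj p.1 p.2
    simp only [h1, h2]
  have hinv : ∀ p : (Fin (2 * n + 2) → Bool) × Bool,
      p ∈ (Finset.univ : Finset ((Fin (2 * n + 2) → Bool) × Bool)).filter
        (fun p => p.1 (st n (j + 1)) = !(p.1 (st n j))) →
      (chg n j (chg n j p.1 p.2) (p.1 (st n j)), chg n j p.1 p.2 (st n j)) = p := by
    intro p hp
    rw [hmem] at hp
    obtain ⟨h1, h2, -⟩ := chg_at n j hj p.1 p.2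
    rw [chg_chg n j hj, chg_self n j hj p.1 hp, h1]
  refine Finset.sum_nbij' (fun p => (chg n j p.1 p.2, p.1 (st n j)))
    (fun p => (chg n j p.1 p.2, p.1 (st n j))) hmaps hmaps hinv hinv ?_
  intro p hp
  rw [hmem] at hp
  obtain ⟨h1, h2, -⟩ := chg_at n j hj p.1 p.2
  simp only [h1, hgt_chg_le n j hj p.1 p.2 j le_rfl]
  rw [chg_chg n j hj, chg_self n j hj p.1 hp]
  ring

end Pool.Agent.H110R3.BP2
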