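import Pool.Agent.H110R3.BP2.Defs

/-! Task U12: the gauge and the generators of even index. -/

set_option autoImplicit false

namespace Pool.Agent.H110R3.BP2

open Polynomial Pool.Agent.H207R2.BL Pool.Agent.H110R3.BP

theorem gauge_C_pf (n : ℕ) (S : ℤ → ℝ) (κ : ℕ → Bool) (i : ℕ) (hi : 1 ≤ i) (hin : i ≤ n) (b : Bool)
    (g : Fn (Fin (2 * n + 2)) Bool) :
    GU n (Function.update κ i b) (PopE n S 1 (2 * i) g) = PopE n S 1 (2 * i) (GU n κ g) := by
  funext s
  show U n (Function.update κ i b) s * PopE n S 1 (2 * i) g s = _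
  rw [PopE_apply, PopE_apply]
  split_ifs with hs
  · rw [mul_left_comm, Finset.mul_sum]
    congr 1
    refine Finset.sum_congr rfl fun x _ => ?_
    rw [T26_U n κ i hin b x s hs]
    show _ = wt S (hgt n s (2 * i)) x * ((if x = s (st n (2 * i)) then 1 else 1) *
      (U n κ (chg n (2 * i) s x) * g (chg n (2 * i) s x)))
    unfold chg
    ring
  · rw [mul_zero]

end Pool.Agent.H110R3.BP2
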