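import Pool.Agent.H110R3.BP2.Stubs
set_option autoImplicit false
namespace Pool.Agent.H110R3.BP2
open Polynomial Pool.Agent.H207R2.BL Pool.Agent.H110R3.BP

theorem U13_chg (n : ℕ) (κ : ℕ → Bool) (i : ℕ) (hi : i < n) (hκ : κ i = κ (i + 1))
    (s : Fin (2 * n + 2) → Bool) (x : Bool)
    (hs : s (st n (2 * i + 1 + 1)) = !(s (st n (2 * i + 1)))) :
    U n κ (chg n (2 * i + 1) s x) = U n κ s := by
  unfold chg
  by_cases hx : x = s (st n (2 * i + 1))
  · rw [hx, Function.update_eq_self, ← hs, Function.update_eq_self]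
  · have hx' : x = !(s (st n (2 * i + 1))) := by
      cases x <;> cases h : s (st n (2 * i + 1)) <;> simp_all
    have h1 := T27_U n κ i hi hκ s
    have e : 2 * i + 2 = 2 * i + 1 + 1 := rfl
    rw [e, hs] at h1
    rw [hx']
    exact h1

-- C2
theorem gauge_same_pf (n : ℕ) (S : ℤ → ℝ) (κ : ℕ → Bool) (i : ℕ) (hi : i < n)
    (hκ : κ i = κ (i + 1)) (g : Fn (Fin (2 * n + 2)) Bool) :
    GU n κ (PopE n S 1 (2 * i + 1) g) = PopE n S 1 (2 * i + 1) (GU n κ g) := by
  funext s
  unfold GU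
  rw [PopE_apply, PopE_apply]
  split_ifs with hs
  · have h1 := fun x => U13_chg n κ i hi hκ s x hs
    simp only [h1]
    rw [Fintype.sum_bool, Fintype.sum_bool]
    ring
  · rw [mul_zero]

end Pool.Agent.H110R3.BP2
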