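import Pool.Agent.H110R3.BP2.Stubs

/-!
Task U14: the gauge sign and the generator between two columns of different classes.
-/

set_option autoImplicit false

namespace Pool.Agent.H110R3.BP2

open Polynomial Pool.Agent.H207R2.BL Pool.Agent.H110R3.BP

theorem U14_U (n : ℕ) (κ : ℕ → Bool) (i : ℕ) (hi : i < n) (hκ : κ i ≠ κ (i + 1))
    (s : Fin (2 * n + 2) → Bool)
    (hs : s (st n (2 * i + 1 + 1)) = !(s (st n (2 * i + 1)))) (x : Bool) :
    U n κ (chg n (2 * i + 1) s x) =
      (if x = s (st n (2 * i + 1)) then (1 : ℝ) else -1) * U n κ s := by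
  by_cases hx : x = s (st n (2 * i + 1))
  · rw [if_pos hx, hx, chg_self n (2 * i + 1) (by omega) s hs, one_mul]
  · rw [if_neg hx]
    have hx' : x = !(s (st n (2 * i + 1))) := by
      revert hx
      cases x <;> cases s (st n (2 * i + 1)) <;> simp
    have h := T28_U n κ i hi hκ s
    have e : chg n (2 * i + 1) s x =
        Function.update (Function.update s (st n (2 * i + 1)) (!(s (st n (2 * i + 1)))))
          (st n (2 * i + 2)) (!(s (st n (2 * i + 2)))) := by
      unfold chg
      have e2 : s (st n (2 * i + 2)) = !(s (st n (2 * i + 1))) := hs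
      rw [hx', e2]
    rw [e, h]
    ring

theorem gauge_diff_pf (n : ℕ) (S : ℤ → ℝ) (κ : ℕ → Bool) (i : ℕ) (hi : i < n)
    (hκ : κ i ≠ κ (i + 1)) (g : Fn (Fin (2 * n + 2)) Bool) :
    GU n κ (PopE n S 1 (2 * i + 1) g) = PopE n S (-1) (2 * i + 1) (GU n κ g) := by
  funext s
  show U n κ s * (PopE n S 1 (2 * i + 1) g s) = _
  rw [PopE_apply, PopE_apply]
  by_cases hs : s (st n (2 * i + 1 + 1)) = !(s (st n (2 * i + 1)))
  · rw [if_pos hs, if_pos hs]
    rw [mul_left_comm]
    congr 1
    rw [Finset.mul_sum]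
    refine Finset.sum_congr rfl (fun x _ => ?_)
    show _ = wt S (hgt n s (2 * i + 1)) x * ((if x = s (st n (2 * i + 1)) then 1 else -1) *
      (U n κ (chg n (2 * i + 1) s x) * g (chg n (2 * i + 1) s x)))
    rw [U14_U n κ i hi hκ s hs x]
    by_cases hx : x = s (st n (2 * i + 1))
    · simp only [if_pos hx]
      ring
    · simp only [if_neg hx]
      ring
  · rw [if_neg hs, if_neg hs, mul_zero]

end Pool.Agent.H110R3.BP2
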