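import Pool.Agent.H110R3.BP2.Stubs
set_option autoImplicit false
namespace Pool.Agent.H110R3.BP2
open Polynomial Pool.Agent.H207R2.BL Pool.Agent.H110R3.BP

/-- all conditions except the one on the height `j+1` -/
def U15_A (n j : ℕ) (η : ℕ → ℕ) (s : Fin (2 * n + 2) → Bool) : Prop :=
  s (st n 0) = false ∧ ∀ l ∈ Finset.Icc 1 (2 * n + 2), l ≠ j + 1 → (hgt n s l).natAbs = η l

/-- product of signs -/
noncomputable def U15_P (n : ℕ) (β : ℕ → ℕ) (s : Fin (2 * n + 2) → Bool) : ℝ :=
  ∏ i ∈ Finset.range (n + 1), ((SignType.sign (hgt n s (2 * i + 2)) : ℤ) : ℝ) ^ β i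

open Classical in
theorem U15_gen_upd (n j : ℕ) (hj : j ≤ 2 * n) (η β : ℕ → ℕ) (ζ : ℕ)
    (s : Fin (2 * n + 2) → Bool) :
    gen n (Function.update η (j + 1) ζ) β s =
      if U15_A n j η s ∧ (hgt n s (j + 1)).natAbs = ζ then U15_P n β s else 0 := by
  unfold gen U15_P
  have h : (s (st n 0) = false ∧ ∀ l ∈ Finset.Icc 1 (2 * n + 2),
      (hgt n s l).natAbs = Function.update η (j + 1) ζ l) ↔
      (U15_A n j η s ∧ (hgt n s (j + 1)).natAbs = ζ) := by
    unfold U15_A
    constructor
    · rintro ⟨h0, h1⟩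
      refine ⟨⟨h0, fun l hl hlj => ?_⟩, ?_⟩
      · rw [h1 l hl, Function.update_of_ne hlj]
      · rw [h1 (j + 1) (Finset.mem_Icc.2 ⟨by omega, by omega⟩), Function.update_self]
    · rintro ⟨⟨h0, h1⟩, h2⟩
      refine ⟨h0, fun l hl => ?_⟩
      by_cases hlj : l = j + 1
      · subst hlj
        rw [Function.update_self, h2]
      · rw [Function.update_of_ne hlj, h1 l hl hlj]
  by_cases h' : U15_A n j η s ∧ (hgt n s (j + 1)).natAbs = ζ
  · rw [if_pos (h.2 h'), if_pos h']
  · rw [if_neg (fun h'' => h' (h.1 h'')), if_neg h']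

open Classical in
theorem U15_gen_chg (n i : ℕ) (hi : 1 ≤ i) (hin : i ≤ n) (η β : ℕ → ℕ)
    (s : Fin (2 * n + 2) → Bool) (x : Bool) (hs : s (st n (2 * i + 1)) = !(s (st n (2 * i)))) :
    gen n η β (chg n (2 * i) s x) =
      if U15_A n (2 * i) η s ∧ (hgt n s (2 * i) + (if x then 1 else -1)).natAbs = η (2 * i + 1)
        then U15_P n β s else 0 := by
  have hj : 2 * i ≤ 2 * n := by omega
  have hg : ∀ l, l ≠ 2 * i + 1 → l ≤ 2 * n + 2 →
      hgt n (chg n (2 * i) s x) l = hgt n s l := by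
    intro l hl hl2
    rcases Nat.lt_or_ge l (2 * i + 1) with h | h
    · exact hgt_chg_le n (2 * i) hj s x l (by omega)
    · exact hgt_chg_ge n (2 * i) hj s x l hs (by omega) hl2
  have hm := hgt_chg_mid n (2 * i) hj s x
  have h0 : chg n (2 * i) s x (st n 0) = s (st n 0) :=
    (chg_at n (2 * i) hj s x).2.2 0 (by omega) (by omega) (by omega)
  have hP : (∏ k ∈ Finset.range (n + 1),
      ((SignType.sign (hgt n (chg n (2 * i) s x) (2 * k + 2)) : ℤ) : ℝ) ^ β k) = U15_P n β s := by
    unfold U15_P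
    refine Finset.prod_congr rfl fun k hk => ?_
    rw [Finset.mem_range] at hk
    rw [hg (2 * k + 2) (by omega) (by omega)]
  have hc : (chg n (2 * i) s x (st n 0) = false ∧ ∀ l ∈ Finset.Icc 1 (2 * n + 2),
      (hgt n (chg n (2 * i) s x) l).natAbs = η l) ↔
      (U15_A n (2 * i) η s ∧
        (hgt n s (2 * i) + (if x then 1 else -1)).natAbs = η (2 * i + 1)) := by
    unfold U15_A
    rw [h0]
    constructor
    · rintro ⟨h1, h2⟩
      refine ⟨⟨h1, fun l hl hlj => ?_⟩, ?_⟩
      · rw [← h2 l hl, hg l hlj (Finset.mem_Icc.1 hl).2]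
      · rw [← h2 (2 * i + 1) (Finset.mem_Icc.2 ⟨by omega, by omega⟩), hm]
    · rintro ⟨⟨h1, h2⟩, h3⟩
      refine ⟨h1, fun l hl => ?_⟩
      by_cases hlj : l = 2 * i + 1
      · subst hlj
        rw [hm, h3]
      · rw [hg l hlj (Finset.mem_Icc.1 hl).2, h2 l hl hlj]
  unfold gen
  rw [hP]
  by_cases h' : (U15_A n (2 * i) η s ∧
        (hgt n s (2 * i) + (if x then 1 else -1)).natAbs = η (2 * i + 1))
  · rw [if_pos (hc.2 h'), if_pos h']
  · rw [if_neg (fun h'' => h' (hc.1 h'')), if_neg h']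

/-- the modified exponents -/
def U15_b (i : ℕ) (β : ℕ → ℕ) (k : ℕ) : ℕ :=
  β k + (if k = i - 1 then 1 else 0) + (if k = i then 1 else 0)

theorem U15_P_b (n i : ℕ) (hi : 1 ≤ i) (hin : i ≤ n) (β : ℕ → ℕ) (s : Fin (2 * n + 2) → Bool) :
    U15_P n (U15_b i β) s = U15_P n β s *
      (((SignType.sign (hgt n s (2 * i)) : ℤ) : ℝ) *
        ((SignType.sign (hgt n s (2 * i + 2)) : ℤ) : ℝ)) := by
  unfold U15_P U15_b
  have h1 : ∀ k : ℕ, ((SignType.sign (hgt n s (2 * k + 2)) : ℤ) : ℝ) ^
      (β k + (if k = i - 1 then 1 else 0) + (if k = i then 1 else 0)) =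
      ((SignType.sign (hgt n s (2 * k + 2)) : ℤ) : ℝ) ^ β k *
      (if k = i - 1 then ((SignType.sign (hgt n s (2 * i)) : ℤ) : ℝ) else 1) *
      (if k = i then ((SignType.sign (hgt n s (2 * i + 2)) : ℤ) : ℝ) else 1) := by
    intro k
    rw [pow_add, pow_add]
    congr 1
    · congr 1
      by_cases h : k = i - 1
      · rw [if_pos h, if_pos h, pow_one, show 2 * k + 2 = 2 * i by omega]
      · rw [if_neg h, if_neg h, pow_zero]
    · by_cases h : k = i
      · rw [if_pos h, if_pos h, pow_one, h]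
      · rw [if_neg h, if_neg h, pow_zero]
  simp only [h1]
  rw [Finset.prod_mul_distrib, Finset.prod_mul_distrib, Finset.prod_ite_eq', Finset.prod_ite_eq',
    if_pos (Finset.mem_range.2 (by omega)), if_pos (Finset.mem_range.2 (by omega)), mul_assoc]

/-- weight of the sum over the new step -/
noncomputable def U15_K (S : ℤ → ℝ) (b e : ℕ) : ℝ :=
  if e + 1 = b ∨ e = b + 1 then Real.sqrt (S e / S b) else 0

theorem U15_K_nonneg (S : ℤ → ℝ) (b e : ℕ) : 0 ≤ U15_K S b e := by
  unfold U15_K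
  split_ifs
  · exact Real.sqrt_nonneg _
  · exact le_refl _

theorem U15_wt {δ : ℝ} {S : ℤ → ℝ} (hS : Eig δ S) (h : ℤ) (x : Bool) :
    wt S h x = Real.sqrt (S (((h + (if x then 1 else -1)).natAbs : ℕ) : ℤ) /
      S ((h.natAbs : ℕ) : ℤ)) := by
  unfold wt
  rw [← hS.natAbs, ← hS.natAbs]
  cases x
  · simp [sub_eq_add_neg]
  · simp

theorem U15_sum {δ : ℝ} {S : ℤ → ℝ} (hS : Eig δ S) (h : ℤ) (b e : ℕ) (hb : h.natAbs = b)
    (hb1 : 1 ≤ b) :
    ∑ x : Bool, wt S h x * (if (h + (if x then 1 else -1)).natAbs = e then (1 : ℝ) else 0) =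
      U15_K S b e := by
  rw [Fintype.sum_bool, U15_wt hS, U15_wt hS, hb]
  simp only [if_true, Bool.false_eq_true, if_false]
  unfold U15_K
  rcases Int.lt_or_gt_of_ne (show h ≠ 0 by omega) with hneg | hpos
  · by_cases h1 : e + 1 = b
    · rw [if_pos (Or.inl h1), if_pos (by omega : (h + 1).natAbs = e),
        if_neg (by omega : ¬ (h + -1).natAbs = e), mul_one, mul_zero, add_zero,
        show (h + 1).natAbs = e by omega]
    · by_cases h2 : e = b + 1
      · rw [if_pos (Or.inr h2), if_neg (by omega : ¬ (h + 1).natAbs = e),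
          if_pos (by omega : (h + -1).natAbs = e), mul_one, mul_zero, zero_add,
          show (h + -1).natAbs = e by omega]
      · rw [if_neg (by omega : ¬ (e + 1 = b ∨ e = b + 1)), if_neg (by omega : ¬ (h + 1).natAbs = e),
          if_neg (by omega : ¬ (h + -1).natAbs = e), mul_zero, mul_zero, zero_add]
  · by_cases h1 : e + 1 = b
    · rw [if_pos (Or.inl h1), if_neg (by omega : ¬ (h + 1).natAbs = e),
        if_pos (by omega : (h + -1).natAbs = e), mul_one, mul_zero, zero_add,
        show (h + -1).natAbs = e by omega]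
    · by_cases h2 : e = b + 1
      · rw [if_pos (Or.inr h2), if_pos (by omega : (h + 1).natAbs = e),
          if_neg (by omega : ¬ (h + -1).natAbs = e), mul_one, mul_zero, add_zero,
          show (h + 1).natAbs = e by omega]
      · rw [if_neg (by omega : ¬ (e + 1 = b ∨ e = b + 1)), if_neg (by omega : ¬ (h + 1).natAbs = e),
          if_neg (by omega : ¬ (h + -1).natAbs = e), mul_zero, mul_zero, zero_add]

/-- the term for the new absolute value `ζ` -/
noncomputable def U15_T (n i : ℕ) (S : ℤ → ℝ) (η β : ℕ → ℕ) (ζ : ℕ) :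
    Fn (Fin (2 * n + 2)) Bool :=
  (Real.sqrt (S ζ / S (η (2 * i))) * U15_K S (η (2 * i)) (η (2 * i + 1)) / 2) •
    (gen n (Function.update η (2 * i + 1) ζ) β +
      gen n (Function.update η (2 * i + 1) ζ) (U15_b i β))

theorem U15_T_cone (n i : ℕ) (S : ℤ → ℝ) (η β : ℕ → ℕ) (ζ : ℕ) : Cone n (U15_T n i S η β ζ) := by
  unfold U15_T
  refine Cone.smul _ _ ?_ (Cone.add _ _ (Cone.gen _ _) (Cone.gen _ _))
  have h1 := U15_K_nonneg S (η (2 * i)) (η (2 * i + 1))
  have h2 := Real.sqrt_nonneg (S ζ / S (η (2 * i)))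
  positivity

theorem U15_eq (n : ℕ) {δ : ℝ} {S : ℤ → ℝ} (hS : Eig δ S) (i : ℕ) (hi : 1 ≤ i) (hin : i ≤ n)
    (η β : ℕ → ℕ) (hb : 1 ≤ η (2 * i)) (he : η (2 * i + 2) = η (2 * i)) :
    PopE n S 1 (2 * i) (gen n η β) =
      U15_T n i S η β (η (2 * i) - 1) + U15_T n i S η β (η (2 * i) + 1) := by
  classical
  funext s
  have hodd : (hgt n s (2 * i)) % 2 = 1 := by
    rw [hgt_parity]
    push_cast
    omega
  have hstep1 := hgt_succ n s (2 * i)
  have hstep2 := hgt_succ n s (2 * i + 1)
  rw [Pi.add_apply]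
  unfold U15_T
  rw [Pi.smul_apply, Pi.smul_apply, Pi.add_apply, Pi.add_apply,
    U15_gen_upd n (2 * i) (by omega), U15_gen_upd n (2 * i) (by omega),
    U15_gen_upd n (2 * i) (by omega), U15_gen_upd n (2 * i) (by omega), U15_P_b n i hi hin,
    PopE_apply]
  by_cases hA : U15_A n (2 * i) η s
  swap
  · have hz : ∀ p : Prop, ¬ (U15_A n (2 * i) η s ∧ p) := fun p h => hA h.1
    rw [if_neg (hz _), if_neg (hz _), if_neg (hz _), if_neg (hz _), add_zero, smul_zero,
      smul_zero, add_zero]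
    by_cases hs : s (st n (2 * i + 1)) = !(s (st n (2 * i)))
    · rw [if_pos hs, Finset.sum_eq_zero, mul_zero]
      intro x _
      rw [U15_gen_chg n i hi hin η β s x hs, if_neg (hz _), mul_zero, mul_zero]
    · rw [if_neg hs]
  have hb1 : (hgt n s (2 * i)).natAbs = η (2 * i) :=
    hA.2 (2 * i) (Finset.mem_Icc.2 ⟨by omega, by omega⟩) (by omega)
  have hb2 : (hgt n s (2 * i + 2)).natAbs = η (2 * i) := by
    rw [← he]
    exact hA.2 (2 * i + 2) (Finset.mem_Icc.2 ⟨by omega, by omega⟩) (by omega)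
  by_cases hs : s (st n (2 * i + 1)) = !(s (st n (2 * i)))
  · rw [if_pos hs]
    have h22 : hgt n s (2 * i + 2) = hgt n s (2 * i) := by
      rw [show 2 * i + 2 = 2 * i + 1 + 1 by ring, hstep2, hstep1, hs]
      cases s (st n (2 * i)) <;> simp
    have hsign : ((SignType.sign (hgt n s (2 * i)) : ℤ) : ℝ) *
        ((SignType.sign (hgt n s (2 * i + 2)) : ℤ) : ℝ) = 1 := by
      rw [h22]
      rcases Int.lt_or_gt_of_ne (show hgt n s (2 * i) ≠ 0 by omega) with h | h
      · rw [sign_neg h]; simp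
      · rw [sign_pos h]; simp
    rw [hsign, mul_one]
    have hx : ∀ x : Bool, wt S (hgt n s (2 * i)) x *
        ((if x = s (st n (2 * i)) then 1 else 1) * gen n η β (chg n (2 * i) s x)) =
        (wt S (hgt n s (2 * i)) x * (if (hgt n s (2 * i) +
          (if x then 1 else -1)).natAbs = η (2 * i + 1) then (1 : ℝ) else 0)) * U15_P n β s := by
      intro x
      rw [U15_gen_chg n i hi hin η β s x hs, ite_self, one_mul]
      by_cases h : (hgt n s (2 * i) + (if x then 1 else -1)).natAbs = η (2 * i + 1)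
      · rw [if_pos ⟨hA, h⟩, if_pos h, mul_one]
      · rw [if_neg (fun h' => h h'.2), if_neg h]
        simp
    rw [Finset.sum_congr rfl fun x _ => hx x, ← Finset.sum_mul,
      U15_sum hS _ _ _ hb1 hb, U15_wt hS, hb1]
    have hmid : hgt n s (2 * i + 1) = hgt n s (2 * i) +
        (if s (st n (2 * i)) then 1 else -1) := hstep1
    rw [← hmid]
    have h3 : (hgt n s (2 * i + 1)).natAbs = η (2 * i) - 1 ∨
        (hgt n s (2 * i + 1)).natAbs = η (2 * i) + 1 := by
      rw [hmid]
      split_ifs <;> omega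
    rcases h3 with h3 | h3
    · rw [if_pos ⟨hA, h3⟩, if_neg (fun h => by have := h.2; omega), h3]
      simp only [smul_eq_mul]
      ring
    · rw [if_neg (fun h => by have := h.2; omega), if_pos ⟨hA, h3⟩, h3]
      simp only [smul_eq_mul]
      ring
  · rw [if_neg hs]
    have hss : s (st n (2 * i + 1)) = s (st n (2 * i)) := by
      cases h1 : s (st n (2 * i + 1)) <;> cases h2 : s (st n (2 * i)) <;> simp_all
    have hsign : ((SignType.sign (hgt n s (2 * i)) : ℤ) : ℝ) *
        ((SignType.sign (hgt n s (2 * i + 2)) : ℤ) : ℝ) = -1 := by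
      have h22 : hgt n s (2 * i + 2) = hgt n s (2 * i) +
          (if s (st n (2 * i)) then 2 else -2) := by
        rw [show 2 * i + 2 = 2 * i + 1 + 1 by ring, hstep2, hstep1, hss]
        cases s (st n (2 * i)) <;> simp <;> ring
      cases h2 : s (st n (2 * i))
      · rw [h2] at h22
        simp only [Bool.false_eq_true, if_false] at h22
        have e1 : hgt n s (2 * i) = 1 := by omega
        have e2 : hgt n s (2 * i + 2) = -1 := by omega
        rw [e1, e2]
        simp
      · rw [h2] at h22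
        simp only [if_true] at h22
        have e1 : hgt n s (2 * i) = -1 := by omega
        have e2 : hgt n s (2 * i + 2) = 1 := by omega
        rw [e1, e2]
        simp
    rw [hsign]
    split_ifs <;> simp

theorem gen_C_pf (n : ℕ) {δ : ℝ} {S : ℤ → ℝ} (hS : Eig δ S) (i : ℕ) (hi : 1 ≤ i) (hin : i ≤ n)
    (η β : ℕ → ℕ) : Cone n (PopE n S 1 (2 * i) (gen n η β)) := by
  classical
  by_cases hb : 1 ≤ η (2 * i) ∧ η (2 * i + 2) = η (2 * i)
  · rw [U15_eq n hS i hi hin η β hb.1 hb.2]
    exact Cone.add _ _ (U15_T_cone _ _ _ _ _ _) (U15_T_cone _ _ _ _ _ _)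
  · have h0 : PopE n S 1 (2 * i) (gen n η β) = 0 := by
      funext s
      rw [PopE_apply]
      split_ifs with hs
      · rw [Finset.sum_eq_zero]
        · simp
        · intro x _
          have hz : ¬ (U15_A n (2 * i) η s ∧
              (hgt n s (2 * i) + (if x then 1 else -1)).natAbs = η (2 * i + 1)) := by
            rintro ⟨hA, -⟩
            apply hb
            have hodd : (hgt n s (2 * i)) % 2 = 1 := by
              rw [hgt_parity]
              push_cast
              omega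
            have hb1 : (hgt n s (2 * i)).natAbs = η (2 * i) :=
              hA.2 (2 * i) (Finset.mem_Icc.2 ⟨by omega, by omega⟩) (by omega)
            have hb2 : (hgt n s (2 * i + 2)).natAbs = η (2 * i + 2) :=
              hA.2 (2 * i + 2) (Finset.mem_Icc.2 ⟨by omega, by omega⟩) (by omega)
            have hstep1 := hgt_succ n s (2 * i)
            have hstep2 := hgt_succ n s (2 * i + 1)
            have h22 : hgt n s (2 * i + 2) = hgt n s (2 * i) := by
              rw [show 2 * i + 2 = 2 * i + 1 + 1 by ring, hstep2, hstep1, hs]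
              cases s (st n (2 * i)) <;> simp
            rw [h22] at hb2
            omega
          rw [U15_gen_chg n i hi hin η β s x hs, if_neg hz, mul_zero, mul_zero]
      · rfl
    rw [h0]
    exact Cone.zero

end Pool.Agent.H110R3.BP2
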