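import Pool.Agent.H110R3.BP2.Stubs
set_option autoImplicit false
namespace Pool.Agent.H110R3.BP2
open Polynomial Pool.Agent.H207R2.BL Pool.Agent.H110R3.BP

/-- the conditions away from the height `2 i + 1` -/
def U16_P (n i : ℕ) (s : Fin (2 * n + 2) → Bool) : Prop :=
  s (st n 0) = false ∧ ∀ l ∈ Finset.Icc 1 (2 * n + 2), l ≠ 2 * i + 1 →
    (hgt n s l).natAbs = eta0 l

theorem U16_iff (n i : ℕ) (hin : i ≤ n) (η : ℕ → ℕ)
    (hη : ∀ l, l ≠ 2 * i + 1 → η l = eta0 l) (s : Fin (2 * n + 2) → Bool) :
    (s (st n 0) = false ∧ ∀ l ∈ Finset.Icc 1 (2 * n + 2), (hgt n s l).natAbs = η l) ↔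
      (U16_P n i s ∧ (hgt n s (2 * i + 1)).natAbs = η (2 * i + 1)) := by
  constructor
  · rintro ⟨h1, h2⟩
    refine ⟨⟨h1, fun l hl hl2 => ?_⟩, h2 _ (Finset.mem_Icc.2 ⟨by omega, by omega⟩)⟩
    rw [← hη l hl2]
    exact h2 l hl
  · rintro ⟨⟨h1, h2⟩, h3⟩
    refine ⟨h1, fun l hl => ?_⟩
    by_cases hl2 : l = 2 * i + 1
    · rw [hl2]
      exact h3
    · rw [hη l hl2]
      exact h2 l hl hl2

theorem U16_P_chg (n i : ℕ) (hi : 1 ≤ i) (hin : i ≤ n) (s : Fin (2 * n + 2) → Bool) (x : Bool)
    (hs : s (st n (2 * i + 1)) = !(s (st n (2 * i)))) :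
    U16_P n i (chg n (2 * i) s x) ↔ U16_P n i s := by
  have h0 : chg n (2 * i) s x (st n 0) = s (st n 0) :=
    (chg_at n (2 * i) (by omega) s x).2.2 0 (by omega) (by omega) (by omega)
  have h1 : ∀ l ∈ Finset.Icc 1 (2 * n + 2), l ≠ 2 * i + 1 →
      hgt n (chg n (2 * i) s x) l = hgt n s l := by
    intro l hl hl2
    rw [Finset.mem_Icc] at hl
    rcases Nat.lt_or_ge (2 * i + 1) l with h | h
    · exact hgt_chg_ge n (2 * i) (by omega) s x l hs (by omega) hl.2
    · exact hgt_chg_le n (2 * i) (by omega) s x l (by omega)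
  unfold U16_P
  rw [h0]
  constructor
  · rintro ⟨a, b⟩
    exact ⟨a, fun l hl hl2 => by rw [← h1 l hl hl2]; exact b l hl hl2⟩
  · rintro ⟨a, b⟩
    exact ⟨a, fun l hl hl2 => by rw [h1 l hl hl2]; exact b l hl hl2⟩

theorem U16_eta (i : ℕ) (hi : 1 ≤ i) : eta0 (2 * i) = 1 ∧ eta0 (2 * i + 1) = 2 ∧
    eta0 (2 * i + 2) = 1 := by
  refine ⟨?_, ?_, ?_⟩
  · rw [eta0, if_neg (by omega), if_pos (by exact even_two_mul i)]
  · rw [eta0, if_neg (by omega), if_neg (by simp)]
  · rw [eta0, if_neg (by omega), if_pos (by exact ⟨i + 1, by ring⟩)]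

open Classical in
theorem U16_gE (n i : ℕ) (hi : 1 ≤ i) (hin : i ≤ n) (s : Fin (2 * n + 2) → Bool) :
    gE n s = if U16_P n i s ∧ (hgt n s (2 * i + 1)).natAbs = 2 then 1 else 0 := by
  have h := U16_iff n i hin eta0 (fun _ _ => rfl) s
  rw [(U16_eta i hi).2.1] at h
  rw [gE, gen]
  simp only [h, pow_zero, Finset.prod_const_one]

/-- the pattern with the height `2 i + 1` equal to `0` -/
def U16_eta' (i : ℕ) : ℕ → ℕ := Function.update eta0 (2 * i + 1) 0

/-- the two signs -/
def U16_beta (i : ℕ) : ℕ → ℕ := fun k => if k = i - 1 ∨ k = i then 1 else 0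

open Classical in
theorem U16_g0 (n i : ℕ) (hin : i ≤ n) (s : Fin (2 * n + 2) → Bool) :
    gen n (U16_eta' i) (fun _ => 0) s =
      if U16_P n i s ∧ (hgt n s (2 * i + 1)).natAbs = 0 then 1 else 0 := by
  have h := U16_iff n i hin (U16_eta' i) (fun l hl => by
    rw [U16_eta', Function.update_of_ne hl]) s
  rw [show U16_eta' i (2 * i + 1) = 0 by rw [U16_eta', Function.update_self]] at h
  rw [gen]
  simp only [h, pow_zero, Finset.prod_const_one]

open Classical in
theorem U16_g1 (n i : ℕ) (hi : 1 ≤ i) (hin : i ≤ n) (s : Fin (2 * n + 2) → Bool) :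
    gen n (U16_eta' i) (U16_beta i) s =
      if U16_P n i s ∧ (hgt n s (2 * i + 1)).natAbs = 0 then
        ((SignType.sign (hgt n s (2 * i)) : ℤ) : ℝ) *
          ((SignType.sign (hgt n s (2 * i + 2)) : ℤ) : ℝ) else 0 := by
  have h := U16_iff n i hin (U16_eta' i) (fun l hl => by
    rw [U16_eta', Function.update_of_ne hl]) s
  rw [show U16_eta' i (2 * i + 1) = 0 by rw [U16_eta', Function.update_self]] at h
  have hp : ∏ k ∈ Finset.range (n + 1),
      ((SignType.sign (hgt n s (2 * k + 2)) : ℤ) : ℝ) ^ (U16_beta i k) =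
        ((SignType.sign (hgt n s (2 * i)) : ℤ) : ℝ) *
          ((SignType.sign (hgt n s (2 * i + 2)) : ℤ) : ℝ) := by
    have h1 : ∏ k ∈ Finset.range (n + 1),
        ((SignType.sign (hgt n s (2 * k + 2)) : ℤ) : ℝ) ^ (U16_beta i k) =
        ∏ k ∈ ({i - 1, i} : Finset ℕ),
        ((SignType.sign (hgt n s (2 * k + 2)) : ℤ) : ℝ) ^ (U16_beta i k) := by
      symm
      apply Finset.prod_subset
      · intro k hk
        simp only [Finset.mem_insert, Finset.mem_singleton] at hk
        rw [Finset.mem_range]
        omega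
      · intro k _ hk
        simp only [Finset.mem_insert, Finset.mem_singleton] at hk
        rw [U16_beta, if_neg hk, pow_zero]
    rw [h1, Finset.prod_pair (by omega)]
    have h2 : U16_beta i (i - 1) = 1 := by
      rw [U16_beta, if_pos (Or.inl rfl)]
    have h3 : U16_beta i i = 1 := by
      rw [U16_beta, if_pos (Or.inr rfl)]
    rw [h2, h3, pow_one, pow_one, show 2 * (i - 1) + 2 = 2 * i by omega]
  rw [gen, hp]
  simp only [h]

theorem gE_C_pf (n : ℕ) {δ : ℝ} {S : ℤ → ℝ} (hS : Eig δ S) (i : ℕ) (hi : 1 ≤ i) (hin : i ≤ n) :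
    Cone1 n (PopE n S 1 (2 * i) (gE n)) := by
  classical
  set c : ℝ := Real.sqrt (S 2 / S 1) * Real.sqrt (S 0 / S 1) with hc
  have hc0 : 0 ≤ c := mul_nonneg (Real.sqrt_nonneg _) (Real.sqrt_nonneg _)
  have h21 : 0 < S 2 / S 1 := div_pos (hS.pos 2) (hS.pos 1)
  have hm1 : S (-1) = S 1 := hS.even 1
  have hm2 : S (-2) = S 2 := hS.even 2
  refine ⟨S 2 / S 1, (c / 2) • gen n (U16_eta' i) (fun _ => 0) +
    (c / 2) • gen n (U16_eta' i) (U16_beta i), h21,
    Cone.add _ _ (Cone.smul _ _ (by positivity) (Cone.gen _ _))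
      (Cone.smul _ _ (by positivity) (Cone.gen _ _)), ?_⟩
  funext s
  simp only [Pi.add_apply, Pi.smul_apply, smul_eq_mul]
  rw [PopE_apply]
  rw [U16_gE n i hi hin s, U16_g0 n i hin s, U16_g1 n i hi hin s]
  have hh1 := hgt_succ n s (2 * i)
  have hh2 := hgt_succ n s (2 * i + 1)
  rw [show 2 * i + 1 + 1 = 2 * i + 2 by ring] at hh2
  obtain ⟨he1, he2, he3⟩ := U16_eta i hi
  by_cases hP : U16_P n i s
  · have ha1 : (hgt n s (2 * i)).natAbs = 1 := by
      rw [← he1]
      exact hP.2 _ (Finset.mem_Icc.2 ⟨by omega, by omega⟩) (by omega)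
    have ha3 : (hgt n s (2 * i + 2)).natAbs = 1 := by
      rw [← he3]
      exact hP.2 _ (Finset.mem_Icc.2 ⟨by omega, by omega⟩) (by omega)
    by_cases hs : s (st n (2 * i + 1)) = !(s (st n (2 * i)))
    · rw [if_pos hs]
      have hgx : ∀ x : Bool, gE n (chg n (2 * i) s x) =
          if (hgt n s (2 * i) + (if x then 1 else -1)).natAbs = 2 then 1 else 0 := by
        intro x
        rw [U16_gE n i hi hin, U16_P_chg n i hi hin s x hs, hgt_chg_mid n (2 * i) (by omega) s x]
        simp only [hP, true_and]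
      rw [Fintype.sum_bool, hgx, hgx]
      rw [hs] at hh2
      rcases Int.natAbs_eq (hgt n s (2 * i)) with h | h <;> rw [ha1] at h
      · have h' : hgt n s (2 * i) = 1 := by simpa using h
        cases hb : s (st n (2 * i))
        · have e1 : hgt n s (2 * i + 1) = 0 := by
            rw [hh1, hb, h']; simp
          have e2 : hgt n s (2 * i + 2) = 1 := by
            rw [hh2, hb, e1]; simp
          simp only [hP, e1, e2, h']
          have w1 : wt S 1 true = Real.sqrt (S 2 / S 1) := by
            simp only [wt]; norm_num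
          have w2 : wt S 1 false = Real.sqrt (S 0 / S 1) := by
            simp only [wt]; norm_num
          rw [w1, w2]
          norm_num
          rw [hc]
          ring
        · have e1 : hgt n s (2 * i + 1) = 2 := by
            rw [hh1, hb, h']; simp
          have e2 : hgt n s (2 * i + 2) = 1 := by
            rw [hh2, hb, e1]; simp
          simp only [hP, e1, e2, h']
          have w1 : wt S 1 true = Real.sqrt (S 2 / S 1) := by
            simp only [wt]; norm_num
          have w2 : wt S 1 false = Real.sqrt (S 0 / S 1) := by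
            simp only [wt]; norm_num
          rw [w1, w2]
          norm_num
          exact Real.mul_self_sqrt h21.le
      · have h' : hgt n s (2 * i) = -1 := by simpa using h
        have w1 : wt S (-1) false = Real.sqrt (S 2 / S 1) := by
          simp only [wt]; norm_num [hm1, hm2]
        have w2 : wt S (-1) true = Real.sqrt (S 0 / S 1) := by
          simp only [wt]; norm_num [hm1, hm2]
        cases hb : s (st n (2 * i))
        · have e1 : hgt n s (2 * i + 1) = -2 := by
            rw [hh1, hb, h']; simp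
          have e2 : hgt n s (2 * i + 2) = -1 := by
            rw [hh2, hb, e1]; simp
          simp only [hP, e1, e2, h']
          rw [w1, w2]
          norm_num
          exact Real.mul_self_sqrt h21.le
        · have e1 : hgt n s (2 * i + 1) = 0 := by
            rw [hh1, hb, h']; simp
          have e2 : hgt n s (2 * i + 2) = -1 := by
            rw [hh2, hb, e1]; simp
          simp only [hP, e1, e2, h']
          rw [w1, w2]
          norm_num
          rw [hc]
          ring
    · rw [if_neg hs]
      have hs' : s (st n (2 * i + 1)) = s (st n (2 * i)) := by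
        cases h1 : s (st n (2 * i + 1)) <;> cases h2 : s (st n (2 * i)) <;> simp_all
      rw [hs'] at hh2
      rcases Int.natAbs_eq (hgt n s (2 * i)) with h | h <;> rw [ha1] at h
      · have h' : hgt n s (2 * i) = 1 := by simpa using h
        cases hb : s (st n (2 * i))
        · have e1 : hgt n s (2 * i + 1) = 0 := by
            rw [hh1, hb, h']; simp
          have e2 : hgt n s (2 * i + 2) = -1 := by
            rw [hh2, hb, e1]; simp
          simp only [hP, e1, e2, h']
          norm_num
        · exfalso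
          have e1 : hgt n s (2 * i + 1) = 2 := by
            rw [hh1, hb, h']; simp
          have e2 : hgt n s (2 * i + 2) = 3 := by
            rw [hh2, hb, e1]; simp
          rw [e2] at ha3
          exact absurd ha3 (by decide)
      · have h' : hgt n s (2 * i) = -1 := by simpa using h
        cases hb : s (st n (2 * i))
        · exfalso
          have e1 : hgt n s (2 * i + 1) = -2 := by
            rw [hh1, hb, h']; simp
          have e2 : hgt n s (2 * i + 2) = -3 := by
            rw [hh2, hb, e1]; simp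
          rw [e2] at ha3
          exact absurd ha3 (by decide)
        · have e1 : hgt n s (2 * i + 1) = 0 := by
            rw [hh1, hb, h']; simp
          have e2 : hgt n s (2 * i + 2) = 1 := by
            rw [hh2, hb, e1]; simp
          simp only [hP, e1, e2, h']
          norm_num
  · simp only [hP, false_and, if_false, mul_zero, add_zero]
    split_ifs with hs
    · have hgx : ∀ x : Bool, gE n (chg n (2 * i) s x) = 0 := by
        intro x
        rw [U16_gE n i hi hin, U16_P_chg n i hi hin s x hs]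
        simp only [hP, false_and, if_false]
      simp only [hgx, mul_zero, Finset.sum_const_zero]
    · rfl

end Pool.Agent.H110R3.BP2
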