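import Pool.Agent.H110R3.BP2.Stubs

set_option autoImplicit false

namespace Pool.Agent.H110R3.BP2

open Polynomial Pool.Agent.H207R2.BL Pool.Agent.H110R3.BP

/-- real sign of an integer -/
noncomputable def U17_sg (h : ℤ) : ℝ := ((SignType.sign h : ℤ) : ℝ)

theorem U17_sg_pos {h : ℤ} (hh : 0 < h) : U17_sg h = 1 := by
  simp [U17_sg, sign_pos hh]

theorem U17_sg_neg {h : ℤ} (hh : h < 0) : U17_sg h = -1 := by
  simp [U17_sg, sign_neg hh]

/-- the condition on all heights except the height `2i+2` -/
def U17_P (n : ℕ) (η : ℕ → ℕ) (i : ℕ) (s : Fin (2 * n + 2) → Bool) : Prop :=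
  s (st n 0) = false ∧ ∀ l ∈ Finset.Icc 1 (2 * n + 2), l ≠ 2 * i + 2 → (hgt n s l).natAbs = η l

open Classical in
/-- the part of the generating function which does not depend on the height `2i+2` -/
noncomputable def U17_G (n : ℕ) (η β : ℕ → ℕ) (i : ℕ) (s : Fin (2 * n + 2) → Bool) : ℝ :=
  if U17_P n η i s then
    ∏ k ∈ (Finset.range (n + 1)).erase i, (U17_sg (hgt n s (2 * k + 2))) ^ β k else 0

theorem U17_gen (n : ℕ) (η β : ℕ → ℕ) (i : ℕ) (hi : i ≤ n) (s : Fin (2 * n + 2) → Bool) :
    gen n η β s = if (hgt n s (2 * i + 2)).natAbs = η (2 * i + 2) then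
      (U17_sg (hgt n s (2 * i + 2))) ^ β i * U17_G n η β i s else 0 := by
  classical
  have hmem : 2 * i + 2 ∈ Finset.Icc 1 (2 * n + 2) := by
    rw [Finset.mem_Icc]; omega
  unfold gen U17_G
  by_cases hP : U17_P n η i s
  · rw [if_pos hP]
    by_cases hb : (hgt n s (2 * i + 2)).natAbs = η (2 * i + 2)
    · rw [if_pos hb, if_pos]
      · have hmi : i ∈ Finset.range (n + 1) := Finset.mem_range.mpr (by omega)
        rw [← Finset.mul_prod_erase _ _ hmi]
        rfl
      · refine ⟨hP.1, fun l hl => ?_⟩
        by_cases hl2 : l = 2 * i + 2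
        · rw [hl2]; exact hb
        · exact hP.2 l hl hl2
    · rw [if_neg hb, if_neg]
      rintro ⟨_, h2⟩
      exact hb (h2 _ hmem)
  · rw [if_neg hP, if_neg]
    · simp
    · rintro ⟨h1, h2⟩
      exact hP ⟨h1, fun l hl _ => h2 l hl⟩

theorem U17_G_upd (n : ℕ) (η β : ℕ → ℕ) (i ζ z : ℕ) (s : Fin (2 * n + 2) → Bool) :
    U17_G n (Function.update η (2 * i + 2) ζ) (Function.update β i z) i s = U17_G n η β i s := by
  classical
  have h1 : U17_P n (Function.update η (2 * i + 2) ζ) i s ↔ U17_P n η i s := by
    unfold U17_P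
    constructor
    · rintro ⟨a, b⟩
      refine ⟨a, fun l hl hl2 => ?_⟩
      have := b l hl hl2
      rwa [Function.update_of_ne hl2] at this
    · rintro ⟨a, b⟩
      refine ⟨a, fun l hl hl2 => ?_⟩
      rw [Function.update_of_ne hl2]
      exact b l hl hl2
  unfold U17_G
  have h2 : ∏ k ∈ (Finset.range (n + 1)).erase i,
      (U17_sg (hgt n s (2 * k + 2))) ^ (Function.update β i z) k =
      ∏ k ∈ (Finset.range (n + 1)).erase i, (U17_sg (hgt n s (2 * k + 2))) ^ β k := by
    refine Finset.prod_congr rfl (fun k hk => ?_)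
    rw [Function.update_of_ne (Finset.ne_of_mem_erase hk)]
  rw [h2]
  by_cases h : U17_P n η i s
  · rw [if_pos h, if_pos (h1.mpr h)]
  · rw [if_neg h, if_neg (fun h' => h (h1.mp h'))]

theorem U17_G_chg (n : ℕ) (η β : ℕ → ℕ) (i : ℕ) (hi : i < n) (s : Fin (2 * n + 2) → Bool)
    (hs : s (st n (2 * i + 1 + 1)) = !(s (st n (2 * i + 1)))) (x : Bool) :
    U17_G n η β i (chg n (2 * i + 1) s x) = U17_G n η β i s := by
  classical
  have hh : ∀ l, l ≤ 2 * n + 2 → l ≠ 2 * i + 2 →
      hgt n (chg n (2 * i + 1) s x) l = hgt n s l := by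
    intro l hl hl2
    rcases Nat.lt_or_ge l (2 * i + 2) with h | h
    · exact hgt_chg_le n (2 * i + 1) (by omega) s x l (by omega)
    · exact hgt_chg_ge n (2 * i + 1) (by omega) s x l hs (by omega) hl
  have h0 : chg n (2 * i + 1) s x (st n 0) = s (st n 0) :=
    (chg_at n (2 * i + 1) (by omega) s x).2.2 0 (by omega) (by omega) (by omega)
  have h1 : U17_P n η i (chg n (2 * i + 1) s x) ↔ U17_P n η i s := by
    unfold U17_P
    rw [h0]
    constructor
    · rintro ⟨a, b⟩
      refine ⟨a, fun l hl hl2 => ?_⟩
      rw [← hh l (Finset.mem_Icc.mp hl).2 hl2]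
      exact b l hl hl2
    · rintro ⟨a, b⟩
      refine ⟨a, fun l hl hl2 => ?_⟩
      rw [hh l (Finset.mem_Icc.mp hl).2 hl2]
      exact b l hl hl2
  unfold U17_G
  have h2 : ∏ k ∈ (Finset.range (n + 1)).erase i,
      (U17_sg (hgt n (chg n (2 * i + 1) s x) (2 * k + 2))) ^ β k =
      ∏ k ∈ (Finset.range (n + 1)).erase i, (U17_sg (hgt n s (2 * k + 2))) ^ β k := by
    refine Finset.prod_congr rfl (fun k hk => ?_)
    have hk1 := Finset.ne_of_mem_erase hk
    have hk2 := Finset.mem_range.mp (Finset.mem_of_mem_erase hk)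
    rw [hh (2 * k + 2) (by omega) (by omega)]
  rw [h2]
  by_cases h : U17_P n η i s
  · rw [if_pos h, if_pos (h1.mpr h)]
  · rw [if_neg h, if_neg (fun h' => h (h1.mp h'))]

theorem U17_PopE (n : ℕ) (S : ℤ → ℝ) (i : ℕ) (hi : i < n) (η β : ℕ → ℕ)
    (s : Fin (2 * n + 2) → Bool) :
    PopE n S 1 (2 * i + 1) (gen n η β) s =
      if s (st n (2 * i + 1 + 1)) = !(s (st n (2 * i + 1))) then
        wt S (hgt n s (2 * i + 1)) (s (st n (2 * i + 1))) *
        (∑ x : Bool, wt S (hgt n s (2 * i + 1)) x *
          (if (hgt n s (2 * i + 1) + (if x then 1 else -1)).natAbs = η (2 * i + 2) then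
            (U17_sg (hgt n s (2 * i + 1) + (if x then 1 else -1))) ^ β i else 0)) *
          U17_G n η β i s
      else 0 := by
  rw [PopE_apply]
  by_cases hs : s (st n (2 * i + 1 + 1)) = !(s (st n (2 * i + 1)))
  · rw [if_pos hs, if_pos hs, mul_assoc]
    congr 1
    rw [Finset.sum_mul]
    refine Finset.sum_congr rfl (fun x _ => ?_)
    rw [U17_gen n η β i hi.le, U17_G_chg n η β i hi s hs x]
    have hm := hgt_chg_mid n (2 * i + 1) (by omega) s x
    have e : 2 * i + 1 + 1 = 2 * i + 2 := rfl
    rw [e] at hm
    rw [hm]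
    simp only [ite_self, one_mul]
    split_ifs <;> simp [mul_assoc]
  · rw [if_neg hs, if_neg hs]

theorem U17_wt {δ : ℝ} {S : ℤ → ℝ} (hS : Eig δ S) (h : ℤ) (x : Bool) :
    wt S h x = Real.sqrt (S (((h + (if x then 1 else -1)).natAbs : ℕ) : ℤ) /
      S ((h.natAbs : ℕ) : ℤ)) := by
  unfold wt
  rw [← hS.natAbs, ← hS.natAbs]
  cases x <;> simp [sub_eq_add_neg]

theorem U17_notP {n : ℕ} {η β : ℕ → ℕ} {i : ℕ} {s : Fin (2 * n + 2) → Bool}
    (h : ¬ U17_P n η i s) : U17_G n η β i s = 0 := by
  classical
  unfold U17_G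
  rw [if_neg h]

theorem gen_J_pf (n : ℕ) {δ : ℝ} {S : ℤ → ℝ} (hS : Eig δ S) (hδ : 0 < δ) (i : ℕ) (hin : i < n)
    (η β : ℕ → ℕ) : Cone n (PopE n S 1 (2 * i + 1) (gen n η β)) := by
  classical
  -- heights at `2i+1`, `2i+2`, `2i+3`
  have hm1 : ∀ s, U17_P n η i s → (hgt n s (2 * i + 1)).natAbs = η (2 * i + 1) := fun s h =>
    h.2 _ (Finset.mem_Icc.mpr ⟨by omega, by omega⟩) (by omega)
  have hm3 : ∀ s, U17_P n η i s → (hgt n s (2 * i + 3)).natAbs = η (2 * i + 3) := fun s h =>
    h.2 _ (Finset.mem_Icc.mpr ⟨by omega, by omega⟩) (by omega)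
  have hs2 : ∀ s, hgt n s (2 * i + 2) = hgt n s (2 * i + 1) +
      (if s (st n (2 * i + 1)) then 1 else -1) := fun s => hgt_succ n s (2 * i + 1)
  have hs3 : ∀ s, hgt n s (2 * i + 3) = hgt n s (2 * i + 2) +
      (if s (st n (2 * i + 1 + 1)) then 1 else -1) := fun s => hgt_succ n s (2 * i + 2)
  have hpar : ∀ s, (hgt n s (2 * i + 1)) % 2 = 0 := fun s => by
    have := hgt_parity n s (2 * i + 1)
    rw [this]
    push_cast
    omega
  have h13 : ∀ s : Fin (2 * n + 2) → Bool,
      s (st n (2 * i + 1 + 1)) = !(s (st n (2 * i + 1))) →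
      hgt n s (2 * i + 3) = hgt n s (2 * i + 1) := by
    intro s h
    rw [hs3, hs2, h]
    cases s (st n (2 * i + 1)) <;> simp
  -- opposite steps
  have hopp : ∀ s, U17_P n η i s → η (2 * i + 1) = η (2 * i + 3) →
      s (st n (2 * i + 1 + 1)) = !(s (st n (2 * i + 1))) := by
    intro s hP he
    have a1 := hm1 s hP
    have a3 := hm3 s hP
    have a2 := hs2 s
    have a4 := hs3 s
    have ap := hpar s
    rw [← he] at a3
    revert a2 a4
    cases s (st n (2 * i + 1)) <;> cases s (st n (2 * i + 1 + 1)) <;> intro a2 a4 <;>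
      simp at a2 a4 ⊢ <;> omega
  by_cases he : η (2 * i + 1) = η (2 * i + 3)
  swap
  · have : PopE n S 1 (2 * i + 1) (gen n η β) = 0 := by
      ext s
      rw [U17_PopE n S i hin η β s]
      simp only [Pi.zero_apply]
      split_ifs with hs
      · rw [U17_notP, mul_zero]
        intro hP
        exact he (by rw [← hm1 s hP, ← hm3 s hP, h13 s hs])
      · rfl
    rw [this]
    exact Cone.zero
  set a := η (2 * i + 1) with ha
  set b := η (2 * i + 2) with hb
  rcases Nat.eq_zero_or_pos a with ha0 | ha0
  · -- height zero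
    by_cases hb1 : b = 1
    · have : PopE n S 1 (2 * i + 1) (gen n η β) =
          ((S 1 / S 0) * (1 + (-1) ^ β i)) • gen n η (Function.update β i 0) := by
        ext s
        rw [U17_PopE n S i hin η β s]
        simp only [Pi.smul_apply, smul_eq_mul]
        rw [U17_gen n η (Function.update β i 0) i hin.le]
        have hG : U17_G n η (Function.update β i 0) i s = U17_G n η β i s := by
          have := U17_G_upd n η β i (η (2 * i + 2)) 0 s
          rwa [Function.update_eq_self] at this
        rw [hG]
        by_cases hP : U17_P n η i s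
        · have hs := hopp s hP he
          rw [if_pos hs]
          have h0 : hgt n s (2 * i + 1) = 0 := by
            have := hm1 s hP
            omega
          have h1 : (hgt n s (2 * i + 2)).natAbs = η (2 * i + 2) := by
            rw [← hb, hb1, hs2 s, h0]
            cases s (st n (2 * i + 1)) <;> simp
          rw [if_pos h1, h0]
          simp only [Fintype.sum_bool, ← hb, hb1, Function.update_self, pow_zero, one_mul, if_true,
            Bool.false_eq_true, if_false]
          have w : ∀ x : Bool, wt S 0 x = Real.sqrt (S 1 / S 0) := by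
            intro x
            rw [U17_wt hS]
            cases x <;> simp
          rw [w, w, w]
          have p1 : U17_sg (0 + 1) = 1 :=
            U17_sg_pos (by simp)
          have p2 : U17_sg (0 + -1) = -1 :=
            U17_sg_neg (by simp)
          rw [p1, p2]
          have hsq : Real.sqrt (S 1 / S 0) * Real.sqrt (S 1 / S 0) = S 1 / S 0 :=
            Real.mul_self_sqrt (div_nonneg (hS.pos 1).le (hS.pos 0).le)
          simp only [one_pow]
          have n1 : ((0 : ℤ) + 1).natAbs = 1 := by simp
          have n2 : ((0 : ℤ) + -1).natAbs = 1 := by simp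
          rw [if_pos n1, if_pos n2]
          have hfin : ∀ x y z w : ℝ, x * x = y → x * (x * 1 + x * z) * w = y * (1 + z) * w := by
            intro x y z w h
            rw [← h]; ring
          exact hfin _ _ _ _ hsq
        · rw [U17_notP hP]
          simp
      rw [this]
      refine Cone.smul _ _ ?_ (Cone.gen _ _)
      refine mul_nonneg (div_nonneg (hS.pos 1).le (hS.pos 0).le) ?_
      rcases neg_one_pow_eq_or ℝ (β i) with h | h <;> rw [h] <;> norm_num
    · have : PopE n S 1 (2 * i + 1) (gen n η β) = 0 := by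
        ext s
        rw [U17_PopE n S i hin η β s]
        simp only [Pi.zero_apply]
        split_ifs with hs
        · by_cases hP : U17_P n η i s
          · have h0 : hgt n s (2 * i + 1) = 0 := by
              have := hm1 s hP
              omega
            rw [h0, ← hb]
            have n1 : ((0 : ℤ) + 1).natAbs = 1 := by simp
            have n2 : ((0 : ℤ) + -1).natAbs = 1 := by simp
            simp only [Fintype.sum_bool, if_true, Bool.false_eq_true, if_false]
            rw [n1, n2]
            rw [if_neg (Ne.symm hb1), if_neg (Ne.symm hb1)]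
            simp
          · rw [U17_notP hP, mul_zero]
        · rfl
      rw [this]
      exact Cone.zero
  · -- positive height
    set c : ℕ → ℝ := fun ζ => Real.sqrt (S ((ζ : ℕ) : ℤ) / S ((a : ℕ) : ℤ)) with hc
    set K : ℝ := if b = a + 1 ∨ b + 1 = a then 1 else 0 with hK
    have hK0 : 0 ≤ K := by rw [hK]; split_ifs <;> norm_num
    have hc0 : ∀ ζ, 0 ≤ c ζ := fun ζ => Real.sqrt_nonneg _
    have : PopE n S 1 (2 * i + 1) (gen n η β) =
        (c (a + 1) * c b * K) • gen n (Function.update η (2 * i + 2) (a + 1)) β +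
        (c (a - 1) * c b * K) • gen n (Function.update η (2 * i + 2) (a - 1)) β := by
      ext s
      rw [U17_PopE n S i hin η β s]
      simp only [Pi.add_apply, Pi.smul_apply, smul_eq_mul]
      rw [U17_gen n _ β i hin.le, U17_gen n _ β i hin.le]
      have hG : ∀ ζ, U17_G n (Function.update η (2 * i + 2) ζ) β i s = U17_G n η β i s := by
        intro ζ
        have := U17_G_upd n η β i ζ (β i) s
        rwa [Function.update_eq_self] at this
      rw [hG, hG]
      simp only [Function.update_self]
      by_cases hP : U17_P n η i s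
      · have hs := hopp s hP he
        rw [if_pos hs]
        have h1 := hm1 s hP
        have hev := hpar s
        have ha2 : 2 ≤ a := by omega
        have hw : ∀ x : Bool, wt S (hgt n s (2 * i + 1)) x =
            c ((hgt n s (2 * i + 1) + (if x then 1 else -1)).natAbs) := by
          intro x
          rw [U17_wt hS, h1]
        rw [hs2 s, ← hb]
        rw [hw (s (st n (2 * i + 1)))]
        simp only [Fintype.sum_bool, hw, if_true, Bool.false_eq_true, if_false]
        rcases Int.natAbs_eq (hgt n s (2 * i + 1)) with hh | hh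
        · rw [h1] at hh
          rw [hh]
          have n1 : ((a : ℤ) + 1).natAbs = a + 1 := by
            omega
          have n2 : ((a : ℤ) + -1).natAbs = a - 1 := by
            omega
          have p1 : U17_sg ((a : ℤ) + 1) = 1 :=
            U17_sg_pos (by omega)
          have p2 : U17_sg ((a : ℤ) + -1) = 1 :=
            U17_sg_pos (by omega)
          have e1 : (c (a + 1) * (if a + 1 = b then (1 : ℝ) ^ β i else 0) +
              c (a - 1) * (if a - 1 = b then (1 : ℝ) ^ β i else 0)) = c b * K := by
            rw [hK]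
            by_cases q1 : a + 1 = b
            · rw [if_pos q1, if_neg (by omega), if_pos (by omega), q1]; simp
            · by_cases q2 : a - 1 = b
              · rw [if_neg q1, if_pos q2, if_pos (by omega), q2]; simp
              · rw [if_neg q1, if_neg q2, if_neg (by omega)]; simp
          rw [p1, p2, n1, n2, e1]
          cases s (st n (2 * i + 1)) <;> simp only [if_true, Bool.false_eq_true, if_false]
          · rw [n2, p2, if_neg (by omega), if_pos rfl]
            simp only [one_pow]
            ring
          · rw [n1, p1, if_pos rfl, if_neg (by omega)]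
            simp only [one_pow]
            ring
        · rw [h1] at hh
          rw [hh]
          have n1 : (-(a : ℤ) + 1).natAbs = a - 1 := by
            omega
          have n2 : (-(a : ℤ) + -1).natAbs = a + 1 := by
            omega
          have p1 : U17_sg (-(a : ℤ) + 1) = -1 :=
            U17_sg_neg (by omega)
          have p2 : U17_sg (-(a : ℤ) + -1) = -1 :=
            U17_sg_neg (by omega)
          have e1 : (c (a - 1) * (if a - 1 = b then (-1 : ℝ) ^ β i else 0) +
              c (a + 1) * (if a + 1 = b then (-1 : ℝ) ^ β i else 0)) = c b * K * (-1) ^ β i := by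
            rw [hK]
            by_cases q1 : a + 1 = b
            · rw [if_pos q1, if_neg (by omega), if_pos (by omega), q1]; simp
            · by_cases q2 : a - 1 = b
              · rw [if_neg q1, if_pos q2, if_pos (by omega), q2]; simp
              · rw [if_neg q1, if_neg q2, if_neg (by omega)]; simp
          rw [p1, p2, n1, n2, e1]
          cases s (st n (2 * i + 1)) <;> simp only [if_true, Bool.false_eq_true, if_false]
          · rw [n2, p2, if_pos rfl, if_neg (by omega)]
            ring
          · rw [n1, p1, if_neg (by omega), if_pos rfl]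
            ring
      · rw [U17_notP hP]
        simp
    rw [this]
    refine Cone.add _ _ (Cone.smul _ _ ?_ (Cone.gen _ _)) (Cone.smul _ _ ?_ (Cone.gen _ _))
    · exact mul_nonneg (mul_nonneg (hc0 _) (hc0 _)) hK0
    · exact mul_nonneg (mul_nonneg (hc0 _) (hc0 _)) hK0

end Pool.Agent.H110R3.BP2
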