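import Pool.Agent.H110R3.BP2.Stubs
set_option autoImplicit false
namespace Pool.Agent.H110R3.BP2
open Polynomial Pool.Agent.H207R2.BL Pool.Agent.H110R3.BP

/-- all heights but the one at `j + 1` are those of the special pattern -/
def U18_R (n j : ℕ) (s : Fin (2 * n + 2) → Bool) : Prop :=
  s (st n 0) = false ∧ ∀ l, 1 ≤ l → l ≤ 2 * n + 2 → l ≠ j + 1 → (hgt n s l).natAbs = eta0 l

theorem U18_iff (n j v : ℕ) (hj : j ≤ 2 * n) (s : Fin (2 * n + 2) → Bool) :
    (s (st n 0) = false ∧ ∀ l ∈ Finset.Icc 1 (2 * n + 2),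
      (hgt n s l).natAbs = Function.update eta0 (j + 1) v l) ↔
    (U18_R n j s ∧ (hgt n s (j + 1)).natAbs = v) := by
  constructor
  · rintro ⟨h0, h⟩
    refine ⟨⟨h0, fun l h1 h2 h3 => ?_⟩, ?_⟩
    · have := h l (Finset.mem_Icc.2 ⟨h1, h2⟩)
      rwa [Function.update_of_ne h3] at this
    · have := h (j + 1) (Finset.mem_Icc.2 ⟨by omega, by omega⟩)
      rwa [Function.update_self] at this
  · rintro ⟨⟨h0, h⟩, hv⟩
    refine ⟨h0, fun l hl => ?_⟩
    rw [Finset.mem_Icc] at hl
    by_cases h3 : l = j + 1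
    · rw [h3, Function.update_self, hv]
    · rw [Function.update_of_ne h3, h l hl.1 hl.2 h3]

theorem U18_one (n j v : ℕ) (hj : j ≤ 2 * n) (s : Fin (2 * n + 2) → Bool)
    (h : U18_R n j s ∧ (hgt n s (j + 1)).natAbs = v) :
    gen n (Function.update eta0 (j + 1) v) (fun _ => 0) s = 1 := by
  unfold gen
  rw [if_pos ((U18_iff n j v hj s).2 h)]
  simp

theorem U18_zero (n j v : ℕ) (hj : j ≤ 2 * n) (s : Fin (2 * n + 2) → Bool)
    (h : ¬ (U18_R n j s ∧ (hgt n s (j + 1)).natAbs = v)) :
    gen n (Function.update eta0 (j + 1) v) (fun _ => 0) s = 0 := by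
  unfold gen
  rw [if_neg (fun h' => h ((U18_iff n j v hj s).1 h'))]

theorem U18_chg (n j : ℕ) (h1 : 1 ≤ j) (hj : j ≤ 2 * n) (s : Fin (2 * n + 2) → Bool) (x : Bool)
    (hs : s (st n (j + 1)) = !(s (st n j))) : U18_R n j (chg n j s x) ↔ U18_R n j s := by
  have e0 : chg n j s x (st n 0) = s (st n 0) :=
    (chg_at n j hj s x).2.2 0 (by omega) (by omega) (by omega)
  have e1 : ∀ l, l ≤ 2 * n + 2 → l ≠ j + 1 → hgt n (chg n j s x) l = hgt n s l := by
    intro l hl hne
    rcases Nat.lt_or_ge j l with h | h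
    · exact hgt_chg_ge n j hj s x l hs (by omega) hl
    · exact hgt_chg_le n j hj s x l h
  unfold U18_R
  rw [e0]
  constructor
  · rintro ⟨a, b⟩
    exact ⟨a, fun l c d e => by rw [← e1 l d e]; exact b l c d e⟩
  · rintro ⟨a, b⟩
    exact ⟨a, fun l c d e => by rw [e1 l d e]; exact b l c d e⟩

theorem gE_J_pf (n : ℕ) {δ : ℝ} {S : ℤ → ℝ} (hS : Eig δ S) (hδ : 0 < δ) (i : ℕ) (hi : 1 ≤ i)
    (hin : i < n) : Cone1 n (PopE n S 1 (2 * i + 1) (gE n)) := by
  have hj : 2 * i + 1 ≤ 2 * n := by omega
  have p1 := hS.pos 1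
  have p2 := hS.pos 2
  have p3 := hS.pos 3
  have m1 : S (-1) = S 1 := hS.even 1
  have m2 : S (-2) = S 2 := hS.even 2
  have m3 : S (-3) = S 3 := hS.even 3
  set j := 2 * i + 1 with hjdef
  have et1 : eta0 (j + 1) = 1 := by
    unfold eta0
    rw [if_neg (by omega), if_pos ⟨i + 1, by omega⟩]
  have et0 : eta0 j = 2 := by
    unfold eta0
    rw [if_neg (by omega), if_neg (by rw [Nat.not_even_iff_odd]; exact ⟨i, by omega⟩)]
  have et2 : eta0 (j + 2) = 2 := by
    unfold eta0
    rw [if_neg (by omega), if_neg (by rw [Nat.not_even_iff_odd]; exact ⟨i + 1, by omega⟩)]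
  have hgE : gE n = gen n (Function.update eta0 (j + 1) 1) (fun _ => 0) := by
    have h := Function.update_eq_self (j + 1) eta0
    rw [et1] at h
    unfold gE
    rw [h]
  refine ⟨S 1 / S 2, (Real.sqrt (S 3 / S 2) * Real.sqrt (S 1 / S 2)) •
    gen n (Function.update eta0 (j + 1) 3) (fun _ => 0), by positivity,
    Cone.smul _ _ (by positivity) (Cone.gen _ _), ?_⟩
  rw [hgE]
  funext s
  rw [PopE_apply, Pi.add_apply, Pi.smul_apply, Pi.smul_apply, smul_eq_mul, smul_eq_mul]
  by_cases hR : U18_R n j s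
  · have a0 := hR.2 j (by omega) (by omega) (by omega)
    have a2 := hR.2 (j + 2) (by omega) (by omega) (by omega)
    rw [et0] at a0
    rw [et2] at a2
    have s1 := hgt_succ n s j
    have s2 : hgt n s (j + 2) = hgt n s (j + 1) + (if s (st n (j + 1)) then 1 else -1) :=
      hgt_succ n s (j + 1)
    have hs : s (st n (j + 1)) = !(s (st n j)) := by
      by_contra hne
      have hs' : s (st n (j + 1)) = s (st n j) := by
        revert hne
        cases s (st n j) <;> cases s (st n (j + 1)) <;> simp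
      rw [hs', s1] at s2
      split_ifs at s2 <;> omega
    rw [if_pos hs, Fintype.sum_bool]
    have c1 : ∀ x : Bool, hgt n (chg n j s x) (j + 1) = hgt n s j + (if x then 1 else -1) :=
      hgt_chg_mid n j hj s
    have c2 : ∀ x : Bool, U18_R n j (chg n j s x) := fun x =>
      (U18_chg n j (by omega) hj s x hs).2 hR
    have h2 : hgt n s j = 2 ∨ hgt n s j = -2 := by omega
    rcases h2 with h2 | h2
    · have t1 : gen n (Function.update eta0 (j + 1) 1) (fun _ => 0) (chg n j s true) = 0 := by
        apply U18_zero n j 1 hj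
        rintro ⟨-, h⟩
        rw [c1, h2] at h
        simp at h
      have t2 : gen n (Function.update eta0 (j + 1) 1) (fun _ => 0) (chg n j s false) = 1 := by
        apply U18_one n j 1 hj
        refine ⟨c2 false, ?_⟩
        rw [c1, h2]
        simp
      rw [t1, t2, h2]
      cases hx : s (st n j)
      · have q1 : hgt n s (j + 1) = 1 := by rw [s1, hx, h2]; simp
        rw [U18_one n j 1 hj s ⟨hR, by rw [q1]; rfl⟩,
          U18_zero n j 3 hj s (fun h => by rw [q1] at h; simp at h)]
        simp only [wt, Bool.false_eq_true, if_false, ite_self, mul_zero, zero_add, mul_one,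
          add_zero]
        norm_num
        exact Real.mul_self_sqrt (by positivity)
      · have q1 : hgt n s (j + 1) = 3 := by rw [s1, hx, h2]; simp
        rw [U18_zero n j 1 hj s (fun h => by rw [q1] at h; simp at h),
          U18_one n j 3 hj s ⟨hR, by rw [q1]; rfl⟩]
        simp only [wt, if_true, ite_self, mul_zero, zero_add, mul_one, Bool.false_eq_true,
          if_false]
        norm_num
    · have t1 : gen n (Function.update eta0 (j + 1) 1) (fun _ => 0) (chg n j s true) = 1 := by
        apply U18_one n j 1 hj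
        refine ⟨c2 true, ?_⟩
        rw [c1, h2]
        simp
      have t2 : gen n (Function.update eta0 (j + 1) 1) (fun _ => 0) (chg n j s false) = 0 := by
        apply U18_zero n j 1 hj
        rintro ⟨-, h⟩
        rw [c1, h2] at h
        simp at h
      rw [t1, t2, h2]
      cases hx : s (st n j)
      · have q1 : hgt n s (j + 1) = -3 := by rw [s1, hx, h2]; simp
        rw [U18_zero n j 1 hj s (fun h => by rw [q1] at h; simp at h),
          U18_one n j 3 hj s ⟨hR, by rw [q1]; rfl⟩]
        simp only [wt, if_true, ite_self, mul_zero, add_zero, mul_one, Bool.false_eq_true,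
          if_false]
        norm_num [m1, m2, m3]
      · have q1 : hgt n s (j + 1) = -1 := by rw [s1, hx, h2]; simp
        rw [U18_one n j 1 hj s ⟨hR, by rw [q1]; rfl⟩,
          U18_zero n j 3 hj s (fun h => by rw [q1] at h; simp at h)]
        simp only [wt, if_true, ite_self, mul_zero, add_zero, mul_one]
        norm_num [m1, m2, m3]
        exact Real.mul_self_sqrt (by positivity)
  · rw [U18_zero n j 1 hj s (fun h => hR h.1), U18_zero n j 3 hj s (fun h => hR h.1)]
    by_cases hs : s (st n (j + 1)) = !(s (st n j))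
    · rw [if_pos hs]
      have c2 : ∀ x : Bool, ¬ U18_R n j (chg n j s x) := fun x h =>
        hR ((U18_chg n j (by omega) hj s x hs).1 h)
      rw [Fintype.sum_bool, U18_zero n j 1 hj _ (fun h => c2 true h.1),
        U18_zero n j 1 hj _ (fun h => c2 false h.1)]
      simp
    · rw [if_neg hs]
      simp

end Pool.Agent.H110R3.BP2
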