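import Pool.Agent.H110R3.BP2.Stubs
set_option autoImplicit false
namespace Pool.Agent.H110R3.BP2
open Polynomial Pool.Agent.H207R2.BL Pool.Agent.H110R3.BP

/-- the conditions on the heights other than the height `j+1` -/
def gen_X_Q (n j : ℕ) (η : ℕ → ℕ) (s : Fin (2 * n + 2) → Bool) : Prop :=
  s (st n 0) = false ∧ ∀ l ∈ Finset.Icc 1 (2 * n + 2), l ≠ j + 1 → (hgt n s l).natAbs = η l

/-- the product of the signs of the other heights -/
noncomputable def gen_X_R (n i : ℕ) (β : ℕ → ℕ) (s : Fin (2 * n + 2) → Bool) : ℝ :=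
  ∏ r ∈ (Finset.range (n + 1)).erase i, ((SignType.sign (hgt n s (2 * r + 2)) : ℤ) : ℝ) ^ β r

theorem gen_X_pos {n i : ℕ} (hin : i < n) {η β : ℕ → ℕ} {s : Fin (2 * n + 2) → Bool}
    (hQ : gen_X_Q n (2 * i + 1) η s) (hc : (hgt n s (2 * i + 2)).natAbs = η (2 * i + 2)) :
    gen n η β s =
      gen_X_R n i β s * ((SignType.sign (hgt n s (2 * i + 2)) : ℤ) : ℝ) ^ β i := by
  unfold gen
  rw [if_pos]
  · unfold gen_X_R
    rw [Finset.prod_erase_mul (Finset.range (n + 1))
      (fun r => ((SignType.sign (hgt n s (2 * r + 2)) : ℤ) : ℝ) ^ β r)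
      (Finset.mem_range.2 (by omega))]
  · refine ⟨hQ.1, fun l hl => ?_⟩
    by_cases h : l = 2 * i + 2
    · rw [h]; exact hc
    · exact hQ.2 l hl h

theorem gen_X_zero1 {n i : ℕ} {η β : ℕ → ℕ} {s : Fin (2 * n + 2) → Bool}
    (hQ : ¬ gen_X_Q n (2 * i + 1) η s) : gen n η β s = 0 := by
  unfold gen
  rw [if_neg]
  exact fun h => hQ ⟨h.1, fun l hl _ => h.2 l hl⟩

theorem gen_X_zero2 {n i : ℕ} (hin : i < n) {η β : ℕ → ℕ} {s : Fin (2 * n + 2) → Bool}
    (hc : (hgt n s (2 * i + 2)).natAbs ≠ η (2 * i + 2)) : gen n η β s = 0 := by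
  unfold gen
  rw [if_neg]
  exact fun h => hc (h.2 (2 * i + 2) (Finset.mem_Icc.2 ⟨by omega, by omega⟩))

section chgs

variable {n i : ℕ} (hin : i < n) {s : Fin (2 * n + 2) → Bool}
  (hs : s (st n (2 * i + 1 + 1)) = !(s (st n (2 * i + 1)))) (x : Bool)

include hin hs

theorem gen_X_hl (l : ℕ) (hl : l ≤ 2 * n + 2) (hne : l ≠ 2 * i + 1 + 1) :
    hgt n (chg n (2 * i + 1) s x) l = hgt n s l := by
  rcases Nat.lt_or_ge l (2 * i + 1 + 1) with h | h
  · exact hgt_chg_le n (2 * i + 1) (by omega) s x l (by omega)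
  · exact hgt_chg_ge n (2 * i + 1) (by omega) s x l hs (by omega) hl

theorem gen_X_Qc (η : ℕ → ℕ) :
    gen_X_Q n (2 * i + 1) η (chg n (2 * i + 1) s x) ↔ gen_X_Q n (2 * i + 1) η s := by
  have h0 : (chg n (2 * i + 1) s x) (st n 0) = s (st n 0) :=
    (chg_at n (2 * i + 1) (by omega) s x).2.2 0 (by omega) (by omega) (by omega)
  unfold gen_X_Q
  rw [h0]
  refine and_congr Iff.rfl (forall₂_congr fun l hl => ?_)
  refine forall_congr' fun hne => ?_
  rw [gen_X_hl hin hs x l (Finset.mem_Icc.1 hl).2 hne]

theorem gen_X_Rc (β : ℕ → ℕ) :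
    gen_X_R n i β (chg n (2 * i + 1) s x) = gen_X_R n i β s := by
  unfold gen_X_R
  refine Finset.prod_congr rfl fun r hr => ?_
  rw [Finset.mem_erase, Finset.mem_range] at hr
  rw [gen_X_hl hin hs x (2 * r + 2) (by omega) (by omega)]

end chgs

theorem gen_X_wt {δ : ℝ} {S : ℤ → ℝ} (hS : Eig δ S) (H : ℤ) (x : Bool) :
    wt S H x = Real.sqrt (S (((H + (if x then 1 else -1)).natAbs : ℕ) : ℤ) /
      S ((H.natAbs : ℕ) : ℤ)) := by
  unfold wt
  rw [← Eig.natAbs hS, ← Eig.natAbs hS]
  cases x
  · simp [sub_eq_add_neg]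
  · simp

theorem gen_X_upd (n i : ℕ) (η : ℕ → ℕ) (c' : ℕ) (s : Fin (2 * n + 2) → Bool) :
    gen_X_Q n (2 * i + 1) (Function.update η (2 * i + 2) c') s ↔ gen_X_Q n (2 * i + 1) η s := by
  unfold gen_X_Q
  refine and_congr Iff.rfl (forall₂_congr fun l hl => ?_)
  refine forall_congr' fun hne => ?_
  rw [Function.update_of_ne hne]

/-- R3 -/
theorem gen_X_pf (n : ℕ) {δ : ℝ} {S : ℤ → ℝ} (hS : Eig δ S) (hδ : 0 < δ) (i : ℕ) (hin : i < n)
    (η β : ℕ → ℕ) :
    Cone n (gen n η β - δ⁻¹ • PopE n S (-1) (2 * i + 1) (gen n η β)) := by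
  classical
  -- the function vanishes
  have hzero : (∀ s, gen n η β s = 0) →
      Cone n (gen n η β - δ⁻¹ • PopE n S (-1) (2 * i + 1) (gen n η β)) := by
    intro h
    have h0 : gen n η β = 0 := funext h
    rw [h0, map_zero, smul_zero, sub_zero]
    exact Cone.zero
  have hs1 : ∀ s : Fin (2 * n + 2) → Bool, hgt n s (2 * i + 2) =
      hgt n s (2 * i + 1) + (if s (st n (2 * i + 1)) then 1 else -1) :=
    fun s => hgt_succ n s (2 * i + 1)
  have hs2 : ∀ s : Fin (2 * n + 2) → Bool, hgt n s (2 * i + 3) =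
      hgt n s (2 * i + 2) + (if s (st n (2 * i + 1 + 1)) then 1 else -1) :=
    fun s => hgt_succ n s (2 * i + 2)
  have q1 : ∀ s, gen_X_Q n (2 * i + 1) η s → (hgt n s (2 * i + 1)).natAbs = η (2 * i + 1) :=
    fun s hQ => hQ.2 (2 * i + 1) (Finset.mem_Icc.2 ⟨by omega, by omega⟩) (by omega)
  have q3 : ∀ s, gen_X_Q n (2 * i + 1) η s → (hgt n s (2 * i + 3)).natAbs = η (2 * i + 3) :=
    fun s hQ => hQ.2 (2 * i + 3) (Finset.mem_Icc.2 ⟨by omega, by omega⟩) (by omega)
  by_cases h1 : η (2 * i + 3) = η (2 * i + 1)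
  swap
  · -- the generator acts as zero
    have h0 : PopE n S (-1) (2 * i + 1) (gen n η β) = 0 := by
      funext s
      rw [PopE_apply]
      split_ifs with hv
      · have hQ : ¬ gen_X_Q n (2 * i + 1) η s := by
          intro hQ
          have e1 := q1 s hQ
          have e3 := q3 s hQ
          have e4 := hs1 s
          have e5 := hs2 s
          apply h1
          rw [← e1, ← e3, e5, e4, hv]
          cases s (st n (2 * i + 1)) <;> simp
        have hx : ∀ x, gen n η β (chg n (2 * i + 1) s x) = 0 := fun x =>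
          gen_X_zero1 (i := i) (fun h => hQ ((gen_X_Qc hin hv x η).1 h))
        simp [hx]
      · rfl
    rw [h0, smul_zero, sub_zero]
    exact Cone.gen η β
  by_cases h2 : η (2 * i + 1) = 0
  · -- height zero
    have hS1 : S 1 / S 0 = δ / 2 := by
      have e1 := hS.recur 0
      have e2 := hS.even 1
      have e3 := hS.pos 0
      rw [zero_add, zero_sub, e2] at e1
      rw [div_eq_div_iff e3.ne' two_ne_zero]
      linarith
    have hw : ∀ x, wt S 0 x = Real.sqrt (S 1 / S 0) := by
      intro x
      rw [gen_X_wt hS]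
      cases x <;> simp
    have hww : Real.sqrt (S 1 / S 0) * Real.sqrt (S 1 / S 0) = δ / 2 := by
      rw [Real.mul_self_sqrt (div_nonneg (hS.pos 1).le (hS.pos 0).le), hS1]
    have key : gen n η β - δ⁻¹ • PopE n S (-1) (2 * i + 1) (gen n η β) =
        if Even (β i) then gen n η β else 0 := by
      funext s
      have hL : (gen n η β - δ⁻¹ • PopE n S (-1) (2 * i + 1) (gen n η β)) s =
          gen n η β s - δ⁻¹ * PopE n S (-1) (2 * i + 1) (gen n η β) s := rfl
      have hR : (if Even (β i) then gen n η β else 0) s =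
          if Even (β i) then gen n η β s else 0 := by
        split_ifs <;> rfl
      rw [hL, hR, PopE_apply]
      by_cases hv : s (st n (2 * i + 1 + 1)) = !(s (st n (2 * i + 1)))
      · rw [if_pos hv]
        by_cases hQ : gen_X_Q n (2 * i + 1) η s
        · have hH : hgt n s (2 * i + 1) = 0 := by
            have := q1 s hQ
            rw [h2] at this
            exact Int.natAbs_eq_zero.1 this
          have hmid : ∀ x, hgt n (chg n (2 * i + 1) s x) (2 * i + 2) =
              if x then 1 else -1 := by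
            intro x
            have := hgt_chg_mid n (2 * i + 1) (by omega) s x
            rw [hH, zero_add] at this
            exact this
          by_cases hc : η (2 * i + 2) = 1
          · have G : ∀ x, gen n η β (chg n (2 * i + 1) s x) =
                gen_X_R n i β s * (if x then 1 else -1) ^ β i := by
              intro x
              rw [gen_X_pos hin ((gen_X_Qc hin hv x η).2 hQ) (by
                rw [hmid, hc]; cases x <;> rfl), gen_X_Rc hin hv x, hmid]
              cases x <;> simp
            have Gs : gen n η β s =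
                gen_X_R n i β s * (if s (st n (2 * i + 1)) then 1 else -1) ^ β i := by
              rw [← G (s (st n (2 * i + 1))), chg_self n (2 * i + 1) (by omega) s hv]
            rw [Gs, hH, hw, Fintype.sum_bool, hw, hw, G true, G false]
            have e6 : (-1 : ℝ) ^ β i = if Even (β i) then 1 else -1 := by
              split_ifs with h
              · exact h.neg_one_pow
              · exact (Nat.not_even_iff_odd.1 h).neg_one_pow
            have e7 : δ⁻¹ * (δ / 2) = 1 / 2 := by field_simp
            cases s (st n (2 * i + 1)) <;> by_cases hb : Even (β i) <;>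
              simp only [hb, e6, if_true, if_false, one_pow, mul_one, Bool.false_eq_true,
                Bool.true_eq_false]
            · linear_combination (gen_X_R n i β s - gen_X_R n i β s) * (δ⁻¹ * hww + e7)
            · linear_combination (2 * gen_X_R n i β s) * (δ⁻¹ * hww + e7)
            · linear_combination (gen_X_R n i β s - gen_X_R n i β s) * (δ⁻¹ * hww + e7)
            · linear_combination (-(2 * gen_X_R n i β s)) * (δ⁻¹ * hww + e7)
          · have G : ∀ x, gen n η β (chg n (2 * i + 1) s x) = 0 := by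
              intro x
              apply gen_X_zero2 hin
              rw [hmid]
              intro h
              apply hc
              rw [← h]
              cases x <;> rfl
            have Gs : gen n η β s = 0 := by
              rw [← G (s (st n (2 * i + 1))), chg_self n (2 * i + 1) (by omega) s hv]
            simp [G, Gs]
        · have G : ∀ x, gen n η β (chg n (2 * i + 1) s x) = 0 := fun x =>
            gen_X_zero1 (i := i) (fun h => hQ ((gen_X_Qc hin hv x η).1 h))
          simp [G, gen_X_zero1 (β := β) hQ]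
      · have hQ : ¬ gen_X_Q n (2 * i + 1) η s := by
          intro hQ
          have e1 := q1 s hQ
          have e3 := q3 s hQ
          rw [h2, Int.natAbs_eq_zero] at e1
          rw [h1, h2, Int.natAbs_eq_zero, hs2, hs1, e1] at e3
          apply hv
          revert e3
          cases s (st n (2 * i + 1)) <;> cases s (st n (2 * i + 1 + 1)) <;> simp
        rw [if_neg hv, gen_X_zero1 (β := β) hQ]
        simp
    rw [key]
    split_ifs
    · exact Cone.gen η β
    · exact Cone.zero
  by_cases h3 : η (2 * i + 1) = 1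
  · -- parity
    refine hzero fun s => ?_
    by_cases hQ : gen_X_Q n (2 * i + 1) η s
    · exfalso
      have e1 := q1 s hQ
      have e2 := hgt_parity n s (2 * i + 1)
      push_cast at e2
      omega
    · exact gen_X_zero1 hQ
  have h2' : 2 ≤ η (2 * i + 1) := by omega
  by_cases h4 : η (2 * i + 2) = η (2 * i + 1) + 1 ∨ η (2 * i + 2) + 1 = η (2 * i + 1)
  swap
  · refine hzero fun s => ?_
    by_cases hQ : gen_X_Q n (2 * i + 1) η s
    · apply gen_X_zero2 hin
      have e1 := q1 s hQ
      have e2 := hs1 s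
      intro h
      apply h4
      rw [← h, ← e1, e2]
      split_ifs <;> omega
    · exact gen_X_zero1 hQ
  -- the main case
  obtain ⟨c', hcc⟩ : ∃ c' : ℕ, (η (2 * i + 2) = η (2 * i + 1) + 1 ∧ c' + 1 = η (2 * i + 1)) ∨
      (η (2 * i + 2) + 1 = η (2 * i + 1) ∧ c' = η (2 * i + 1) + 1) := by
    rcases h4 with h4 | h4
    · exact ⟨η (2 * i + 1) - 1, Or.inl ⟨h4, by omega⟩⟩
    · exact ⟨η (2 * i + 1) + 1, Or.inr ⟨h4, rfl⟩⟩
  set a : ℕ := η (2 * i + 1) with ha
  set c : ℕ := η (2 * i + 2) with hc
  have hne : c' ≠ c := by omega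
  have hSc : S (c : ℤ) / S (a : ℤ) ≤ δ := by
    rw [div_le_iff₀ (hS.pos _)]
    have e1 := hS.recur (a : ℤ)
    have e2 := hS.pos ((a : ℤ) + 1)
    have e3 := hS.pos ((a : ℤ) - 1)
    rcases hcc with ⟨h5, -⟩ | ⟨h5, -⟩
    · have : (c : ℤ) = (a : ℤ) + 1 := by omega
      rw [this]
      linarith
    · have : (c : ℤ) = (a : ℤ) - 1 := by omega
      rw [this]
      linarith
  have key : gen n η β - δ⁻¹ • PopE n S (-1) (2 * i + 1) (gen n η β) =
      (1 - δ⁻¹ * (S (c : ℤ) / S (a : ℤ))) • gen n η β +
        (δ⁻¹ * (Real.sqrt (S (c' : ℤ) / S (a : ℤ)) * Real.sqrt (S (c : ℤ) / S (a : ℤ)))) •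
          gen n (Function.update η (2 * i + 2) c') β := by
    funext s
    have hL : (gen n η β - δ⁻¹ • PopE n S (-1) (2 * i + 1) (gen n η β)) s =
        gen n η β s - δ⁻¹ * PopE n S (-1) (2 * i + 1) (gen n η β) s := rfl
    have hR : ((1 - δ⁻¹ * (S (c : ℤ) / S (a : ℤ))) • gen n η β +
        (δ⁻¹ * (Real.sqrt (S (c' : ℤ) / S (a : ℤ)) * Real.sqrt (S (c : ℤ) / S (a : ℤ)))) •
          gen n (Function.update η (2 * i + 2) c') β) s =
        (1 - δ⁻¹ * (S (c : ℤ) / S (a : ℤ))) * gen n η β s +
        (δ⁻¹ * (Real.sqrt (S (c' : ℤ) / S (a : ℤ)) * Real.sqrt (S (c : ℤ) / S (a : ℤ)))) *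
          gen n (Function.update η (2 * i + 2) c') β s := rfl
    rw [hL, hR, PopE_apply]
    by_cases hQ : gen_X_Q n (2 * i + 1) η s
    swap
    · have hQ' : ¬ gen_X_Q n (2 * i + 1) (Function.update η (2 * i + 2) c') s :=
        fun h => hQ ((gen_X_upd n i η c' s).1 h)
      rw [gen_X_zero1 (β := β) hQ, gen_X_zero1 (β := β) hQ']
      by_cases hv : s (st n (2 * i + 1 + 1)) = !(s (st n (2 * i + 1)))
      · have G : ∀ x, gen n η β (chg n (2 * i + 1) s x) = 0 := fun x =>
          gen_X_zero1 (i := i) (fun h => hQ ((gen_X_Qc hin hv x η).1 h))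
        simp [G]
      · rw [if_neg hv]
        simp
    have e1 : (hgt n s (2 * i + 1)).natAbs = a := q1 s hQ
    have e3 : (hgt n s (2 * i + 3)).natAbs = a := (q3 s hQ).trans h1
    have hv : s (st n (2 * i + 1 + 1)) = !(s (st n (2 * i + 1))) := by
      rw [hs2, hs1] at e3
      revert e3
      cases s (st n (2 * i + 1)) <;> cases s (st n (2 * i + 1 + 1))
      · intro h
        exfalso
        simp only [Bool.false_eq_true, if_false] at h
        omega
      · intro _
        rfl
      · intro _
        rfl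
      · intro h
        exfalso
        simp only [if_true] at h
        omega
    rw [if_pos hv]
    set H : ℤ := hgt n s (2 * i + 1) with hH
    obtain ⟨xc, hx1, hx2, hx3⟩ : ∃ xc : Bool, (H + (if xc then 1 else -1)).natAbs = c ∧
        (H + (if !xc then 1 else -1)).natAbs = c' ∧
        ∀ x : Bool, SignType.sign (H + (if x then 1 else -1)) = SignType.sign H := by
      have hsgn : ∀ x : Bool, SignType.sign (H + (if x then 1 else -1)) = SignType.sign H := by
        intro x
        rcases Int.natAbs_eq H with h5 | h5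
        · have h6 : 0 < H := by omega
          have h7 : 0 < H + (if x then 1 else -1) := by split_ifs <;> omega
          rw [sign_pos h6, sign_pos h7]
        · have h6 : H < 0 := by omega
          have h7 : H + (if x then 1 else -1) < 0 := by split_ifs <;> omega
          rw [sign_neg h6, sign_neg h7]
      rcases Int.natAbs_eq H with h5 | h5 <;> rcases hcc with ⟨h6, h7⟩ | ⟨h6, h7⟩
      · refine ⟨true, ?_, ?_, hsgn⟩
        · simp only [if_true]; omega
        · simp only [Bool.not_true, Bool.false_eq_true, if_false]; omega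
      · refine ⟨false, ?_, ?_, hsgn⟩
        · simp only [Bool.false_eq_true, if_false]; omega
        · simp only [Bool.not_false, if_true]; omega
      · refine ⟨false, ?_, ?_, hsgn⟩
        · simp only [Bool.false_eq_true, if_false]; omega
        · simp only [Bool.not_false, if_true]; omega
      · refine ⟨true, ?_, ?_, hsgn⟩
        · simp only [if_true]; omega
        · simp only [Bool.not_true, Bool.false_eq_true, if_false]; omega
    have hmid : ∀ x, hgt n (chg n (2 * i + 1) s x) (2 * i + 2) = H + (if x then 1 else -1) :=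
      fun x => hgt_chg_mid n (2 * i + 1) (by omega) s x
    set P : ℝ := gen_X_R n i β s * ((SignType.sign H : ℤ) : ℝ) ^ β i with hP
    have hnot : ∀ x : Bool, x ≠ xc → x = !xc := by
      intro x hx
      cases x <;> cases xc <;> simp_all
    have G : ∀ x, gen n η β (chg n (2 * i + 1) s x) = if x = xc then P else 0 := by
      intro x
      by_cases hx : x = xc
      · rw [if_pos hx, gen_X_pos hin ((gen_X_Qc hin hv x η).2 hQ) (by
          rw [hmid, hx, hx1]), gen_X_Rc hin hv x, hmid, hx3]
      · rw [if_neg hx]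
        apply gen_X_zero2 hin
        rw [hmid, hnot x hx, hx2]
        exact hne
    have G' : ∀ x, gen n (Function.update η (2 * i + 2) c') β (chg n (2 * i + 1) s x) =
        if x = xc then 0 else P := by
      intro x
      by_cases hx : x = xc
      · rw [if_pos hx]
        apply gen_X_zero2 hin
        rw [hmid, hx, hx1, Function.update_self]
        exact hne.symm
      · rw [if_neg hx, gen_X_pos hin ((gen_X_Qc hin hv x _).2 ((gen_X_upd n i η c' s).2 hQ)) (by
          rw [hmid, hnot x hx, hx2, Function.update_self]), gen_X_Rc hin hv x, hmid, hx3]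
    have Gs : gen n η β s = if s (st n (2 * i + 1)) = xc then P else 0 := by
      rw [← G (s (st n (2 * i + 1))), chg_self n (2 * i + 1) (by omega) s hv]
    have Gs' : gen n (Function.update η (2 * i + 2) c') β s =
        if s (st n (2 * i + 1)) = xc then 0 else P := by
      rw [← G' (s (st n (2 * i + 1))), chg_self n (2 * i + 1) (by omega) s hv]
    have w1 : wt S H xc = Real.sqrt (S (c : ℤ) / S (a : ℤ)) := by
      rw [gen_X_wt hS, hx1, e1]
    have w2 : wt S H (!xc) = Real.sqrt (S (c' : ℤ) / S (a : ℤ)) := by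
      rw [gen_X_wt hS, hx2, e1]
    have hsum : ∑ x : Bool, wt S H x * ((if x = s (st n (2 * i + 1)) then 1 else -1) *
        gen n η β (chg n (2 * i + 1) s x)) =
        wt S H xc * ((if xc = s (st n (2 * i + 1)) then 1 else -1) * P) := by
      rw [Finset.sum_eq_single xc]
      · rw [G, if_pos rfl]
      · intro x _ hx
        rw [G, if_neg hx, mul_zero, mul_zero]
      · intro h
        exact absurd (Finset.mem_univ _) h
    rw [hsum, Gs, Gs', w1]
    by_cases hu : s (st n (2 * i + 1)) = xc
    · rw [hu, if_pos rfl, if_pos rfl, if_pos rfl, w1]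
      have e8 := Real.mul_self_sqrt (div_nonneg (hS.pos (c : ℤ)).le (hS.pos (a : ℤ)).le)
      linear_combination (-(δ⁻¹ * P)) * e8
    · rw [if_neg hu, if_neg hu, if_neg (fun h => hu h.symm), hnot _ hu, w2]
      ring
  rw [key]
  refine Cone.add _ _ (Cone.smul _ _ ?_ (Cone.gen _ _)) (Cone.smul _ _ ?_ (Cone.gen _ _))
  · have h5 : δ⁻¹ * (S (c : ℤ) / S (a : ℤ)) ≤ δ⁻¹ * δ :=
      mul_le_mul_of_nonneg_left hSc (inv_nonneg.2 hδ.le)
    rw [inv_mul_cancel₀ hδ.ne'] at h5
    linarith
  · have := inv_nonneg.2 hδ.le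
    positivity

end Pool.Agent.H110R3.BP2
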