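import Pool.Agent.H110R3.BP2.Stubs

/-! Task U2 of h110ap_tasks (helper794): `expd_mem1`, `state_T1`. -/

set_option autoImplicit false

namespace Pool.Agent.H110R3.BP2

open Polynomial Pool.Agent.H207R2.BL Pool.Agent.H110R3.BP

theorem expd_mem1_pf (n : ℕ) (w : List Let) (hw : ∀ l ∈ w, InR1 n l) :
    ∀ a ∈ expd w, ∀ j ∈ a.2, 1 ≤ j ∧ j < 2 * n + 1 := by
  induction w with
  | nil =>
    intro a ha j hj
    simp only [expd, List.mem_singleton] at ha
    subst ha
    simp at hj
  | cons l w ih =>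
    have ih' := ih fun l hl => hw l (List.mem_cons_of_mem _ hl)
    have hl := hw l (List.mem_cons_self ..)
    intro a ha j hj
    cases l with
    | C i =>
      have hi : 1 ≤ i ∧ i ≤ n := hl
      simp only [expd, List.mem_map] at ha
      obtain ⟨b, hb, rfl⟩ := ha
      rcases List.mem_cons.1 hj with rfl | hj
      · omega
      · exact ih' b hb j hj
    | J i =>
      have hi : 1 ≤ i ∧ i < n := hl
      simp only [expd, List.mem_map] at ha
      obtain ⟨b, hb, rfl⟩ := ha
      rcases List.mem_cons.1 hj with rfl | hj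
      · omega
      · exact ih' b hb j hj
    | X i =>
      have hi : i < n := hl
      simp only [expd, List.mem_append, List.mem_map] at ha
      rcases ha with ha | ⟨b, hb, rfl⟩
      · exact ih' a ha j hj
      · rcases List.mem_cons.1 hj with rfl | hj
        · omega
        · exact ih' b hb j hj

theorem state_T1_aux (n : ℕ) (L : List (ℝ × List ℕ))
    (hL : ∀ a ∈ L, ∀ j ∈ a.2, 1 ≤ j ∧ j < 2 * n + 1) :
    ∃ R : List (ℝ × ℤ), ∀ (q : ℝ), q ≠ 0 → ∀ (A : Type) [Ring A] [Algebra ℝ A]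
      (S : TL (2 * n + 1) q A) (F : State1 S),
      F.φ ((L.map (fun a => a.1 • S.W a.2)).sum) =
        ((R.map (fun a => a.1 * q ^ a.2)).sum) * F.φ 1 := by
  induction L with
  | nil =>
    refine ⟨[], ?_⟩
    intro q _ A _ _ S F
    simp
  | cons a L ih =>
    obtain ⟨R, hR⟩ := ih (fun b hb => hL b (List.mem_cons_of_mem _ hb))
    obtain ⟨N, hN⟩ := state_eval1 n (2 * n + 1) le_rfl a.2 (hL a List.mem_cons_self)
    refine ⟨(a.1, N) :: R, ?_⟩
    intro q hq A _ _ S F
    rw [List.map_cons, List.sum_cons, map_add, map_smul, hN q hq A S F, hR q hq A S F,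
      List.map_cons, List.sum_cons, smul_eq_mul]
    ring

theorem state_T1_pf (n : ℕ) (w : List Let) (hw : ∀ l ∈ w, InR1 n l) :
    ∃ R : List (ℝ × ℤ), ∀ (q : ℝ), q ≠ 0 → ∀ (A : Type) [Ring A] [Algebra ℝ A]
      (S : TL (2 * n + 1) q A) (F : State1 S),
      F.φ (T S w) = ((R.map (fun a => a.1 * q ^ a.2)).sum) * F.φ 1 := by
  obtain ⟨R, hR⟩ := state_T1_aux n (expd w) (expd_mem1_pf n w hw)
  refine ⟨R, ?_⟩
  intro q hq A _ _ S F
  rw [T_expd S w]
  exact hR q hq A S F

end Pool.Agent.H110R3.BP2
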