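import Pool.Agent.H110R3.BP2.Stubs
set_option autoImplicit false
namespace Pool.Agent.H110R3.BP2
open Polynomial Pool.Agent.H207R2.BL Pool.Agent.H110R3.BP

def U20_Q (n j : ℕ) (s : Fin (2 * n + 2) → Bool) : Prop :=
  s (st n 0) = false ∧
    ∀ l ∈ Finset.Icc 1 (2 * n + 2), l ≠ j + 1 → (hgt n s l).natAbs = eta0 l

theorem U20_gen1 (n j : ℕ) (η : ℕ → ℕ) (hη : ∀ l, l ≠ j + 1 → η l = eta0 l)
    (s : Fin (2 * n + 2) → Bool) (h1 : U20_Q n j s) (h2 : (hgt n s (j + 1)).natAbs = η (j + 1)) :
    gen n η (fun _ => 0) s = 1 := by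
  unfold gen
  rw [if_pos]
  · simp
  · refine ⟨h1.1, fun l hl => ?_⟩
    by_cases h : l = j + 1
    · rw [h]
      exact h2
    · rw [h1.2 l hl h, hη l h]

theorem U20_gen0 (n j : ℕ) (hj : j + 1 ≤ 2 * n + 2) (η : ℕ → ℕ)
    (hη : ∀ l, l ≠ j + 1 → η l = eta0 l)
    (s : Fin (2 * n + 2) → Bool)
    (h : ¬ (U20_Q n j s ∧ (hgt n s (j + 1)).natAbs = η (j + 1))) :
    gen n η (fun _ => 0) s = 0 := by
  unfold gen
  rw [if_neg]
  rintro ⟨h1, h2⟩
  refine h ⟨⟨h1, fun l hl hl2 => ?_⟩, h2 (j + 1) (Finset.mem_Icc.2 ⟨by omega, hj⟩)⟩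
  rw [h2 l hl, hη l hl2]

theorem U20_chg (n j : ℕ) (hj1 : 1 ≤ j) (hj : j ≤ 2 * n) (s : Fin (2 * n + 2) → Bool) (x : Bool)
    (hs : s (st n (j + 1)) = !(s (st n j))) : U20_Q n j (chg n j s x) ↔ U20_Q n j s := by
  have h0 : chg n j s x (st n 0) = s (st n 0) :=
    (chg_at n j hj s x).2.2 0 (by omega) (by omega) (by omega)
  have h1 : ∀ l ∈ Finset.Icc 1 (2 * n + 2), l ≠ j + 1 →
      hgt n (chg n j s x) l = hgt n s l := by
    intro l hl hlj
    rcases Nat.lt_or_ge l (j + 1) with h | h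
    · exact hgt_chg_le n j hj s x l (by omega)
    · exact hgt_chg_ge n j hj s x l hs (by omega) (Finset.mem_Icc.1 hl).2
  unfold U20_Q
  rw [h0]
  constructor
  · rintro ⟨h2, h3⟩
    exact ⟨h2, fun l hl hlj => by rw [← h1 l hl hlj]; exact h3 l hl hlj⟩
  · rintro ⟨h2, h3⟩
    exact ⟨h2, fun l hl hlj => by rw [h1 l hl hlj]; exact h3 l hl hlj⟩

/-- the changed pattern -/
def U20_eta (i : ℕ) : ℕ → ℕ := Function.update eta0 (2 * i + 2) 3

theorem U20_pop (n : ℕ) {δ : ℝ} {S : ℤ → ℝ} (hS : Eig δ S) (i : ℕ) (hi : 1 ≤ i) (hin : i < n) :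
    PopE n S (-1) (2 * i + 1) (gE n) =
      (S 1 / S 2) • gE n - (Real.sqrt (S 1 / S 2) * Real.sqrt (S 3 / S 2)) •
        gen n (U20_eta i) (fun _ => 0) := by
  have hη0 : ∀ l, l ≠ (2 * i + 1) + 1 → eta0 l = eta0 l := fun _ _ => rfl
  have hη1 : ∀ l, l ≠ (2 * i + 1) + 1 → U20_eta i l = eta0 l := by
    intro l hl
    unfold U20_eta
    exact Function.update_of_ne hl _ _
  have e0 : eta0 (2 * i + 1 + 1) = 1 := by
    unfold eta0
    rw [if_neg (by omega), if_pos ⟨i + 1, by ring⟩]
  have e1 : U20_eta i (2 * i + 1 + 1) = 3 := by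
    unfold U20_eta
    exact Function.update_self _ _ _
  have e2 : eta0 (2 * i + 1) = 2 := by
    unfold eta0
    rw [if_neg (by omega), if_neg]
    rw [Nat.not_even_iff_odd]
    exact ⟨i, rfl⟩
  have e3 : eta0 (2 * i + 3) = 2 := by
    unfold eta0
    rw [if_neg (by omega), if_neg]
    rw [Nat.not_even_iff_odd]
    exact ⟨i + 1, by ring⟩
  have p1 := hS.pos 1
  have p2 := hS.pos 2
  have p3 := hS.pos 3
  have w1 : S (-1) = S 1 := hS.even 1
  have w2 : S (-2) = S 2 := hS.even 2
  have w3 : S (-3) = S 3 := hS.even 3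
  ext s
  simp only [Pi.sub_apply, Pi.smul_apply, smul_eq_mul]
  rw [PopE_apply]
  by_cases hQ : U20_Q n (2 * i + 1) s
  · have a1 : (hgt n s (2 * i + 1)).natAbs = 2 := by
      rw [hQ.2 (2 * i + 1) (Finset.mem_Icc.2 ⟨by omega, by omega⟩) (by omega), e2]
    have a3 : (hgt n s (2 * i + 3)).natAbs = 2 := by
      rw [hQ.2 (2 * i + 3) (Finset.mem_Icc.2 ⟨by omega, by omega⟩) (by omega), e3]
    have b1 := hgt_succ n s (2 * i + 1)
    have b2 : hgt n s (2 * i + 3) = hgt n s (2 * i + 1 + 1) +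
      (if s (st n (2 * i + 1 + 1)) then 1 else -1) := hgt_succ n s (2 * i + 1 + 1)
    have hT : s (st n (2 * i + 1 + 1)) = !(s (st n (2 * i + 1))) := by
      cases c1 : s (st n (2 * i + 1)) <;> cases c2 : s (st n (2 * i + 1 + 1)) <;>
        simp only [c1, c2] at b1 b2 ⊢ <;> simp at b1 b2 ⊢ <;> omega
    rw [if_pos hT, Fintype.sum_bool]
    have hc : ∀ x, U20_Q n (2 * i + 1) (chg n (2 * i + 1) s x) := fun x =>
      (U20_chg n (2 * i + 1) (by omega) (by omega) s x hT).2 hQ
    have hm := fun x => hgt_chg_mid n (2 * i + 1) (by omega) s x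
    have hmt := hm true
    have hmf := hm false
    simp only [if_true, Bool.false_eq_true, if_false] at hmt hmf
    have hh : hgt n s (2 * i + 1) = 2 ∨ hgt n s (2 * i + 1) = -2 := by omega
    rcases hh with hh | hh
    · -- height 2: the inner step is false
      have g1 : gE n (chg n (2 * i + 1) s true) = 0 := by
        refine U20_gen0 n (2 * i + 1) (by omega) eta0 hη0 _ ?_
        rintro ⟨_, h⟩
        rw [hmt, hh, e0] at h
        omega
      have g2 : gE n (chg n (2 * i + 1) s false) = 1 := by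
        refine U20_gen1 n (2 * i + 1) eta0 hη0 _ (hc false) ?_
        rw [hmf, hh, e0]
        rfl
      rw [g1, g2]
      cases c1 : s (st n (2 * i + 1))
      · have k1 : gE n s = 1 := by
          refine U20_gen1 n (2 * i + 1) eta0 hη0 _ hQ ?_
          rw [b1, hh, e0, c1]
          rfl
        have k2 : gen n (U20_eta i) (fun _ => 0) s = 0 := by
          refine U20_gen0 n (2 * i + 1) (by omega) _ hη1 _ ?_
          rintro ⟨_, h⟩
          rw [b1, hh, e1, c1] at h
          simp at h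
        rw [k1, k2, hh]
        simp only [wt, Bool.false_eq_true, if_false, if_true, mul_one, mul_zero, zero_add,
          sub_zero]
        norm_num
        rw [Real.mul_self_sqrt (by positivity)]
      · have k1 : gE n s = 0 := by
          refine U20_gen0 n (2 * i + 1) (by omega) eta0 hη0 _ ?_
          rintro ⟨_, h⟩
          rw [b1, hh, e0, c1] at h
          simp at h
        have k2 : gen n (U20_eta i) (fun _ => 0) s = 1 := by
          refine U20_gen1 n (2 * i + 1) _ hη1 _ hQ ?_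
          rw [b1, hh, e1, c1]
          rfl
        rw [k1, k2, hh]
        simp only [wt, Bool.false_eq_true, if_false, if_true, mul_one, mul_zero, zero_add,
          zero_sub]
        norm_num
        ring
    · have g1 : gE n (chg n (2 * i + 1) s false) = 0 := by
        refine U20_gen0 n (2 * i + 1) (by omega) eta0 hη0 _ ?_
        rintro ⟨_, h⟩
        rw [hmf, hh, e0] at h
        omega
      have g2 : gE n (chg n (2 * i + 1) s true) = 1 := by
        refine U20_gen1 n (2 * i + 1) eta0 hη0 _ (hc true) ?_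
        rw [hmt, hh, e0]
        rfl
      rw [g1, g2]
      cases c1 : s (st n (2 * i + 1))
      · have k1 : gE n s = 0 := by
          refine U20_gen0 n (2 * i + 1) (by omega) eta0 hη0 _ ?_
          rintro ⟨_, h⟩
          rw [b1, hh, e0, c1] at h
          simp at h
        have k2 : gen n (U20_eta i) (fun _ => 0) s = 1 := by
          refine U20_gen1 n (2 * i + 1) _ hη1 _ hQ ?_
          rw [b1, hh, e1, c1]
          rfl
        rw [k1, k2, hh]
        simp only [wt, Bool.false_eq_true, if_false, if_true, mul_one, mul_zero, zero_add,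
          zero_sub]
        norm_num
        rw [w1, w2, w3]
        ring
      · have k1 : gE n s = 1 := by
          refine U20_gen1 n (2 * i + 1) eta0 hη0 _ hQ ?_
          rw [b1, hh, e0, c1]
          rfl
        have k2 : gen n (U20_eta i) (fun _ => 0) s = 0 := by
          refine U20_gen0 n (2 * i + 1) (by omega) _ hη1 _ ?_
          rintro ⟨_, h⟩
          rw [b1, hh, e1, c1] at h
          simp at h
        rw [k1, k2, hh]
        simp only [wt, Bool.false_eq_true, if_false, if_true, mul_one, mul_zero, zero_add,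
          sub_zero]
        norm_num
        rw [w1, w2, Real.mul_self_sqrt (by positivity)]
  · have k1 : gE n s = 0 := by
      refine U20_gen0 n (2 * i + 1) (by omega) eta0 hη0 _ ?_
      rintro ⟨h, _⟩
      exact hQ h
    have k2 : gen n (U20_eta i) (fun _ => 0) s = 0 := by
      refine U20_gen0 n (2 * i + 1) (by omega) _ hη1 _ ?_
      rintro ⟨h, _⟩
      exact hQ h
    rw [k1, k2]
    by_cases hT : s (st n (2 * i + 1 + 1)) = !(s (st n (2 * i + 1)))
    · rw [if_pos hT]
      have hc : ∀ x, gE n (chg n (2 * i + 1) s x) = 0 := fun x => by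
        refine U20_gen0 n (2 * i + 1) (by omega) eta0 hη0 _ ?_
        rintro ⟨h, _⟩
        exact hQ ((U20_chg n (2 * i + 1) (by omega) (by omega) s x hT).1 h)
      simp [hc]
    · rw [if_neg hT]
      simp

theorem U20_pop0 (n : ℕ) (S : ℤ → ℝ) (hn : 0 < n) : PopE n S (-1) 1 (gE n) = 0 := by
  ext s
  rw [PopE_apply]
  by_cases hT : s (st n (1 + 1)) = !(s (st n 1))
  · rw [if_pos hT]
    have hc : ∀ x, gE n (chg n 1 s x) = 0 := by
      intro x
      unfold gE gen
      rw [if_neg]
      rintro ⟨_, h⟩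
      have h1 := h 1 (Finset.mem_Icc.2 ⟨by omega, by omega⟩)
      have h3 := h 3 (Finset.mem_Icc.2 ⟨by omega, by omega⟩)
      rw [hgt_chg_le n 1 (by omega) s x 1 (by omega)] at h1
      rw [hgt_chg_ge n 1 (by omega) s x 3 hT (by omega) (by omega)] at h3
      have b1 := hgt_succ n s 1
      have b2 := hgt_succ n s (1 + 1)
      have e1 : eta0 1 = 0 := by simp [eta0]
      have e3 : eta0 3 = 2 := by
        unfold eta0
        rw [if_neg (by omega), if_neg (by decide)]
      rw [e1] at h1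
      rw [e3] at h3
      have b2' : hgt n s 3 = hgt n s (1 + 1) + (if s (st n (1 + 1)) then 1 else -1) := b2
      rw [b2', b1, hT] at h3
      cases c : s (st n 1) <;> rw [c] at h3 <;> simp at h3 <;> omega
    simp [hc]
  · rw [if_neg hT]
    rfl

theorem gE_X_pf (n : ℕ) {δ : ℝ} {S : ℤ → ℝ} (hS : Eig δ S) (hδ : 0 < δ) (i : ℕ) (hin : i < n) :
    Cone1 n (gE n - δ⁻¹ • PopE n S (-1) (2 * i + 1) (gE n)) := by
  rcases Nat.eq_zero_or_pos i with h | h
  · subst h
    refine ⟨1, 0, one_pos, Cone.zero, ?_⟩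
    rw [show 2 * 0 + 1 = 1 from rfl, U20_pop0 n S (by omega)]
    simp
  · have p1 := hS.pos 1
    have p2 := hS.pos 2
    have p3 := hS.pos 3
    have hr := hS.recur 2
    have hr' : S 3 + S 1 = δ * S 2 := by
      have a : (2 : ℤ) + 1 = 3 := by norm_num
      have b : (2 : ℤ) - 1 = 1 := by norm_num
      rw [a, b] at hr
      exact hr
    refine ⟨δ⁻¹ * (S 3 / S 2), (δ⁻¹ * (Real.sqrt (S 1 / S 2) * Real.sqrt (S 3 / S 2))) •
      gen n (U20_eta i) (fun _ => 0), by positivity,
      Cone.smul _ _ (by positivity) (Cone.gen _ _), ?_⟩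
    rw [U20_pop n hS i h hin]
    have hk : δ⁻¹ * (S 3 / S 2) = 1 - δ⁻¹ * (S 1 / S 2) := by
      field_simp
      linarith
    rw [hk]
    simp only [smul_sub, sub_smul, smul_smul, one_smul]
    abel

end Pool.Agent.H110R3.BP2
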