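import Pool.Agent.H110R3.BP2.Stubs
set_option autoImplicit false
namespace Pool.Agent.H110R3.BP2
open Polynomial Pool.Agent.H207R2.BL Pool.Agent.H110R3.BP

/-- the weight of a step from height `0` -/
theorem gX0_wt {δ : ℝ} {S : ℤ → ℝ} (hS : Eig δ S) (x : Bool) :
    wt S 0 x = Real.sqrt (δ / 2) := by
  have h1 := hS.recur 0
  have h2 := hS.even 1
  have h3 := hS.pos 0
  unfold wt
  congr 1
  rw [div_eq_div_iff h3.ne' two_ne_zero]
  cases x
  · simp only [Bool.false_eq_true, if_false]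
    norm_num at h1 h2 ⊢
    linarith
  · simp only [if_true]
    norm_num at h1 h2 ⊢
    linarith

/-- heights at the start -/
theorem gX0_h1 (n : ℕ) (s : Fin (2 * n + 2) → Bool) (h0 : s (st n 0) = false) :
    hgt n s 1 = 0 := by
  have := hgt_succ n s 0
  rw [hgt_zero, h0] at this
  simpa using this

theorem gX0_h2 (n : ℕ) (s : Fin (2 * n + 2) → Bool) (h0 : s (st n 0) = false) :
    hgt n s 2 = if s (st n 1) then 1 else -1 := by
  have := hgt_succ n s 1
  rw [gX0_h1 n s h0] at this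
  simpa using this

theorem gX0_h3 (n : ℕ) (s : Fin (2 * n + 2) → Bool) (h0 : s (st n 0) = false) :
    hgt n s 3 = 0 ↔ s (st n 2) = !s (st n 1) := by
  have := hgt_succ n s 2
  rw [gX0_h2 n s h0] at this
  rw [show (3 : ℕ) = 2 + 1 from rfl, this]
  cases s (st n 1) <;> cases s (st n 2) <;> simp

/-- the remaining signs -/
noncomputable def gX0_R (n : ℕ) (β : ℕ → ℕ) (s : Fin (2 * n + 2) → Bool) : ℝ :=
  ∏ i ∈ Finset.range n, ((SignType.sign (hgt n s (2 * (i + 1) + 2)) : ℤ) : ℝ) ^ β (i + 1)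

theorem gX0_gen (n : ℕ) (η β : ℕ → ℕ) (s : Fin (2 * n + 2) → Bool) (h0 : s (st n 0) = false) :
    gen n η β s = if ∀ j ∈ Finset.Icc 1 (2 * n + 2), (hgt n s j).natAbs = η j then
      gX0_R n β s * (if s (st n 1) then 1 else -1) ^ β 0 else 0 := by
  unfold gen
  by_cases hA : ∀ j ∈ Finset.Icc 1 (2 * n + 2), (hgt n s j).natAbs = η j
  · rw [if_pos ⟨h0, hA⟩, if_pos hA, Finset.prod_range_succ', gX0_R]
    congr 1
    rw [show 2 * 0 + 2 = 2 from rfl, gX0_h2 n s h0]
    cases s (st n 1) <;> simp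
  · rw [if_neg (fun h => hA h.2), if_neg hA]

theorem gX0_gen_true (n : ℕ) (η β : ℕ → ℕ) (s : Fin (2 * n + 2) → Bool)
    (h0 : s (st n 0) = true) : gen n η β s = 0 := by
  unfold gen
  rw [if_neg]
  rintro ⟨h, -⟩
  rw [h0] at h
  exact absurd h (by decide)

theorem gX0_chg (n : ℕ) (hn : 0 < n) (η β : ℕ → ℕ) (s : Fin (2 * n + 2) → Bool)
    (h0 : s (st n 0) = false) (h2 : s (st n (1 + 1)) = !(s (st n 1))) (x : Bool) :
    gen n η β (chg n 1 s x) =
      if ∀ j ∈ Finset.Icc 1 (2 * n + 2), (hgt n s j).natAbs = η j then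
      gX0_R n β s * (if x then 1 else -1) ^ β 0 else 0 := by
  obtain ⟨c1, c2, c3⟩ := chg_at n 1 (by omega) s x
  have c0 : chg n 1 s x (st n 0) = false := by
    rw [c3 0 (by omega) (by omega) (by omega), h0]
  have hge : ∀ l, 3 ≤ l → l ≤ 2 * n + 2 → hgt n (chg n 1 s x) l = hgt n s l := by
    intro l hl hl2
    exact hgt_chg_ge n 1 (by omega) s x l h2 (by omega) hl2
  rw [gX0_gen n η β _ c0, c1]
  have hA : (∀ j ∈ Finset.Icc 1 (2 * n + 2), (hgt n (chg n 1 s x) j).natAbs = η j) ↔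
      ∀ j ∈ Finset.Icc 1 (2 * n + 2), (hgt n s j).natAbs = η j := by
    refine forall₂_congr (fun j hj => ?_)
    obtain ⟨hj1, hj2⟩ := Finset.mem_Icc.1 hj
    have : (hgt n (chg n 1 s x) j).natAbs = (hgt n s j).natAbs := by
      rcases Nat.lt_or_ge j 3 with h | h
      · have : j = 1 ∨ j = 2 := by omega
        rcases this with rfl | rfl
        · rw [gX0_h1 n _ c0, gX0_h1 n s h0]
        · rw [gX0_h2 n _ c0, gX0_h2 n s h0]
          split_ifs <;> rfl
      · rw [hge j h hj2]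
    rw [this]
  have hR : gX0_R n β (chg n 1 s x) = gX0_R n β s := by
    unfold gX0_R
    refine Finset.prod_congr rfl (fun i hi => ?_)
    have := Finset.mem_range.1 hi
    rw [hge (2 * (i + 1) + 2) (by omega) (by omega)]
  rw [hR]
  exact if_congr hA rfl rfl

theorem gX0_formula (n : ℕ) {δ : ℝ} {S : ℤ → ℝ} (hS : Eig δ S) (hδ : 0 < δ) (hn : 0 < n)
    (η β : ℕ → ℕ) :
    PopE n S 1 1 (gen n η β) = if Even (β 0) ∧ η 3 = 0 then δ • gen n η β else 0 := by
  have hsq : Real.sqrt (δ / 2) * Real.sqrt (δ / 2) = δ / 2 := Real.mul_self_sqrt (by positivity)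
  ext s
  rw [PopE_apply]
  have hite : ∀ (P : Prop) [Decidable P] (f g : Fn (Fin (2 * n + 2)) Bool),
      (if P then f else g) s = if P then f s else g s := by
    intro P _ f g
    split_ifs <;> rfl
  rw [hite]
  simp only [Pi.smul_apply, smul_eq_mul, Pi.zero_apply, ite_self, one_mul]
  cases h0 : s (st n 0) with
  | true =>
    have c : ∀ x, gen n η β (chg n 1 s x) = 0 := by
      intro x
      obtain ⟨c1, c2, c3⟩ := chg_at n 1 (by omega) s x
      apply gX0_gen_true
      rw [c3 0 (by omega) (by omega) (by omega), h0]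
    simp [c, gX0_gen_true n η β s h0]
  | false =>
    by_cases h2 : s (st n (1 + 1)) = !(s (st n 1))
    · rw [if_pos h2, gX0_h1 n s h0]
      simp only [gX0_wt hS, gX0_chg n hn η β s h0 h2, Fintype.sum_bool, if_true,
        Bool.false_eq_true, if_false, one_pow, mul_one]
      rw [gX0_gen n η β s h0]
      have h3 : hgt n s 3 = 0 := (gX0_h3 n s h0).2 h2
      by_cases hA : ∀ j ∈ Finset.Icc 1 (2 * n + 2), (hgt n s j).natAbs = η j
      · have h3' : η 3 = 0 := by
          rw [← hA 3 (Finset.mem_Icc.2 ⟨by omega, by omega⟩), h3]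
          rfl
        simp only [if_pos hA, h3', and_true]
        rcases Nat.even_or_odd (β 0) with he | ho
        · have e1 : ((if s (st n 1) = true then 1 else -1 : ℝ)) ^ β 0 = 1 := by
            split_ifs
            · exact one_pow _
            · exact he.neg_one_pow
          rw [if_pos he, e1, he.neg_one_pow]
          linear_combination (2 * gX0_R n β s) * hsq
        · rw [if_neg (Nat.not_even_iff_odd.2 ho), ho.neg_one_pow]
          ring
      · simp only [if_neg hA]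
        simp
    · rw [if_neg h2]
      have h3 : hgt n s 3 ≠ 0 := fun h => h2 ((gX0_h3 n s h0).1 h)
      split_ifs with h
      · rw [gX0_gen n η β s h0, if_neg, mul_zero]
        intro hA
        have := hA 3 (Finset.mem_Icc.2 ⟨by omega, by omega⟩)
        rw [h.2] at this
        exact h3 (Int.natAbs_eq_zero.1 this)
      · rfl

theorem gen_X0_pf (n : ℕ) {δ : ℝ} {S : ℤ → ℝ} (hS : Eig δ S) (hδ : 0 < δ) (hn : 0 < n)
    (η β : ℕ → ℕ) : Cone n (gen n η β - δ⁻¹ • PopE n S 1 1 (gen n η β)) := by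
  rw [gX0_formula n hS hδ hn]
  split_ifs
  · rw [smul_smul, inv_mul_cancel₀ hδ.ne', one_smul, sub_self]
    exact Cone.zero
  · rw [smul_zero, sub_zero]
    exact Cone.gen η β

theorem gE_X0_pf (n : ℕ) {δ : ℝ} {S : ℤ → ℝ} (hS : Eig δ S) (hδ : 0 < δ) (hn : 0 < n) :
    Cone1 n (gE n - δ⁻¹ • PopE n S 1 1 (gE n)) := by
  have h : PopE n S 1 1 (gE n) = 0 := by
    unfold gE
    rw [gX0_formula n hS hδ hn, if_neg]
    rintro ⟨-, h⟩
    simp only [eta0] at h
    revert h
    decide
  rw [h, smul_zero, sub_zero]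
  exact ⟨1, 0, one_pos, Cone.zero, by simp⟩

end Pool.Agent.H110R3.BP2
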