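import Pool.Agent.H110R3.BP2.Stubs

set_option autoImplicit false

namespace Pool.Agent.H110R3.BP2

open Polynomial Pool.Agent.H207R2.BL Pool.Agent.H110R3.BP

theorem cone_map_pf (n : ℕ) (Op : Module.End ℝ (Fn (Fin (2 * n + 2)) Bool))
    (h : ∀ η β, Cone n (Op (gen n η β))) (f : Fn (Fin (2 * n + 2)) Bool) (hf : Cone n f) :
    Cone n (Op f) := by
  induction hf with
  | zero =>
    rw [map_zero]
    exact Cone.zero
  | add f g _ _ ihf ihg =>
    rw [map_add]
    exact Cone.add _ _ ihf ihg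
  | smul r f hr _ ih =>
    rw [map_smul]
    exact Cone.smul r _ hr ih
  | gen η β => exact h η β

theorem cone1_map_pf (n : ℕ) (Op : Module.End ℝ (Fn (Fin (2 * n + 2)) Bool))
    (h : ∀ η β, Cone n (Op (gen n η β))) (h1 : Cone1 n (Op (gE n)))
    (f : Fn (Fin (2 * n + 2)) Bool) (hf : Cone1 n f) : Cone1 n (Op f) := by
  obtain ⟨t, c, ht, hc, rfl⟩ := hf
  obtain ⟨t', c', ht', hc', he⟩ := h1
  refine ⟨t * t', t • c' + Op c, mul_pos ht ht',
    Cone.add _ _ (Cone.smul t _ ht.le hc') (cone_map_pf n Op h c hc), ?_⟩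
  rw [map_add, map_smul, he, smul_add, smul_smul, add_assoc]

end Pool.Agent.H110R3.BP2
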