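import Pool.Agent.H110R3.BP2.Stubs

set_option autoImplicit false

namespace Pool.Agent.H110R3.BP2

open Polynomial Pool.Agent.H207R2.BL Pool.Agent.H110R3.BP

/-- heights of the special paths -/
theorem U23_hgt (n : ℕ) (b : Bool) (j : ℕ) (hj : j + 1 ≤ 2 * n + 2) :
    hgt n (sp n b) (j + 1) =
      (if j = 0 then 0 else if j % 2 = 1 then 1 else 2) * (if b then 1 else -1) := by
  induction j with
  | zero =>
    rw [hgt_succ, hgt_zero]
    simp [sp, st]
  | succ j ih =>
    rw [hgt_succ, ih (by omega)]
    have hst : (st n (j + 1)).val = j + 1 := by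
      unfold st
      rw [Fin.val_ofNat]
      exact Nat.mod_eq_of_lt (by omega)
    have h1 : sp n b (st n (j + 1)) = if j = 0 then b else if (j + 1) % 2 = 0 then b else !b := by
      unfold sp
      rw [hst]
      simp
    rw [h1]
    rcases Nat.even_or_odd j with he | ho
    · rw [Nat.even_iff] at he
      rcases Nat.eq_zero_or_pos j with h0 | h0
      · subst h0
        cases b <;> simp
      · have e1 : (j + 1) % 2 = 1 := by omega
        have e2 : j ≠ 0 := by omega
        cases b <;> simp [e1, e2, he]
    · rw [Nat.odd_iff] at ho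
      have e1 : (j + 1) % 2 = 0 := by omega
      have e2 : j ≠ 0 := by omega
      cases b <;> simp [e1, e2, ho]

/-- values of the generating functions at the special paths -/
theorem U23_gen (n : ℕ) (η β : ℕ → ℕ) :
    (gen n η β (sp n true) = 0 ∧ gen n η β (sp n false) = 0) ∨
    (gen n η β (sp n true) = 1 ∧ (gen n η β (sp n false) = 1 ∨ gen n η β (sp n false) = -1)) := by
  have hst0 : (st n 0).val = 0 := by
    unfold st
    simp
  have hs0 : ∀ b, sp n b (st n 0) = false := by
    intro b
    unfold sp
    rw [if_pos hst0]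
  have habs : ∀ j ∈ Finset.Icc 1 (2 * n + 2),
      (hgt n (sp n true) j).natAbs = (hgt n (sp n false) j).natAbs := by
    intro j hj
    rw [Finset.mem_Icc] at hj
    obtain ⟨k, rfl⟩ : ∃ k, j = k + 1 := ⟨j - 1, by omega⟩
    rw [U23_hgt n true k hj.2, U23_hgt n false k hj.2]
    simp
  by_cases hc : ∀ j ∈ Finset.Icc 1 (2 * n + 2), (hgt n (sp n true) j).natAbs = η j
  · right
    have hc' : ∀ j ∈ Finset.Icc 1 (2 * n + 2), (hgt n (sp n false) j).natAbs = η j := by
      intro j hj
      rw [← habs j hj]
      exact hc j hj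
    unfold gen
    rw [if_pos ⟨hs0 true, hc⟩, if_pos ⟨hs0 false, hc'⟩]
    constructor
    · apply Finset.prod_eq_one
      intro i hi
      rw [Finset.mem_range] at hi
      have h1 : hgt n (sp n true) (2 * i + 2) = 1 := by
        rw [U23_hgt n true (2 * i + 1) (by omega)]
        have e1 : (2 * i + 1) % 2 = 1 := by omega
        simp [e1]
      rw [h1]
      simp
    · have h2 : ∏ i ∈ Finset.range (n + 1),
          ((SignType.sign (hgt n (sp n false) (2 * i + 2)) : ℤ) : ℝ) ^ β i =
          (-1 : ℝ) ^ (∑ i ∈ Finset.range (n + 1), β i) := by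
        rw [← Finset.prod_pow_eq_pow_sum]
        apply Finset.prod_congr rfl
        intro i hi
        rw [Finset.mem_range] at hi
        have h1 : hgt n (sp n false) (2 * i + 2) = -1 := by
          rw [U23_hgt n false (2 * i + 1) (by omega)]
          have e1 : (2 * i + 1) % 2 = 1 := by omega
          simp [e1]
        rw [h1]
        simp
      rw [h2]
      exact neg_one_pow_eq_or ℝ _
  · left
    have hc' : ¬ ∀ j ∈ Finset.Icc 1 (2 * n + 2), (hgt n (sp n false) j).natAbs = η j := by
      intro h
      apply hc
      intro j hj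
      rw [habs j hj]
      exact h j hj
    unfold gen
    rw [if_neg (fun h => hc h.2), if_neg (fun h => hc' h.2)]
    exact ⟨rfl, rfl⟩

theorem cone_sp_pf (n : ℕ) (f : Fn (Fin (2 * n + 2)) Bool) (hf : Cone n f) :
    0 ≤ f (sp n true) + f (sp n false) ∧ 0 ≤ f (sp n true) - f (sp n false) := by
  induction hf with
  | zero => simp
  | add f g _ _ ih1 ih2 =>
    simp only [Pi.add_apply]
    constructor
    · linarith [ih1.1, ih2.1]
    · linarith [ih1.2, ih2.2]
  | smul r f hr _ ih =>
    simp only [Pi.smul_apply, smul_eq_mul]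
    constructor
    · have := mul_nonneg hr ih.1
      linarith
    · have := mul_nonneg hr ih.2
      linarith
  | gen η β =>
    rcases U23_gen n η β with h | h
    · rw [h.1, h.2]; simp
    · rcases h.2 with h2 | h2
      · rw [h.1, h2]; norm_num
      · rw [h.1, h2]; norm_num

end Pool.Agent.H110R3.BP2
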