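import Pool.Agent.H110R3.BP2.Stubs
set_option autoImplicit false
namespace Pool.Agent.H110R3.BP2
open Polynomial Pool.Agent.H207R2.BL Pool.Agent.H110R3.BP

theorem U24_sp_val (n : ℕ) (b : Bool) (j : ℕ) (hj : j ≤ 2 * n + 1) : sp n b (st n j) =
    if j = 0 then false else if j = 1 then b else if j % 2 = 0 then b else !b := by
  unfold sp
  rw [st_val n j hj]

theorem U24_sp_zero (n : ℕ) (b : Bool) : sp n b (st n 0) = false := by
  rw [U24_sp_val n b 0 (by omega), if_pos rfl]

theorem U24_sp_one (n : ℕ) (b : Bool) : sp n b (st n 1) = b := by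
  rw [U24_sp_val n b 1 (by omega), if_neg (show ¬ (1 : ℕ) = 0 by omega), if_pos rfl]

theorem U24_sp_even (n : ℕ) (b : Bool) (j : ℕ) (hj : j ≤ 2 * n + 1) (h2 : 2 ≤ j)
    (h : j % 2 = 0) : sp n b (st n j) = b := by
  rw [U24_sp_val n b j hj, if_neg (show ¬ j = 0 by omega), if_neg (show ¬ j = 1 by omega), if_pos h]

theorem U24_sp_odd (n : ℕ) (b : Bool) (j : ℕ) (hj : j ≤ 2 * n + 1) (h2 : 2 ≤ j)
    (h : ¬ j % 2 = 0) : sp n b (st n j) = !b := by
  rw [U24_sp_val n b j hj, if_neg (show ¬ j = 0 by omega), if_neg (show ¬ j = 1 by omega), if_neg h]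

theorem U24_eta_one : eta0 1 = 0 := by
  unfold eta0
  rw [if_pos rfl]

theorem U24_eta_even (j : ℕ) (h1 : j ≠ 1) (h : j % 2 = 0) : eta0 j = 1 := by
  unfold eta0
  rw [if_neg h1, if_pos (Nat.even_iff.2 h)]

theorem U24_eta_odd (j : ℕ) (h1 : j ≠ 1) (h : j % 2 = 1) : eta0 j = 2 := by
  unfold eta0
  rw [if_neg h1, if_neg (fun h2 => by have := Nat.even_iff.1 h2; omega)]

/-- heights of the special paths -/
theorem U24_hgt_sp (n : ℕ) (b : Bool) (j : ℕ) (hj : j + 1 ≤ 2 * n + 2) :
    hgt n (sp n b) (j + 1) = (if b then 1 else -1) * (eta0 (j + 1) : ℤ) := by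
  induction j with
  | zero =>
    rw [hgt_succ, hgt_zero, U24_sp_zero, zero_add, U24_eta_one]
    simp
  | succ j ih =>
    rw [hgt_succ, ih (by omega)]
    by_cases h1 : j = 0
    · subst h1
      rw [zero_add, U24_sp_one, U24_eta_one, U24_eta_even (1 + 1) (by omega) (by omega)]
      cases b <;> simp
    · by_cases h2 : (j + 1) % 2 = 0
      · rw [U24_sp_even n b (j + 1) (by omega) (by omega) h2, U24_eta_even (j + 1) (by omega) h2,
          U24_eta_odd (j + 1 + 1) (by omega) (by omega)]
        cases b <;> simp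
      · rw [U24_sp_odd n b (j + 1) (by omega) (by omega) h2,
          U24_eta_odd (j + 1) (by omega) (by omega),
          U24_eta_even (j + 1 + 1) (by omega) (by omega)]
        cases b <;> simp

/-- a path with the special absolute values of the heights -/
theorem U24_rec (n : ℕ) (s : Fin (2 * n + 2) → Bool) (h0 : s (st n 0) = false)
    (h : ∀ j ∈ Finset.Icc 1 (2 * n + 2), (hgt n s j).natAbs = eta0 j) (j : ℕ)
    (hj : j ≤ 2 * n + 1) :
    hgt n s (j + 1) = (if s (st n 1) then 1 else -1) * (eta0 (j + 1) : ℤ) ∧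
      s (st n j) = sp n (s (st n 1)) (st n j) := by
  induction j with
  | zero =>
    refine ⟨?_, ?_⟩
    · rw [hgt_succ, hgt_zero, h0, zero_add, U24_eta_one]
      simp
    · rw [h0, U24_sp_zero]
  | succ j ih =>
    obtain ⟨ih1, -⟩ := ih (by omega)
    have hs := hgt_succ n s (j + 1)
    have ha := h (j + 1 + 1) (Finset.mem_Icc.2 ⟨by omega, by omega⟩)
    by_cases h1 : j = 0
    · subst h1
      rw [zero_add] at hs ih1 ⊢
      rw [U24_sp_one]
      refine ⟨?_, rfl⟩
      rw [hs, ih1, U24_eta_one, U24_eta_even (1 + 1) (by omega) (by omega)]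
      simp
    · by_cases h2 : (j + 1) % 2 = 0
      · rw [U24_sp_even n _ (j + 1) (by omega) (by omega) h2]
        rw [U24_eta_even (j + 1) (by omega) h2] at ih1
        rw [U24_eta_odd (j + 1 + 1) (by omega) (by omega)] at ha ⊢
        rw [ih1] at hs
        rw [hs] at ha ⊢
        cases hb : s (st n 1) <;> cases hc : s (st n (j + 1)) <;> rw [hb, hc] at ha <;>
          simp at ha ⊢
      · rw [U24_sp_odd n _ (j + 1) (by omega) (by omega) h2]
        rw [U24_eta_odd (j + 1) (by omega) (by omega)] at ih1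
        rw [U24_eta_even (j + 1 + 1) (by omega) (by omega)] at ha ⊢
        rw [ih1] at hs
        rw [hs] at ha ⊢
        cases hb : s (st n 1) <;> cases hc : s (st n (j + 1)) <;> rw [hb, hc] at ha <;>
          simp at ha ⊢

theorem U24_iff (n : ℕ) (s : Fin (2 * n + 2) → Bool) :
    (s (st n 0) = false ∧ ∀ j ∈ Finset.Icc 1 (2 * n + 2), (hgt n s j).natAbs = eta0 j) ↔
      (s = sp n true ∨ s = sp n false) := by
  constructor
  · rintro ⟨h0, h⟩
    have key : s = sp n (s (st n 1)) := by
      funext i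
      have hi : i = st n i.val := Fin.ext (st_val n i.val (by omega)).symm
      rw [hi]
      exact (U24_rec n s h0 h i.val (by omega)).2
    cases hb : s (st n 1)
    · right
      rw [hb] at key
      exact key
    · left
      rw [hb] at key
      exact key
  · have key : ∀ b, (sp n b (st n 0) = false ∧
        ∀ j ∈ Finset.Icc 1 (2 * n + 2), (hgt n (sp n b) j).natAbs = eta0 j) := by
      intro b
      refine ⟨U24_sp_zero n b, fun j hj => ?_⟩
      obtain ⟨j1, j2⟩ := Finset.mem_Icc.1 hj
      obtain ⟨k, rfl⟩ : ∃ k, j = k + 1 := ⟨j - 1, by omega⟩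
      rw [U24_hgt_sp n b k j2]
      cases b <;> simp
    rintro (h | h)
    · rw [h]; exact key true
    · rw [h]; exact key false

theorem U24_ne (n : ℕ) : sp n false ≠ sp n true := by
  intro h
  have h1 := congrFun h (st n 1)
  rw [U24_sp_one, U24_sp_one] at h1
  simp at h1

theorem gE_eq_pf (n : ℕ) (s : Fin (2 * n + 2) → Bool) :
    gE n s = if s = sp n true ∨ s = sp n false then 1 else 0 := by
  unfold gE gen
  by_cases h : s = sp n true ∨ s = sp n false
  · rw [if_pos h, if_pos ((U24_iff n s).2 h)]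
    simp
  · rw [if_neg h, if_neg (fun h2 => h ((U24_iff n s).1 h2))]

theorem gO_eq_pf (n : ℕ) (s : Fin (2 * n + 2) → Bool) :
    gO n s = if s = sp n true then 1 else if s = sp n false then -1 else 0 := by
  have key : ∀ b, ∏ i ∈ Finset.range (n + 1),
      ((SignType.sign (hgt n (sp n b) (2 * i + 2)) : ℤ) : ℝ) ^ (if i = 0 then 1 else 0) =
      if b then 1 else -1 := by
    intro b
    rw [Finset.prod_eq_single 0]
    · rw [if_pos rfl, pow_one, mul_zero, zero_add]
      have := U24_hgt_sp n b 1 (by omega)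
      rw [U24_eta_even (1 + 1) (by omega) (by omega)] at this
      rw [this]
      cases b <;> simp
    · intro i _ hi
      rw [if_neg hi, pow_zero]
    · intro h
      exact absurd (Finset.mem_range.2 (by omega)) h
  unfold gO gen
  by_cases h1 : s = sp n true
  · rw [if_pos h1, if_pos ((U24_iff n s).2 (Or.inl h1)), h1, key true]
    simp
  · rw [if_neg h1]
    by_cases h2 : s = sp n false
    · rw [if_pos h2, if_pos ((U24_iff n s).2 (Or.inr h2)), h2, key false]
      simp
    · rw [if_neg h2, if_neg (fun h3 => by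
        rcases (U24_iff n s).1 h3 with h3 | h3
        · exact h1 h3
        · exact h2 h3)]

end Pool.Agent.H110R3.BP2
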