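import Pool.Agent.H110R3.BP2.Stubs
set_option autoImplicit false
namespace Pool.Agent.H110R3.BP2
open Polynomial Pool.Agent.H207R2.BL Pool.Agent.H110R3.BP

theorem U_sp_pf (n : ℕ) (κ : ℕ → Bool) (h0 : κ 0 = false) (b : Bool) : U n κ (sp n b) = 1 := by
  unfold U
  refine Finset.prod_eq_one fun i hi => ?_
  have hi' : i < n + 1 := Finset.mem_range.1 hi
  rcases Nat.eq_zero_or_pos i with rfl | hpos
  · rw [h0]
    simp
  · have h1 : sp n b (st n (2 * i)) = b := by
      unfold sp
      rw [st_val n _ (by omega)]
      rw [if_neg (by omega), if_neg (by omega), if_pos (by omega)]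
    have h2 : sp n b (st n (2 * i + 1)) = !b := by
      unfold sp
      rw [st_val n _ (by omega)]
      rw [if_neg (by omega), if_neg (by omega), if_neg (by omega)]
    have h3 : sg n (sp n b) i = 1 := by
      unfold sg
      rw [h1, h2, if_neg]
      cases b <;> decide
    rw [h3]
    simp

theorem GU_gE_pf (n : ℕ) (κ : ℕ → Bool) (h0 : κ 0 = false) :
    GU n κ (gE n) = gE n ∧ GU n κ (gO n) = gO n := by
  constructor
  · funext s
    unfold GU
    rw [gE_eq]
    split_ifs with h
    · rcases h with rfl | rfl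
      · rw [U_sp_pf n κ h0, one_mul]
      · rw [U_sp_pf n κ h0, one_mul]
    · rw [mul_zero]
  · funext s
    unfold GU
    rw [gO_eq]
    split_ifs with h h'
    · subst h
      rw [U_sp_pf n κ h0, one_mul]
    · subst h'
      rw [U_sp_pf n κ h0, one_mul]
    · rw [mul_zero]

end Pool.Agent.H110R3.BP2
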