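import Pool.Agent.H110R3.BP2.Stubs

set_option autoImplicit false

namespace Pool.Agent.H110R3.BP2

open Polynomial Pool.Agent.H207R2.BL Pool.Agent.H110R3.BP

theorem U26_GU_smul (n : ℕ) (κ : ℕ → Bool) (r : ℝ) (f : Fn (Fin (2 * n + 2)) Bool) :
    GU n κ (r • f) = r • GU n κ f := by
  funext s
  simp only [GU, Pi.smul_apply, smul_eq_mul]
  ring

theorem U26_GU_sub (n : ℕ) (κ : ℕ → Bool) (f g : Fn (Fin (2 * n + 2)) Bool) :
    GU n κ (f - g) = GU n κ f - GU n κ g := by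
  funext s
  simp only [GU, Pi.sub_apply]
  ring

theorem U26_cone1_smul (n : ℕ) (r : ℝ) (hr : 0 < r) (f : Fn (Fin (2 * n + 2)) Bool)
    (hf : Cone1 n f) : Cone1 n (r • f) := by
  obtain ⟨t, c, ht, hc, rfl⟩ := hf
  refine ⟨r * t, r • c, mul_pos hr ht, Cone.smul r c hr.le hc, ?_⟩
  rw [smul_add, smul_smul]

theorem U26_step (n : ℕ) (κ κ' : ℕ → Bool) (Op P : Module.End ℝ (Fn (Fin (2 * n + 2)) Bool))
    (hcomm : ∀ g, GU n κ' (P g) = Op (GU n κ g))
    (hgen : ∀ η β, Cone n (Op (gen n η β))) (h1 : Cone1 n (Op (gE n)))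
    (fE fO : Fn (Fin (2 * n + 2)) Bool) (hE : Cone1 n (GU n κ fE)) (hO : Cone n (GU n κ fO)) :
    Cone1 n (GU n κ' (P fE)) ∧ Cone n (GU n κ' (P fO)) := by
  rw [hcomm, hcomm]
  exact ⟨cone1_map n Op hgen h1 _ hE, cone_map n Op hgen _ hO⟩

theorem U26_T_cons {M : ℕ} {q : ℝ} {A : Type} [Ring A] [Algebra ℝ A] (S : TL M q A) (l : Let)
    (w : List Let) : T S (l :: w) = ev S l * T S w := by
  simp [T]

theorem U26_even (n : ℕ) {δ : ℝ} {S : ℤ → ℝ} (hS : Eig δ S) (hδ : 0 < δ) (q : ℝ)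
    (hq : q = δ ^ 2) (i : ℕ) : (pathTL n hS hδ q hq).e (2 * i) = δ • PopE n S 1 (2 * i) := by
  show (if Even (2 * i) then δ else δ⁻¹) • PopE n S 1 (2 * i) = _
  rw [if_pos (even_two_mul i)]

theorem U26_odd (n : ℕ) {δ : ℝ} {S : ℤ → ℝ} (hS : Eig δ S) (hδ : 0 < δ) (q : ℝ)
    (hq : q = δ ^ 2) (i : ℕ) :
    (pathTL n hS hδ q hq).e (2 * i + 1) = δ⁻¹ • PopE n S 1 (2 * i + 1) := by
  show (if Even (2 * i + 1) then δ else δ⁻¹) • PopE n S 1 (2 * i + 1) = _
  rw [if_neg (by rw [Nat.even_iff]; omega)]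

theorem word_cone_pf (n : ℕ) {δ : ℝ} {S : ℤ → ℝ} (hS : Eig δ S) (hδ : 0 < δ) (q : ℝ)
    (hq : q = δ ^ 2) (wd : List Let) (κ : ℕ → Bool) (hok : OK1 wd κ)
    (hr : ∀ l ∈ wd, InR1 n l) :
    Cone1 n (GU n κ (T (pathTL n hS hδ q hq) wd (gE n))) ∧
      Cone n (GU n κ (T (pathTL n hS hδ q hq) wd (gO n))) := by
  have hδi : 0 < δ⁻¹ := inv_pos.mpr hδ
  induction hok with
  | nil κ h0 =>
    have h : T (pathTL n hS hδ q hq) [] = 1 := by
      simp [T]
    rw [h, Module.End.one_apply, Module.End.one_apply, (GU_gE n κ h0).1, (GU_gE n κ h0).2]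
    refine ⟨⟨1, 0, one_pos, Cone.zero, by rw [one_smul, add_zero]⟩, Cone.gen _ _⟩
  | C i b wd κ hi h ih =>
    have hi2 : 1 ≤ i ∧ i ≤ n := hr _ List.mem_cons_self
    have ih' := ih (fun l hl => hr l (List.mem_cons_of_mem _ hl))
    rw [U26_T_cons, Module.End.mul_apply, Module.End.mul_apply]
    refine U26_step n κ _ (δ • PopE n S 1 (2 * i)) _ ?_ ?_ ?_ _ _ ih'.1 ih'.2
    · intro g
      show GU n _ ((pathTL n hS hδ q hq).e (2 * i) g) = _
      rw [U26_even, LinearMap.smul_apply, LinearMap.smul_apply, U26_GU_smul,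
        gauge_C n S κ i hi hi2.2 b g]
    · intro η β
      exact Cone.smul δ _ hδ.le (gen_C n hS i hi hi2.2 η β)
    · exact U26_cone1_smul n δ hδ _ (gE_C n hS i hi hi2.2)
  | J i wd κ hi h hκ ih =>
    have hi2 : 1 ≤ i ∧ i < n := hr _ List.mem_cons_self
    have ih' := ih (fun l hl => hr l (List.mem_cons_of_mem _ hl))
    rw [U26_T_cons, Module.End.mul_apply, Module.End.mul_apply]
    refine U26_step n κ _ (δ⁻¹ • PopE n S 1 (2 * i + 1)) _ ?_ ?_ ?_ _ _ ih'.1 ih'.2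
    · intro g
      show GU n _ ((pathTL n hS hδ q hq).e (2 * i + 1) g) = _
      rw [U26_odd, LinearMap.smul_apply, LinearMap.smul_apply, U26_GU_smul,
        gauge_same n S κ i hi2.2 hκ g]
    · intro η β
      exact Cone.smul δ⁻¹ _ hδi.le (gen_J n hS hδ i hi2.2 η β)
    · exact U26_cone1_smul n δ⁻¹ hδi _ (gE_J n hS hδ i hi hi2.2)
  | X i wd κ hi h hκ ih =>
    have hi2 : i < n := hr _ List.mem_cons_self
    have ih' := ih (fun l hl => hr l (List.mem_cons_of_mem _ hl))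
    rw [U26_T_cons, Module.End.mul_apply, Module.End.mul_apply]
    refine U26_step n κ _ (1 - δ⁻¹ • PopE n S (-1) (2 * i + 1)) _ ?_ ?_ ?_ _ _ ih'.1 ih'.2
    · intro g
      show GU n _ ((1 - (pathTL n hS hδ q hq).e (2 * i + 1)) g) = _
      rw [U26_odd, LinearMap.sub_apply, LinearMap.sub_apply, LinearMap.smul_apply,
        LinearMap.smul_apply, U26_GU_sub, U26_GU_smul, gauge_diff n S κ i hi2 hκ g,
        Module.End.one_apply, Module.End.one_apply]
    · intro η β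
      exact gen_X n hS hδ i hi2 η β
    · exact gE_X n hS hδ i hi2
  | X0 wd κ h ih =>
    have hi2 : 0 < n := hr _ List.mem_cons_self
    have ih' := ih (fun l hl => hr l (List.mem_cons_of_mem _ hl))
    rw [U26_T_cons, Module.End.mul_apply, Module.End.mul_apply]
    by_cases hκ : κ 0 = κ (0 + 1)
    · refine U26_step n κ _ (1 - δ⁻¹ • PopE n S 1 1) _ ?_ ?_ ?_ _ _ ih'.1 ih'.2
      · intro g
        show GU n _ ((1 - (pathTL n hS hδ q hq).e (2 * 0 + 1)) g) = _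
        rw [U26_odd, LinearMap.sub_apply, LinearMap.sub_apply, LinearMap.smul_apply,
          LinearMap.smul_apply, U26_GU_sub, U26_GU_smul, gauge_same n S κ 0 hi2 hκ g,
          Module.End.one_apply, Module.End.one_apply]
      · intro η β
        exact gen_X0 n hS hδ hi2 η β
      · exact gE_X0 n hS hδ hi2
    · refine U26_step n κ _ (1 - δ⁻¹ • PopE n S (-1) (2 * 0 + 1)) _ ?_ ?_ ?_ _ _ ih'.1 ih'.2
      · intro g
        show GU n _ ((1 - (pathTL n hS hδ q hq).e (2 * 0 + 1)) g) = _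
        rw [U26_odd, LinearMap.sub_apply, LinearMap.sub_apply, LinearMap.smul_apply,
          LinearMap.smul_apply, U26_GU_sub, U26_GU_smul, gauge_diff n S κ 0 hi2 hκ g,
          Module.End.one_apply, Module.End.one_apply]
      · intro η β
        exact gen_X n hS hδ 0 hi2 η β
      · exact gE_X n hS hδ 0 hi2

end Pool.Agent.H110R3.BP2
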