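import Pool.Agent.H110R3.BP2.Stubs

set_option autoImplicit false

/-! Words of detachments (M2, M2', M3). -/

namespace Pool.Agent.H110R3.BP2

open Polynomial Pool.Agent.H207R2.BL Pool.Agent.H110R3.BP

-- M2: words of detachments (of columns other than `0`)
theorem allC_ok_pf (n : ℕ) (v w : List Let) (hv : ∀ l ∈ v, ∃ i, 1 ≤ i ∧ i ≤ n ∧ l = Let.C i)
    (κ : ℕ → Bool) (h : OK1 w κ) :
    (∃ κ' : ℕ → Bool, OK1 (v ++ w) κ') ∧ (∀ l ∈ v, InR1 n l) := by
  induction v with
  | nil => exact ⟨⟨κ, h⟩, by simp⟩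
  | cons l v ih =>
    obtain ⟨⟨κ', hκ'⟩, hr⟩ := ih (fun l hl => hv l (List.mem_cons_of_mem _ hl))
    obtain ⟨i, h1, h2, rfl⟩ := hv l List.mem_cons_self
    refine ⟨⟨Function.update κ' i false, OK1.C i false (v ++ w) κ' h1 hκ'⟩, ?_⟩
    intro l hl
    rcases List.mem_cons.1 hl with rfl | hl
    · exact ⟨h1, h2⟩
    · exact hr l hl

-- M2'
theorem allC_mem_pf (n : ℕ) : ∀ l ∈ allC n, ∃ i, 1 ≤ i ∧ i ≤ n ∧ l = Let.C i := by
  intro l hl
  obtain ⟨i, hi, rfl⟩ := List.mem_map.1 hl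
  have := List.mem_range.1 hi
  exact ⟨i + 1, by omega, by omega, rfl⟩

theorem U27_comm {M : ℕ} {q : ℝ} {A : Type} [Ring A] [Algebra ℝ A] (S : TL M q A) (i k : ℕ)
    (hi : 2 * (i + 1) < M) (hk : 2 * (k + 1) < M) :
    S.e (2 * (i + 1)) * S.e (2 * (k + 1)) = S.e (2 * (k + 1)) * S.e (2 * (i + 1)) := by
  rcases lt_trichotomy i k with h | h | h
  · exact S.comm _ _ (by omega) hk
  · rw [h]
  · exact (S.comm _ _ (by omega) hi).symm

theorem U27_T_cons {M : ℕ} {q : ℝ} {A : Type} [Ring A] [Algebra ℝ A] (S : TL M q A) (i : ℕ)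
    (l : List ℕ) : T S ((i :: l).map (fun i => Let.C (i + 1))) =
      S.e (2 * (i + 1)) * T S (l.map (fun i => Let.C (i + 1))) := by
  simp [T, ev]

theorem U27_commT {M : ℕ} {q : ℝ} {A : Type} [Ring A] [Algebra ℝ A] (S : TL M q A) (k : ℕ)
    (hk : 2 * (k + 1) < M) (l : List ℕ) (hl : ∀ i ∈ l, 2 * (i + 1) < M) :
    T S (l.map (fun i => Let.C (i + 1))) * S.e (2 * (k + 1)) =
      S.e (2 * (k + 1)) * T S (l.map (fun i => Let.C (i + 1))) := by
  induction l with
  | nil => simp [T]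
  | cons i l ih =>
    have h1 := ih (fun i hi => hl i (List.mem_cons_of_mem _ hi))
    have h2 := U27_comm S i k (hl i List.mem_cons_self) hk
    rw [U27_T_cons, mul_assoc, h1, ← mul_assoc, h2, mul_assoc]

theorem U27_eig {M : ℕ} {q : ℝ} {A : Type} [Ring A] [Algebra ℝ A] (S : TL M q A) (k : ℕ)
    (hk : 2 * (k + 1) < M) (l : List ℕ) (hl : ∀ i ∈ l, 2 * (i + 1) < M) (hm : k ∈ l) :
    S.e (2 * (k + 1)) * T S (l.map (fun i => Let.C (i + 1))) =
      q • T S (l.map (fun i => Let.C (i + 1))) := by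
  induction l with
  | nil => simp at hm
  | cons i l ih =>
    rw [U27_T_cons]
    by_cases hik : k = i
    · subst hik
      have hs := S.sq (2 * (k + 1)) hk
      rw [if_pos (even_two_mul _)] at hs
      rw [← mul_assoc, hs, smul_mul_assoc]
    · have hm' : k ∈ l := by
        rcases List.mem_cons.1 hm with h | h
        · exact absurd h hik
        · exact h
      have h1 := ih (fun i hi => hl i (List.mem_cons_of_mem _ hi)) hm'
      rw [← mul_assoc, U27_comm S k i hk (hl i List.mem_cons_self), mul_assoc, h1, mul_smul_comm]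

-- M3: detaching all columns gives an eigenvector of all detachments
theorem allC_eig_pf (n : ℕ) (q : ℝ) (A : Type) [Ring A] [Algebra ℝ A] (S : TL (2 * n + 1) q A)
    (j : ℕ) (h1 : 1 ≤ j) (hj : j < 2 * n + 1) (he : Even j) :
    S.e j * T S (allC n) = q • T S (allC n) ∧ T S (allC n) * S.e j = q • T S (allC n) := by
  obtain ⟨k, rfl⟩ : ∃ k, j = 2 * (k + 1) := by
    obtain ⟨r, hr⟩ := he
    exact ⟨r - 1, by omega⟩
  have hl : ∀ i ∈ List.range n, 2 * (i + 1) < 2 * n + 1 := by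
    intro i hi
    have := List.mem_range.1 hi
    omega
  have e1 := U27_eig S k hj (List.range n) hl (List.mem_range.2 (by omega))
  have e2 := U27_commT S k hj (List.range n) hl
  exact ⟨e1, e2.trans e1⟩

end Pool.Agent.H110R3.BP2
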