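import Pool.Agent.H110R3.BP2.Stubs

set_option autoImplicit false

namespace Pool.Agent.H110R3.BP2

open Polynomial Pool.Agent.H207R2.BL Pool.Agent.H110R3.BP

theorem U28_T_cons {M : ℕ} {q : ℝ} {A : Type} [Ring A] [Algebra ℝ A] (S : TL M q A) (l : Let)
    (w : List Let) : T S (l :: w) = ev S l * T S w := by
  simp [T]

theorem U28_symm (n : ℕ) {δ : ℝ} {S : ℤ → ℝ} (hS : Eig δ S) (hδ : 0 < δ) (q : ℝ)
    (hq : q = δ ^ 2) (j : ℕ) (hj : j ≤ 2 * n) (f g : Fn (Fin (2 * n + 2)) Bool) :
    ip f ((pathTL n hS hδ q hq).e j g) = ip ((pathTL n hS hδ q hq).e j f) g := by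
  show ip f (((if Even j then δ else δ⁻¹) • PopE n S 1 j) g) =
    ip (((if Even j then δ else δ⁻¹) • PopE n S 1 j) f) g
  rw [LinearMap.smul_apply, LinearMap.smul_apply, ip_smul_right, ip_smul_left,
    Pop_symm n S j hj f g]

theorem U28_ev (n : ℕ) {δ : ℝ} {S : ℤ → ℝ} (hS : Eig δ S) (hδ : 0 < δ) (q : ℝ)
    (hq : q = δ ^ 2) (l : Let) (hl : InR1 n l) (f g : Fn (Fin (2 * n + 2)) Bool) :
    ip (ev (pathTL n hS hδ q hq) l f) g = ip f (ev (pathTL n hS hδ q hq) l g) := by
  cases l with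
  | C i =>
    have h : 1 ≤ i ∧ i ≤ n := hl
    exact (U28_symm n hS hδ q hq (2 * i) (by omega) f g).symm
  | J i =>
    have h : 1 ≤ i ∧ i < n := hl
    exact (U28_symm n hS hδ q hq (2 * i + 1) (by omega) f g).symm
  | X i =>
    have h : i < n := hl
    have h1 := U28_symm n hS hδ q hq (2 * i + 1) (by omega) f g
    show ip ((1 - (pathTL n hS hδ q hq).e (2 * i + 1)) f) g =
      ip f ((1 - (pathTL n hS hδ q hq).e (2 * i + 1)) g)
    rw [LinearMap.sub_apply, LinearMap.sub_apply, Module.End.one_apply, Module.End.one_apply]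
    have e1 : ip (f - (pathTL n hS hδ q hq).e (2 * i + 1) f) g =
        ip f g - ip ((pathTL n hS hδ q hq).e (2 * i + 1) f) g := by
      simp only [ip, Pi.sub_apply, sub_mul, Finset.sum_sub_distrib]
    have e2 : ip f (g - (pathTL n hS hδ q hq).e (2 * i + 1) g) =
        ip f g - ip f ((pathTL n hS hδ q hq).e (2 * i + 1) g) := by
      simp only [ip, Pi.sub_apply, mul_sub, Finset.sum_sub_distrib]
    rw [e1, e2, h1]

theorem adj_word_pf (n : ℕ) {δ : ℝ} {S : ℤ → ℝ} (hS : Eig δ S) (hδ : 0 < δ) (q : ℝ)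
    (hq : q = δ ^ 2) (v : List Let) (hv : ∀ l ∈ v, InR1 n l) (f g : Fn (Fin (2 * n + 2)) Bool) :
    ip (T (pathTL n hS hδ q hq) v f) g = ip f (T (pathTL n hS hδ q hq) v.reverse g) := by
  induction v generalizing g with
  | nil => simp [T]
  | cons l v ih =>
    rw [U28_T_cons, Module.End.mul_apply, U28_ev n hS hδ q hq l (hv l List.mem_cons_self),
      ih (fun l' hl' => hv l' (List.mem_cons_of_mem _ hl')), List.reverse_cons, T_append,
      Module.End.mul_apply]
    congr 2

theorem U28_ok_zero (w : List Let) (κ : ℕ → Bool) (h : OK1 w κ) : κ 0 = false := by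
  induction h with
  | nil κ h0 => exact h0
  | C i b w κ hi h ih =>
    rw [Function.update_of_ne (by omega)]
    exact ih
  | J i w κ hi h hκ ih => exact ih
  | X i w κ hi h hκ ih => exact ih
  | X0 w κ h ih => exact ih

theorem U28_ok_C (v w : List Let) (hv : ∀ l ∈ v, ∃ i, 1 ≤ i ∧ l = Let.C i) (κ : ℕ → Bool)
    (h : OK1 w κ) : OK1 (v ++ w) κ := by
  induction v with
  | nil => exact h
  | cons l v ih =>
    obtain ⟨i, hi, rfl⟩ := hv l List.mem_cons_self
    have ih' := ih (fun l' hl' => hv l' (List.mem_cons_of_mem _ hl'))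
    have h1 := OK1.C i (κ i) (v ++ w) κ hi ih'
    rw [Function.update_eq_self] at h1
    exact h1

theorem U28_ok_append (v w : List Let) (κ : ℕ → Bool) (h : OK1 w κ)
    (hv : ∀ κ0 : ℕ → Bool, κ0 0 = false → OK1 v κ0) : OK1 (w ++ v) κ := by
  induction h with
  | nil κ h0 => exact hv κ h0
  | C i b w κ hi h ih => exact OK1.C i b _ κ hi ih
  | J i w κ hi h hκ ih => exact OK1.J i _ κ hi ih hκ
  | X i w κ hi h hκ ih => exact OK1.X i _ κ hi ih hκ
  | X0 w κ h ih => exact OK1.X0 _ κ ih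

/-- the vector state -/
def U28_vec (n : ℕ) {δ : ℝ} {S : ℤ → ℝ} (hS : Eig δ S) (hδ : 0 < δ) (q : ℝ)
    (hq : q = δ ^ 2) (ω : Fn (Fin (2 * n + 2)) Bool)
    (hω : ∀ j, 1 ≤ j → j < 2 * n + 1 → Even j → (pathTL n hS hδ q hq).e j ω = q • ω) :
    State1 (pathTL n hS hδ q hq) where
  φ :=
    { toFun := fun T => ip ω (T ω)
      map_add' := by
        intro T U
        simp only [LinearMap.add_apply, ip, Pi.add_apply, mul_add, Finset.sum_add_distrib]
      map_smul' := by
        intro r T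
        simp only [LinearMap.smul_apply, ip_smul_right, RingHom.id_apply, smul_eq_mul] }
  left := by
    intro j h1 hj he x
    change ip ω (((pathTL n hS hδ q hq).e j * x) ω) = q * ip ω (x ω)
    rw [Module.End.mul_apply, U28_symm n hS hδ q hq j (by omega), hω j h1 hj he, ip_smul_left]
  right := by
    intro j h1 hj he x
    change ip ω ((x * (pathTL n hS hδ q hq).e j) ω) = q * ip ω (x ω)
    rw [Module.End.mul_apply, hω j h1 hj he, map_smul, ip_smul_right]

/-- indicator function -/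
def U28_d (n : ℕ) (b : Bool) : Fn (Fin (2 * n + 2)) Bool := fun s => if s = sp n b then 1 else 0

theorem U28_ip_d (n : ℕ) (b : Bool) (f : Fn (Fin (2 * n + 2)) Bool) :
    ip (U28_d n b) f = f (sp n b) := by
  unfold ip U28_d
  simp

theorem U28_sp_ne (n : ℕ) : sp n true ≠ sp n false := by
  intro h
  have h1 := congrFun h ⟨1, by omega⟩
  simp [sp] at h1

theorem U28_gE (n : ℕ) : gE n = U28_d n true + U28_d n false := by
  funext s
  rw [gE_eq]
  simp only [U28_d, Pi.add_apply]
  by_cases h1 : s = sp n true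
  · have h2 : s ≠ sp n false := by
      rw [h1]
      exact U28_sp_ne n
    simp [h1, U28_sp_ne n]
  · by_cases h2 : s = sp n false
    · simp [h2, (U28_sp_ne n).symm]
    · simp [h1, h2]

theorem U28_gO (n : ℕ) : gO n = U28_d n true - U28_d n false := by
  funext s
  rw [gO_eq]
  simp only [U28_d, Pi.sub_apply]
  by_cases h1 : s = sp n true
  · simp [h1, U28_sp_ne n]
  · by_cases h2 : s = sp n false
    · simp [h2, (U28_sp_ne n).symm]
    · simp [h1, h2]

theorem value_pos_pf (n : ℕ) (q : ℝ) (hq : 4 ≤ q) (wd : List Let) (κ : ℕ → Bool)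
    (hok : OK1 wd κ) (hr : ∀ l ∈ wd, InR1 n l) (R : ℝ)
    (hR : ∀ (A : Type) [Ring A] [Algebra ℝ A] (S : TL (2 * n + 1) q A) (F : State1 S),
      F.φ (T S wd) = R * F.φ 1) : 0 < R := by
  obtain ⟨δ, S, hδ, hqδ, hS⟩ := exists_eig q hq
  have hmem : ∀ l ∈ allC n, InR1 n l := by
    intro l hl
    obtain ⟨i, h1, h2, rfl⟩ := allC_mem n l hl
    exact ⟨h1, h2⟩
  have hCm : ∀ l ∈ allC n, ∃ i, 1 ≤ i ∧ l = Let.C i := by
    intro l hl
    obtain ⟨i, h1, h2, rfl⟩ := allC_mem n l hl
    exact ⟨i, h1, rfl⟩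
  have hCr : ∀ l ∈ (allC n).reverse, ∃ i, 1 ≤ i ∧ l = Let.C i :=
    fun l hl => hCm l (List.mem_reverse.1 hl)
  -- the long word
  have hok' : OK1 ((allC n).reverse ++ (wd ++ allC n)) κ := by
    apply U28_ok_C _ _ hCr
    apply U28_ok_append _ _ _ hok
    intro κ0 h0
    have := U28_ok_C (allC n) [] hCm κ0 (OK1.nil κ0 h0)
    rwa [List.append_nil] at this
  have hr' : ∀ l ∈ (allC n).reverse ++ (wd ++ allC n), InR1 n l := by
    intro l hl
    rcases List.mem_append.1 hl with h | h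
    · exact hmem l (List.mem_reverse.1 h)
    · rcases List.mem_append.1 h with h | h
      · exact hr l h
      · exact hmem l h
  have h0 : κ 0 = false := U28_ok_zero wd κ hok
  obtain ⟨⟨t, c, ht, hc, hE⟩, hO⟩ := word_cone n hS hδ q hqδ _ κ hok' hr'
  set P := pathTL n hS hδ q hqδ with hP
  set Op := T P ((allC n).reverse ++ (wd ++ allC n)) with hOp
  -- values at the special paths
  have hUE : ∀ b, (Op (gE n)) (sp n b) = t * gE n (sp n b) + c (sp n b) := by
    intro b
    have h1 := congrFun hE (sp n b)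
    simp only [GU, U_sp n κ h0 b, one_mul, Pi.add_apply, Pi.smul_apply, smul_eq_mul] at h1
    exact h1
  have hgEt : gE n (sp n true) = 1 := by rw [gE_eq]; simp
  have hgEf : gE n (sp n false) = 1 := by rw [gE_eq]; simp
  have hcs := (cone_sp n c hc).1
  have hos := (cone_sp n _ hO).2
  simp only [GU, U_sp n κ h0 true, U_sp n κ h0 false, one_mul] at hos
  have hsum : 0 < (Op (gE n)) (sp n true) + (Op (gE n)) (sp n false) := by
    rw [hUE, hUE, hgEt, hgEf]
    linarith
  rw [U28_gE, map_add] at hsum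
  rw [U28_gO, map_sub] at hos
  simp only [Pi.add_apply, Pi.sub_apply] at hsum hos
  have hpos : 0 < (Op (U28_d n true)) (sp n true) + (Op (U28_d n false)) (sp n false) := by
    linarith
  -- the states
  have hω : ∀ b j, 1 ≤ j → j < 2 * n + 1 → Even j →
      P.e j (T P (allC n) (U28_d n b)) = q • T P (allC n) (U28_d n b) := by
    intro b j h1 hj he
    have h2 := (allC_eig n q _ P j h1 hj he).1
    rw [← Module.End.mul_apply, h2, LinearMap.smul_apply]
  have hst : ∀ b, (Op (U28_d n b)) (sp n b) =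
      R * ip (T P (allC n) (U28_d n b)) (T P (allC n) (U28_d n b)) := by
    intro b
    have h1 := hR _ P (U28_vec n hS hδ q hqδ (T P (allC n) (U28_d n b)) (hω b))
    change ip (T P (allC n) (U28_d n b)) (T P wd (T P (allC n) (U28_d n b))) =
      R * ip (T P (allC n) (U28_d n b))
        ((1 : Module.End ℝ (Fn (Fin (2 * n + 2)) Bool)) (T P (allC n) (U28_d n b))) at h1
    rw [Module.End.one_apply] at h1
    rw [← h1, adj_word_pf n hS hδ q hqδ (allC n) hmem, U28_ip_d, hOp, T_append, T_append,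
      Module.End.mul_apply, Module.End.mul_apply]
  rw [hst true, hst false, ← mul_add] at hpos
  have h5 := ip_self_nonneg (T P (allC n) (U28_d n true))
  have h6 := ip_self_nonneg (T P (allC n) (U28_d n false))
  by_contra hcon
  have h7 : R ≤ 0 := not_lt.1 hcon
  have h8 := mul_nonneg (neg_nonneg.2 h7) (add_nonneg h5 h6)
  linarith

end Pool.Agent.H110R3.BP2
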