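import Pool.Agent.H110R3.BP2.Stubs

set_option autoImplicit false

namespace Pool.Agent.H110R3.BP2

open Polynomial Pool.Agent.H207R2.BL Pool.Agent.H110R3.BP

/-- forgetting the colour of the base vertex -/
theorem U29_sum {V : Type} [Fintype V] (k : ℕ) (u : V) (E : Set (Sym2 V)) :
    ∑ x : Fin k, cnt k [u] E [x] = cnt k [] E [] := by
  classical
  unfold cnt
  rw [Finset.sum_comm]
  refine Finset.sum_congr rfl fun g _ => ?_
  by_cases h : ∀ a b, s(a, b) ∈ E → g a ≠ g b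
  · rw [if_pos ⟨h, rfl⟩, Finset.sum_eq_single (g u)]
    · rw [if_pos ⟨h, rfl⟩]
    · intro x _ hx
      rw [if_neg]
      rintro ⟨-, h2⟩
      apply hx
      simpa using h2.symm
    · intro h2
      exact absurd (Finset.mem_univ _) h2
  · rw [if_neg (fun h2 => h h2.1)]
    refine Finset.sum_eq_zero fun x _ => ?_
    rw [if_neg (fun h2 => h h2.1)]

/-- the integer values -/
theorem U29_nat {V : Type} [Fintype V] (u : V) (G : SimpleGraph V) (p : ℝ[X])
    (hp : IsChrom G p) (w : List Let) (N a b : ℕ) (k : ℕ) (hk : 1 ≤ k)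
    (h : ∀ c : Fin (N + 1) → Fin k,
      (k : ℝ) ^ a * (T (PR N k) w (fun _ => 1)) c =
        (k : ℝ) ^ b * cnt k [u] G.edgeSet (cl (fun i => i) 1 c))
    (r : ℝ) (hr : ∀ F : State1 (PR N k), F.φ (T (PR N k) w) = r * F.φ 1) :
    (k : ℝ) ^ b * p.eval (k : ℝ) = (k : ℝ) ^ (a + 1) * r := by
  have hP2 : ∀ j, j < 2 * N + 1 → ∀ f g : Fn (Fin (N + 1)) (Fin k),
      ip f ((PR N k).e j g) = ip ((PR N k).e j f) g :=
    fun j hj f g => potts_symm N (pt N) (pt_inj N) _ _ j f g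
  have hP1 : ∀ j, j < 2 * N + 1 → Even j →
      (PR N k).e j (fun _ => 1) = (k : ℝ) • (fun _ => (1 : ℝ)) := by
    intro j hj he
    obtain ⟨i, rfl⟩ := even_iff_exists_two_mul.1 he
    rw [PR_even]
    funext c
    simp [Cop_apply]
  have e1 := hr ⟨(vecState (PR N k) hP2 (fun _ => 1) hP1).φ,
    fun j _ hj he x => (vecState (PR N k) hP2 (fun _ => 1) hP1).left j hj he x,
    fun j _ hj he x => (vecState (PR N k) hP2 (fun _ => 1) hP1).right j hj he x⟩
  change ip (fun _ => 1) (T (PR N k) w (fun _ => 1)) =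
    r * ip (fun _ => 1) ((1 : Module.End ℝ (Fn (Fin (N + 1)) (Fin k))) (fun _ => 1)) at e1
  have e3 : ip (fun _ : Fin (N + 1) → Fin k => (1 : ℝ))
      ((1 : Module.End ℝ (Fn (Fin (N + 1)) (Fin k))) (fun _ => 1)) = (k : ℝ) ^ (N + 1) := by
    simp [ip]
  have hcl : ∀ c : Fin (N + 1) → Fin k, cl (fun i => i) 1 c = [c (pt N 0)] := by
    intro c
    simp [cl]
  have e4 : (k : ℝ) * ∑ c : Fin (N + 1) → Fin k, cnt k [u] G.edgeSet [c (pt N 0)] =
      (k : ℝ) ^ (N + 1) * p.eval (k : ℝ) := by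
    have h1 := sum_update' (κ := Fin k) (pt N 0)
      (fun c : Fin (N + 1) → Fin k => cnt k [u] G.edgeSet [c (pt N 0)])
    simp only [Function.update_self, U29_sum, Fintype.card_fin] at h1
    rw [← h1, hp k, ← cnt_final G k]
    simp
  have e2 : (k : ℝ) ^ (a + 1) * ip (fun _ => 1) (T (PR N k) w (fun _ => 1)) =
      (k : ℝ) ^ (N + 1) * ((k : ℝ) ^ b * p.eval (k : ℝ)) := by
    have h1 : (k : ℝ) ^ a * ip (fun _ => 1) (T (PR N k) w (fun _ => 1)) =
        (k : ℝ) ^ b * ∑ c : Fin (N + 1) → Fin k, cnt k [u] G.edgeSet [c (pt N 0)] := by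
      unfold ip
      rw [Finset.mul_sum, Finset.mul_sum]
      refine Finset.sum_congr rfl fun c _ => ?_
      rw [one_mul, h c, hcl c]
    calc (k : ℝ) ^ (a + 1) * ip (fun _ => 1) (T (PR N k) w (fun _ => 1))
        = (k : ℝ) * ((k : ℝ) ^ a * ip (fun _ => 1) (T (PR N k) w (fun _ => 1))) := by
          rw [pow_succ]; ring
      _ = (k : ℝ) ^ b * ((k : ℝ) *
          ∑ c : Fin (N + 1) → Fin k, cnt k [u] G.edgeSet [c (pt N 0)]) := by
          rw [h1]; ring
      _ = _ := by rw [e4]; ring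
  rw [e1, e3] at e2
  have hk0 : (k : ℝ) ^ (N + 1) ≠ 0 := by
    have : (k : ℝ) ≠ 0 := by
      have : (1 : ℝ) ≤ (k : ℝ) := by exact_mod_cast hk
      linarith
    positivity
  apply mul_left_cancel₀ hk0
  rw [← e2]
  ring

theorem good1_pos_pf {V : Type} [Fintype V] (u : V) (col : V → Bool) (G : SimpleGraph V)
    (h : Good1 u col [] G.edgeSet) (p : ℝ[X]) (hp : IsChrom G p) (q : ℝ) (hq : 4 ≤ q) :
    0 < p.eval q := by
  obtain ⟨wd, κ, N, a, b, hok, -, hr, -, hw⟩ := h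
  obtain ⟨R, hR⟩ := state_T1 N wd hr
  have hq0 : q ≠ 0 := by linarith
  have hqpos : 0 < q := by linarith
  have hL := laurent_eq p (a + 1) b R (fun k hk => by
    have hk0 : (k : ℝ) ≠ 0 := by
      have : (1 : ℝ) ≤ (k : ℝ) := by exact_mod_cast hk
      linarith
    exact U29_nat u G p hp wd N a b k hk (hw N le_rfl k hk) _
      (fun F => hR (k : ℝ) hk0 _ (PR N k) F)) q hqpos
  have hRpos : 0 < (R.map (fun r => r.1 * q ^ r.2)).sum :=
    value_pos N q hq wd κ hok hr _ (fun A _ _ S F => hR q hq0 A S F)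
  have hprod : 0 < q ^ b * p.eval q := by
    rw [hL]
    positivity
  exact (pos_iff_pos_of_mul_pos hprod).1 (by positivity)

end Pool.Agent.H110R3.BP2
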