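import Pool.Agent.H110R3.BP2.Stubs

set_option autoImplicit false

namespace Pool.Agent.H110R3.BP2

open Polynomial Pool.Agent.H207R2.BL Pool.Agent.H110R3.BP

theorem U3_ne (n a b : ℕ) (ha : a ≤ 2 * n + 1) (hb : b ≤ 2 * n + 1) (h : a ≠ b) :
    st n a ≠ st n b := fun h' => h (st_inj n a b ha hb h')

theorem U3_chg_ne (n j k : ℕ) (hj : j ≤ 2 * n) (hk : k ≤ 2 * n + 1) (h1 : k ≠ j)
    (h2 : k ≠ j + 1) (s : Fin (2 * n + 2) → Bool) (x : Bool) :
    chg n j s x (st n k) = s (st n k) := by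
  unfold chg
  rw [Function.update_of_ne (U3_ne n k (j + 1) hk (by omega) h2),
    Function.update_of_ne (U3_ne n k j hk (by omega) h1)]

theorem U3_chg_j (n j : ℕ) (hj : j ≤ 2 * n) (s : Fin (2 * n + 2) → Bool) (x : Bool) :
    chg n j s x (st n j) = x := by
  unfold chg
  rw [Function.update_of_ne (U3_ne n j (j + 1) (by omega) (by omega) (by omega)),
    Function.update_self]

theorem U3_chg_j1 (n j : ℕ) (s : Fin (2 * n + 2) → Bool) (x : Bool) :
    chg n j s x (st n (j + 1)) = !x := by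
  unfold chg
  rw [Function.update_self]

theorem hgt_parity_pf (n : ℕ) (s : Fin (2 * n + 2) → Bool) (j : ℕ) :
    (hgt n s j) % 2 = (1 + (j : ℤ)) % 2 := by
  induction j with
  | zero => rw [hgt_zero]; simp
  | succ j ih =>
    rw [hgt_succ]
    push_cast
    split_ifs <;> omega

theorem hgt_chg_le_pf (n j : ℕ) (hj : j ≤ 2 * n) (s : Fin (2 * n + 2) → Bool) (x : Bool) (l : ℕ)
    (hl : l ≤ j) : hgt n (chg n j s x) l = hgt n s l := by
  unfold hgt
  congr 1
  refine Finset.sum_congr rfl fun i hi => ?_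
  have := Finset.mem_range.1 hi
  rw [U3_chg_ne n j i hj (by omega) (by omega) (by omega)]

theorem hgt_chg_mid_pf (n j : ℕ) (hj : j ≤ 2 * n) (s : Fin (2 * n + 2) → Bool) (x : Bool) :
    hgt n (chg n j s x) (j + 1) = hgt n s j + (if x then 1 else -1) := by
  rw [hgt_succ, hgt_chg_le_pf n j hj s x j le_rfl, U3_chg_j n j hj]

theorem hgt_chg_ge_pf (n j : ℕ) (hj : j ≤ 2 * n) (s : Fin (2 * n + 2) → Bool) (x : Bool) (l : ℕ)
    (hs : s (st n (j + 1)) = !(s (st n j))) (hl : j + 2 ≤ l) (hl2 : l ≤ 2 * n + 2) :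
    hgt n (chg n j s x) l = hgt n s l := by
  induction l, hl using Nat.le_induction with
  | base =>
    rw [hgt_succ, hgt_chg_mid_pf n j hj, U3_chg_j1, hgt_succ n s (j + 1), hgt_succ n s j, hs]
    cases x <;> cases s (st n j) <;> simp
  | succ l hl ih =>
    rw [hgt_succ, hgt_succ, ih (by omega),
      U3_chg_ne n j l hj (by omega) (by omega) (by omega)]

end Pool.Agent.H110R3.BP2
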