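import Pool.Agent.H110R3.BP2.Defs
set_option autoImplicit false
namespace Pool.Agent.H110R3.BP2
open Polynomial Pool.Agent.H207R2.BL Pool.Agent.H110R3.BP

namespace U30x

theorem shr (d : ℕ) : ∀ (p : ℕ) (w : List Let) (κ : ℕ → Bool), 1 ≤ p → OK1 w κ →
    ∃ κ' : ℕ → Bool, OK1 (shrW p d ++ w) κ' ∧ (∀ i, i ≤ p → κ' i = κ i) ∧
      (∀ i, p ≤ i → i < p + d → κ' (i + 1) = κ i) := by
  induction d with
  | zero =>
    intro p w κ _ h
    exact ⟨κ, h, fun i _ => rfl, fun i h1 h2 => absurd h2 (by omega)⟩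
  | succ d ih =>
    intro p w κ hp h
    obtain ⟨κ1, h1, h2, h3⟩ := ih (p + 1) w κ (by omega) h
    have e1 := OK1.C (p + 1) (κ p) _ _ (by omega) h1
    have e2 := OK1.J p _ _ hp e1 (by
      rw [Function.update_self, Function.update_of_ne (by omega), h2 p (by omega)])
    have e3 := OK1.C p (κ p) _ _ hp e2
    refine ⟨_, e3, fun i hi => ?_, fun i hi hi' => ?_⟩
    · by_cases hip : i = p
      · subst hip
        rw [Function.update_self]
      · rw [Function.update_of_ne hip, Function.update_of_ne (by omega), h2 i (by omega)]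
    · rw [Function.update_of_ne (by omega)]
      by_cases hip : i = p
      · subst hip
        rw [Function.update_self]
      · rw [Function.update_of_ne (by omega), h3 i (by omega) (by omega)]

theorem shl (d : ℕ) : ∀ (p : ℕ) (w : List Let) (κ : ℕ → Bool), 1 ≤ p → OK1 w κ →
    ∃ κ' : ℕ → Bool, OK1 (shlW p d ++ w) κ' ∧ (∀ i, i < p → κ' i = κ i) ∧
      (∀ i, p ≤ i → i < p + d → κ' i = κ (i + 1)) ∧ (∀ i, p + d < i → κ' i = κ i) := by
  induction d with
  | zero =>
    intro p w κ _ h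
    exact ⟨κ, h, fun i _ => rfl, fun i h1 h2 => absurd h2 (by omega), fun i _ => rfl⟩
  | succ d ih =>
    intro p w κ hp h
    obtain ⟨κ1, h1, h2, h3, h4⟩ := ih p w κ hp h
    have e1 := OK1.C (p + d) (κ (p + d + 1)) _ _ (by omega) h1
    have e2 := OK1.J (p + d) _ _ (by omega) e1 (by
      rw [Function.update_self, Function.update_of_ne (by omega), h4 _ (by omega)])
    have e3 := OK1.C (p + d + 1) (κ (p + d + 1)) _ _ (by omega) e2
    refine ⟨_, e3, fun i hi => ?_, fun i hi hi' => ?_, fun i hi => ?_⟩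
    · rw [Function.update_of_ne (by omega), Function.update_of_ne (by omega), h2 i hi]
    · rw [Function.update_of_ne (by omega)]
      by_cases hip : i = p + d
      · subst hip
        rw [Function.update_self]
      · rw [Function.update_of_ne hip, h3 i hi (by omega)]
    · rw [Function.update_of_ne (by omega), Function.update_of_ne (by omega), h4 i (by omega)]

end U30x

-- W1
theorem ok_ins1 (w : List Let) (κ : ℕ → Bool) (h : OK1 w κ) (p d : ℕ) (hp : 1 ≤ p) (b : Bool) :
    ∃ κ' : ℕ → Bool, OK1 (insW p d ++ w) κ' ∧ κ' p = b ∧ (∀ i, i < p → κ' i = κ i) ∧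
      (∀ i, p ≤ i → i < p + d → κ' (i + 1) = κ i) := by
  obtain ⟨κ1, h1, h2, h3⟩ := U30x.shr d p w κ hp h
  refine ⟨_, OK1.C p b _ _ hp h1, Function.update_self _ _ _, fun i hi => ?_, fun i hi hi' => ?_⟩
  · rw [Function.update_of_ne (by omega), h2 i hi.le]
  · rw [Function.update_of_ne (by omega), h3 i hi hi']

-- W2
theorem ok_del1 (w : List Let) (κ : ℕ → Bool) (h : OK1 w κ) (p d : ℕ) (hp : 1 ≤ p) :
    ∃ κ' : ℕ → Bool, OK1 (delW p d ++ w) κ' ∧ (∀ i, i < p → κ' i = κ i) ∧
      (∀ i, p ≤ i → i < p + d → κ' i = κ (i + 1)) := by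
  have e := OK1.C p (κ p) w κ hp h
  rw [Function.update_eq_self] at e
  obtain ⟨κ1, h1, h2, h3, -⟩ := U30x.shl d p (Let.C p :: w) κ hp e
  refine ⟨κ1, ?_, h2, h3⟩
  unfold delW
  rw [List.append_assoc]
  exact h1

end Pool.Agent.H110R3.BP2
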