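import Pool.Agent.H110R3.BP2.Stubs

set_option autoImplicit false

namespace Pool.Agent.H110R3.BP2

open Polynomial Pool.Agent.H207R2.BL Pool.Agent.H110R3.BP

theorem U31_shrW (n p d : ℕ) (hp : 1 ≤ p) (h : p + d ≤ n) : ∀ l ∈ shrW p d, InR1 n l := by
  induction d generalizing p with
  | zero => intro l hl; simp [shrW] at hl
  | succ d ih =>
    intro l hl
    simp only [shrW, Shr, List.mem_append, List.mem_cons, List.not_mem_nil, or_false] at hl
    rcases hl with (rfl | rfl | rfl) | hl
    · show 1 ≤ p ∧ p ≤ n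
      omega
    · show 1 ≤ p ∧ p < n
      omega
    · show 1 ≤ p + 1 ∧ p + 1 ≤ n
      omega
    · exact ih (p + 1) (by omega) (by omega) l hl

theorem inr_ins1_pf (n p d : ℕ) (hp : 1 ≤ p) (h : p + d ≤ n) :
    ∀ l ∈ insW p d, InR1 n l := by
  intro l hl
  simp only [insW, List.mem_cons] at hl
  rcases hl with rfl | hl
  · show 1 ≤ p ∧ p ≤ n
    omega
  · exact U31_shrW n p d hp h l hl

theorem U31_shlW (n p d : ℕ) (hp : 1 ≤ p) (h : p + d ≤ n) : ∀ l ∈ shlW p d, InR1 n l := by
  induction d with
  | zero => intro l hl; simp [shlW] at hl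
  | succ d ih =>
    intro l hl
    simp only [shlW, Shl, List.mem_append, List.mem_cons, List.not_mem_nil, or_false] at hl
    rcases hl with (rfl | rfl | rfl) | hl
    · show 1 ≤ p + d + 1 ∧ p + d + 1 ≤ n
      omega
    · show 1 ≤ p + d ∧ p + d < n
      omega
    · show 1 ≤ p + d ∧ p + d ≤ n
      omega
    · exact ih (by omega) l hl

theorem inr_del1_pf (n p d : ℕ) (hp : 1 ≤ p) (h : p + d ≤ n) :
    ∀ l ∈ delW p d, InR1 n l := by
  intro l hl
  simp only [delW, List.mem_append, List.mem_singleton] at hl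
  rcases hl with hl | rfl
  · exact U31_shlW n p d hp h l hl
  · show 1 ≤ p ∧ p ≤ n
    omega

open Classical in
theorem U31_count {V : Type} [Fintype V] (u : V) (k : ℕ) (x : Fin k) :
    ∑ g : V → Fin k, (if g u = x then (1 : ℝ) else 0) = (k : ℝ) ^ (Fintype.card V - 1) := by
  have h1 : ∀ g : V → Fin k, (if g u = x then (1 : ℝ) else 0) =
      ∏ v, (if v = u then (if g v = x then (1 : ℝ) else 0) else 1) := by
    intro g
    rw [Finset.prod_ite_eq']
    simp
  simp_rw [h1]
  have h3 := Finset.prod_univ_sum (fun _ : V => (Finset.univ : Finset (Fin k)))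
    (fun v j => if v = u then (if j = x then (1 : ℝ) else 0) else 1)
  rw [Fintype.piFinset_univ] at h3
  rw [← h3]
  have h2 : ∀ v : V, ∑ j : Fin k, (if v = u then (if j = x then (1 : ℝ) else 0) else 1) =
      if v = u then 1 else (k : ℝ) := by
    intro v
    split_ifs
    · simp
    · simp
  simp_rw [h2]
  rw [Finset.prod_ite]
  simp only [Finset.prod_const_one, one_mul, Finset.prod_const]
  congr 1
  rw [Finset.filter_ne' Finset.univ u, Finset.card_erase_of_mem (Finset.mem_univ u),
    Finset.card_univ]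

theorem good1_nil_pf {V : Type} [Fintype V] (u : V) (col : V → Bool) :
    Good1 u col ([] : List V) ∅ := by
  classical
  refine ⟨[], fun _ => false, 1, Fintype.card V - 1, 0, OK1.nil _ rfl, ?_, ?_, by simp, ?_⟩
  · intro i hi
    simp at hi
  · intro l hl
    simp at hl
  · intro n _ k _ c
    have h1 : cnt k [u] ∅ (cl (fun i => i) (([] : List V).length + 1) c) =
        (k : ℝ) ^ (Fintype.card V - 1) := by
      rw [← U31_count u k (c (pt n 0))]
      unfold cnt cl
      refine Finset.sum_congr rfl (fun g _ => ?_)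
      simp
    rw [h1]
    simp [T]

end Pool.Agent.H110R3.BP2
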