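import Pool.Agent.H110R3.BP2.Stubs

set_option autoImplicit false

namespace Pool.Agent.H110R3.BP2

open Polynomial Pool.Agent.H207R2.BL Pool.Agent.H110R3.BP

theorem U32_inr {n : ℕ} {l : Let} (h : InR1 n l) : InR1 (n + 1) l := by
  cases l <;> simp only [InR1] at h ⊢ <;> omega

theorem good1_new_pf {V : Type} [Fintype V] (u : V) (col : V → Bool) (L1 L2 : List V)
    (E : Set (Sym2 V)) (v : V) (huv : v ≠ u) (hv1 : v ∉ L1) (hv2 : v ∉ L2)
    (hE : ∀ a, s(a, v) ∉ E) (h : Good1 u col (L1 ++ L2) E) : Good1 u col (L1 ++ v :: L2) E := by
  obtain ⟨w, κ, N, a, b, hok, hcol, hin, hlen, heq⟩ := h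
  obtain ⟨κ', hok', hb', hlt', hge'⟩ := ok_ins1 w κ hok (L1.length + 1) L2.length (by omega)
    (col v)
  have hlen' : L1.length + L2.length + 1 ≤ N := by
    rw [List.length_append] at hlen
    exact hlen
  refine ⟨insW (L1.length + 1) L2.length ++ w, κ', N + 1, a, b + L2.length + 2, hok',
    ?_, ?_, ?_, ?_⟩
  · intro i hi
    rw [List.length_append, List.length_cons] at hi
    rcases lt_trichotomy i L1.length with h1 | h1 | h1
    · rw [hlt' (i + 1) (by omega), hcol i (by rw [List.length_append]; omega),
        List.getElem_append_left h1, List.getElem_append_left h1]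
    · subst h1
      rw [hb']
      simp
    · obtain ⟨j, rfl⟩ : ∃ j, i = j + 1 := ⟨i - 1, by omega⟩
      have h2 : L1.length ≤ j := by omega
      have h3 : j < L1.length + L2.length := by omega
      rw [hge' (j + 1) (by omega) (by omega), hcol j (by rw [List.length_append]; omega),
        List.getElem_append_right h2, List.getElem_append_right (by omega)]
      obtain ⟨m, rfl⟩ : ∃ m, j = L1.length + m := ⟨j - L1.length, by omega⟩
      have h4 : L1.length + m + 1 - L1.length = m + 1 := by omega
      have h5 : L1.length + m - L1.length = m := by omega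
      simp only [h4, h5, List.getElem_cons_succ]
  · intro l hl
    rw [List.mem_append] at hl
    rcases hl with hl | hl
    · exact inr_ins1 (N + 1) (L1.length + 1) L2.length (by omega) (by omega) l hl
    · exact U32_inr (hin l hl)
  · rw [List.length_append, List.length_cons]
    omega
  · intro n hn k hk c
    have hk0 : (k : ℝ) ≠ 0 := by
      have : 0 < k := hk
      positivity
    have hka : (k : ℝ) ^ a ≠ 0 := pow_ne_zero _ hk0
    have hF : (T (PR n k) w (fun _ => 1)) = fun c : Fin (n + 1) → Fin k =>
        (fun l => (k : ℝ) ^ b / (k : ℝ) ^ a * cnt k ((u :: L1) ++ L2) E l)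
          (cl (fun i => i) (L1.length + 1 + L2.length) c) := by
      funext c
      have := heq n (by omega) k hk c
      rw [List.length_append, show L1.length + L2.length + 1 = L1.length + 1 + L2.length by omega]
        at this
      simp only [List.cons_append]
      field_simp
      linarith
    have hins := ins_act n k (L1.length + 1) L2.length (by omega)
      (fun l => (k : ℝ) ^ b / (k : ℝ) ^ a * cnt k ((u :: L1) ++ L2) E l) c
    rw [T_append, Module.End.mul_apply, hF]
    refine (congrArg (fun r => (k : ℝ) ^ a * r) hins).trans ?_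
    have hv1' : v ∉ u :: L1 := by
      rw [List.mem_cons, not_or]
      exact ⟨huv, hv1⟩
    rw [good_new_cl n k (L1.length + 1) L2.length c, List.length_append, List.length_cons,
      show L1.length + (L2.length + 1) + 1 = L1.length + 1 + (L2.length + 1) by omega,
      good_new_cl' n k (L1.length + 1) L2.length c, ← List.cons_append,
      ← cnt_new k (u :: L1) L2 E v hv1' hv2 hE _ _ (c (pt n (L1.length + 1))) (by simp [cl])]
    field_simp
    ring

end Pool.Agent.H110R3.BP2
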