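import Pool.Agent.H110R3.BP2.Stubs

/-!
U33: duplication of a strand.
-/

set_option autoImplicit false

namespace Pool.Agent.H110R3.BP2

open Polynomial Pool.Agent.H207R2.BL Pool.Agent.H110R3.BP

theorem U33_inr_mono {N M : ℕ} (h : N ≤ M) (l : Let) (hl : InR1 N l) : InR1 M l := by
  cases l <;> simp only [InR1] at * <;> omega

theorem U33_act {V : Type} [Fintype V] (L1 L2 : List V) (E : Set (Sym2 V)) (v : V)
    (w : List Let) (a b n k : ℕ) (hn : L1.length + 1 + L2.length ≤ n) (hk : 1 ≤ k)
    (hT : ∀ c : Fin (n + 1) → Fin k, (k : ℝ) ^ a * (T (PR n k) w (fun _ => 1)) c =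
      (k : ℝ) ^ b * cnt k (L1 ++ v :: L2) E (cl (fun i => i) (L1 ++ v :: L2).length c))
    (c : Fin (n + 1) → Fin k) :
    (k : ℝ) ^ a * (T (PR n k) (Let.J L1.length :: (insW (L1.length + 1) L2.length ++ w))
        (fun _ => 1)) c =
      (k : ℝ) ^ (b + (L2.length + 1)) * cnt k (L1 ++ v :: v :: L2) E
        (cl (fun i => i) (L1 ++ v :: v :: L2).length c) := by
  have hlen : (L1 ++ v :: L2).length = L1.length + 1 + L2.length := by simp; omega
  have hlen' : (L1 ++ v :: v :: L2).length = L1.length + (L2.length + 1 + 1) := by simp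
  have hk0 : (k : ℝ) ≠ 0 := by
    have : (1 : ℝ) ≤ k := by exact_mod_cast hk
    positivity
  have hfun : (T (PR n k) w (fun _ => 1)) = fun c : Fin (n + 1) → Fin k =>
      (fun l : List (Fin k) => (k : ℝ) ^ b / (k : ℝ) ^ a * cnt k (L1 ++ v :: L2) E l)
        (cl (fun i => i) (L1.length + 1 + L2.length) c) := by
    funext c
    have h1 := hT c
    rw [hlen] at h1
    simp only
    have ha : (k : ℝ) ^ a ≠ 0 := pow_ne_zero _ hk0
    field_simp
    linarith
  have hins := ins_act n k (L1.length + 1) L2.length (by omega)
    (fun l : List (Fin k) => (k : ℝ) ^ b / (k : ℝ) ^ a * cnt k (L1 ++ v :: L2) E l) c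
  have key : (T (PR n k) (Let.J L1.length :: (insW (L1.length + 1) L2.length ++ w))
        (fun _ => 1)) c =
      if c (pt n L1.length) = c (pt n (L1.length + 1)) then
        (T (PR n k) (insW (L1.length + 1) L2.length) (T (PR n k) w (fun _ => 1))) c else 0 := by
    have : T (PR n k) (Let.J L1.length :: (insW (L1.length + 1) L2.length ++ w)) =
        (PR n k).e (2 * L1.length + 1) *
          (T (PR n k) (insW (L1.length + 1) L2.length) * T (PR n k) w) := by
      rw [← T_append]
      simp [T, ev]
    rw [this, PR_odd, Module.End.mul_apply, Module.End.mul_apply, Jop_apply]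
  have hcl : cl (fun i => i) (L1 ++ v :: v :: L2).length c =
      cl (fun i => i) L1.length c ++ c (pt n L1.length) :: c (pt n (L1.length + 1)) ::
        cl (fun i => L1.length + (i + 1 + 1)) L2.length c := by
    rw [hlen', good_dup_cl_add, good_dup_cl_succ, good_dup_cl_succ]
    rfl
  have hup : cl (up (L1.length + 1)) (L1.length + 1 + L2.length) c =
      cl (fun i => i) L1.length c ++ c (pt n L1.length) ::
        cl (fun i => L1.length + (i + 1 + 1)) L2.length c := by
    have e3 : L1.length + 1 + L2.length = L1.length + (L2.length + 1) := by omega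
    rw [e3, good_dup_cl_add, good_dup_cl_succ]
    have e4 : cl (up (L1.length + 1)) L1.length c = cl (fun i => i) L1.length c := by
      apply good_dup_cl_congr
      intro i hi
      simp only [up]
      rw [if_pos (by omega)]
    have e5 : up (L1.length + 1) (L1.length + 0) = L1.length := by
      simp [up]
    have e6 : cl (fun i => up (L1.length + 1) (L1.length + (i + 1))) L2.length c =
        cl (fun i => L1.length + (i + 1 + 1)) L2.length c := by
      apply good_dup_cl_congr
      intro i hi
      simp only [up]
      rw [if_neg (by omega)]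
      omega
    rw [e4, e5, e6]
  rw [key, hcl, cnt_dup k L1 L2 E v _ _ _ _ (by simp [cl]), hfun, hins, hup]
  split_ifs with hc
  · have ha : (k : ℝ) ^ a ≠ 0 := pow_ne_zero _ hk0
    have hX : ∀ (A B D Y : ℝ), A ≠ 0 → A * (D * (B / A * Y)) = B * D * Y := by
      intro A B D Y hA
      field_simp
    rw [pow_add (k : ℝ) b (L2.length + 1)]
    exact hX _ _ _ _ ha
  · simp

theorem good1_dup_pf {V : Type} [Fintype V] (u : V) (col : V → Bool) (L1 L2 : List V)
    (E : Set (Sym2 V)) (v : V) (h : Good1 u col (L1 ++ v :: L2) E) :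
    Good1 u col (L1 ++ v :: v :: L2) E := by
  obtain ⟨w, κ, N, a, b, hok, hκ, hr, hN, hT⟩ := h
  have hlen : (L1 ++ v :: L2).length = L1.length + 1 + L2.length := by simp; omega
  have hlen' : (L1 ++ v :: v :: L2).length = L1.length + (L2.length + 1 + 1) := by simp
  have hp : L1.length < (L1 ++ v :: L2).length := by rw [hlen]; omega
  have e0 : κ (L1.length + 1) = col v := by
    rw [hκ _ hp]; congr 1; simp
  obtain ⟨κ', hok', hb', hlow, hhigh⟩ :=
    ok_ins1 w κ hok (L1.length + 2) L2.length (by omega) (col v)
  refine ⟨Let.J (L1.length + 1) :: (insW (L1.length + 2) L2.length ++ w), κ', N + 1, a,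
    b + (L2.length + 1), OK1.J _ _ _ (by omega) hok' ?_, ?_, ?_, ?_, ?_⟩
  · rw [hlow _ (by omega), hb', e0]
  · intro i hi
    rcases lt_trichotomy i (L1.length + 1) with h1 | h1 | h1
    · rw [hlow (i + 1) (by omega), hκ i (by rw [hlen]; omega)]
      congr 1
      rcases Nat.lt_or_ge i L1.length with h2 | h2
      · rw [List.getElem_append_left h2, List.getElem_append_left h2]
      · have h3 : i = L1.length := by omega
        subst h3
        simp
    · subst h1
      rw [hb']
      congr 1
      rw [List.getElem_append_right (by omega)]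
      simp
    · obtain ⟨j, rfl⟩ : ∃ j, i = j + 1 := ⟨i - 1, by omega⟩
      rw [hlen'] at hi
      rw [hhigh (j + 1) (by omega) (by omega), hκ j (by rw [hlen]; omega)]
      congr 1
      rw [List.getElem_append_right (by omega), List.getElem_append_right (by omega)]
      obtain ⟨t, rfl⟩ : ∃ t, j = L1.length + 1 + t := ⟨j - (L1.length + 1), by omega⟩
      have e1 : L1.length + 1 + t - L1.length = t + 1 := by omega
      have e2 : L1.length + 1 + t + 1 - L1.length = t + 1 + 1 := by omega
      simp only [e1, e2, List.getElem_cons_succ]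
  · intro l hl
    rcases List.mem_cons.1 hl with rfl | hl
    · show 1 ≤ L1.length + 1 ∧ L1.length + 1 < N + 1
      omega
    · rcases List.mem_append.1 hl with hl | hl
      · exact inr_ins1 (N + 1) (L1.length + 2) L2.length (by omega) (by omega) l hl
      · exact U33_inr_mono (by omega) l (hr l hl)
  · omega
  · intro n hn k hk c
    exact U33_act (u :: L1) L2 E v w a b n k (by simp only [List.length_cons]; omega) hk
      (fun c => hT n (by omega) k hk c) c

end Pool.Agent.H110R3.BP2
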