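import Pool.Agent.H110R3.BP2.Stubs
set_option autoImplicit false
namespace Pool.Agent.H110R3.BP2
open Polynomial Pool.Agent.H207R2.BL Pool.Agent.H110R3.BP

theorem U34_cl_add {n k : ℕ} (σ : ℕ → ℕ) (m d : ℕ) (c : Fin (n + 1) → Fin k) :
    cl σ (m + d) c = cl σ m c ++ cl (fun i => σ (m + i)) d c := by
  simp [cl, List.range_add, List.map_append, Function.comp_def]

theorem U34_cl_succ {n k : ℕ} (σ : ℕ → ℕ) (d : ℕ) (c : Fin (n + 1) → Fin k) :
    cl σ (d + 1) c = c (pt n (σ 0)) :: cl (fun i => σ (i + 1)) d c := by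
  simp [cl, List.range_succ_eq_map, Function.comp_def]

theorem U34_X {n k : ℕ} (p : ℕ) (w : List Let) (c : Fin (n + 1) → Fin k) :
    (T (PR n k) (Let.X p :: w) (fun _ => 1)) c =
        if c (pt n p) = c (pt n (p + 1)) then 0 else
          (T (PR n k) w (fun _ => 1)) c := by
  have : T (PR n k) (Let.X p :: w) =
      (1 - (PR n k).e (2 * p + 1)) * T (PR n k) w := by
    simp [T, ev]
  rw [this, PR_odd, Module.End.mul_apply, LinearMap.sub_apply, Module.End.one_apply]
  show T (PR n k) w (fun _ => 1) c - Jop _ _ (T (PR n k) w (fun _ => 1)) c = _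
  rw [Jop_apply]
  split_ifs <;> simp

theorem good1_edge_pf {V : Type} [Fintype V] (u : V) (col : V → Bool) (L1 L2 : List V)
    (E : Set (Sym2 V)) (a v : V) (hav : col a ≠ col v) (h : Good1 u col (L1 ++ a :: v :: L2) E) :
    Good1 u col (L1 ++ a :: v :: L2) (insert s(a, v) E) := by
  obtain ⟨w, κ, N, a', b, hok, hκ, hr, hN, hT⟩ := h
  have hlen : (L1 ++ a :: v :: L2).length = L1.length + (L2.length + 1 + 1) := by simp
  have hp : L1.length < (L1 ++ a :: v :: L2).length := by rw [hlen]; omega
  have hp1 : L1.length + 1 < (L1 ++ a :: v :: L2).length := by rw [hlen]; omega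
  have e0 : κ (L1.length + 1) = col a := by
    rw [hκ _ hp]; congr 1; simp
  have e1 : κ (L1.length + 1 + 1) = col v := by
    rw [hκ _ hp1]; congr 1
    rw [List.getElem_append_right (by omega)]; simp
  refine ⟨Let.X (L1.length + 1) :: w, κ, N, a', b,
    OK1.X _ _ _ (by omega) hok (by rw [e0, e1]; exact hav), hκ, ?_, hN, ?_⟩
  · intro l hl
    rcases List.mem_cons.1 hl with rfl | hl
    · show L1.length + 1 < N
      omega
    · exact hr l hl
  · intro n hn k hk c
    have h1 := hT n hn k hk c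
    have hcl : cl (fun i => i) ((L1 ++ a :: v :: L2).length + 1) c =
        cl (fun i => i) (L1.length + 1) c ++ c (pt n (L1.length + 1)) ::
          c (pt n (L1.length + 1 + 1)) ::
          cl (fun i => L1.length + 1 + (i + 1 + 1)) L2.length c := by
      have h2 : (L1 ++ a :: v :: L2).length + 1 = (L1.length + 1) + (L2.length + 1 + 1) := by
        rw [hlen]; omega
      rw [h2, U34_cl_add, U34_cl_succ _ (L2.length + 1), U34_cl_succ _ L2.length]
    have hu : u :: (L1 ++ a :: v :: L2) = (u :: L1) ++ a :: v :: L2 := rfl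
    rw [U34_X, hcl, hu, cnt_edge k (u :: L1) L2 E a v _ _ _ _ (by simp [cl])]
    rw [hcl, hu] at h1
    split_ifs with hc
    · simp
    · exact h1

theorem good1_base_pf {V : Type} [Fintype V] (u : V) (col : V → Bool) (L : List V)
    (E : Set (Sym2 V)) (v : V) (h : Good1 u col (v :: L) E) :
    Good1 u col (v :: L) (insert s(u, v) E) := by
  obtain ⟨w, κ, N, a', b, hok, hκ, hr, hN, hT⟩ := h
  have hlen : (v :: L).length = L.length + 1 := rfl
  refine ⟨Let.X 0 :: w, κ, N, a', b, OK1.X0 _ _ hok, hκ, ?_, hN, ?_⟩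
  · intro l hl
    rcases List.mem_cons.1 hl with rfl | hl
    · show 0 < N
      omega
    · exact hr l hl
  · intro n hn k hk c
    have h1 := hT n hn k hk c
    have hcl : cl (fun i => i) ((v :: L).length + 1) c =
        [] ++ c (pt n 0) :: c (pt n (0 + 1)) :: cl (fun i => i + 1 + 1) L.length c := by
      rw [hlen, U34_cl_succ, U34_cl_succ]
      rfl
    have hu : u :: v :: L = [] ++ u :: v :: L := rfl
    rw [U34_X, hcl, hu, cnt_edge k [] L E u v _ _ _ _ rfl]
    rw [hcl, hu] at h1
    split_ifs with hc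
    · simp
    · exact h1

end Pool.Agent.H110R3.BP2
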