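import Pool.Agent.H110R3.BP2.Stubs
set_option autoImplicit false
namespace Pool.Agent.H110R3.BP2
open Polynomial Pool.Agent.H207R2.BL Pool.Agent.H110R3.BP

theorem U35_cl {n k : ℕ} (p d : ℕ) (c : Fin (n + 1) → Fin k) :
    cl (fun i => i) (p + d) c = cl (fun i => i) p c ++ cl (fun i => p + i) d c := by
  unfold cl
  rw [List.range_add, List.map_append, List.map_map]
  rfl

theorem good1_drop_pf {V : Type} [Fintype V] (u : V) (col : V → Bool) (L1 L2 : List V)
    (E : Set (Sym2 V)) (v : V) (h : Good1 u col (L1 ++ v :: L2) E) : Good1 u col (L1 ++ L2) E := by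
  obtain ⟨w, κ, N, a, b, hok, hκ, hin, hlen, hid⟩ := h
  have hl : (L1 ++ v :: L2).length = L1.length + 1 + L2.length := by
    simp only [List.length_append, List.length_cons]; omega
  rw [hl] at hlen
  obtain ⟨κ', hok', hκ1, hκ2⟩ := ok_del1 w κ hok (L1.length + 1) L2.length (by omega)
  refine ⟨delW (L1.length + 1) L2.length ++ w, κ', N, a, b + L2.length, hok', ?_, ?_, ?_, ?_⟩
  · intro i hi
    rw [List.length_append] at hi
    rcases lt_or_ge i L1.length with h1 | h1
    · rw [hκ1 (i + 1) (by omega), hκ i (by rw [hl]; omega), List.getElem_append_left h1,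
        List.getElem_append_left h1]
    · rw [hκ2 (i + 1) (by omega) (by omega), hκ (i + 1) (by rw [hl]; omega),
        List.getElem_append_right h1, List.getElem_append_right (by omega)]
      congr 1
      have h2 : i + 1 - L1.length = (i - L1.length) + 1 := by omega
      simp only [h2, List.getElem_cons_succ]
  · intro l hl'
    rcases List.mem_append.1 hl' with h1 | h1
    · exact inr_del1 N (L1.length + 1) L2.length (by omega) (by omega) l h1
    · exact hin l h1
  · rw [List.length_append]; omega
  · intro n hn k hk c
    have hd := del_act n k (L1.length + 1) L2.length (by omega)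
      (fun l => (k : ℝ) ^ b * cnt k (u :: (L1 ++ v :: L2)) E l) c
    have hg : (fun c : Fin (n + 1) → Fin k => (k : ℝ) ^ b * cnt k (u :: (L1 ++ v :: L2)) E
        (cl (fun i => i) (L1.length + 1 + 1 + L2.length) c)) =
        (k : ℝ) ^ a • (T (PR n k) w (fun _ => 1)) := by
      funext c'
      have e : L1.length + 1 + 1 + L2.length = (L1 ++ v :: L2).length + 1 := by
        rw [hl]; omega
      rw [e]
      exact (hid n hn k hk c').symm
    rw [hg, map_smul] at hd
    rw [T_append, Module.End.mul_apply]
    have hd' : (k : ℝ) ^ a * (T (PR n k) (delW (L1.length + 1) L2.length))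
        ((T (PR n k) w) (fun _ => 1)) c = _ := hd
    have e2 : (L1 ++ L2).length + 1 = (L1.length + 1) + L2.length := by
      rw [List.length_append]; omega
    rw [hd', e2, U35_cl (L1.length + 1) L2.length]
    have hc := cnt_drop k (u :: L1) L2 E v (cl (fun i => i) (L1.length + 1) c)
      (cl (fun i => L1.length + 1 + i) L2.length c) (by simp [cl])
    rw [List.cons_append, List.cons_append] at hc
    rw [← hc, ← Finset.mul_sum, pow_add]
    ring

end Pool.Agent.H110R3.BP2
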