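import Pool.Agent.H110R3.BP2.Stubs

set_option autoImplicit false

namespace Pool.Agent.H110R3.BP2

open Polynomial Pool.Agent.H207R2.BL Pool.Agent.H110R3.BP

theorem procU_inv_pf {V : Type} {u : V} {L : List V} {U : Set V} {E : Set (Sym2 V)}
    (h : ProcU u L U E) : u ∈ U ∧ (∀ v ∈ L, v ∈ U ∧ v ≠ u) ∧
      (∀ a b, s(a, b) ∈ E → a ∈ U ∧ b ∈ U ∧ a ≠ b) := by
  induction h with
  | nil =>
    refine ⟨Set.mem_singleton _, fun v hv => by simp at hv, fun a b hab => ?_⟩
    exact absurd hab (Set.notMem_empty _)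
  | new L1 L2 U E v h hv ih =>
    refine ⟨Set.mem_insert_of_mem _ ih.1, fun w hw => ?_, fun a b hab => ?_⟩
    · rcases List.mem_append.1 hw with hw | hw
      · have h1 := ih.2.1 w (List.mem_append.2 (Or.inl hw))
        exact ⟨Set.mem_insert_of_mem _ h1.1, h1.2⟩
      · rcases List.mem_cons.1 hw with hw | hw
        · rw [hw]
          refine ⟨Set.mem_insert _ _, fun hvu => hv ?_⟩
          rw [hvu]
          exact ih.1
        · have h1 := ih.2.1 w (List.mem_append.2 (Or.inr hw))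
          exact ⟨Set.mem_insert_of_mem _ h1.1, h1.2⟩
    · obtain ⟨h1, h2, h3⟩ := ih.2.2 a b hab
      exact ⟨Set.mem_insert_of_mem _ h1, Set.mem_insert_of_mem _ h2, h3⟩
  | dup L1 L2 U E v h ih =>
    refine ⟨ih.1, fun w hw => ih.2.1 w ?_, ih.2.2⟩
    simp only [List.mem_append, List.mem_cons] at hw ⊢
    tauto
  | edge L1 L2 U E a v h hav ih =>
    refine ⟨ih.1, ih.2.1, fun x y hxy => ?_⟩
    rcases Set.mem_insert_iff.1 hxy with hxy | hxy
    · have hu : a ∈ U := (ih.2.1 a (by simp)).1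
      have hv : v ∈ U := (ih.2.1 v (by simp)).1
      rcases Sym2.eq_iff.1 hxy with ⟨h1, h2⟩ | ⟨h1, h2⟩
      · rw [h1, h2]
        exact ⟨hu, hv, hav⟩
      · rw [h1, h2]
        exact ⟨hv, hu, hav.symm⟩
    · exact ih.2.2 x y hxy
  | base L U E v h huv ih =>
    refine ⟨ih.1, ih.2.1, fun x y hxy => ?_⟩
    rcases Set.mem_insert_iff.1 hxy with hxy | hxy
    · have hv : v ∈ U := (ih.2.1 v (by simp)).1
      rcases Sym2.eq_iff.1 hxy with ⟨h1, h2⟩ | ⟨h1, h2⟩
      · rw [h1, h2]
        exact ⟨ih.1, hv, huv⟩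
      · rw [h1, h2]
        exact ⟨hv, ih.1, huv.symm⟩
    · exact ih.2.2 x y hxy
  | drop L1 L2 U E v h ih =>
    refine ⟨ih.1, fun w hw => ih.2.1 w ?_, ih.2.2⟩
    simp only [List.mem_append, List.mem_cons] at hw ⊢
    tauto

theorem good1_of_procU_pf {V : Type} [Fintype V] (u : V) (col : V → Bool) {L : List V} {U : Set V}
    {E : Set (Sym2 V)} (h : ProcU u L U E) (hb : BipU u col E) : Good1 u col L E := by
  induction h with
  | nil => exact good1_nil u col
  | new L1 L2 U E v h hv ih =>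
    obtain ⟨h0, h1, h2⟩ := procU_inv_pf h
    refine good1_new u col L1 L2 E v ?_ ?_ ?_ ?_ (ih hb)
    · intro hvu
      rw [hvu] at hv
      exact hv h0
    · intro hv1
      exact hv (h1 v (List.mem_append_left _ hv1)).1
    · intro hv1
      exact hv (h1 v (List.mem_append_right _ hv1)).1
    · intro a ha
      exact hv (h2 a v ha).2.1
  | dup L1 L2 U E v h ih => exact good1_dup u col L1 L2 E v (ih hb)
  | edge L1 L2 U E a v h hav ih =>
    obtain ⟨h0, h1, h2⟩ := procU_inv_pf h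
    refine good1_edge u col L1 L2 E a v ?_ (ih ?_)
    · exact hb a v (Set.mem_insert _ _) (h1 a (by simp)).2 (h1 v (by simp)).2
    · intro x y hxy
      exact hb x y (Set.mem_insert_of_mem _ hxy)
  | base L U E v h huv ih =>
    refine good1_base u col L E v (ih ?_)
    intro x y hxy
    exact hb x y (Set.mem_insert_of_mem _ hxy)
  | drop L1 L2 U E v h ih => exact good1_drop u col L1 L2 E v (ih hb)

end Pool.Agent.H110R3.BP2
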