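import Pool.Agent.H110R3.BP2.Stubs
set_option autoImplicit false
namespace Pool.Agent.H110R3.BP2
open Polynomial Pool.Agent.H207R2.BL Pool.Agent.H110R3.BP

theorem event_list1_pf {V : Type} [Finite V] {G : SimpleGraph V} {x y : V → ℝ}
    {g : V → V → ℝ → ℝ}
    (h : Mono G x y g) (v : V) (t0 t : ℝ) (hv0 : t0 < x v) (hvt : x v < t)
    (hno : ∀ z, z ≠ v → x z < t0 ∨ t < x z) (l : List (V × V)) (hl : IsList G x g t l) :
    ∃ P O Q I : List (V × V), l = P ++ O ++ Q ∧ (∀ e ∈ O, e.1 = v) ∧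
      (∀ e, e ∈ I ↔ (G.Adj e.1 v ∧ e.2 = v ∧ x e.1 < x v)) ∧ IsList G x g t0 (P ++ I ++ Q) ∧
      (∀ e ∈ P, G.Adj e.1 e.2 ∧ x e.1 < x v ∧ x v < x e.2 ∧ g e.1 e.2 (x v) < y v) := by
  classical
  set rk : V × V → ℕ := fun e => if e.1 = v then 1 else if g e.1 e.2 (x v) < y v then 0 else 2
    with hrk
  -- ranks
  have rk0 : ∀ e, rk e = 0 → e.1 ≠ v ∧ g e.1 e.2 (x v) < y v := by
    intro e he
    simp only [hrk] at he
    by_cases h1 : e.1 = v
    · rw [if_pos h1] at he
      exact absurd he one_ne_zero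
    · rw [if_neg h1] at he
      by_cases h2 : g e.1 e.2 (x v) < y v
      · exact ⟨h1, h2⟩
      · rw [if_neg h2] at he
        exact absurd he two_ne_zero
  have rk1 : ∀ e, rk e = 1 → e.1 = v := by
    intro e he
    simp only [hrk] at he
    by_contra h1
    rw [if_neg h1] at he
    by_cases h2 : g e.1 e.2 (x v) < y v
    · rw [if_pos h2] at he
      exact absurd he.symm one_ne_zero
    · rw [if_neg h2] at he
      omega
  have rk2 : ∀ e, Act G x t e → rk e = 2 → e.1 ≠ v ∧ y v < g e.1 e.2 (x v) := by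
    intro e hA he
    simp only [hrk] at he
    by_cases h1 : e.1 = v
    · rw [if_pos h1] at he
      omega
    · rw [if_neg h1] at he
      by_cases h2 : g e.1 e.2 (x v) < y v
      · rw [if_pos h2] at he
        omega
      · refine ⟨h1, lt_of_le_of_ne (not_lt.1 h2) ?_⟩
        have h3 := event_list_act v t0 t hno hA h1
        exact (h.vert e.1 e.2 v hA.1 (h3.trans hv0) (hvt.trans hA.2.2)).symm
  have rkle : ∀ e, rk e ≤ 2 := by
    intro e
    simp only [hrk]
    split_ifs <;> omega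
  have rkor : ∀ e : V × V, e.1 ≠ v → rk e = 0 ∨ rk e = 2 := by
    intro e he
    simp only [hrk]
    rw [if_neg he]
    by_cases h2 : g e.1 e.2 (x v) < y v
    · rw [if_pos h2]; exact Or.inl rfl
    · rw [if_neg h2]; exact Or.inr rfl
  have hact : ∀ e ∈ l, Act G x t e := fun e he => (hl.mem e).1 he
  -- values at `x v`
  have hstart : ∀ e ∈ l, x e.1 ≤ x v := by
    intro e he
    by_cases h1 : e.1 = v
    · rw [h1]
    · exact (event_list_act v t0 t hno (hact e he) h1).le.trans hv0.le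
  have hleft : ∀ e ∈ l, e.1 = v → g e.1 e.2 (x v) = y v := by
    intro e he h1
    have h2 := h.left e.1 e.2 (hact e he).1 ((hact e he).2.1.trans (hact e he).2.2)
    rw [h1] at h2 ⊢
    exact h2
  have hsplit := split_rank (fun e e' : V × V => g e.1 e.2 t < g e'.1 e'.2 t) l hl.sorted
    (fun a b hab hba => lt_asymm hab hba) rk (fun a _ => rkle a) (by
      intro a ha b hb hab
      refine lt_right h a b (x v) t hvt.le (hact a ha).1 (hact b hb).1 (hstart a ha)
        (hact a ha).2.2 (hstart b hb) (hact b hb).2.2 ?_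
      have ha2 := rkle a
      have hb2 := rkle b
      rcases Nat.lt_or_ge (rk a) 1 with h1 | h1
      · have h1' : rk a = 0 := by omega
        have h3 := (rk0 a h1').2
        rcases Nat.lt_or_ge (rk b) 2 with h2 | h2
        · have h2' : rk b = 1 := by omega
          rw [hleft b hb (rk1 b h2')]
          exact h3
        · have h2' : rk b = 2 := by omega
          exact h3.trans (rk2 b (hact b hb) h2').2
      · have h1' : rk a = 1 := by omega
        have h2' : rk b = 2 := by omega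
        rw [hleft a ha (rk1 a h1')]
        exact (rk2 b (hact b hb) h2').2)
  -- the edges into `v`
  have hin : ∀ e : V × V, (G.Adj e.1 v ∧ e.2 = v ∧ x e.1 < x v) → x e.1 < t0 ∧ t0 < x e.2 := by
    rintro e ⟨h1, h2, h3⟩
    constructor
    · rcases hno e.1 h1.ne with h4 | h4
      · exact h4
      · exact absurd (h4.trans h3) (not_lt.2 hvt.le)
    · rw [h2]; exact hv0
  obtain ⟨I, hI, hIs⟩ := exists_sorted
    (fun e : V × V => G.Adj e.1 v ∧ e.2 = v ∧ x e.1 < x v) (fun e => g e.1 e.2 t0) (by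
      intro a b ha hb hab
      by_contra hne
      have ha' := hin a ha
      have hb' := hin b hb
      have haA : G.Adj a.1 a.2 := by rw [ha.2.1]; exact ha.1
      have hbA : G.Adj b.1 b.2 := by rw [hb.2.1]; exact hb.1
      exact h.disj a.1 a.2 b.1 b.2 t0 haA hbA hne ha'.1 ha'.2 hb'.1 hb'.2 hab)
  set P := l.filter (fun a => decide (rk a = 0)) with hP
  set O := l.filter (fun a => decide (rk a = 1)) with hO
  set Q := l.filter (fun a => decide (rk a = 2)) with hQ
  have memP : ∀ e, e ∈ P ↔ e ∈ l ∧ rk e = 0 := fun e => by rw [hP]; simp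
  have memO : ∀ e, e ∈ O ↔ e ∈ l ∧ rk e = 1 := fun e => by rw [hO]; simp
  have memQ : ∀ e, e ∈ Q ↔ e ∈ l ∧ rk e = 2 := fun e => by rw [hQ]; simp
  -- data of the elements of `P`, `Q`, `I`
  have dP : ∀ e ∈ P, G.Adj e.1 e.2 ∧ x e.1 < t0 ∧ t < x e.2 ∧ g e.1 e.2 (x v) < y v := by
    intro e he
    obtain ⟨h1, h2⟩ := (memP e).1 he
    obtain ⟨h3, h4⟩ := rk0 e h2
    exact ⟨(hact e h1).1, event_list_act v t0 t hno (hact e h1) h3, (hact e h1).2.2, h4⟩
  have dQ : ∀ e ∈ Q, G.Adj e.1 e.2 ∧ x e.1 < t0 ∧ t < x e.2 ∧ y v < g e.1 e.2 (x v) := by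
    intro e he
    obtain ⟨h1, h2⟩ := (memQ e).1 he
    obtain ⟨h3, h4⟩ := rk2 e (hact e h1) h2
    exact ⟨(hact e h1).1, event_list_act v t0 t hno (hact e h1) h3, (hact e h1).2.2, h4⟩
  have dI : ∀ e ∈ I, G.Adj e.1 e.2 ∧ x e.1 < t0 ∧ x e.2 = x v ∧ g e.1 e.2 (x v) = y v := by
    intro e he
    have h1 := (hI e).1 he
    have h2 := hin e h1
    have h3 : G.Adj e.1 e.2 := by rw [h1.2.1]; exact h1.1
    have h4 := h.right e.1 e.2 h3 (h2.1.trans h2.2)
    rw [h1.2.1] at h4
    refine ⟨h3, h2.1, by rw [h1.2.1], ?_⟩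
    rw [h1.2.1]
    exact h4
  have hs := hl.sorted
  refine ⟨P, O, Q, I, hsplit, fun e he => rk1 e ((memO e).1 he).2, hI, ⟨?_, ?_⟩, ?_⟩
  · intro e
    rw [List.mem_append, List.mem_append]
    constructor
    · rintro ((he | he) | he)
      · obtain ⟨h1, h2, h3, -⟩ := dP e he
        exact ⟨h1, h2, hv0.trans (hvt.trans h3)⟩
      · obtain ⟨h1, h2, h3, -⟩ := dI e he
        exact ⟨h1, h2, by rw [h3]; exact hv0⟩
      · obtain ⟨h1, h2, h3, -⟩ := dQ e he
        exact ⟨h1, h2, hv0.trans (hvt.trans h3)⟩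
    · rintro ⟨h1, h2, h3⟩
      have h4 : e.1 ≠ v := by
        intro h5
        rw [h5] at h2
        exact lt_asymm h2 hv0
      by_cases h5 : e.2 = v
      · refine Or.inl (Or.inr ((hI e).2 ⟨?_, h5, h2.trans hv0⟩))
        rw [h5] at h1
        exact h1
      · have h6 : t < x e.2 := by
          rcases hno e.2 h5 with h7 | h7
          · exact absurd h7 (not_lt.2 h3.le)
          · exact h7
        have h8 : e ∈ l := (hl.mem e).2 ⟨h1, h2.trans (hv0.trans hvt), h6⟩
        rcases rkor e h4 with h9 | h9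
        · exact Or.inl (Or.inl ((memP e).2 ⟨h8, h9⟩))
        · exact Or.inr ((memQ e).2 ⟨h8, h9⟩)
  · have ht0t : t0 ≤ t := hv0.le.trans hvt.le
    rw [List.pairwise_append, List.pairwise_append]
    refine ⟨⟨?_, hIs, ?_⟩, ?_, ?_⟩
    · have h1 : P.Pairwise (fun e e' => g e.1 e.2 t < g e'.1 e'.2 t) := hs.filter _
      refine h1.imp_of_mem ?_
      intro a b ha hb hab
      obtain ⟨a1, a2, a3, -⟩ := dP a ha
      obtain ⟨b1, b2, b3, -⟩ := dP b hb
      exact lt_left h a b t t0 ht0t a1 b1 a2 a3.le b2 b3.le hab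
    · intro a ha b hb
      obtain ⟨a1, a2, a3, a4⟩ := dP a ha
      obtain ⟨b1, b2, b3, b4⟩ := dI b hb
      exact lt_left h a b (x v) t0 hv0.le a1 b1 a2 (hvt.trans a3).le b2 b3.ge (by rw [b4]; exact a4)
    · have h1 : Q.Pairwise (fun e e' => g e.1 e.2 t < g e'.1 e'.2 t) := hs.filter _
      refine h1.imp_of_mem ?_
      intro a b ha hb hab
      obtain ⟨a1, a2, a3, -⟩ := dQ a ha
      obtain ⟨b1, b2, b3, -⟩ := dQ b hb
      exact lt_left h a b t t0 ht0t a1 b1 a2 a3.le b2 b3.le hab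
    · intro a ha b hb
      obtain ⟨b1, b2, b3, b4⟩ := dQ b hb
      rw [List.mem_append] at ha
      rcases ha with ha | ha
      · obtain ⟨a1, a2, a3, a4⟩ := dP a ha
        exact lt_left h a b (x v) t0 hv0.le a1 b1 a2 (hvt.trans a3).le b2 (hvt.trans b3).le
          (a4.trans b4)
      · obtain ⟨a1, a2, a3, a4⟩ := dI a ha
        exact lt_left h a b (x v) t0 hv0.le a1 b1 a2 a3.ge b2 (hvt.trans b3).le
          (by rw [a4]; exact b4)
  · intro e he
    obtain ⟨a1, a2, a3, a4⟩ := dP e he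
    exact ⟨a1, a2.trans hv0, hvt.trans a3, a4⟩

end Pool.Agent.H110R3.BP2
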