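import Pool.Agent.H110R3.BP2.Stubs
set_option autoImplicit false
namespace Pool.Agent.H110R3.BP2
open Polynomial Pool.Agent.H207R2.BL Pool.Agent.H110R3.BP

theorem U38_in {V : Type} (u : V) (P Q : List V) (v : V) (I : List V) :
    ∀ (U : Set V) (E : Set (Sym2 V)), ProcU u (P ++ I ++ v :: Q) U E → (∀ w ∈ I, w ≠ v) →
      ProcU u (P ++ v :: Q) U (E ∪ {e | ∃ w ∈ I, e = s(w, v)}) := by
  induction I using List.reverseRecOn with
  | nil =>
    intro U E h _
    have h1 : E ∪ {e | ∃ w ∈ ([] : List V), e = s(w, v)} = E := by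
      ext e
      simp
    rw [h1]
    simpa using h
  | append_singleton I a ih =>
    intro U E h hI
    have h1 : P ++ (I ++ [a]) ++ v :: Q = (P ++ I) ++ a :: v :: Q := by simp
    rw [h1] at h
    have h2 := ProcU.edge (P ++ I) Q U E a v h (hI a (by simp))
    have h3 := ProcU.drop (P ++ I) (v :: Q) U _ a h2
    have h4 := ih U _ h3 (fun w hw => hI w (by simp [hw]))
    have h5 : insert s(a, v) E ∪ {e | ∃ w ∈ I, e = s(w, v)} =
        E ∪ {e | ∃ w ∈ I ++ [a], e = s(w, v)} := by
      ext e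
      simp only [Set.mem_union, Set.mem_insert_iff, Set.mem_ofPred_eq, List.mem_append,
        List.mem_singleton]
      constructor
      · rintro ((he | he) | ⟨w, hw, he⟩)
        · exact Or.inr ⟨a, Or.inr rfl, he⟩
        · exact Or.inl he
        · exact Or.inr ⟨w, Or.inl hw, he⟩
      · rintro (he | ⟨w, hw | hw, he⟩)
        · exact Or.inl (Or.inr he)
        · exact Or.inr ⟨w, hw, he⟩
        · exact Or.inl (Or.inl (by rw [← hw]; exact he))
    rw [← h5]
    exact h4

theorem U38_rep {V : Type} (u : V) (P Q : List V) (v : V) (U : Set V) (E : Set (Sym2 V))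
    (h : ProcU u (P ++ v :: Q) U E) (b : ℕ) :
    ProcU u (P ++ v :: (List.replicate b v ++ Q)) U E := by
  induction b with
  | zero => simpa using h
  | succ b ih =>
    have h1 := ProcU.dup P (List.replicate b v ++ Q) U E v ih
    simpa [List.replicate_succ] using h1

theorem U38_fin {V : Type} (u : V) (P Q : List V) (v : V) (b : ℕ) (U : Set V) (E : Set (Sym2 V))
    (h : ProcU u (P ++ v :: Q) U E) : ProcU u (P ++ List.replicate b v ++ Q) U E := by
  cases b with
  | zero =>
    have h3 := ProcU.drop P Q _ _ v h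
    simpa using h3
  | succ b =>
    have h3 := U38_rep u P Q v _ _ h b
    simpa [List.replicate_succ] using h3

-- G2
theorem procU_event_pf {V : Type} (u : V) (P Q I : List V) (v : V) (b : ℕ) (U : Set V)
    (E : Set (Sym2 V)) (h : ProcU u (P ++ I ++ Q) U E) (hv : v ∉ U) (hI : ∀ w ∈ I, w ≠ v) :
    ProcU u (P ++ List.replicate b v ++ Q) (insert v U) (E ∪ {e | ∃ w ∈ I, e = s(w, v)}) := by
  have h1 := ProcU.new (P ++ I) Q U E v h hv
  have h2 := U38_in u P Q v I (insert v U) E h1 hI
  exact U38_fin u P Q v b _ _ h2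

-- G3
theorem procU_event_base_pf {V : Type} (u : V) (Q I : List V) (v : V) (b : ℕ) (U : Set V)
    (E : Set (Sym2 V)) (h : ProcU u (I ++ Q) U E) (hv : v ∉ U) (huv : u ≠ v)
    (hI : ∀ w ∈ I, w ≠ v) :
    ProcU u (List.replicate b v ++ Q) (insert v U)
      (insert s(u, v) (E ∪ {e | ∃ w ∈ I, e = s(w, v)})) := by
  have h1 := ProcU.new I Q U E v h hv
  have h2 := U38_in u [] Q v I (insert v U) E h1 hI
  have h3 := ProcU.base Q _ _ v h2 huv
  exact U38_fin u [] Q v b _ _ h3

end Pool.Agent.H110R3.BP2
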