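import Pool.Agent.H110R3.BP2.Stubs

set_option autoImplicit false

namespace Pool.Agent.H110R3.BP2

open Polynomial Pool.Agent.H207R2.BL Pool.Agent.H110R3.BP

theorem U39_t0 {V : Type} [Finite V] (x : V → ℝ) (a : ℝ) :
    ∃ t0 < a, ∀ z, x z < a → x z < t0 := by
  have h : ∀ᶠ t0 in nhdsWithin a (Set.Iio a), ∀ z, x z < a → x z < t0 := by
    rw [Filter.eventually_all]
    intro z
    by_cases hz : x z < a
    · have h1 : Set.Ioo (x z) a ∈ nhdsWithin a (Set.Iio a) := Ioo_mem_nhdsLT hz
      filter_upwards [h1] with t ht _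
      exact ht.1
    · exact Filter.Eventually.of_forall fun t h => absurd h hz
  obtain ⟨t0, h0, h1⟩ := (h.and self_mem_nhdsWithin).exists
  exact ⟨t0, h1, h0⟩

theorem U39_aux {V : Type} [Finite V] (G : SimpleGraph V) (u : V)
    (x y : {v : V // v ≠ u} → ℝ) (g : {v : V // v ≠ u} → {v : V // v ≠ u} → ℝ → ℝ)
    (h : Mono (G.comap (fun v : {v : V // v ≠ u} => v.1)) x y g)
    (hvis : ∀ v : {v : V // v ≠ u}, G.Adj u v.1 → ∀ a c : {v : V // v ≠ u}, G.Adj a.1 c.1 →
      x a < x v → x v < x c → y v < g a c (x v)) (n : ℕ) :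
    ∀ (t : ℝ), Set.ncard {v | x v < t} = n → (∀ v, x v ≠ t) →
    ∀ (l : List ({v : V // v ≠ u} × {v : V // v ≠ u})),
    IsList (G.comap (fun v : {v : V // v ≠ u} => v.1)) x g t l →
    ProcU u (l.map (fun e => e.1.1)) ({u} ∪ {v | ∃ hv : v ≠ u, x ⟨v, hv⟩ < t})
      ({e | ∃ a c : {v : V // v ≠ u}, e = s(a.1, c.1) ∧ G.Adj a.1 c.1 ∧ x a < t ∧ x c < t} ∪
        {e | ∃ a : {v : V // v ≠ u}, e = s(u, a.1) ∧ G.Adj u a.1 ∧ x a < t}) := by
  induction n using Nat.strong_induction_on with
  | _ n ih =>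
    intro t hn ht l hl
    rcases Set.eq_empty_or_nonempty {v | x v < t} with he | hne
    · have hno : ∀ v, ¬ x v < t := fun v hv => by
        have : v ∈ {v | x v < t} := hv
        rw [he] at this
        exact this
      have hl0 : l = [] := by
        rw [List.eq_nil_iff_forall_not_mem]
        intro e hel
        exact hno _ ((hl.mem e).1 hel).2.1
      have hU : ({u} ∪ {v | ∃ hv : v ≠ u, x ⟨v, hv⟩ < t} : Set V) = {u} := by
        ext z
        simp only [Set.mem_union, Set.mem_singleton_iff, Set.mem_setOf_eq]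
        constructor
        · rintro (h1 | ⟨hz, h1⟩)
          · exact h1
          · exact absurd h1 (hno _)
        · exact fun h1 => Or.inl h1
      have hE : ({e | ∃ a c : {v : V // v ≠ u}, e = s(a.1, c.1) ∧ G.Adj a.1 c.1 ∧ x a < t ∧ x c < t} ∪
        {e | ∃ a : {v : V // v ≠ u}, e = s(u, a.1) ∧ G.Adj u a.1 ∧ x a < t} : Set (Sym2 V)) = ∅ := by
        ext e
        simp only [Set.mem_union, Set.mem_setOf_eq, Set.mem_empty_iff_false, iff_false]
        rintro (⟨a, c, -, -, ha, -⟩ | ⟨a, -, -, ha⟩)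
        · exact hno a ha
        · exact hno a ha
      rw [hl0, hU, hE]
      exact ProcU.nil
    · obtain ⟨v, hv, hmax⟩ := Set.exists_max_image {v | x v < t} x (Set.toFinite _) hne
      obtain ⟨t0, ht0, hz⟩ := U39_t0 x (x v)
      have hvt : x v < t := hv
      have hno : ∀ z, z ≠ v → x z < t0 ∨ t < x z := by
        intro z hzv
        rcases lt_or_gt_of_ne (ht z) with h1 | h1
        · refine Or.inl (hz z (lt_of_le_of_ne (hmax z h1) fun h2 => hzv (h.inj h2)))
        · exact Or.inr h1
      obtain ⟨P, O, Q, I, hPOQ, hO, hI, hl', hP⟩ := event_list1 h v t0 t ht0 hvt hno l hl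
      have hcase : ∀ z, x z < t → z = v ∨ x z < t0 := by
        intro z h1
        by_cases hzv : z = v
        · exact Or.inl hzv
        · rcases hno z hzv with h2 | h2
          · exact Or.inr h2
          · exact absurd h1 (not_lt.2 h2.le)
      have hmon : ∀ z, x z < t0 → x z < t := fun z h1 => h1.trans (ht0.trans hvt)
      have hU : ({u} ∪ {v | ∃ hv : v ≠ u, x ⟨v, hv⟩ < t} : Set V) =
          insert v.1 ({u} ∪ {v | ∃ hv : v ≠ u, x ⟨v, hv⟩ < t0}) := by
        ext z
        simp only [Set.mem_union, Set.mem_singleton_iff, Set.mem_setOf_eq, Set.mem_insert_iff]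
        constructor
        · rintro (h1 | ⟨hzu, h1⟩)
          · exact Or.inr (Or.inl h1)
          · rcases hcase _ h1 with h2 | h2
            · exact Or.inl (congrArg Subtype.val h2)
            · exact Or.inr (Or.inr ⟨hzu, h2⟩)
        · rintro (h1 | h1 | ⟨hzu, h1⟩)
          · subst h1
            exact Or.inr ⟨v.2, hvt⟩
          · exact Or.inl h1
          · exact Or.inr ⟨hzu, hmon _ h1⟩
      have hvU : v.1 ∉ ({u} ∪ {v | ∃ hv : v ≠ u, x ⟨v, hv⟩ < t0} : Set V) := by
        rintro (h1 | ⟨h1, h2⟩)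
        · exact v.2 h1
        · exact absurd h2 (not_lt.2 (le_of_lt ht0))
      have hlt : Set.ncard {z | x z < t0} < n := by
        rw [← hn]
        apply Set.ncard_lt_ncard _ (Set.toFinite _)
        refine ⟨fun z h1 => hmon z h1, fun h1 => ?_⟩
        have h2 : x v < t0 := h1 hvt
        exact absurd h2 (not_lt.2 (le_of_lt ht0))
      have ht0' : ∀ z, x z ≠ t0 := by
        intro z hz0
        by_cases hzv : z = v
        · subst hzv
          exact absurd hz0 ht0.ne'
        · rcases hno z hzv with h2 | h2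
          · exact absurd hz0 h2.ne
          · linarith
      have hp := ih _ hlt t0 rfl ht0' _ hl'
      rw [List.map_append, List.map_append] at hp
      have hI' : ∀ w ∈ I.map (fun e => e.1.1), w ≠ v.1 := by
        intro w hw
        obtain ⟨e, he, rfl⟩ := List.mem_map.1 hw
        intro h2
        have h3 := ((hI e).1 he).2.2
        rw [Subtype.ext h2] at h3
        exact lt_irrefl _ h3
      have hOr : O.map (fun e => e.1.1) = List.replicate O.length v.1 := by
        rw [List.eq_replicate_iff]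
        refine ⟨List.length_map _, ?_⟩
        intro w hw
        obtain ⟨e, he, rfl⟩ := List.mem_map.1 hw
        exact congrArg Subtype.val (hO e he)
      have hIm : ∀ a : {v : V // v ≠ u}, G.Adj a.1 v.1 → x a < t0 →
          a.1 ∈ I.map (fun e => e.1.1) := by
        intro a h1 h2
        exact List.mem_map.2 ⟨(a, v), (hI (a, v)).2 ⟨h1, rfl, h2.trans ht0⟩, rfl⟩
      by_cases huv : G.Adj u v.1
      · have hP0 : P = [] := by
          rw [List.eq_nil_iff_forall_not_mem]
          intro e he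
          obtain ⟨h1, h2, h3, h4⟩ := hP e he
          exact absurd h4 (not_lt.2 (hvis v huv e.1 e.2 h1 h2 h3).le)
        rw [hP0, List.map_nil, List.nil_append] at hp
        have hp' := procU_event_base u (Q.map (fun e => e.1.1)) (I.map (fun e => e.1.1)) v.1
          O.length _ _ hp hvU huv.ne hI'
        have hE : ({e | ∃ a c : {v : V // v ≠ u}, e = s(a.1, c.1) ∧ G.Adj a.1 c.1 ∧ x a < t ∧
            x c < t} ∪ {e | ∃ a : {v : V // v ≠ u}, e = s(u, a.1) ∧ G.Adj u a.1 ∧ x a < t} :
              Set (Sym2 V)) =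
            insert s(u, v.1) (({e | ∃ a c : {v : V // v ≠ u}, e = s(a.1, c.1) ∧ G.Adj a.1 c.1 ∧
              x a < t0 ∧ x c < t0} ∪
              {e | ∃ a : {v : V // v ≠ u}, e = s(u, a.1) ∧ G.Adj u a.1 ∧ x a < t0}) ∪
              {e | ∃ w ∈ I.map (fun e => e.1.1), e = s(w, v.1)}) := by
          ext e
          simp only [Set.mem_union, Set.mem_setOf_eq, Set.mem_insert_iff]
          constructor
          · rintro (⟨a, c, rfl, hadj, ha, hc⟩ | ⟨a, rfl, hadj, ha⟩)
            · rcases hcase a ha with ha' | ha'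
              · rcases hcase c hc with hc' | hc'
                · exact absurd (congrArg Subtype.val (ha'.trans hc'.symm)) hadj.ne
                · subst ha'
                  exact Or.inr (Or.inr ⟨c.1, hIm c hadj.symm hc', Sym2.eq_swap⟩)
              · rcases hcase c hc with hc' | hc'
                · subst hc'
                  exact Or.inr (Or.inr ⟨a.1, hIm a hadj ha', rfl⟩)
                · exact Or.inr (Or.inl (Or.inl ⟨a, c, rfl, hadj, ha', hc'⟩))
            · rcases hcase a ha with ha' | ha'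
              · subst ha'
                exact Or.inl rfl
              · exact Or.inr (Or.inl (Or.inr ⟨a, rfl, hadj, ha'⟩))
          · rintro (rfl | (⟨a, c, rfl, hadj, ha, hc⟩ | ⟨a, rfl, hadj, ha⟩) | ⟨w, hw, rfl⟩)
            · exact Or.inr ⟨v, rfl, huv, hvt⟩
            · exact Or.inl ⟨a, c, rfl, hadj, hmon _ ha, hmon _ hc⟩
            · exact Or.inr ⟨a, rfl, hadj, hmon _ ha⟩
            · obtain ⟨e, he, rfl⟩ := List.mem_map.1 hw
              obtain ⟨h1, -, h3⟩ := (hI e).1 he
              exact Or.inl ⟨e.1, v, rfl, h1, h3.trans hvt, hvt⟩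
        rw [hPOQ, hP0, List.nil_append, List.map_append, hOr, hU, hE]
        exact hp'
      · have hp' := procU_event u (P.map (fun e => e.1.1)) (Q.map (fun e => e.1.1))
          (I.map (fun e => e.1.1)) v.1 O.length _ _ hp hvU hI'
        have hE : ({e | ∃ a c : {v : V // v ≠ u}, e = s(a.1, c.1) ∧ G.Adj a.1 c.1 ∧ x a < t ∧
            x c < t} ∪ {e | ∃ a : {v : V // v ≠ u}, e = s(u, a.1) ∧ G.Adj u a.1 ∧ x a < t} :
              Set (Sym2 V)) =
            ({e | ∃ a c : {v : V // v ≠ u}, e = s(a.1, c.1) ∧ G.Adj a.1 c.1 ∧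
              x a < t0 ∧ x c < t0} ∪
              {e | ∃ a : {v : V // v ≠ u}, e = s(u, a.1) ∧ G.Adj u a.1 ∧ x a < t0}) ∪
              {e | ∃ w ∈ I.map (fun e => e.1.1), e = s(w, v.1)} := by
          ext e
          simp only [Set.mem_union, Set.mem_setOf_eq]
          constructor
          · rintro (⟨a, c, rfl, hadj, ha, hc⟩ | ⟨a, rfl, hadj, ha⟩)
            · rcases hcase a ha with ha' | ha'
              · rcases hcase c hc with hc' | hc'
                · exact absurd (congrArg Subtype.val (ha'.trans hc'.symm)) hadj.ne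
                · subst ha'
                  exact Or.inr ⟨c.1, hIm c hadj.symm hc', Sym2.eq_swap⟩
              · rcases hcase c hc with hc' | hc'
                · subst hc'
                  exact Or.inr ⟨a.1, hIm a hadj ha', rfl⟩
                · exact Or.inl (Or.inl ⟨a, c, rfl, hadj, ha', hc'⟩)
            · rcases hcase a ha with ha' | ha'
              · subst ha'
                exact absurd hadj huv
              · exact Or.inl (Or.inr ⟨a, rfl, hadj, ha'⟩)
          · rintro ((⟨a, c, rfl, hadj, ha, hc⟩ | ⟨a, rfl, hadj, ha⟩) | ⟨w, hw, rfl⟩)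
            · exact Or.inl ⟨a, c, rfl, hadj, hmon _ ha, hmon _ hc⟩
            · exact Or.inr ⟨a, rfl, hadj, hmon _ ha⟩
            · obtain ⟨e, he, rfl⟩ := List.mem_map.1 hw
              obtain ⟨h1, -, h3⟩ := (hI e).1 he
              exact Or.inl ⟨e.1, v, rfl, h1, h3.trans hvt, hvt⟩
        rw [hPOQ, List.map_append, List.map_append, hOr, hU, hE]
        exact hp'

-- G4
theorem mono_procU_pf {V : Type} [Finite V] (G : SimpleGraph V) (u : V)
    (x y : {v : V // v ≠ u} → ℝ) (g : {v : V // v ≠ u} → {v : V // v ≠ u} → ℝ → ℝ)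
    (h : Mono (G.comap (fun v : {v : V // v ≠ u} => v.1)) x y g)
    (hvis : ∀ v : {v : V // v ≠ u}, G.Adj u v.1 → ∀ a c : {v : V // v ≠ u}, G.Adj a.1 c.1 →
      x a < x v → x v < x c → y v < g a c (x v))
    (t : ℝ) (ht : ∀ v, x v ≠ t) (l : List ({v : V // v ≠ u} × {v : V // v ≠ u}))
    (hl : IsList (G.comap (fun v : {v : V // v ≠ u} => v.1)) x g t l) :
    ProcU u (l.map (fun e => e.1.1)) ({u} ∪ {v | ∃ hv : v ≠ u, x ⟨v, hv⟩ < t})
      ({e | ∃ a c : {v : V // v ≠ u}, e = s(a.1, c.1) ∧ G.Adj a.1 c.1 ∧ x a < t ∧ x c < t} ∪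
        {e | ∃ a : {v : V // v ≠ u}, e = s(u, a.1) ∧ G.Adj u a.1 ∧ x a < t}) :=
  U39_aux G u x y g h hvis _ t rfl ht l hl

end Pool.Agent.H110R3.BP2
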