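import Pool.Agent.H110R3.BP2.Stubs
set_option autoImplicit false
namespace Pool.Agent.H110R3.BP2
open Polynomial Pool.Agent.H207R2.BL Pool.Agent.H110R3.BP

theorem U4_ne (n j : ℕ) (hj : j ≤ 2 * n) : st n j ≠ st n (j + 1) := by
  intro h
  have := st_inj n j (j + 1) (by omega) (by omega) h
  omega

theorem chg_at_pf (n j : ℕ) (hj : j ≤ 2 * n) (s : Fin (2 * n + 2) → Bool) (x : Bool) :
    chg n j s x (st n j) = x ∧ chg n j s x (st n (j + 1)) = !x ∧
      ∀ l, l ≤ 2 * n + 1 → l ≠ j → l ≠ j + 1 → chg n j s x (st n l) = s (st n l) := by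
  unfold chg
  refine ⟨?_, ?_, ?_⟩
  · rw [Function.update_of_ne (U4_ne n j hj), Function.update_self]
  · rw [Function.update_self]
  · intro l hl h1 h2
    have h3 : st n l ≠ st n j := fun h => h1 (st_inj n l j (by omega) (by omega) h)
    have h4 : st n l ≠ st n (j + 1) := fun h => h2 (st_inj n l (j + 1) (by omega) (by omega) h)
    rw [Function.update_of_ne h4, Function.update_of_ne h3]

theorem chg_self_pf (n j : ℕ) (hj : j ≤ 2 * n) (s : Fin (2 * n + 2) → Bool)
    (hs : s (st n (j + 1)) = !(s (st n j))) : chg n j s (s (st n j)) = s := by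
  unfold chg
  rw [Function.update_eq_self, ← hs, Function.update_eq_self]

theorem chg_chg_pf (n j : ℕ) (hj : j ≤ 2 * n) (s : Fin (2 * n + 2) → Bool) (x y : Bool) :
    chg n j (chg n j s x) y = chg n j s y := by
  unfold chg
  have hne := U4_ne n j hj
  funext i
  by_cases h1 : i = st n (j + 1)
  · subst h1
    simp
  · by_cases h2 : i = st n j
    · subst h2
      simp [h1]
    · simp [h1, h2]

end Pool.Agent.H110R3.BP2
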