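import Pool.Agent.H110R3.BP2.Stubs

set_option autoImplicit false

namespace Pool.Agent.H110R3.BP2

open Polynomial Pool.Agent.H207R2.BL Pool.Agent.H110R3.BP

theorem proj_point_pf {V : Type} (f : V → ℝ × ℝ) (u : V) (hu : ∀ v, v ≠ u → (f u).2 < (f v).2)
    (a c : {v : V // v ≠ u}) (t : ℝ) (h1 : xs f u a < t) (h2 : t < xs f u c) :
    ∃ z ∈ openSegment ℝ (f a.1) (f c.1), (f u).2 < z.2 ∧
      (z.1 - (f u).1) / (z.2 - (f u).2) = t ∧ -1 / (z.2 - (f u).2) = gs f u a c t := by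
  have ha : 0 < (f a.1).2 - (f u).2 := sub_pos.2 (hu a.1 a.2)
  have hc : 0 < (f c.1).2 - (f u).2 := sub_pos.2 (hu c.1 c.2)
  have hXa : (f a.1).1 - (f u).1 = xs f u a * ((f a.1).2 - (f u).2) := by
    unfold xs
    rw [div_mul_cancel₀ _ ha.ne']
  have hXc : (f c.1).1 - (f u).1 = xs f u c * ((f c.1).2 - (f u).2) := by
    unfold xs
    rw [div_mul_cancel₀ _ hc.ne']
  have hgs : gs f u a c t = -1 / ((f a.1).2 - (f u).2) +
      (t - xs f u a) / (xs f u c - xs f u a) *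
        (-1 / ((f c.1).2 - (f u).2) - -1 / ((f a.1).2 - (f u).2)) := rfl
  rw [hgs]
  generalize hX : xs f u a = X at *
  generalize hY : xs f u c = Y at *
  generalize hα : (f a.1).2 - (f u).2 = α at *
  generalize hγ : (f c.1).2 - (f u).2 = γ at *
  have hXt : 0 < t - X := sub_pos.2 h1
  have hYt : 0 < Y - t := sub_pos.2 h2
  have hYX : 0 < Y - X := by linarith
  have hD : 0 < α * (t - X) + γ * (Y - t) := by positivity
  set w1 : ℝ := γ * (Y - t) / (α * (t - X) + γ * (Y - t)) with hw1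
  set w2 : ℝ := α * (t - X) / (α * (t - X) + γ * (Y - t)) with hw2
  have hw : w1 + w2 = 1 := by
    rw [hw1, hw2, ← add_div, div_eq_one_iff_eq hD.ne']
    ring
  have hz2 : w1 * (f a.1).2 + w2 * (f c.1).2 - (f u).2 =
      α * γ * (Y - X) / (α * (t - X) + γ * (Y - t)) := by
    have e : w1 * (f a.1).2 + w2 * (f c.1).2 - (f u).2 = w1 * α + w2 * γ := by
      rw [← hα, ← hγ]
      linear_combination ((f u).2) * hw
    rw [e, hw1, hw2]
    field_simp
    ring
  have hz1 : w1 * (f a.1).1 + w2 * (f c.1).1 - (f u).1 =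
      t * (α * γ * (Y - X) / (α * (t - X) + γ * (Y - t))) := by
    have e : w1 * (f a.1).1 + w2 * (f c.1).1 - (f u).1 = w1 * (X * α) + w2 * (Y * γ) := by
      rw [← hXa, ← hXc]
      linear_combination ((f u).1) * hw
    rw [e, hw1, hw2]
    field_simp
    ring
  have hpos : 0 < α * γ * (Y - X) / (α * (t - X) + γ * (Y - t)) := by positivity
  refine ⟨w1 • f a.1 + w2 • f c.1, ⟨w1, w2, by positivity, by positivity, hw, rfl⟩, ?_, ?_, ?_⟩
  · have : 0 < w1 * (f a.1).2 + w2 * (f c.1).2 - (f u).2 := by rw [hz2]; exact hpos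
    show (f u).2 < w1 * (f a.1).2 + w2 * (f c.1).2
    linarith
  · show (w1 * (f a.1).1 + w2 * (f c.1).1 - (f u).1) / (w1 * (f a.1).2 + w2 * (f c.1).2 -
      (f u).2) = t
    rw [hz1, hz2, mul_div_assoc, div_self hpos.ne', mul_one]
  · show -1 / (w1 * (f a.1).2 + w2 * (f c.1).2 - (f u).2) = _
    rw [hz2]
    field_simp
    ring

theorem proj_inj_pf (u z z' : ℝ × ℝ) (h : u.2 < z.2) (h' : u.2 < z'.2)
    (h1 : (z.1 - u.1) / (z.2 - u.2) = (z'.1 - u.1) / (z'.2 - u.2))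
    (h2 : -1 / (z.2 - u.2) = -1 / (z'.2 - u.2)) : z = z' := by
  have hz : 0 < z.2 - u.2 := sub_pos.2 h
  have hz' : 0 < z'.2 - u.2 := sub_pos.2 h'
  have e2 : z.2 = z'.2 := by
    rw [div_eq_div_iff hz.ne' hz'.ne'] at h2
    linarith
  have e1 : z.1 = z'.1 := by
    rw [e2, div_left_inj' hz'.ne'] at h1
    linarith
  exact Prod.ext e1 e2

end Pool.Agent.H110R3.BP2
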