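import Pool.Agent.H110R3.BP2.Stubs

set_option autoImplicit false

namespace Pool.Agent.H110R3.BP2

open Polynomial Pool.Agent.H207R2.BL Pool.Agent.H110R3.BP

theorem mono_of_lowest_pf {V : Type} {G : SimpleGraph V} (f : V → ℝ × ℝ) (h : IsStraight G f)
    (u : V) (hu : ∀ v, v ≠ u → (f u).2 < (f v).2) (hx : Function.Injective (xs f u)) :
    Mono (G.comap (fun v : {v : V // v ≠ u} => v.1)) (xs f u) (ys f u) (gs f u) where
  inj := hx
  cont a c := by
    unfold gs
    fun_prop
  left a c _ _ := by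
    unfold gs
    simp
  right a c _ hac := by
    have h3 : xs f u c - xs f u a ≠ 0 := (sub_pos.2 hac).ne'
    unfold gs
    rw [div_self h3]
    ring
  vert a c z hac h1 h2 heq := by
    obtain ⟨p, hp, hpu, e1, e2⟩ := proj_point f u hu a c (xs f u z) h1 h2
    have hz : (f u).2 < (f z.1).2 := hu z.1 z.2
    have e : p = f z.1 := proj_inj (f u) p (f z.1) hpu hz e1 (e2.trans heq)
    rw [e] at hp
    exact h.2.1 a.1 c.1 z.1 hac hp
  disj a c a' c' t hac hac' hne h1 h2 h3 h4 heq := by
    obtain ⟨p, hp, hpu, e1, e2⟩ := proj_point f u hu a c t h1 h2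
    obtain ⟨p', hp', hpu', e1', e2'⟩ := proj_point f u hu a' c' t h3 h4
    have e : p = p' := proj_inj (f u) p p' hpu hpu' (e1.trans e1'.symm)
      (e2.trans (heq.trans e2'.symm))
    rw [← e] at hp'
    have hs : s(a.1, c.1) ≠ s(a'.1, c'.1) := by
      intro hs
      rcases Sym2.eq_iff.1 hs with ⟨ha, hc⟩ | ⟨ha, hc⟩
      · exact hne (Prod.ext (Subtype.ext ha) (Subtype.ext hc))
      · have ha2 : a = c' := Subtype.ext ha
        have hc2 : c = a' := Subtype.ext hc
        subst ha2
        subst hc2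
        exact absurd (h1.trans h4) (lt_irrefl _)
    exact Set.disjoint_left.1 (h.2.2 a.1 c.1 a'.1 c'.1 hac hac' hs) hp hp'

end Pool.Agent.H110R3.BP2
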