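import Pool.Agent.H110R3.BP2.Stubs
set_option autoImplicit false
namespace Pool.Agent.H110R3.BP2
open Polynomial Pool.Agent.H207R2.BL Pool.Agent.H110R3.BP

theorem vis_of_lowest_pf {V : Type} {G : SimpleGraph V} (f : V → ℝ × ℝ) (h : IsStraight G f)
    (u : V) (hu : ∀ v, v ≠ u → (f u).2 < (f v).2) (v a c : {v : V // v ≠ u})
    (hv : G.Adj u v.1) (hac : G.Adj a.1 c.1) (h1 : xs f u a < xs f u v)
    (h2 : xs f u v < xs f u c) : ys f u v < gs f u a c (xs f u v) := by
  obtain ⟨z, hz, hz2, hzx, hzy⟩ := proj_point f u hu a c (xs f u v) h1 h2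
  have hv2 : (f u).2 < (f v.1).2 := hu v.1 v.2
  have pz : 0 < z.2 - (f u).2 := by linarith
  have pv : 0 < (f v.1).2 - (f u).2 := by linarith
  by_contra hcon
  rcases lt_or_eq_of_le (not_lt.1 hcon) with hlt | heq
  · rw [← hzy] at hlt
    unfold ys at hlt
    have hlt2 : z.2 - (f u).2 < (f v.1).2 - (f u).2 := by
      rw [neg_div, neg_div, neg_lt_neg_iff] at hlt
      exact (one_div_lt_one_div pv pz).1 hlt
    unfold xs at hzx
    have hzx' : (z.1 - (f u).1) * ((f v.1).2 - (f u).2) =
        ((f v.1).1 - (f u).1) * (z.2 - (f u).2) := by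
      rwa [div_eq_div_iff pz.ne' pv.ne'] at hzx
    have hmem : z ∈ openSegment ℝ (f u) (f v.1) := by
      refine ⟨1 - (z.2 - (f u).2) / ((f v.1).2 - (f u).2),
        (z.2 - (f u).2) / ((f v.1).2 - (f u).2), ?_, by positivity, by ring, ?_⟩
      · rw [sub_pos, div_lt_one pv]
        exact hlt2
      · ext
        · simp only [Prod.fst_add, Prod.smul_fst, smul_eq_mul]
          field_simp
          linarith
        · simp only [Prod.snd_add, Prod.smul_snd, smul_eq_mul]
          field_simp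
          ring
    have hne : s(u, v.1) ≠ s(a.1, c.1) := by
      intro he
      rw [Sym2.eq_iff] at he
      rcases he with ⟨he, -⟩ | ⟨he, -⟩
      · exact a.2 he.symm
      · exact c.2 he.symm
    exact Set.disjoint_left.1 (h.2.2 u v.1 a.1 c.1 hv hac hne) hmem hz
  · have hzv : z = f v.1 := by
      refine proj_inj (f u) z (f v.1) hz2 hv2 hzx ?_
      rw [hzy, heq]
      rfl
    rw [hzv] at hz
    exact h.2.1 a.1 c.1 v.1 hac hz

end Pool.Agent.H110R3.BP2
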