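import Pool.Agent.H110R3.BP2.Stubs
set_option autoImplicit false
namespace Pool.Agent.H110R3.BP2
open Polynomial Pool.Agent.H207R2.BL Pool.Agent.H110R3.BP

theorem straight_procU_pf {V : Type} [Finite V] {G : SimpleGraph V} (f : V → ℝ × ℝ)
    (h : IsStraight G f) (u : V) (hu : ∀ v, v ≠ u → (f u).2 < (f v).2)
    (hx : Function.Injective (xs f u)) : ProcU u [] Set.univ G.edgeSet := by
  have h2 := mono_of_lowest f h u hu hx
  obtain ⟨t, ht⟩ := straight_proc_bound (xs f u)
  have h3 := mono_procU G u (xs f u) (ys f u) (gs f u) h2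
    (fun v hv a c hac h4 h5 => vis_of_lowest f h u hu v a c hv hac h4 h5)
    t (fun v => (ht v).ne) [] ⟨fun e => by
      constructor
      · intro he
        simp at he
      · rintro ⟨-, -, h4⟩
        exact absurd (ht e.2) (not_lt.2 h4.le), List.Pairwise.nil⟩
  have e1 : ({u} ∪ {v | ∃ hv : v ≠ u, xs f u ⟨v, hv⟩ < t}) = (Set.univ : Set V) := by
    ext v
    simp only [Set.mem_union, Set.mem_singleton_iff, Set.mem_ofPred_eq, Set.mem_univ, iff_true]
    by_cases hv : v = u
    · exact Or.inl hv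
    · exact Or.inr ⟨hv, ht _⟩
  have e2 : ({e | ∃ a c : {v : V // v ≠ u}, e = s(a.1, c.1) ∧ G.Adj a.1 c.1 ∧ xs f u a < t ∧
      xs f u c < t} ∪
        {e | ∃ a : {v : V // v ≠ u}, e = s(u, a.1) ∧ G.Adj u a.1 ∧ xs f u a < t}) =
      G.edgeSet := by
    ext e
    constructor
    · rintro (⟨a, c, rfl, h4, -, -⟩ | ⟨a, rfl, h4, -⟩)
      · exact h4
      · exact h4
    · intro h4
      induction e using Sym2.ind with
      | _ a c =>
        have h5 : G.Adj a c := h4
        by_cases ha : a = u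
        · subst ha
          exact Or.inr ⟨⟨c, h5.ne'⟩, rfl, h5, ht _⟩
        · by_cases hc : c = u
          · subst hc
            exact Or.inr ⟨⟨a, ha⟩, Sym2.eq_swap, h5.symm, ht _⟩
          · exact Or.inl ⟨⟨a, ha⟩, ⟨c, hc⟩, rfl, h5, ht _, ht _⟩
  rw [e1, e2] at h3
  exact h3

end Pool.Agent.H110R3.BP2
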