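import Pool.Agent.H110R3.BP2.Stubs

set_option autoImplicit false

namespace Pool.Agent.H110R3.BP2

open Polynomial Pool.Agent.H207R2.BL Pool.Agent.H110R3.BP

theorem straight_open_ne (a b p q : ℝ × ℝ) (h : a ≠ b) :
    ∀ᶠ t : ℝ in nhds 0, a + t • p ≠ b + t • q := by
  have h1 : Continuous (fun t : ℝ => a + t • p) := by fun_prop
  have h2 : Continuous (fun t : ℝ => b + t • q) := by fun_prop
  have h3 : IsOpen {t : ℝ | a + t • p ≠ b + t • q} := isOpen_ne_fun h1 h2
  refine h3.mem_nhds ?_
  simpa using h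

theorem straight_open_seg (c a b r p q : ℝ × ℝ) (h : c ∉ segment ℝ a b) :
    ∀ᶠ t : ℝ in nhds 0, c + t • r ∉ segment ℝ (a + t • p) (b + t • q) := by
  have h1 : ∀ᶠ t : ℝ in nhds 0, ∀ s ∈ Set.Icc (0:ℝ) 1,
      c + t • r ≠ (1 - s) • (a + t • p) + s • (b + t • q) := by
    refine IsCompact.eventually_forall_of_forall_eventually isCompact_Icc ?_
    intro s hs
    have h2 : Continuous (fun z : ℝ × ℝ => c + z.1 • r) := by fun_prop
    have h3 : Continuous (fun z : ℝ × ℝ =>
      (1 - z.2) • (a + z.1 • p) + z.2 • (b + z.1 • q)) := by fun_prop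
    have h4 : IsOpen {z : ℝ × ℝ | c + z.1 • r ≠
      (1 - z.2) • (a + z.1 • p) + z.2 • (b + z.1 • q)} := isOpen_ne_fun h2 h3
    refine h4.mem_nhds ?_
    intro h5
    apply h
    rw [segment_eq_image]
    refine ⟨s, hs, ?_⟩
    simpa using h5.symm
  filter_upwards [h1] with t ht
  rw [segment_eq_image]
  rintro ⟨s, hs, h5⟩
  exact ht s hs h5.symm

theorem straight_open_seg2 (a b c d p q r w : ℝ × ℝ)
    (h : Disjoint (segment ℝ a b) (segment ℝ c d)) :
    ∀ᶠ t : ℝ in nhds 0, Disjoint (segment ℝ (a + t • p) (b + t • q))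
      (segment ℝ (c + t • r) (d + t • w)) := by
  have h1 : ∀ᶠ t : ℝ in nhds 0, ∀ s ∈ Set.Icc (0:ℝ) 1 ×ˢ Set.Icc (0:ℝ) 1,
      (1 - s.1) • (a + t • p) + s.1 • (b + t • q) ≠
        (1 - s.2) • (c + t • r) + s.2 • (d + t • w) := by
    refine IsCompact.eventually_forall_of_forall_eventually
      (isCompact_Icc.prod isCompact_Icc) ?_
    intro s hs
    have h2 : Continuous (fun z : ℝ × (ℝ × ℝ) =>
      (1 - z.2.1) • (a + z.1 • p) + z.2.1 • (b + z.1 • q)) := by fun_prop
    have h3 : Continuous (fun z : ℝ × (ℝ × ℝ) =>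
      (1 - z.2.2) • (c + z.1 • r) + z.2.2 • (d + z.1 • w)) := by fun_prop
    have h4 : IsOpen {z : ℝ × (ℝ × ℝ) | (1 - z.2.1) • (a + z.1 • p) + z.2.1 • (b + z.1 • q) ≠
      (1 - z.2.2) • (c + z.1 • r) + z.2.2 • (d + z.1 • w)} := isOpen_ne_fun h2 h3
    refine h4.mem_nhds ?_
    intro h5
    have m1 : (1 - s.1) • a + s.1 • b ∈ segment ℝ a b := by
      rw [segment_eq_image]
      exact ⟨s.1, hs.1, rfl⟩
    have m2 : (1 - s.1) • a + s.1 • b ∈ segment ℝ c d := by
      rw [segment_eq_image]
      refine ⟨s.2, hs.2, ?_⟩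
      simpa using h5.symm
    exact Set.disjoint_left.1 h m1 m2
  filter_upwards [h1] with t ht
  rw [segment_eq_image, segment_eq_image, Set.disjoint_left]
  rintro _ ⟨s, hs, rfl⟩ ⟨s', hs', h5⟩
  exact ht (s, s') ⟨hs, hs'⟩ h5.symm

/-- cross product -/
def straight_open_cr (a b : ℝ × ℝ) : ℝ := a.1 * b.2 - a.2 * b.1

/-- dot product -/
def straight_open_dt (a b : ℝ × ℝ) : ℝ := a.1 * b.1 + a.2 * b.2

theorem straight_open_disj (o a b : ℝ × ℝ)
    (h : straight_open_cr (a - o) (b - o) ≠ 0 ∨ straight_open_dt (a - o) (b - o) < 0) :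
    Disjoint (openSegment ℝ o a) (openSegment ℝ o b) := by
  rw [openSegment_eq_image, openSegment_eq_image, Set.disjoint_left]
  rintro _ ⟨s, hs, rfl⟩ ⟨s', hs', h5⟩
  have e1 := congrArg Prod.fst h5
  have e2 := congrArg Prod.snd h5
  simp only [Prod.fst_add, Prod.snd_add, Prod.smul_fst, Prod.smul_snd, smul_eq_mul] at e1 e2
  unfold straight_open_cr straight_open_dt at h
  simp only [Prod.fst_sub, Prod.snd_sub] at h
  have f1 : s' * (b.1 - o.1) = s * (a.1 - o.1) := by linarith
  have f2 : s' * (b.2 - o.2) = s * (a.2 - o.2) := by linarith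
  rcases h with h | h
  · apply h
    have h6 : s' * ((a.1 - o.1) * (b.2 - o.2) - (a.2 - o.2) * (b.1 - o.1)) = 0 := by
      have : s' * ((a.1 - o.1) * (b.2 - o.2) - (a.2 - o.2) * (b.1 - o.1)) =
        (a.1 - o.1) * (s' * (b.2 - o.2)) - (a.2 - o.2) * (s' * (b.1 - o.1)) := by ring
      rw [this, f1, f2]
      ring
    rcases mul_eq_zero.1 h6 with h7 | h7
    · exact absurd h7 hs'.1.ne'
    · exact h7
  · have h6 : s' * ((a.1 - o.1) * (b.1 - o.1) + (a.2 - o.2) * (b.2 - o.2)) =
      s * ((a.1 - o.1) ^ 2 + (a.2 - o.2) ^ 2) := by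
      have : s' * ((a.1 - o.1) * (b.1 - o.1) + (a.2 - o.2) * (b.2 - o.2)) =
        (a.1 - o.1) * (s' * (b.1 - o.1)) + (a.2 - o.2) * (s' * (b.2 - o.2)) := by ring
      rw [this, f1, f2]
      ring
    have h7 : s' * ((a.1 - o.1) * (b.1 - o.1) + (a.2 - o.2) * (b.2 - o.2)) < 0 :=
      mul_neg_of_pos_of_neg hs'.1 h
    have h8 : 0 ≤ s * ((a.1 - o.1) ^ 2 + (a.2 - o.2) ^ 2) :=
      mul_nonneg hs.1.le (by positivity)
    linarith

theorem straight_open_cond (o a b : ℝ × ℝ) (ha : a ≠ o) (hb : b ≠ o)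
    (h : Disjoint (openSegment ℝ o a) (openSegment ℝ o b)) :
    straight_open_cr (a - o) (b - o) ≠ 0 ∨ straight_open_dt (a - o) (b - o) < 0 := by
  by_contra hcon
  push Not at hcon
  obtain ⟨h1, h2⟩ := hcon
  unfold straight_open_cr at h1
  unfold straight_open_dt at h2
  simp only [Prod.fst_sub, Prod.snd_sub] at h1 h2
  set A1 := a.1 - o.1 with hA1
  set A2 := a.2 - o.2 with hA2
  set B1 := b.1 - o.1 with hB1
  set B2 := b.2 - o.2 with hB2
  have hN : 0 < A1 ^ 2 + A2 ^ 2 := by
    rcases lt_or_eq_of_le (show 0 ≤ A1 ^ 2 + A2 ^ 2 by positivity) with h | h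
    · exact h
    · exfalso
      apply ha
      have h3 : A1 = 0 := by nlinarith [sq_nonneg A1, sq_nonneg A2]
      have h4 : A2 = 0 := by nlinarith [sq_nonneg A1, sq_nonneg A2]
      refine Prod.ext ?_ ?_
      · linarith
      · linarith
  have k1 : (A1 * B1 + A2 * B2) * A1 = (A1 ^ 2 + A2 ^ 2) * B1 := by
    linear_combination (A2) * h1
  have k2 : (A1 * B1 + A2 * B2) * A2 = (A1 ^ 2 + A2 ^ 2) * B2 := by
    linear_combination (-A1) * h1
  have hD : 0 < A1 * B1 + A2 * B2 := by
    rcases lt_or_eq_of_le h2 with h | h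
    · exact h
    · exfalso
      apply hb
      rw [← h, zero_mul] at k1 k2
      have h3 : B1 = 0 := by
        rcases mul_eq_zero.1 k1.symm with h5 | h5
        · exact absurd h5 hN.ne'
        · exact h5
      have h4 : B2 = 0 := by
        rcases mul_eq_zero.1 k2.symm with h5 | h5
        · exact absurd h5 hN.ne'
        · exact h5
      refine Prod.ext ?_ ?_
      · linarith
      · linarith
  set D := A1 * B1 + A2 * B2 with hDdef
  set N := A1 ^ 2 + A2 ^ 2 with hNdef
  have hDN : 0 < D + N := by linarith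
  rw [openSegment_eq_image, openSegment_eq_image, Set.disjoint_left] at h
  refine h (a := (1 - D / (D + N)) • o + (D / (D + N)) • a) ⟨D / (D + N), ⟨by positivity, ?_⟩, rfl⟩
    ⟨N / (D + N), ⟨by positivity, ?_⟩, ?_⟩
  · rw [div_lt_one hDN]
    linarith
  · rw [div_lt_one hDN]
    linarith
  · refine Prod.ext ?_ ?_
    · simp only [Prod.fst_add, Prod.smul_fst, smul_eq_mul]
      have : (1 - N / (D + N)) * o.1 + N / (D + N) * b.1 -
          ((1 - D / (D + N)) * o.1 + D / (D + N) * a.1) = (N * B1 - D * A1) / (D + N) := by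
        rw [hB1, hA1]
        field_simp
        ring
      have h0 : N * B1 - D * A1 = 0 := by linarith
      rw [h0, zero_div] at this
      linarith
    · simp only [Prod.snd_add, Prod.smul_snd, smul_eq_mul]
      have : (1 - N / (D + N)) * o.2 + N / (D + N) * b.2 -
          ((1 - D / (D + N)) * o.2 + D / (D + N) * a.2) = (N * B2 - D * A2) / (D + N) := by
        rw [hB2, hA2]
        field_simp
        ring
      have h0 : N * B2 - D * A2 = 0 := by linarith
      rw [h0, zero_div] at this
      linarith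

theorem straight_open_cond_ev (o a b r p q : ℝ × ℝ)
    (h : straight_open_cr (a - o) (b - o) ≠ 0 ∨ straight_open_dt (a - o) (b - o) < 0) :
    ∀ᶠ t : ℝ in nhds 0,
      straight_open_cr ((a + t • p) - (o + t • r)) ((b + t • q) - (o + t • r)) ≠ 0 ∨
        straight_open_dt ((a + t • p) - (o + t • r)) ((b + t • q) - (o + t • r)) < 0 := by
  rcases h with h | h
  · have h1 : Continuous (fun t : ℝ =>
        straight_open_cr ((a + t • p) - (o + t • r)) ((b + t • q) - (o + t • r))) := by
      unfold straight_open_cr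
      fun_prop
    have h3 : IsOpen {t : ℝ |
        straight_open_cr ((a + t • p) - (o + t • r)) ((b + t • q) - (o + t • r)) ≠ 0} :=
      isOpen_ne_fun h1 continuous_const
    have h4 := h3.mem_nhds (show (0:ℝ) ∈ _ by simpa using h)
    filter_upwards [h4] with t ht
    exact Or.inl ht
  · have h1 : Continuous (fun t : ℝ =>
        straight_open_dt ((a + t • p) - (o + t • r)) ((b + t • q) - (o + t • r))) := by
      unfold straight_open_dt
      fun_prop
    have h3 : IsOpen {t : ℝ |
        straight_open_dt ((a + t • p) - (o + t • r)) ((b + t • q) - (o + t • r)) < 0} :=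
      isOpen_lt h1 continuous_const
    have h4 := h3.mem_nhds (show (0:ℝ) ∈ _ by simpa using h)
    filter_upwards [h4] with t ht
    exact Or.inr ht

theorem straight_open_segs_disj {V : Type} {G : SimpleGraph V} (f : V → ℝ × ℝ)
    (h : IsStraight G f) (u v u' v' : V) (h1 : G.Adj u v) (h2 : G.Adj u' v')
    (n1 : u ≠ u') (n2 : u ≠ v') (n3 : v ≠ u') (n4 : v ≠ v') :
    Disjoint (segment ℝ (f u) (f v)) (segment ℝ (f u') (f v')) := by
  obtain ⟨i1, i2, i3⟩ := h
  have hne : s(u, v) ≠ s(u', v') := by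
    intro he
    rcases Sym2.eq_iff.1 he with ⟨e, -⟩ | ⟨e, -⟩
    · exact n1 e
    · exact n2 e
  rw [← insert_endpoints_openSegment, ← insert_endpoints_openSegment, Set.disjoint_left]
  intro z hz hz'
  simp only [Set.mem_insert_iff] at hz hz'
  rcases hz with rfl | rfl | hz
  · rcases hz' with e | e | e
    · exact n1 (i1 e)
    · exact n2 (i1 e)
    · exact i2 _ _ _ h2 e
  · rcases hz' with e | e | e
    · exact n3 (i1 e)
    · exact n4 (i1 e)
    · exact i2 _ _ _ h2 e
  · rcases hz' with e | e | e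
    · subst e
      exact i2 _ _ _ h1 hz
    · subst e
      exact i2 _ _ _ h1 hz
    · exact Set.disjoint_left.1 (i3 _ _ _ _ h1 h2 hne) hz e

-- G10: straight line drawings are stable under small perturbations
theorem straight_open_pf {V : Type} [Finite V] {G : SimpleGraph V} (f p : V → ℝ × ℝ)
    (h : IsStraight G f) : ∃ t0 : ℝ, 0 < t0 ∧ ∀ t, 0 < t → t < t0 →
      IsStraight G (fun v => f v + t • p v) := by
  have hs := h
  obtain ⟨i1, i2, i3⟩ := h
  have E1 : ∀ᶠ t : ℝ in nhds 0, ∀ u v : V, u ≠ v → f u + t • p u ≠ f v + t • p v := by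
    refine Filter.eventually_all.2 fun u => Filter.eventually_all.2 fun v => ?_
    by_cases huv : u = v
    · exact Filter.Eventually.of_forall fun t hc => absurd huv hc
    · filter_upwards [straight_open_ne (f u) (f v) (p u) (p v) (fun e => huv (i1 e))] with t ht _
      exact ht
  have E2 : ∀ᶠ t : ℝ in nhds 0, ∀ u v w : V, G.Adj u v → w ≠ u → w ≠ v →
      f w + t • p w ∉ segment ℝ (f u + t • p u) (f v + t • p v) := by
    refine Filter.eventually_all.2 fun u => Filter.eventually_all.2 fun v =>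
      Filter.eventually_all.2 fun w => ?_
    by_cases hc : G.Adj u v ∧ w ≠ u ∧ w ≠ v
    · have h1 : f w ∉ segment ℝ (f u) (f v) := by
        rw [← insert_endpoints_openSegment]
        intro h2
        simp only [Set.mem_insert_iff] at h2
        rcases h2 with e | e | e
        · exact hc.2.1 (i1 e)
        · exact hc.2.2 (i1 e)
        · exact i2 _ _ _ hc.1 e
      filter_upwards [straight_open_seg (f w) (f u) (f v) (p w) (p u) (p v) h1] with t ht _ _ _
      exact ht
    · exact Filter.Eventually.of_forall fun t a b c => absurd ⟨a, b, c⟩ hc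
  have E3 : ∀ᶠ t : ℝ in nhds 0, ∀ u v u' v' : V, G.Adj u v → G.Adj u' v' → u ≠ u' → u ≠ v' →
      v ≠ u' → v ≠ v' → Disjoint (segment ℝ (f u + t • p u) (f v + t • p v))
        (segment ℝ (f u' + t • p u') (f v' + t • p v')) := by
    refine Filter.eventually_all.2 fun u => Filter.eventually_all.2 fun v =>
      Filter.eventually_all.2 fun u' => Filter.eventually_all.2 fun v' => ?_
    by_cases hc : G.Adj u v ∧ G.Adj u' v' ∧ u ≠ u' ∧ u ≠ v' ∧ v ≠ u' ∧ v ≠ v'
    · obtain ⟨c1, c2, c3, c4, c5, c6⟩ := hc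
      filter_upwards [straight_open_seg2 (f u) (f v) (f u') (f v') (p u) (p v) (p u') (p v')
        (straight_open_segs_disj f hs u v u' v' c1 c2 c3 c4 c5 c6)] with t ht _ _ _ _ _ _
      exact ht
    · exact Filter.Eventually.of_forall fun t a b c d e g => absurd ⟨a, b, c, d, e, g⟩ hc
  have E4 : ∀ᶠ t : ℝ in nhds 0, ∀ o a b : V, G.Adj o a → G.Adj o b → a ≠ b →
      straight_open_cr ((f a + t • p a) - (f o + t • p o)) ((f b + t • p b) - (f o + t • p o)) ≠ 0 ∨
        straight_open_dt ((f a + t • p a) - (f o + t • p o))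
          ((f b + t • p b) - (f o + t • p o)) < 0 := by
    refine Filter.eventually_all.2 fun o => Filter.eventually_all.2 fun a =>
      Filter.eventually_all.2 fun b => ?_
    by_cases hc : G.Adj o a ∧ G.Adj o b ∧ a ≠ b
    · obtain ⟨c1, c2, c3⟩ := hc
      have h1 : s(o, a) ≠ s(o, b) := by
        intro he
        rcases Sym2.eq_iff.1 he with ⟨-, e⟩ | ⟨e1, e2⟩
        · exact c3 e
        · exact c3 (e2.trans e1)
      have h2 := straight_open_cond (f o) (f a) (f b) (fun e => c1.ne' (i1 e))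
        (fun e => c2.ne' (i1 e)) (i3 _ _ _ _ c1 c2 h1)
      filter_upwards [straight_open_cond_ev (f o) (f a) (f b) (p o) (p a) (p b) h2] with t ht _ _ _
      exact ht
    · exact Filter.Eventually.of_forall fun t a b c => absurd ⟨a, b, c⟩ hc
  have E := E1.and (E2.and (E3.and E4))
  rw [Metric.eventually_nhds_iff] at E
  obtain ⟨t0, ht0, ht⟩ := E
  refine ⟨t0, ht0, ?_⟩
  intro t h0 h1
  obtain ⟨k1, k2, k3, k4⟩ := ht (y := t) (by
    rw [Real.dist_eq, sub_zero, abs_of_pos h0]
    exact h1)
  refine ⟨?_, ?_, ?_⟩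
  · intro u v huv
    by_contra hne
    exact k1 u v hne huv
  · intro u v w huv
    by_cases hwu : w = u
    · subst hwu
      intro hc
      exact k1 _ _ huv.ne (left_mem_openSegment_iff.1 hc)
    · by_cases hwv : w = v
      · subst hwv
        intro hc
        exact k1 _ _ huv.ne (right_mem_openSegment_iff.1 hc)
      · intro hc
        exact k2 u v w huv hwu hwv (openSegment_subset_segment _ _ _ hc)
  · intro u v u' v' h1 h2 hne
    by_cases n1 : u = u'
    · subst n1
      have hvv : v ≠ v' := by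
        rintro rfl
        exact hne rfl
      exact straight_open_disj _ _ _ (k4 _ _ _ h1 h2 hvv)
    · by_cases n2 : u = v'
      · subst n2
        have hvv : v ≠ u' := by
          rintro rfl
          exact hne (Sym2.eq_swap)
        rw [openSegment_symm ℝ ((fun v => f v + t • p v) u') ((fun v => f v + t • p v) u)]
        exact straight_open_disj _ _ _ (k4 _ _ _ h1 h2.symm hvv)
      · by_cases n3 : v = u'
        · subst n3
          rw [openSegment_symm ℝ ((fun v => f v + t • p v) u) ((fun v => f v + t • p v) v)]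
          exact straight_open_disj _ _ _ (k4 _ _ _ h1.symm h2 n2)
        · by_cases n4 : v = v'
          · subst n4
            rw [openSegment_symm ℝ ((fun v => f v + t • p v) u) ((fun v => f v + t • p v) v),
              openSegment_symm ℝ ((fun v => f v + t • p v) u') ((fun v => f v + t • p v) v)]
            exact straight_open_disj _ _ _ (k4 _ _ _ h1.symm h2.symm n1)
          · exact (k3 u v u' v' h1 h2 n1 n2 n3 n4).mono (openSegment_subset_segment _ _ _)
              (openSegment_subset_segment _ _ _)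

end Pool.Agent.H110R3.BP2
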