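import Pool.Agent.H110R3.BP2.Stubs

set_option autoImplicit false

namespace Pool.Agent.H110R3.BP2

open Polynomial Pool.Agent.H207R2.BL Pool.Agent.H110R3.BP

theorem perturb_pf {V : Type} [Finite V] {G : SimpleGraph V} (f : V → ℝ × ℝ)
    (h : IsStraight G f) (u : V) (hu : ∀ v, v ≠ u → (f u).2 < (f v).2) :
    ∃ f' : V → ℝ × ℝ, IsStraight G f' ∧ (∀ v, v ≠ u → (f' u).2 < (f' v).2) ∧
      Function.Injective (xs f' u) := by
  obtain ⟨n, ⟨e⟩⟩ := Finite.exists_equiv_fin V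
  obtain ⟨t0, ht0, hst⟩ := straight_open (G := G) f
    (fun v => (((e v : ℕ) : ℝ) * ((f v).2 - (f u).2), (0 : ℝ))) h
  have hB : (Set.range (fun a : {v : V // v ≠ u} × {v : V // v ≠ u} =>
      (xs f u a.2 - xs f u a.1) / (((e a.1.1 : ℕ) : ℝ) - ((e a.2.1 : ℕ) : ℝ)))).Finite :=
    Set.finite_range _
  obtain ⟨t, ⟨htI, htB⟩⟩ := ((Set.Ioo_infinite ht0).sdiff hB).nonempty
  refine ⟨_, hst t htI.1 htI.2, ?_, ?_⟩
  · intro v hv
    simpa using hu v hv
  · have hx : ∀ v : {v : V // v ≠ u},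
        xs (fun v => f v + t • (((e v : ℕ) : ℝ) * ((f v).2 - (f u).2), (0 : ℝ))) u v =
          xs f u v + t * ((e v.1 : ℕ) : ℝ) := by
      intro v
      have hpos : (0 : ℝ) < (f v.1).2 - (f u).2 := by
        have := hu v.1 v.2
        linarith
      unfold xs
      simp only [Prod.fst_add, Prod.smul_mk, smul_eq_mul, Prod.snd_add, mul_zero, add_zero,
        sub_self]
      field_simp
      ring
    intro a b hab
    by_contra hne
    have hne' : (((e a.1 : ℕ) : ℝ) - ((e b.1 : ℕ) : ℝ)) ≠ 0 := by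
      intro h0
      apply hne
      have h1 : ((e a.1 : ℕ) : ℝ) = ((e b.1 : ℕ) : ℝ) := sub_eq_zero.1 h0
      have h2 : (e a.1 : ℕ) = (e b.1 : ℕ) := by exact_mod_cast h1
      exact Subtype.ext (e.injective (Fin.ext h2))
    rw [hx a, hx b] at hab
    apply htB
    refine ⟨(a, b), ?_⟩
    simp only
    rw [div_eq_iff hne']
    linarith

end Pool.Agent.H110R3.BP2
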