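import Pool.Agent.H110R3.BP2.Stubs

set_option autoImplicit false

namespace Pool.Agent.H110R3.BP2

open Polynomial Pool.Agent.H207R2.BL Pool.Agent.H110R3.BP

theorem main_apex_pf {V : Type} [Fintype V] (G : SimpleGraph V) (u : V)
    (hG : (G.induce {v | v ≠ u}).Colorable 2) (f : V → ℝ × ℝ) (hf : IsStraight G f)
    (hu : ∀ v, v ≠ u → (f u).2 < (f v).2) (p : ℝ[X]) (hp : IsChrom G p) (q : ℝ) (hq : 4 ≤ q) :
    0 < p.eval q := by
  classical
  obtain ⟨f', h1, h2, h3⟩ := perturb f hf u hu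
  have hproc := straight_procU f' h1 u h2 h3
  obtain ⟨C⟩ := hG
  have hb : BipU u (fun v => if h : v ≠ u then decide (C ⟨v, h⟩ = 0) else false) G.edgeSet := by
    intro a b hab ha hb hne
    simp only [dif_pos ha, dif_pos hb] at hne
    have hadj : (G.induce {v | v ≠ u}).Adj ⟨a, ha⟩ ⟨b, hb⟩ := by
      rw [SimpleGraph.comap_adj]
      exact (SimpleGraph.mem_edgeSet G).1 hab
    have h4 : C ⟨a, ha⟩ ≠ C ⟨b, hb⟩ := C.valid hadj
    have h5 : (C ⟨a, ha⟩ = 0) ↔ (C ⟨b, hb⟩ = 0) := decide_eq_decide.1 hne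
    apply h4
    have h6 : ∀ x y : Fin 2, (x = 0 ↔ y = 0) → x = y := by decide
    exact h6 _ _ h5
  exact good1_pos u _ G (good1_of_procU u _ hproc hb) p hp q hq

end Pool.Agent.H110R3.BP2
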