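import Pool.Agent.H110R3.BP2.Stubs

/-! U5 (helper605): square roots. -/

set_option autoImplicit false

namespace Pool.Agent.H110R3.BP2

open Polynomial Pool.Agent.H207R2.BL Pool.Agent.H110R3.BP

theorem Eig.natAbs_pf {δ : ℝ} {S : ℤ → ℝ} (hS : Eig δ S) (h : ℤ) :
    S h = S (h.natAbs : ℤ) := by
  rcases Int.natAbs_eq h with h1 | h1
  · rw [← h1]
  · conv_lhs => rw [h1]
    exact hS.even _

theorem U5_sq {δ : ℝ} {S : ℤ → ℝ} (hS : Eig δ S) (a b : ℤ) :
    Real.sqrt (S a / S b) ^ 2 = S a / S b :=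
  Real.sq_sqrt (div_nonneg (hS.pos a).le (hS.pos b).le)

theorem wt_sq_sum_pf {δ : ℝ} {S : ℤ → ℝ} (hS : Eig δ S) (h : ℤ) :
    wt S h true ^ 2 + wt S h false ^ 2 = δ := by
  have h1 : wt S h true ^ 2 = S (h + 1) / S h := U5_sq hS (h + 1) h
  have h2 : wt S h false ^ 2 = S (h - 1) / S h := U5_sq hS (h - 1) h
  rw [h1, h2, ← add_div, hS.recur h, mul_div_assoc, div_self (hS.pos h).ne', mul_one]

theorem U5_mul {δ : ℝ} {S : ℤ → ℝ} (hS : Eig δ S) (a b : ℤ) :
    Real.sqrt (S a / S b) * Real.sqrt (S b / S a) = 1 := by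
  have ha := hS.pos a
  have hb := hS.pos b
  rw [← Real.sqrt_mul (div_nonneg ha.le hb.le)]
  have : S a / S b * (S b / S a) = 1 := by
    field_simp
  rw [this, Real.sqrt_one]

theorem wt_mul_back_pf {δ : ℝ} {S : ℤ → ℝ} (hS : Eig δ S) (h : ℤ) (x : Bool) :
    wt S h x * wt S (if x then h + 1 else h - 1) (!x) = 1 := by
  cases x
  · have h1 : wt S h false = Real.sqrt (S (h - 1) / S h) := rfl
    have h2 : wt S (h - 1) true = Real.sqrt (S (h - 1 + 1) / S (h - 1)) := rfl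
    change wt S h false * wt S (h - 1) true = 1
    rw [h1, h2, sub_add_cancel]
    exact U5_mul hS (h - 1) h
  · have h1 : wt S h true = Real.sqrt (S (h + 1) / S h) := rfl
    have h2 : wt S (h + 1) false = Real.sqrt (S (h + 1 - 1) / S (h + 1)) := rfl
    change wt S h true * wt S (h + 1) false = 1
    rw [h1, h2, add_sub_cancel_right]
    exact U5_mul hS (h + 1) h

end Pool.Agent.H110R3.BP2
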