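import Pool.Agent.H110R3.BP2.Stubs

set_option autoImplicit false

namespace Pool.Agent.H110R3.BP2

open Polynomial Pool.Agent.H207R2.BL Pool.Agent.H110R3.BP

theorem exists_eig_pf (q : ℝ) (hq : 4 ≤ q) :
    ∃ (δ : ℝ) (S : ℤ → ℝ), 0 < δ ∧ q = δ ^ 2 ∧ Eig δ S := by
  have h2 : 2 ≤ Real.sqrt q := by
    rw [show (2 : ℝ) = Real.sqrt 4 by
      rw [show (4 : ℝ) = 2 ^ 2 by norm_num, Real.sqrt_sq (by norm_num)]]
    exact Real.sqrt_le_sqrt hq
  set d := Real.sqrt q with hd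
  have hdd : d ^ 2 = q := Real.sq_sqrt (by linarith)
  set r := Real.sqrt (d ^ 2 - 4) with hr
  have hrr : r ^ 2 = d ^ 2 - 4 := Real.sq_sqrt (by nlinarith)
  have hr0 : 0 ≤ r := Real.sqrt_nonneg _
  set t := (d + r) / 2 with ht
  have ht0 : 0 < t := by positivity
  have htt : t * (d - t) = 1 := by
    rw [ht]; nlinarith
  have htinv : t⁻¹ = d - t := inv_eq_of_mul_eq_one_right htt
  refine ⟨d, fun h => t ^ h + t ^ (-h), by linarith, hdd.symm, ?_, ?_, ?_⟩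
  · intro h
    have h3 : 0 < t ^ h := zpow_pos ht0 h
    have h4 : 0 < t ^ (-h) := zpow_pos ht0 (-h)
    show 0 < t ^ h + t ^ (-h)
    linarith
  · intro h
    have hne : t ≠ 0 := ht0.ne'
    show t ^ (h + 1) + t ^ (-(h + 1)) + (t ^ (h - 1) + t ^ (-(h - 1))) =
      d * (t ^ h + t ^ (-h))
    have e1 : t ^ (h + 1) = t ^ h * t := zpow_add_one₀ hne h
    have e2 : t ^ (-(h + 1)) = t ^ (-h) * t⁻¹ := by
      rw [show -(h + 1) = -h - 1 by ring, zpow_sub_one₀ hne]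
    have e3 : t ^ (h - 1) = t ^ h * t⁻¹ := zpow_sub_one₀ hne h
    have e4 : t ^ (-(h - 1)) = t ^ (-h) * t := by
      rw [show -(h - 1) = -h + 1 by ring, zpow_add_one₀ hne]
    rw [e1, e2, e3, e4, htinv]
    ring
  · intro h
    show t ^ (-h) + t ^ (-(-h)) = t ^ h + t ^ (-h)
    rw [neg_neg, add_comm]

end Pool.Agent.H110R3.BP2
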