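import Pool.Agent.H110R3.BP2.Stubs

set_option autoImplicit false

namespace Pool.Agent.H110R3.BP2

open Polynomial Pool.Agent.H207R2.BL Pool.Agent.H110R3.BP

-- P1
theorem Pop_sq_pf (n : ℕ) {δ : ℝ} {S : ℤ → ℝ} (hS : Eig δ S) (j : ℕ) (hj : j ≤ 2 * n) :
    (PopE n S 1 j * PopE n S 1 j : Module.End ℝ (Fn (Fin (2 * n + 2)) Bool)) =
      δ • PopE n S 1 j := by
  refine LinearMap.ext (fun f => funext (fun s => ?_))
  simp only [Module.End.mul_apply, LinearMap.smul_apply, Pi.smul_apply, smul_eq_mul]
  rw [PopE_apply, PopE_apply n S 1 j f s]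
  split_ifs with hs
  · have key : ∀ x : Bool, PopE n S 1 j f (chg n j s x) = wt S (hgt n s j) x *
        (wt S (hgt n s j) true * f (chg n j s true) +
          wt S (hgt n s j) false * f (chg n j s false)) := by
      intro x
      obtain ⟨c1, c2, _⟩ := chg_at n j hj s x
      rw [PopE_apply, c1, c2, if_pos rfl, hgt_chg_le n j hj s x j le_rfl, Fintype.sum_bool]
      rw [chg_chg n j hj, chg_chg n j hj, ite_self, ite_self, one_mul, one_mul]
    have hw := wt_sq_sum hS (hgt n s j)
    rw [Fintype.sum_bool, Fintype.sum_bool, key, key, ite_self, ite_self]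
    linear_combination (wt S (hgt n s j) (s (st n j)) *
      (wt S (hgt n s j) true * f (chg n j s true) +
        wt S (hgt n s j) false * f (chg n j s false))) * hw
  · simp

end Pool.Agent.H110R3.BP2
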