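import Pool.Agent.H110R3.BP2.Stubs
set_option autoImplicit false
namespace Pool.Agent.H110R3.BP2
open Polynomial Pool.Agent.H207R2.BL Pool.Agent.H110R3.BP

lemma U8_sumb (x : Bool) (F : Bool → ℝ) : ∑ y : Bool, F y = F x + F (!x) := by
  cases x <;> simp [add_comm]

lemma U8_apply (n : ℕ) (S : ℤ → ℝ) (j : ℕ) (f : Fn (Fin (2 * n + 2)) Bool)
    (s : Fin (2 * n + 2) → Bool) (hs : s (st n (j + 1)) = !(s (st n j))) :
    PopE n S 1 j f s = wt S (hgt n s j) (s (st n j)) *
        ∑ x : Bool, wt S (hgt n s j) x * f (chg n j s x) := by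
  rw [PopE_apply, if_pos hs]
  congr 1
  refine Finset.sum_congr rfl fun x _ => ?_
  simp

lemma U8_apply_zero (n : ℕ) (S : ℤ → ℝ) (ε : ℝ) (j : ℕ) (f : Fn (Fin (2 * n + 2)) Bool)
    (s : Fin (2 * n + 2) → Bool) (hs : ¬ s (st n (j + 1)) = !(s (st n j))) :
    PopE n S ε j f s = 0 := by
  rw [PopE_apply, if_neg hs]

theorem Pop_zig1_pf (n : ℕ) {δ : ℝ} {S : ℤ → ℝ} (hS : Eig δ S) (j : ℕ) (hj : j + 1 ≤ 2 * n) :
    (PopE n S 1 j * PopE n S 1 (j + 1) * PopE n S 1 j :
      Module.End ℝ (Fn (Fin (2 * n + 2)) Bool)) = PopE n S 1 j := by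
  apply LinearMap.ext
  intro f
  funext s
  simp only [Module.End.mul_apply]
  by_cases hs : s (st n (j + 1)) = !(s (st n j))
  swap
  · rw [U8_apply_zero n S 1 j _ s hs, U8_apply_zero n S 1 j _ s hs]
  have hj' : j ≤ 2 * n := by omega
  obtain ⟨x, hx⟩ : ∃ x, x = s (st n (j + 2)) := ⟨_, rfl⟩
  have at1 := fun y => (chg_at n j hj' s y).1
  have at2 := fun y => (chg_at n j hj' s y).2.1
  have at3 : ∀ y, chg n j s y (st n (j + 2)) = x := fun y => by
    rw [(chg_at n j hj' s y).2.2 (j + 2) (by omega) (by omega) (by omega), hx]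
  have h0 : PopE n S 1 (j + 1) (PopE n S 1 j f) (chg n j s (!x)) = 0 := by
    apply U8_apply_zero
    rw [at2, show j + 1 + 1 = j + 2 from rfl, at3]
    cases x <;> simp
  have h2 : PopE n S 1 j f (chg n j s x) =
      wt S (hgt n s j) x * ∑ z : Bool, wt S (hgt n s j) z * f (chg n j s z) := by
    rw [U8_apply n S j f _ (by rw [at2, at1]), at1, hgt_chg_le n j hj' s x j le_rfl]
    congr 1
    refine Finset.sum_congr rfl fun z _ => ?_
    rw [chg_chg n j hj' s x z]
  have h1 : PopE n S 1 (j + 1) (PopE n S 1 j f) (chg n j s x) =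
      wt S (if x then hgt n s j + 1 else hgt n s j - 1) (!x) *
        (wt S (if x then hgt n s j + 1 else hgt n s j - 1) (!x) *
          PopE n S 1 j f (chg n j s x)) := by
    have hc : chg n j s x (st n (j + 1 + 1)) = !(chg n j s x (st n (j + 1))) := by
      rw [at2, show j + 1 + 1 = j + 2 from rfl, at3]
      simp
    have hh : hgt n (chg n j s x) (j + 1) = if x then hgt n s j + 1 else hgt n s j - 1 := by
      rw [hgt_chg_mid n j hj' s x]
      cases x <;> simp [sub_eq_add_neg]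
    rw [U8_apply n S (j + 1) _ _ hc, hh, at2, U8_sumb (!x)]
    have e1 : chg n (j + 1) (chg n j s x) (!x) = chg n j s x := by
      have := chg_self n (j + 1) hj (chg n j s x) hc
      rwa [at2] at this
    have e2 : PopE n S 1 j f (chg n (j + 1) (chg n j s x) (!!x)) = 0 := by
      apply U8_apply_zero
      rw [(chg_at n (j + 1) hj (chg n j s x) (!!x)).1,
        (chg_at n (j + 1) hj (chg n j s x) (!!x)).2.2 j (by omega) (by omega) (by omega), at1]
      cases x <;> simp
    rw [e1, e2, mul_zero, add_zero]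
  have hw := wt_mul_back hS (hgt n s j) x
  rw [U8_apply n S j _ s hs, U8_apply n S j _ s hs, U8_sumb x, h0, h1, h2, mul_zero, add_zero]
  congr 1
  linear_combination (∑ z : Bool, wt S (hgt n s j) z * f (chg n j s z)) *
    (wt S (hgt n s j) x * wt S (if x then hgt n s j + 1 else hgt n s j - 1) (!x) + 1) * hw

end Pool.Agent.H110R3.BP2
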