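import Pool.Agent.H110R3.BP2.Stubs

set_option autoImplicit false

namespace Pool.Agent.H110R3.BP2

open Polynomial Pool.Agent.H207R2.BL Pool.Agent.H110R3.BP

theorem U9_app (n : ℕ) (S : ℤ → ℝ) (j : ℕ) (f : Fn (Fin (2 * n + 2)) Bool)
    (s : Fin (2 * n + 2) → Bool) :
    PopE n S 1 j f s = if s (st n (j + 1)) = !(s (st n j)) then
      wt S (hgt n s j) (s (st n j)) *
        ∑ x : Bool, wt S (hgt n s j) x * f (chg n j s x) else 0 := by
  rw [PopE_apply]
  simp only [ite_self, one_mul]

theorem U9_h (n : ℕ) (s : Fin (2 * n + 2) → Bool) (j : ℕ) :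
    (if s (st n j) then hgt n s j + 1 else hgt n s j - 1) = hgt n s (j + 1) := by
  rw [hgt_succ]
  cases s (st n j) <;> simp [sub_eq_add_neg]

theorem Pop_zig2_pf (n : ℕ) {δ : ℝ} {S : ℤ → ℝ} (hS : Eig δ S) (j : ℕ) (hj : j + 1 ≤ 2 * n) :
    (PopE n S 1 (j + 1) * PopE n S 1 j * PopE n S 1 (j + 1) :
      Module.End ℝ (Fn (Fin (2 * n + 2)) Bool)) = PopE n S 1 (j + 1) := by
  refine LinearMap.ext (fun f => funext (fun s => ?_))
  simp only [Module.End.mul_apply]
  rw [U9_app n S (j + 1), U9_app n S (j + 1) f s]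
  by_cases hc : s (st n (j + 1 + 1)) = !(s (st n (j + 1)))
  swap
  · rw [if_neg hc, if_neg hc]
  rw [if_pos hc, if_pos hc]
  congr 1
  set h := hgt n s j with hh
  set h' := hgt n s (j + 1) with hh'
  set Z := ∑ z : Bool, wt S h' z * f (chg n (j + 1) s z) with hZ
  have hw : wt S h (s (st n j)) * wt S h' (!(s (st n j))) = 1 := by
    have := wt_mul_back hS h (s (st n j))
    rwa [hh, U9_h n s j, ← hh, ← hh'] at this
  -- values of a changed configuration
  have va : ∀ x, chg n (j + 1) s x (st n j) = s (st n j) := fun x =>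
    (chg_at n (j + 1) hj s x).2.2 j (by omega) (by omega) (by omega)
  have vb : ∀ x, chg n (j + 1) s x (st n (j + 1)) = x := fun x => (chg_at n (j + 1) hj s x).1
  have vc : ∀ x, chg n (j + 1) s x (st n (j + 1 + 1)) = !x := fun x =>
    (chg_at n (j + 1) hj s x).2.1
  have vh : ∀ x l, l ≤ j + 1 → hgt n (chg n (j + 1) s x) l = hgt n s l := fun x l hl =>
    hgt_chg_le n (j + 1) hj s x l hl
  have key : ∀ x : Bool, PopE n S 1 j (PopE n S 1 (j + 1) f) (chg n (j + 1) s x) =
      if x = !(s (st n j)) then
        wt S h (s (st n j)) * (wt S h (s (st n j)) * (wt S h' (!(s (st n j))) * Z)) else 0 := by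
    intro x
    rw [U9_app n S j, va x, vb x, vh x j (by omega), ← hh]
    by_cases hx : x = !(s (st n j))
    swap
    · rw [if_neg hx, if_neg hx]
    rw [if_pos hx, if_pos hx]
    congr 1
    have h2 : ∀ y : Bool, wt S h y * PopE n S 1 (j + 1) f (chg n j (chg n (j + 1) s x) y) =
        if y = s (st n j) then wt S h y * (wt S h' (!(s (st n j))) * Z) else 0 := by
      intro y
      by_cases hy : y = s (st n j)
      · rw [if_pos hy]
        have e1 : chg n j (chg n (j + 1) s x) y = chg n (j + 1) s x := by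
          have := chg_self n j (by omega) (chg n (j + 1) s x) (by rw [vb, va, hx])
          rw [va] at this
          rw [hy]
          exact this
        rw [e1, U9_app n S (j + 1), vb, vc, if_pos rfl, vh x (j + 1) le_rfl, ← hh', ← hx]
        have e2 : ∑ z : Bool, wt S h' z * f (chg n (j + 1) (chg n (j + 1) s x) z) = Z := by
          rw [hZ]
          refine Finset.sum_congr rfl fun z _ => ?_
          rw [chg_chg n (j + 1) hj]
        rw [e2]
      · rw [if_neg hy, U9_app n S (j + 1), if_neg, mul_zero]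
        have a1 := (chg_at n j (by omega) (chg n (j + 1) s x) y).2.1
        have a2 := (chg_at n j (by omega) (chg n (j + 1) s x) y).2.2 (j + 1 + 1) (by omega)
          (by omega) (by omega)
        rw [a1, a2, vc, hx]
        intro h3
        apply hy
        simpa using h3.symm
    rw [Finset.sum_congr rfl (fun y _ => h2 y), Finset.sum_ite_eq' Finset.univ (s (st n j))]
    simp
  rw [Finset.sum_congr rfl (fun x _ => by rw [key x])]
  simp only [mul_ite, mul_zero, Finset.sum_ite_eq', Finset.mem_univ, if_true]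
  calc wt S h' (!(s (st n j))) * (wt S h (s (st n j)) * (wt S h (s (st n j)) *
        (wt S h' (!(s (st n j))) * Z)))
      = (wt S h (s (st n j)) * wt S h' (!(s (st n j)))) *
        (wt S h (s (st n j)) * wt S h' (!(s (st n j)))) * Z := by ring
    _ = Z := by rw [hw, one_mul, one_mul]

end Pool.Agent.H110R3.BP2
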