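import Pool.Agent.H110R3.BP2.Defs
set_option autoImplicit false
namespace Pool.Agent.H110R3.BP2
open Polynomial Pool.Agent.H207R2.BL Pool.Agent.H110R3.BP

-- N1
theorem nf1 (M m : ℕ) (hm : m < M) (w : List ℕ) (hw : ∀ j ∈ w, 1 ≤ j ∧ j ≤ m) : NF1 M m w := by
  sorry

-- N2
theorem state_eval1 (n m : ℕ) (hm : m ≤ 2 * n + 1) (w : List ℕ) (hw : ∀ j ∈ w, 1 ≤ j ∧ j < m) :
    ∃ N : ℤ, ∀ (q : ℝ), q ≠ 0 → ∀ (A : Type) [Ring A] [Algebra ℝ A] (S : TL (2 * n + 1) q A)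
      (F : State1 S), F.φ (S.W w) = q ^ N * F.φ 1 := by
  sorry

-- N3
theorem expd_mem1 (n : ℕ) (w : List Let) (hw : ∀ l ∈ w, InR1 n l) :
    ∀ a ∈ expd w, ∀ j ∈ a.2, 1 ≤ j ∧ j < 2 * n + 1 := by
  sorry

-- N4
theorem state_T1 (n : ℕ) (w : List Let) (hw : ∀ l ∈ w, InR1 n l) :
    ∃ R : List (ℝ × ℤ), ∀ (q : ℝ), q ≠ 0 → ∀ (A : Type) [Ring A] [Algebra ℝ A]
      (S : TL (2 * n + 1) q A) (F : State1 S),
      F.φ (T S w) = ((R.map (fun a => a.1 * q ^ a.2)).sum) * F.φ 1 := by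
  sorry

-- H1: heights
theorem hgt_zero (n : ℕ) (s : Fin (2 * n + 2) → Bool) : hgt n s 0 = 1 := by
  simp [hgt]

-- H2
theorem hgt_succ (n : ℕ) (s : Fin (2 * n + 2) → Bool) (j : ℕ) :
    hgt n s (j + 1) = hgt n s j + (if s (st n j) then 1 else -1) := by
  unfold hgt
  rw [Finset.sum_range_succ]
  ring

-- H3: parity
theorem hgt_parity (n : ℕ) (s : Fin (2 * n + 2) → Bool) (j : ℕ) :
    (hgt n s j) % 2 = (1 + (j : ℤ)) % 2 := by
  sorry

-- H4: the change at the sites j, j+1 (which must be opposite) only affects the height j+1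
theorem hgt_chg_le (n j : ℕ) (hj : j ≤ 2 * n) (s : Fin (2 * n + 2) → Bool) (x : Bool) (l : ℕ)
    (hl : l ≤ j) : hgt n (chg n j s x) l = hgt n s l := by
  sorry

-- H5
theorem hgt_chg_mid (n j : ℕ) (hj : j ≤ 2 * n) (s : Fin (2 * n + 2) → Bool) (x : Bool) :
    hgt n (chg n j s x) (j + 1) = hgt n s j + (if x then 1 else -1) := by
  sorry

-- H6
theorem hgt_chg_ge (n j : ℕ) (hj : j ≤ 2 * n) (s : Fin (2 * n + 2) → Bool) (x : Bool) (l : ℕ)
    (hs : s (st n (j + 1)) = !(s (st n j))) (hl : j + 2 ≤ l) (hl2 : l ≤ 2 * n + 2) :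
    hgt n (chg n j s x) l = hgt n s l := by
  sorry

-- H7
theorem chg_self (n j : ℕ) (hj : j ≤ 2 * n) (s : Fin (2 * n + 2) → Bool)
    (hs : s (st n (j + 1)) = !(s (st n j))) : chg n j s (s (st n j)) = s := by
  sorry

-- H8
theorem chg_chg (n j : ℕ) (hj : j ≤ 2 * n) (s : Fin (2 * n + 2) → Bool) (x y : Bool) :
    chg n j (chg n j s x) y = chg n j s y := by
  sorry

-- H9
theorem chg_at (n j : ℕ) (hj : j ≤ 2 * n) (s : Fin (2 * n + 2) → Bool) (x : Bool) :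
    chg n j s x (st n j) = x ∧ chg n j s x (st n (j + 1)) = !x ∧
      ∀ l, l ≤ 2 * n + 1 → l ≠ j → l ≠ j + 1 → chg n j s x (st n l) = s (st n l) := by
  sorry

-- H10
theorem Eig.natAbs {δ : ℝ} {S : ℤ → ℝ} (hS : Eig δ S) (h : ℤ) : S h = S (h.natAbs : ℤ) := by
  sorry

-- H11
theorem wt_sq_sum {δ : ℝ} {S : ℤ → ℝ} (hS : Eig δ S) (h : ℤ) :
    wt S h true ^ 2 + wt S h false ^ 2 = δ := by
  sorry

-- H12
theorem wt_mul_back {δ : ℝ} {S : ℤ → ℝ} (hS : Eig δ S) (h : ℤ) (x : Bool) :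
    wt S h x * wt S (if x then h + 1 else h - 1) (!x) = 1 := by
  sorry

-- H13: existence of the eigenvector
theorem exists_eig (q : ℝ) (hq : 4 ≤ q) : ∃ (δ : ℝ) (S : ℤ → ℝ), 0 < δ ∧ q = δ ^ 2 ∧ Eig δ S := by
  sorry

-- P1
theorem Pop_sq (n : ℕ) {δ : ℝ} {S : ℤ → ℝ} (hS : Eig δ S) (j : ℕ) (hj : j ≤ 2 * n) :
    (PopE n S 1 j * PopE n S 1 j : Module.End ℝ (Fn (Fin (2 * n + 2)) Bool)) =
      δ • PopE n S 1 j := by
  sorry

-- P2
theorem Pop_zig1 (n : ℕ) {δ : ℝ} {S : ℤ → ℝ} (hS : Eig δ S) (j : ℕ) (hj : j + 1 ≤ 2 * n) :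
    (PopE n S 1 j * PopE n S 1 (j + 1) * PopE n S 1 j :
      Module.End ℝ (Fn (Fin (2 * n + 2)) Bool)) = PopE n S 1 j := by
  sorry

-- P3
theorem Pop_zig2 (n : ℕ) {δ : ℝ} {S : ℤ → ℝ} (hS : Eig δ S) (j : ℕ) (hj : j + 1 ≤ 2 * n) :
    (PopE n S 1 (j + 1) * PopE n S 1 j * PopE n S 1 (j + 1) :
      Module.End ℝ (Fn (Fin (2 * n + 2)) Bool)) = PopE n S 1 (j + 1) := by
  sorry

-- P4
theorem Pop_comm (n : ℕ) (S : ℤ → ℝ) (i j : ℕ) (hij : i + 2 ≤ j) (hj : j ≤ 2 * n) :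
    (PopE n S 1 i * PopE n S 1 j : Module.End ℝ (Fn (Fin (2 * n + 2)) Bool)) =
      PopE n S 1 j * PopE n S 1 i := by
  sorry

-- P5
theorem Pop_symm (n : ℕ) (S : ℤ → ℝ) (j : ℕ) (hj : j ≤ 2 * n) (f g : Fn (Fin (2 * n + 2)) Bool) :
    ip f (PopE n S 1 j g) = ip (PopE n S 1 j f) g := by
  sorry

/-- The height representation. -/
noncomputable def pathTL (n : ℕ) {δ : ℝ} {S : ℤ → ℝ} (hS : Eig δ S) (hδ : 0 < δ) (q : ℝ)
    (hq : q = δ ^ 2) : TL (2 * n + 1) q (Module.End ℝ (Fn (Fin (2 * n + 2)) Bool)) where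
  e j := (if Even j then δ else δ⁻¹) • PopE n S 1 j
  sq j hj := by
    rw [smul_mul_smul_comm, Pop_sq n hS j (by omega)]
    by_cases h : Even j
    · simp only [h, if_true, hq, smul_smul]
      congr 1
      ring
    · simp only [h, if_false, smul_smul]
      congr 1
      field_simp
  r1 j hj := by
    rw [smul_mul_smul_comm, smul_mul_smul_comm, Pop_zig1 n hS j (by omega)]
    congr 1
    by_cases h : Even j
    · have h' : ¬ Even (j + 1) := by simpa [Nat.even_add_one] using h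
      simp only [h, h', if_true, if_false]
      field_simp
    · have h' : Even (j + 1) := by simpa [Nat.even_add_one] using h
      simp only [h, h', if_true, if_false]
      field_simp
  r2 j hj := by
    rw [smul_mul_smul_comm, smul_mul_smul_comm, Pop_zig2 n hS j (by omega)]
    congr 1
    by_cases h : Even j
    · have h' : ¬ Even (j + 1) := by simpa [Nat.even_add_one] using h
      simp only [h, h', if_true, if_false]
      field_simp
    · have h' : Even (j + 1) := by simpa [Nat.even_add_one] using h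
      simp only [h, h', if_true, if_false]
      field_simp
  comm i j hij hj := by
    rw [smul_mul_smul_comm, smul_mul_smul_comm, Pop_comm n S i j hij (by omega)]
    congr 1
    exact mul_comm _ _

-- C1: changing the class of a column which is detached
theorem gauge_C (n : ℕ) (S : ℤ → ℝ) (κ : ℕ → Bool) (i : ℕ) (hi : 1 ≤ i) (hin : i ≤ n) (b : Bool)
    (g : Fn (Fin (2 * n + 2)) Bool) :
    GU n (Function.update κ i b) (PopE n S 1 (2 * i) g) = PopE n S 1 (2 * i) (GU n κ g) := by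
  sorry

-- C2
theorem gauge_same (n : ℕ) (S : ℤ → ℝ) (κ : ℕ → Bool) (i : ℕ) (hi : i < n)
    (hκ : κ i = κ (i + 1)) (g : Fn (Fin (2 * n + 2)) Bool) :
    GU n κ (PopE n S 1 (2 * i + 1) g) = PopE n S 1 (2 * i + 1) (GU n κ g) := by
  sorry

-- C3
theorem gauge_diff (n : ℕ) (S : ℤ → ℝ) (κ : ℕ → Bool) (i : ℕ) (hi : i < n)
    (hκ : κ i ≠ κ (i + 1)) (g : Fn (Fin (2 * n + 2)) Bool) :
    GU n κ (PopE n S 1 (2 * i + 1) g) = PopE n S (-1) (2 * i + 1) (GU n κ g) := by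
  sorry

-- R1: detaching preserves the cone: formula on the generating functions
theorem gen_C (n : ℕ) {δ : ℝ} {S : ℤ → ℝ} (hS : Eig δ S) (i : ℕ) (hi : 1 ≤ i) (hin : i ≤ n)
    (η β : ℕ → ℕ) : Cone n (PopE n S 1 (2 * i) (gen n η β)) := by
  sorry

-- R1s
theorem gE_C (n : ℕ) {δ : ℝ} {S : ℤ → ℝ} (hS : Eig δ S) (i : ℕ) (hi : 1 ≤ i) (hin : i ≤ n) :
    Cone1 n (PopE n S 1 (2 * i) (gE n)) := by
  sorry

-- R2
theorem gen_J (n : ℕ) {δ : ℝ} {S : ℤ → ℝ} (hS : Eig δ S) (hδ : 0 < δ) (i : ℕ) (hin : i < n)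
    (η β : ℕ → ℕ) : Cone n (PopE n S 1 (2 * i + 1) (gen n η β)) := by
  sorry

-- R2s
theorem gE_J (n : ℕ) {δ : ℝ} {S : ℤ → ℝ} (hS : Eig δ S) (hδ : 0 < δ) (i : ℕ) (hi : 1 ≤ i)
    (hin : i < n) : Cone1 n (PopE n S 1 (2 * i + 1) (gE n)) := by
  sorry

-- R3
theorem gen_X (n : ℕ) {δ : ℝ} {S : ℤ → ℝ} (hS : Eig δ S) (hδ : 0 < δ) (i : ℕ) (hin : i < n)
    (η β : ℕ → ℕ) :
    Cone n (gen n η β - δ⁻¹ • PopE n S (-1) (2 * i + 1) (gen n η β)) := by
  sorry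

-- R3s
theorem gE_X (n : ℕ) {δ : ℝ} {S : ℤ → ℝ} (hS : Eig δ S) (hδ : 0 < δ) (i : ℕ) (hin : i < n) :
    Cone1 n (gE n - δ⁻¹ • PopE n S (-1) (2 * i + 1) (gE n)) := by
  sorry

-- R4
theorem gen_X0 (n : ℕ) {δ : ℝ} {S : ℤ → ℝ} (hS : Eig δ S) (hδ : 0 < δ) (hn : 0 < n)
    (η β : ℕ → ℕ) : Cone n (gen n η β - δ⁻¹ • PopE n S 1 1 (gen n η β)) := by
  sorry

-- R4s
theorem gE_X0 (n : ℕ) {δ : ℝ} {S : ℤ → ℝ} (hS : Eig δ S) (hδ : 0 < δ) (hn : 0 < n) :
    Cone1 n (gE n - δ⁻¹ • PopE n S 1 1 (gE n)) := by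
  sorry

-- L1: linear operators and the cone
theorem cone_map (n : ℕ) (Op : Module.End ℝ (Fn (Fin (2 * n + 2)) Bool))
    (h : ∀ η β, Cone n (Op (gen n η β))) (f : Fn (Fin (2 * n + 2)) Bool) (hf : Cone n f) :
    Cone n (Op f) := by
  sorry

-- L2
theorem cone1_map (n : ℕ) (Op : Module.End ℝ (Fn (Fin (2 * n + 2)) Bool))
    (h : ∀ η β, Cone n (Op (gen n η β))) (h1 : Cone1 n (Op (gE n)))
    (f : Fn (Fin (2 * n + 2)) Bool) (hf : Cone1 n f) : Cone1 n (Op f) := by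
  sorry

-- L3: values at the special paths
theorem cone_sp (n : ℕ) (f : Fn (Fin (2 * n + 2)) Bool) (hf : Cone n f) :
    0 ≤ f (sp n true) + f (sp n false) ∧ 0 ≤ f (sp n true) - f (sp n false) := by
  sorry

-- L4
theorem gE_eq (n : ℕ) (s : Fin (2 * n + 2) → Bool) :
    gE n s = if s = sp n true ∨ s = sp n false then 1 else 0 := by
  sorry

-- L5
theorem gO_eq (n : ℕ) (s : Fin (2 * n + 2) → Bool) :
    gO n s = if s = sp n true then 1 else if s = sp n false then -1 else 0 := by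
  sorry

-- L6
theorem GU_gE (n : ℕ) (κ : ℕ → Bool) (h0 : κ 0 = false) :
    GU n κ (gE n) = gE n ∧ GU n κ (gO n) = gO n := by
  sorry

-- L7
theorem U_sp (n : ℕ) (κ : ℕ → Bool) (h0 : κ 0 = false) (b : Bool) : U n κ (sp n b) = 1 := by
  sorry

-- M1: words preserve the cone (gauged)
theorem word_cone (n : ℕ) {δ : ℝ} {S : ℤ → ℝ} (hS : Eig δ S) (hδ : 0 < δ) (q : ℝ)
    (hq : q = δ ^ 2) (wd : List Let) (κ : ℕ → Bool) (hok : OK1 wd κ)
    (hr : ∀ l ∈ wd, InR1 n l) :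
    Cone1 n (GU n κ (T (pathTL n hS hδ q hq) wd (gE n))) ∧
      Cone n (GU n κ (T (pathTL n hS hδ q hq) wd (gO n))) := by
  sorry

/-- detach all columns except column `0` -/
def allC (n : ℕ) : List Let := (List.range n).map (fun i => Let.C (i + 1))

-- M2: words of detachments (of columns other than `0`)
theorem allC_ok (n : ℕ) (v w : List Let) (hv : ∀ l ∈ v, ∃ i, 1 ≤ i ∧ i ≤ n ∧ l = Let.C i)
    (κ : ℕ → Bool) (h : OK1 w κ) :
    (∃ κ' : ℕ → Bool, OK1 (v ++ w) κ') ∧ (∀ l ∈ v, InR1 n l) := by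
  sorry

-- M2'
theorem allC_mem (n : ℕ) : ∀ l ∈ allC n, ∃ i, 1 ≤ i ∧ i ≤ n ∧ l = Let.C i := by
  sorry

-- M2''
theorem adj_word (n : ℕ) {δ : ℝ} {S : ℤ → ℝ} (hS : Eig δ S) (hδ : 0 < δ) (q : ℝ)
    (hq : q = δ ^ 2) (v : List Let) (hv : ∀ l ∈ v, InR1 n l) (f g : Fn (Fin (2 * n + 2)) Bool) :
    ip (T (pathTL n hS hδ q hq) v f) g = ip f (T (pathTL n hS hδ q hq) v.reverse g) := by
  sorry

-- M3: detaching all columns gives an eigenvector of all detachments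
theorem allC_eig (n : ℕ) (q : ℝ) (A : Type) [Ring A] [Algebra ℝ A] (S : TL (2 * n + 1) q A)
    (j : ℕ) (h1 : 1 ≤ j) (hj : j < 2 * n + 1) (he : Even j) :
    S.e j * T S (allC n) = q • T S (allC n) ∧ T S (allC n) * S.e j = q • T S (allC n) := by
  sorry

-- M4: positivity of the common value
theorem value_pos (n : ℕ) (q : ℝ) (hq : 4 ≤ q) (wd : List Let) (κ : ℕ → Bool)
    (hok : OK1 wd κ) (hr : ∀ l ∈ wd, InR1 n l) (R : ℝ)
    (hR : ∀ (A : Type) [Ring A] [Algebra ℝ A] (S : TL (2 * n + 1) q A) (F : State1 S),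
      F.φ (T S wd) = R * F.φ 1) : 0 < R := by
  sorry

-- M5
theorem good1_pos {V : Type} [Fintype V] (u : V) (col : V → Bool) (G : SimpleGraph V)
    (h : Good1 u col [] G.edgeSet) (p : ℝ[X]) (hp : IsChrom G p) (q : ℝ) (hq : 4 ≤ q) :
    0 < p.eval q := by
  sorry

-- W1
theorem ok_ins1 (w : List Let) (κ : ℕ → Bool) (h : OK1 w κ) (p d : ℕ) (hp : 1 ≤ p) (b : Bool) :
    ∃ κ' : ℕ → Bool, OK1 (insW p d ++ w) κ' ∧ κ' p = b ∧ (∀ i, i < p → κ' i = κ i) ∧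
      (∀ i, p ≤ i → i < p + d → κ' (i + 1) = κ i) := by
  sorry

-- W2
theorem ok_del1 (w : List Let) (κ : ℕ → Bool) (h : OK1 w κ) (p d : ℕ) (hp : 1 ≤ p) :
    ∃ κ' : ℕ → Bool, OK1 (delW p d ++ w) κ' ∧ (∀ i, i < p → κ' i = κ i) ∧
      (∀ i, p ≤ i → i < p + d → κ' i = κ (i + 1)) := by
  sorry

-- W3
theorem inr_ins1 (n p d : ℕ) (hp : 1 ≤ p) (h : p + d ≤ n) : ∀ l ∈ insW p d, InR1 n l := by
  sorry

-- W4
theorem inr_del1 (n p d : ℕ) (hp : 1 ≤ p) (h : p + d ≤ n) : ∀ l ∈ delW p d, InR1 n l := by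
  sorry

-- W5
theorem good1_nil {V : Type} [Fintype V] (u : V) (col : V → Bool) :
    Good1 u col ([] : List V) ∅ := by
  sorry

-- W6
theorem good1_new {V : Type} [Fintype V] (u : V) (col : V → Bool) (L1 L2 : List V)
    (E : Set (Sym2 V)) (v : V) (huv : v ≠ u) (hv1 : v ∉ L1) (hv2 : v ∉ L2)
    (hE : ∀ a, s(a, v) ∉ E) (h : Good1 u col (L1 ++ L2) E) : Good1 u col (L1 ++ v :: L2) E := by
  sorry

-- W7
theorem good1_dup {V : Type} [Fintype V] (u : V) (col : V → Bool) (L1 L2 : List V)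
    (E : Set (Sym2 V)) (v : V) (h : Good1 u col (L1 ++ v :: L2) E) :
    Good1 u col (L1 ++ v :: v :: L2) E := by
  sorry

-- W8
theorem good1_edge {V : Type} [Fintype V] (u : V) (col : V → Bool) (L1 L2 : List V)
    (E : Set (Sym2 V)) (a v : V) (hav : col a ≠ col v) (h : Good1 u col (L1 ++ a :: v :: L2) E) :
    Good1 u col (L1 ++ a :: v :: L2) (insert s(a, v) E) := by
  sorry

-- W9
theorem good1_base {V : Type} [Fintype V] (u : V) (col : V → Bool) (L : List V)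
    (E : Set (Sym2 V)) (v : V) (h : Good1 u col (v :: L) E) :
    Good1 u col (v :: L) (insert s(u, v) E) := by
  sorry

-- W10
theorem good1_drop {V : Type} [Fintype V] (u : V) (col : V → Bool) (L1 L2 : List V)
    (E : Set (Sym2 V)) (v : V) (h : Good1 u col (L1 ++ v :: L2) E) : Good1 u col (L1 ++ L2) E := by
  sorry

-- W11
theorem procU_inv {V : Type} {u : V} {L : List V} {U : Set V} {E : Set (Sym2 V)}
    (h : ProcU u L U E) : u ∈ U ∧ (∀ v ∈ L, v ∈ U ∧ v ≠ u) ∧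
      (∀ a b, s(a, b) ∈ E → a ∈ U ∧ b ∈ U ∧ a ≠ b) := by
  sorry

-- W12
theorem good1_of_procU {V : Type} [Fintype V] (u : V) (col : V → Bool) {L : List V} {U : Set V}
    {E : Set (Sym2 V)} (h : ProcU u L U E) (hb : BipU u col E) : Good1 u col L E := by
  sorry

-- G1: as event_list, with the position of P
theorem event_list1 {V : Type} [Finite V] {G : SimpleGraph V} {x y : V → ℝ} {g : V → V → ℝ → ℝ}
    (h : Mono G x y g) (v : V) (t0 t : ℝ) (hv0 : t0 < x v) (hvt : x v < t)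
    (hno : ∀ z, z ≠ v → x z < t0 ∨ t < x z) (l : List (V × V)) (hl : IsList G x g t l) :
    ∃ P O Q I : List (V × V), l = P ++ O ++ Q ∧ (∀ e ∈ O, e.1 = v) ∧
      (∀ e, e ∈ I ↔ (G.Adj e.1 v ∧ e.2 = v ∧ x e.1 < x v)) ∧ IsList G x g t0 (P ++ I ++ Q) ∧
      (∀ e ∈ P, G.Adj e.1 e.2 ∧ x e.1 < x v ∧ x v < x e.2 ∧ g e.1 e.2 (x v) < y v) := by
  sorry

-- G2
theorem procU_event {V : Type} (u : V) (P Q I : List V) (v : V) (b : ℕ) (U : Set V)
    (E : Set (Sym2 V)) (h : ProcU u (P ++ I ++ Q) U E) (hv : v ∉ U) (hI : ∀ w ∈ I, w ≠ v) :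
    ProcU u (P ++ List.replicate b v ++ Q) (insert v U) (E ∪ {e | ∃ w ∈ I, e = s(w, v)}) := by
  sorry

-- G3
theorem procU_event_base {V : Type} (u : V) (Q I : List V) (v : V) (b : ℕ) (U : Set V)
    (E : Set (Sym2 V)) (h : ProcU u (I ++ Q) U E) (hv : v ∉ U) (huv : u ≠ v)
    (hI : ∀ w ∈ I, w ≠ v) :
    ProcU u (List.replicate b v ++ Q) (insert v U)
      (insert s(u, v) (E ∪ {e | ∃ w ∈ I, e = s(w, v)})) := by
  sorry

-- G4
theorem mono_procU {V : Type} [Finite V] (G : SimpleGraph V) (u : V)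
    (x y : {v : V // v ≠ u} → ℝ) (g : {v : V // v ≠ u} → {v : V // v ≠ u} → ℝ → ℝ)
    (h : Mono (G.comap (fun v : {v : V // v ≠ u} => v.1)) x y g)
    (hvis : ∀ v : {v : V // v ≠ u}, G.Adj u v.1 → ∀ a c : {v : V // v ≠ u}, G.Adj a.1 c.1 →
      x a < x v → x v < x c → y v < g a c (x v))
    (t : ℝ) (ht : ∀ v, x v ≠ t) (l : List ({v : V // v ≠ u} × {v : V // v ≠ u}))
    (hl : IsList (G.comap (fun v : {v : V // v ≠ u} => v.1)) x g t l) :
    ProcU u (l.map (fun e => e.1.1)) ({u} ∪ {v | ∃ hv : v ≠ u, x ⟨v, hv⟩ < t})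
      ({e | ∃ a c : {v : V // v ≠ u}, e = s(a.1, c.1) ∧ G.Adj a.1 c.1 ∧ x a < t ∧ x c < t} ∪
        {e | ∃ a : {v : V // v ≠ u}, e = s(u, a.1) ∧ G.Adj u a.1 ∧ x a < t}) := by
  sorry

/-- slope coordinate seen from `f u` -/
noncomputable def xs {V : Type} (f : V → ℝ × ℝ) (u : V) (v : {v : V // v ≠ u}) : ℝ :=
  ((f v.1).1 - (f u).1) / ((f v.1).2 - (f u).2)

/-- second projective coordinate -/
noncomputable def ys {V : Type} (f : V → ℝ × ℝ) (u : V) (v : {v : V // v ≠ u}) : ℝ :=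
  -1 / ((f v.1).2 - (f u).2)

/-- edges in projective coordinates -/
noncomputable def gs {V : Type} (f : V → ℝ × ℝ) (u : V) (a c : {v : V // v ≠ u}) (t : ℝ) : ℝ :=
  ys f u a + (t - xs f u a) / (xs f u c - xs f u a) * (ys f u c - ys f u a)

-- G5
theorem proj_point {V : Type} (f : V → ℝ × ℝ) (u : V) (hu : ∀ v, v ≠ u → (f u).2 < (f v).2)
    (a c : {v : V // v ≠ u}) (t : ℝ) (h1 : xs f u a < t) (h2 : t < xs f u c) :
    ∃ z ∈ openSegment ℝ (f a.1) (f c.1), (f u).2 < z.2 ∧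
      (z.1 - (f u).1) / (z.2 - (f u).2) = t ∧ -1 / (z.2 - (f u).2) = gs f u a c t := by
  sorry

-- G6
theorem proj_inj (u z z' : ℝ × ℝ) (h : u.2 < z.2) (h' : u.2 < z'.2)
    (h1 : (z.1 - u.1) / (z.2 - u.2) = (z'.1 - u.1) / (z'.2 - u.2))
    (h2 : -1 / (z.2 - u.2) = -1 / (z'.2 - u.2)) : z = z' := by
  sorry

-- G7
theorem mono_of_lowest {V : Type} {G : SimpleGraph V} (f : V → ℝ × ℝ) (h : IsStraight G f)
    (u : V) (hu : ∀ v, v ≠ u → (f u).2 < (f v).2) (hx : Function.Injective (xs f u)) :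
    Mono (G.comap (fun v : {v : V // v ≠ u} => v.1)) (xs f u) (ys f u) (gs f u) := by
  sorry

-- G8
theorem vis_of_lowest {V : Type} {G : SimpleGraph V} (f : V → ℝ × ℝ) (h : IsStraight G f)
    (u : V) (hu : ∀ v, v ≠ u → (f u).2 < (f v).2) (v a c : {v : V // v ≠ u})
    (hv : G.Adj u v.1) (hac : G.Adj a.1 c.1) (h1 : xs f u a < xs f u v)
    (h2 : xs f u v < xs f u c) : ys f u v < gs f u a c (xs f u v) := by
  sorry

-- G9
theorem straight_procU {V : Type} [Finite V] {G : SimpleGraph V} (f : V → ℝ × ℝ)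
    (h : IsStraight G f) (u : V) (hu : ∀ v, v ≠ u → (f u).2 < (f v).2)
    (hx : Function.Injective (xs f u)) : ProcU u [] Set.univ G.edgeSet := by
  sorry

-- G10: straight line drawings are stable under small perturbations
theorem straight_open {V : Type} [Finite V] {G : SimpleGraph V} (f p : V → ℝ × ℝ)
    (h : IsStraight G f) : ∃ t0 : ℝ, 0 < t0 ∧ ∀ t, 0 < t → t < t0 →
      IsStraight G (fun v => f v + t • p v) := by
  sorry

-- G11
theorem perturb {V : Type} [Finite V] {G : SimpleGraph V} (f : V → ℝ × ℝ)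
    (h : IsStraight G f) (u : V) (hu : ∀ v, v ≠ u → (f u).2 < (f v).2) :
    ∃ f' : V → ℝ × ℝ, IsStraight G f' ∧ (∀ v, v ≠ u → (f' u).2 < (f' v).2) ∧
      Function.Injective (xs f' u) := by
  sorry

/-- MAIN -/
theorem main_apex {V : Type} [Fintype V] (G : SimpleGraph V) (u : V)
    (hG : (G.induce {v | v ≠ u}).Colorable 2) (f : V → ℝ × ℝ) (hf : IsStraight G f)
    (hu : ∀ v, v ≠ u → (f u).2 < (f v).2) (p : ℝ[X]) (hp : IsChrom G p) (q : ℝ) (hq : 4 ≤ q) :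
    0 < p.eval q := by
  sorry

end Pool.Agent.H110R3.BP2
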